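import Pool.Agent.Lib.MP_7cdc3e_gt.Spec

/-!
# MP_7cdc3e_gt: T1, positive homology of a contractible space vanishes
-/

open HoloConj Pool.Agent.Lib.SingHom CategoryTheory AlgebraicTopology

namespace TightRP

theorem contr_point (F : Type) [Field F] (n : ℕ) : Subsingleton (Hq F (n + 1) Unit) := by
  have h := isZero_singularHomologyFunctor_of_totallyDisconnectedSpace (ModuleCat.{0} F) (n + 1)
    (ModuleCat.of F F) (TopCat.of Unit) (by omega)
  exact ModuleCat.subsingleton_of_isZero h

theorem tContr : ContrStmt := by
  intro F _ X _ _ n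
  have hs := contr_point F n
  obtain ⟨x⟩ : Nonempty X := inferInstance
  obtain ⟨p, hp⟩ := id_nullhomotopic X
  have h1 : (ContinuousMap.const X p) =
      (ContinuousMap.const Unit p).comp (ContinuousMap.const X ()) := rfl
  constructor
  intro a b
  have key : ∀ c : Hq F (n + 1) X, c = 0 := by
    intro c
    have h2 : Hmap F (n + 1) (ContinuousMap.id X) c = Hmap F (n + 1) (ContinuousMap.const X p) c := by
      rw [Hmap_eq_of_homotopic F (n + 1) hp]
    rw [Hmap_id, h1, Hmap_comp_apply] at h2
    have h3 : Hmap F (n + 1) (ContinuousMap.const X ()) c = 0 := Subsingleton.elim _ _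
    rw [h3, map_zero] at h2
    exact h2
  rw [key a, key b]

end TightRP
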