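import Pool.Agent.Lib.MP_7cdc3e_gt.Spec

/-!
# MP_7cdc3e_gt: T3, lower bound for the rank of `H_0`
-/

open HoloConj Pool.Agent.Lib.SingHom CategoryTheory AlgebraicTopology Limits

namespace TightRP

theorem h0Low_fin (F : Type) [Field F] (k : ℕ) : Module.rank F (Hq F 0 (Fin k)) = k := by
  have e1 := singularHomologyFunctorZeroOfTotallyDisconnectedSpace (ModuleCat.{0} F)
    (ModuleCat.of F F) (TopCat.of (Fin k))
  have e2 : (∐ fun _ : (TopCat.of (Fin k)) ↦ ModuleCat.of F F) ≅
      ModuleCat.of F (DirectSum (Fin k) (fun _ => ModuleCat.of F F)) :=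
    ModuleCat.coprodIsoDirectSum (fun _ : Fin k => ModuleCat.of F F)
  have e3 := (e1 ≪≫ e2).toLinearEquiv
  rw [e3.rank_eq]
  have : Module.rank F (DirectSum (Fin k) (fun _ => (ModuleCat.of F F : Type))) = k := by
    rw [rank_directSum]
    simp
  exact this

theorem tH0Low : H0LowStmt := by
  intro F _ X _ k g hg hs
  obtain ⟨s, hs⟩ := hs.hasRightInverse
  let G : C(X, Fin k) := ⟨g, hg⟩
  let S : C(Fin k, X) := ⟨s, continuous_of_discreteTopology⟩
  have hGS : G.comp S = ContinuousMap.id (Fin k) := by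
    ext x
    exact congrArg Fin.val (hs x)
  have hsurj : Function.Surjective (Hmap F 0 G) := by
    intro c
    refine ⟨Hmap F 0 S c, ?_⟩
    rw [← Hmap_comp_apply, hGS, Hmap_id]
    rfl
  rw [← h0Low_fin F k]
  exact LinearMap.rank_le_of_surjective _ hsurj

end TightRP
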