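import Pool.Agent.Lib.MP_7cdc3e_gt.Spec

/-!
# `H_0` of a path connected space
-/

open HoloConj Pool.Agent.Lib.SingHom

namespace TightRP

section

variable {F : Type} [Field F] {X : Type} [TopologicalSpace X]

private instance h0Path_subsingleton : Subsingleton (Sx 0) := by
  constructor
  intro s t
  apply stdSimplex.ext
  funext k
  have hk : k = 0 := by
    apply Fin.ext
    have := k.2
    show (k : ℕ) = 0
    omega
  have h1 : s k = 1 := by
    have h := stdSimplex.sum_eq_one s
    rw [Fin.sum_univ_one] at h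
    rw [hk]
    exact h
  have h2 : t k = 1 := by
    have h := stdSimplex.sum_eq_one t
    rw [Fin.sum_univ_one] at h
    rw [hk]
    exact h
  exact h1.trans h2.symm

private noncomputable def h0PathAug (F : Type) [Field F] (X : Type) [TopologicalSpace X] :
    SC F X 0 →ₗ[F] F :=
  Finsupp.linearCombination F (fun _ => (1 : F))

private theorem h0Path_aug_single (σ : C(Sx 0, X)) :
    h0PathAug F X (Finsupp.single σ 1) = 1 := by
  rw [h0PathAug, Finsupp.linearCombination_single, smul_eq_mul, mul_one]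

private theorem h0Path_aug_sbd (y : SC F X 1) : h0PathAug F X (sbd F 0 y) = 0 := by
  have h : (h0PathAug F X) ∘ₗ (sbd F 0) = 0 := by
    apply slin_ext
    intro σ
    rw [LinearMap.comp_apply, sbd_single, sbdv, Fin.sum_univ_two, map_add, map_smul, map_smul,
      h0Path_aug_single, h0Path_aug_single]
    simp
  exact LinearMap.congr_fun h y

private theorem h0Path_simplex {x y : X} (γ : Path x y) :
    ∃ τ : C(Sx 1, X), sbdv F τ = Finsupp.single (ContinuousMap.const (Sx 0) y) 1 -
      Finsupp.single (ContinuousMap.const (Sx 0) x) 1 := by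
  have hI : ∀ t : Sx 1, t 1 ∈ Set.Icc (0 : ℝ) 1 := fun t =>
    ⟨stdSimplex.zero_le t 1, by
      have h := stdSimplex.sum_eq_one t
      rw [Fin.sum_univ_two] at h
      have h0 := stdSimplex.zero_le t 0
      linarith⟩
  have hcont : Continuous (fun t : Sx 1 => (⟨t 1, hI t⟩ : unitInterval)) := by
    apply Continuous.subtype_mk
    exact (continuous_apply 1).comp continuous_subtype_val
  let τ : C(Sx 1, X) := ⟨fun t => γ ⟨t 1, hI t⟩, γ.continuous.comp hcont⟩
  refine ⟨τ, ?_⟩
  have hf0 : face 0 τ = ContinuousMap.const (Sx 0) y := by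
    ext1 t
    have ht : t = stdSimplex.vertex 0 := Subsingleton.elim _ _
    show τ (smap (Fin.succAbove 0) t) = y
    rw [ht, smap_eq_aff, aff_vertex]
    show γ ⟨(stdSimplex.vertex (Fin.succAbove 0 0) : Sx 1) 1, _⟩ = y
    have e : (⟨(stdSimplex.vertex (Fin.succAbove (0 : Fin 2) (0 : Fin 1)) : Sx 1) 1,
        hI _⟩ : unitInterval) = 1 := by
      apply Subtype.ext
      simp
    rw [e, γ.target]
  have hf1 : face 1 τ = ContinuousMap.const (Sx 0) x := by
    ext1 t
    have ht : t = stdSimplex.vertex 0 := Subsingleton.elim _ _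
    show τ (smap (Fin.succAbove 1) t) = x
    rw [ht, smap_eq_aff, aff_vertex]
    show γ ⟨(stdSimplex.vertex (Fin.succAbove 1 0) : Sx 1) 1, _⟩ = x
    have e : (⟨(stdSimplex.vertex (Fin.succAbove (1 : Fin 2) (0 : Fin 1)) : Sx 1) 1,
        hI _⟩ : unitInterval) = 0 := by
      apply Subtype.ext
      simp
    rw [e, γ.source]
  rw [sbdv, Fin.sum_univ_two, hf0, hf1]
  simp [sub_eq_add_neg]

private theorem h0Path_bdry [PathConnectedSpace X] (z : SC F X 0) (hz : h0PathAug F X z = 0) :
    IsBdry F 0 z := by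
  obtain ⟨x₀⟩ := (PathConnectedSpace.nonempty : Nonempty X)
  have hex : ∀ σ : C(Sx 0, X), ∃ τ : C(Sx 1, X),
      sbdv F τ = Finsupp.single σ 1 - Finsupp.single (ContinuousMap.const (Sx 0) x₀) 1 := by
    intro σ
    have hσ : σ = ContinuousMap.const (Sx 0) (σ (stdSimplex.vertex 0)) := by
      ext1 t
      have ht : t = stdSimplex.vertex 0 := Subsingleton.elim _ _
      rw [ht]
      rfl
    obtain ⟨τ, hτ⟩ := h0Path_simplex (F := F)
      (PathConnectedSpace.somePath x₀ (σ (stdSimplex.vertex 0)))
    refine ⟨τ, ?_⟩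
    rw [hτ, ← hσ]
  choose τ hτ using hex
  let T : SC F X 0 →ₗ[F] SC F X 1 :=
    Finsupp.linearCombination F (fun σ => Finsupp.single (τ σ) 1)
  have hT : (sbd F 0) ∘ₗ T = LinearMap.id - (h0PathAug F X).smulRight
      (Finsupp.single (ContinuousMap.const (Sx 0) x₀) 1) := by
    apply slin_ext
    intro σ
    rw [LinearMap.comp_apply]
    show sbd F 0 (Finsupp.linearCombination F (fun σ => Finsupp.single (τ σ) 1)
      (Finsupp.single σ 1)) = _
    rw [Finsupp.linearCombination_single, one_smul, sbd_single, hτ]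
    show _ = Finsupp.single σ 1 - h0PathAug F X (Finsupp.single σ 1) •
      (Finsupp.single (ContinuousMap.const (Sx 0) x₀) (1 : F))
    rw [h0Path_aug_single, one_smul]
  refine ⟨T z, ?_⟩
  have h1 := LinearMap.congr_fun hT z
  have h2 : sbd F 0 (T z) = z - h0PathAug F X z •
    (Finsupp.single (ContinuousMap.const (Sx 0) x₀) (1 : F)) := h1
  rw [h2, hz, zero_smul, sub_zero]

end

theorem tH0Path : H0PathStmt := by
  intro F _ X _ _
  obtain ⟨x₀⟩ := (PathConnectedSpace.nonempty : Nonempty X)
  let top : SC F X 0 →ₗ[F] Zc F X 0 := LinearMap.codRestrict _ LinearMap.id (fun _ => trivial)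
  let p : SC F X 0 →ₗ[F] Hq F 0 X := (cls F X 0) ∘ₗ top
  have hp : Function.Surjective p := by
    intro ξ
    obtain ⟨z, rfl⟩ := cls_surjective F 0 ξ
    exact ⟨z.1, rfl⟩
  have hq : Function.Surjective (h0PathAug F X) := by
    intro r
    refine ⟨r • Finsupp.single (ContinuousMap.const (Sx 0) x₀) 1, ?_⟩
    rw [map_smul, h0Path_aug_single, smul_eq_mul, mul_one]
  have hk : LinearMap.ker p = LinearMap.ker (h0PathAug F X) := by
    ext z
    rw [LinearMap.mem_ker, LinearMap.mem_ker]
    show cls F X 0 (top z) = 0 ↔ _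
    rw [cls_eq_zero]
    constructor
    · rintro ⟨y, hy⟩
      have hy' : sbd F 0 y = z := hy
      rw [← hy']
      exact h0Path_aug_sbd y
    · intro hz
      exact h0Path_bdry z hz
  obtain ⟨e⟩ := exists_equiv_of_ker_eq p (h0PathAug F X) hp hq hk
  rw [LinearEquiv.rank_eq e, Module.rank_self]

end TightRP
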