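import Pool.Agent.Lib.MP_7cdc3e_gt.Spec

/-!
# MP_7cdc3e_gt: T7, homeomorphisms induce isomorphisms
-/

open HoloConj Pool.Agent.Lib.SingHom

namespace TightRP

theorem tHomeo : HomeoStmt := by
  intro F _ X Y _ _ h n
  have h1 : (h.symm : C(Y, X)).comp (h : C(X, Y)) = ContinuousMap.id X := by
    ext x
    simp
  have h2 : (h : C(X, Y)).comp (h.symm : C(Y, X)) = ContinuousMap.id Y := by
    ext x
    simp
  constructor
  · apply Function.LeftInverse.injective (g := Hmap F n (h.symm : C(Y, X)))
    intro c
    rw [← Hmap_comp_apply, h1, Hmap_id]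
    rfl
  · apply Function.RightInverse.surjective (g := Hmap F n (h.symm : C(Y, X)))
    intro c
    rw [← Hmap_comp_apply, h2, Hmap_id]
    rfl

end TightRP
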