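import Pool.Agent.Lib.MP_7cdc3e_gt.Spec

/-!
# The upper bound for `H_1` by Mayer-Vietoris
-/

open HoloConj Pool.Agent.Lib.SingHom

namespace TightRP

private theorem mVUp_ne_zero (h2 : H0PathStmt) (F : Type) [Field F] (Z : Type)
    [TopologicalSpace Z] (A B : Set Z) (hne : (A ∩ B).Nonempty) :
    mvα F A B 0 ≠ 0 := by
  intro h0
  obtain ⟨p, hp⟩ := hne
  have hr := h2 F PUnit
  have hnt : Nontrivial (Hq F 0 PUnit) := by
    rw [← rank_pos_iff_nontrivial (R := F), hr]
    exact one_pos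
  obtain ⟨ξ, hξ⟩ := exists_ne (0 : Hq F 0 PUnit)
  apply hξ
  let i : C(PUnit, ↥(A ∩ B)) := ContinuousMap.const _ ⟨p, hp⟩
  let r : C(A, PUnit) := ContinuousMap.const _ PUnit.unit
  have hid : r.comp ((jL A B).comp i) = ContinuousMap.id PUnit := by
    ext1 t
    rfl
  have e1 : Hmap F 0 (r.comp ((jL A B).comp i)) ξ = ξ := by
    rw [hid, Hmap_id]
    rfl
  rw [Hmap_comp_apply, Hmap_comp_apply] at e1
  have e2 : mvα F A B 0 (Hmap F 0 i ξ) = 0 := by
    rw [h0]
    rfl
  have e3 : Hmap F 0 (jL A B) (Hmap F 0 i ξ) = 0 := congrArg Prod.fst e2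
  rw [e3, map_zero] at e1
  exact e1.symm

theorem tMVUp (h1 : ContrStmt) (h2 : H0PathStmt) : MVUpStmt := by
  intro F _ Z _ A B hA hB hAB _ _ k hk hne
  obtain ⟨e⟩ := exists_mvConn (K := F) hA hB hAB 0
  have hsub : Subsingleton (Hq F 1 B) := h1 F B 0
  have hB0 : Module.rank F (Hq F 1 B) = 0 := rank_subsingleton' F (Hq F 1 B)
  have hR : Module.rank F (LinearMap.range (mvβ F A B 1)) ≤ Module.rank F (Hq F 1 A) := by
    refine (rank_range_le _).trans ?_
    rw [rank_prod', hB0, add_zero]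
  have hrn := LinearMap.rank_range_add_rank_ker (mvα F A B 0)
  have hpos : 1 ≤ Module.rank F (LinearMap.range (mvα F A B 0)) := by
    rw [Cardinal.one_le_iff_ne_zero]
    intro h0
    rw [Submodule.rank_eq_zero, LinearMap.range_eq_bot] at h0
    exact mVUp_ne_zero h2 F Z A B hne h0
  have hker : Module.rank F (LinearMap.ker (mvα F A B 0)) ≤ (k : Cardinal) := by
    have h3 : Module.rank F (LinearMap.ker (mvα F A B 0)) + 1 ≤ (k : Cardinal) + 1 := by
      calc Module.rank F (LinearMap.ker (mvα F A B 0)) + 1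
          ≤ Module.rank F (LinearMap.ker (mvα F A B 0)) +
            Module.rank F (LinearMap.range (mvα F A B 0)) := by gcongr
        _ = Module.rank F (Hq F 0 ↥(A ∩ B)) := by rw [add_comm]; exact hrn
        _ ≤ ((k + 1 : ℕ) : Cardinal) := hk
        _ = (k : Cardinal) + 1 := by push_cast; rfl
    exact (Cardinal.add_le_add_iff_of_lt_aleph0 Cardinal.one_lt_aleph0).1 h3
  rw [← Submodule.rank_quotient_add_rank (LinearMap.range (mvβ F A B 1)), add_comm]
  refine add_le_add hR ?_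
  rw [← LinearEquiv.rank_eq e]
  exact hker

end TightRP
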