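import Pool.Agent.Lib.MP_7cdc3e_gt.Spec

/-!
# Module RPTop: projective three-space is Hausdorff, locally Euclidean and path connected
-/

open HoloConj Pool.Agent.Lib.SingHom

namespace TightRP

/-- the unit sphere -/
private abbrev rptopS : Type := Metric.sphere (0 : EuclideanSpace ℝ (Fin 4)) 1

private def rptop_mk (x : rptopS) : RP3 := Quotient.mk antipodal x

private theorem rptop_surj : Function.Surjective rptop_mk := fun q => Quotient.exists_rep q

private theorem rptop_cont : Continuous rptop_mk := continuous_quotient_mk'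

/-- the functions `x_i x_j` -/
private noncomputable def rptop_f (i j : Fin 4) : RP3 → ℝ :=
  Quotient.lift (fun x : rptopS => (x : EuclideanSpace ℝ (Fin 4)) i * (x : EuclideanSpace ℝ (Fin 4)) j) (by
    intro x y h
    have h' : (x : EuclideanSpace ℝ (Fin 4)) = y ∨ (x : EuclideanSpace ℝ (Fin 4)) = -y := h
    rcases h' with h' | h'
    · rw [h']
    · rw [h']
      simp)

private theorem rptop_f_mk (i j : Fin 4) (x : rptopS) :
    rptop_f i j (rptop_mk x) = (x : EuclideanSpace ℝ (Fin 4)) i * (x : EuclideanSpace ℝ (Fin 4)) j := rfl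

private theorem rptop_f_cont (i j : Fin 4) : Continuous (rptop_f i j) := by
  apply Continuous.quotient_lift
  fun_prop

private theorem rptop_eq {x y : rptopS} (h : (x : EuclideanSpace ℝ (Fin 4)) = y ∨
    (x : EuclideanSpace ℝ (Fin 4)) = -y) : rptop_mk x = rptop_mk y := Quotient.sound h

/-- a point of the sphere has a nonzero coordinate -/
private theorem rptop_ne (x : rptopS) : ∃ k, (x : EuclideanSpace ℝ (Fin 4)) k ≠ 0 := by
  by_contra hcon
  push Not at hcon
  have h1 : (x : EuclideanSpace ℝ (Fin 4)) = 0 := by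
    ext k
    exact hcon k
  have h2 : ‖(x : EuclideanSpace ℝ (Fin 4))‖ = 1 := by
    have := x.2
    rwa [mem_sphere_zero_iff_norm] at this
  rw [h1, norm_zero] at h2
  norm_num at h2

private theorem rptop_inj {q q' : RP3} (h : ∀ i j, rptop_f i j q = rptop_f i j q') : q = q' := by
  obtain ⟨x, rfl⟩ := rptop_surj q
  obtain ⟨y, rfl⟩ := rptop_surj q'
  obtain ⟨k, hk⟩ := rptop_ne x
  have hkk := h k k
  rw [rptop_f_mk, rptop_f_mk] at hkk
  have h1 : (x : EuclideanSpace ℝ (Fin 4)) k = (y : EuclideanSpace ℝ (Fin 4)) k ∨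
      (x : EuclideanSpace ℝ (Fin 4)) k = -(y : EuclideanSpace ℝ (Fin 4)) k := mul_self_eq_mul_self_iff.1 hkk
  apply rptop_eq
  rcases h1 with h1 | h1
  · left
    ext i
    have h2 := h i k
    rw [rptop_f_mk, rptop_f_mk, ← h1] at h2
    exact mul_right_cancel₀ hk h2
  · right
    ext i
    have h2 := h i k
    have h3 : (y : EuclideanSpace ℝ (Fin 4)) k = -(x : EuclideanSpace ℝ (Fin 4)) k := by
      rw [h1, neg_neg]
    rw [rptop_f_mk, rptop_f_mk, h3, mul_neg, ← neg_mul] at h2
    have h4 := mul_right_cancel₀ hk h2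
    rw [h4]
    rfl

private theorem rptop_t2 : T2Space RP3 := by
  apply T2Space.of_injective_continuous (f := fun (q : RP3) (p : Fin 4 × Fin 4) => rptop_f p.1 p.2 q)
  · intro q q' h
    exact rptop_inj (fun i j => congrFun h (i, j))
  · exact continuous_pi (fun p => rptop_f_cont p.1 p.2)

private theorem rptop_path : PathConnectedSpace RP3 := by
  have h1 : IsPathConnected (Metric.sphere (0 : EuclideanSpace ℝ (Fin 4)) 1) := by
    apply isPathConnected_sphere _ _ (by norm_num)
    apply Module.one_lt_rank_of_one_lt_finrank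
    rw [finrank_euclideanSpace_fin]
    norm_num
  have h2 : PathConnectedSpace rptopS := isPathConnected_iff_pathConnectedSpace.1 h1
  exact rptop_surj.pathConnectedSpace rptop_cont

/-- the vector with the coordinate `1` at `k` and the other coordinates `y` -/
private noncomputable def rptop_v (k : Fin 4) (y : EuclideanSpace ℝ (Fin 3)) : EuclideanSpace ℝ (Fin 4) :=
  WithLp.toLp 2 (k.insertNth (α := fun _ => ℝ) 1 (fun i => y i))

private theorem rptop_v_self (k : Fin 4) (y : EuclideanSpace ℝ (Fin 3)) : rptop_v k y k = 1 := by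
  show k.insertNth (α := fun _ => ℝ) 1 (fun i => y i) k = 1
  rw [Fin.insertNth_apply_same]

private theorem rptop_v_succ (k : Fin 4) (y : EuclideanSpace ℝ (Fin 3)) (i : Fin 3) :
    rptop_v k y (k.succAbove i) = y i := by
  show k.insertNth (α := fun _ => ℝ) 1 (fun i => y i) (k.succAbove i) = y i
  rw [Fin.insertNth_apply_succAbove]

private theorem rptop_v_ne (k : Fin 4) (y : EuclideanSpace ℝ (Fin 3)) : rptop_v k y ≠ 0 := by
  intro h
  have h1 := rptop_v_self k y
  rw [h] at h1
  simp at h1

private theorem rptop_v_cont (k : Fin 4) : Continuous (rptop_v k) := by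
  unfold rptop_v
  apply (PiLp.continuous_toLp 2 (fun _ : Fin 4 => ℝ)).comp
  apply Continuous.finInsertNth
  · exact continuous_const
  · fun_prop

/-- the normalized vector -/
private noncomputable def rptop_s (k : Fin 4) (y : EuclideanSpace ℝ (Fin 3)) : rptopS :=
  ⟨‖rptop_v k y‖⁻¹ • rptop_v k y, by
    rw [mem_sphere_zero_iff_norm, norm_smul, norm_inv, norm_norm,
      inv_mul_cancel₀ (norm_ne_zero_iff.2 (rptop_v_ne k y))]⟩

private theorem rptop_s_cont (k : Fin 4) : Continuous (rptop_s k) := by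
  unfold rptop_s
  apply Continuous.subtype_mk
  have h1 : Continuous (fun y => ‖rptop_v k y‖⁻¹) :=
    (rptop_v_cont k).norm.inv₀ (fun y => norm_ne_zero_iff.2 (rptop_v_ne k y))
  exact h1.smul (rptop_v_cont k)

private theorem rptop_f_s (k : Fin 4) (y : EuclideanSpace ℝ (Fin 3)) (i j : Fin 4) :
    rptop_f i j (rptop_mk (rptop_s k y)) =
      (‖rptop_v k y‖⁻¹ * ‖rptop_v k y‖⁻¹) * (rptop_v k y i * rptop_v k y j) := by
  rw [rptop_f_mk]
  show (‖rptop_v k y‖⁻¹ • rptop_v k y) i * (‖rptop_v k y‖⁻¹ • rptop_v k y) j = _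
  rw [PiLp.smul_apply, PiLp.smul_apply, smul_eq_mul, smul_eq_mul]
  ring

private def rptop_U (k : Fin 4) : Set RP3 := {q | rptop_f k k q ≠ 0}

private theorem rptop_U_open (k : Fin 4) : IsOpen (rptop_U k) :=
  isOpen_ne_fun (rptop_f_cont k k) continuous_const

private noncomputable def rptop_phi (k : Fin 4) (q : RP3) : EuclideanSpace ℝ (Fin 3) :=
  WithLp.toLp 2 (fun i => rptop_f (k.succAbove i) k q / rptop_f k k q)

private theorem rptop_phi_apply (k : Fin 4) (q : RP3) (i : Fin 3) :
    rptop_phi k q i = rptop_f (k.succAbove i) k q / rptop_f k k q := rfl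

/-- the chart -/
private noncomputable def rptop_homeo (k : Fin 4) : rptop_U k ≃ₜ EuclideanSpace ℝ (Fin 3) where
  toFun q := rptop_phi k q
  invFun y := ⟨rptop_mk (rptop_s k y), by
    show rptop_f k k (rptop_mk (rptop_s k y)) ≠ 0
    rw [rptop_f_s, rptop_v_self]
    have h := inv_ne_zero (norm_ne_zero_iff.2 (rptop_v_ne k y))
    exact mul_ne_zero (mul_ne_zero h h) (by norm_num)⟩
  left_inv := by
    rintro ⟨q, hq⟩
    apply Subtype.ext
    show rptop_mk (rptop_s k (rptop_phi k q)) = q
    obtain ⟨x, rfl⟩ := rptop_surj q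
    have hxk : (x : EuclideanSpace ℝ (Fin 4)) k ≠ 0 := by
      intro h
      apply hq
      rw [rptop_f_mk, h, mul_zero]
    have hv : rptop_v k (rptop_phi k (rptop_mk x)) =
        ((x : EuclideanSpace ℝ (Fin 4)) k)⁻¹ • (x : EuclideanSpace ℝ (Fin 4)) := by
      ext i
      rw [PiLp.smul_apply, smul_eq_mul]
      rcases Fin.eq_self_or_eq_succAbove k i with h | ⟨j, h⟩
      · rw [h, rptop_v_self, inv_mul_cancel₀ hxk]
      · rw [h, rptop_v_succ, rptop_phi_apply, rptop_f_mk, rptop_f_mk]
        field_simp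
    have hn : ‖(x : EuclideanSpace ℝ (Fin 4))‖ = 1 := by
      have := x.2
      rwa [mem_sphere_zero_iff_norm] at this
    apply rptop_inj
    intro i j
    rw [rptop_f_s, hv, norm_smul, hn, mul_one, norm_inv, inv_inv, Real.norm_eq_abs, abs_mul_abs_self,
      PiLp.smul_apply, PiLp.smul_apply, smul_eq_mul, smul_eq_mul, rptop_f_mk]
    field_simp
  right_inv := by
    intro y
    ext i
    show rptop_phi k (rptop_mk (rptop_s k y)) i = y i
    rw [rptop_phi_apply, rptop_f_s, rptop_f_s, rptop_v_self, rptop_v_succ]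
    have h := norm_ne_zero_iff.2 (rptop_v_ne k y)
    field_simp
  continuous_toFun := by
    show Continuous (fun q : rptop_U k => rptop_phi k q)
    unfold rptop_phi
    apply (PiLp.continuous_toLp 2 (fun _ : Fin 3 => ℝ)).comp
    apply continuous_pi
    intro i
    exact ((rptop_f_cont _ _).comp continuous_subtype_val).div
      ((rptop_f_cont _ _).comp continuous_subtype_val) (fun q => q.2)
  continuous_invFun := by
    apply Continuous.subtype_mk
    exact rptop_cont.comp (rptop_s_cont k)

theorem rTop : RPTopStmt := by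
  refine ⟨rptop_t2, ?_, rptop_path⟩
  intro q
  obtain ⟨x, rfl⟩ := rptop_surj q
  obtain ⟨k, hk⟩ := rptop_ne x
  refine ⟨rptop_U k, rptop_U_open k, ?_, ⟨rptop_homeo k⟩⟩
  show rptop_f k k (rptop_mk x) ≠ 0
  rw [rptop_f_mk]
  exact mul_ne_zero hk hk

end TightRP
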