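import Pool.Agent.Lib.MP_7cdc3e_gt.Spec

/-!
# MP_7cdc3e_gt: the rank of the first homology of projective space (module RPHom, helper50)
-/

open HoloConj Pool.Agent.Lib.SingHom

namespace TightRP

/-! ### General part -/

/-- a subset of a subset -/
def rhomSub {Z : Type} [TopologicalSpace Z] (C S : Set Z) (h : S ⊆ C) :
    ↥(Subtype.val ⁻¹' S : Set ↥C) ≃ₜ ↥S where
  toFun x := ⟨x.1.1, x.2⟩
  invFun y := ⟨⟨y.1, h y.2⟩, y.2⟩
  left_inv _ := rfl
  right_inv _ := rfl
  continuous_toFun := (continuous_subtype_val.comp continuous_subtype_val).subtype_mk _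
  continuous_invFun := (continuous_subtype_val.subtype_mk _).subtype_mk _

theorem rhom_rank_homeo (h4 : HomeoStmt) (F : Type) [Field F] {X Y : Type} [TopologicalSpace X]
    [TopologicalSpace Y] (e : X ≃ₜ Y) (n : ℕ) :
    Module.rank F (Hq F n X) = Module.rank F (Hq F n Y) :=
  (LinearEquiv.ofBijective (Hmap F n (e : C(X, Y))) (h4 F X Y e n)).rank_eq

theorem rhom_step (h3 : MVUpStmt) (h4 : HomeoStmt) (F : Type) [Field F] (Z : Type)
    [TopologicalSpace Z] (A B : Set Z) (hA : IsOpen A) (hB : IsOpen B) (pA : PathConnectedSpace A)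
    (cB : ContractibleSpace B) (k : ℕ)
    (hk : Module.rank F (Hq F 0 ↥(A ∩ B)) ≤ ((k + 1 : ℕ) : Cardinal)) (hne : (A ∩ B).Nonempty) :
    Module.rank F (Hq F 1 ↥(A ∪ B)) ≤ Module.rank F (Hq F 1 A) + (k : Cardinal) := by
  let C : Set Z := A ∪ B
  let A' : Set ↥C := Subtype.val ⁻¹' A
  let B' : Set ↥C := Subtype.val ⁻¹' B
  have eA : ↥A' ≃ₜ ↥A := rhomSub C A Set.subset_union_left
  have eB : ↥B' ≃ₜ ↥B := rhomSub C B Set.subset_union_right
  have eAB : ↥(A' ∩ B') ≃ₜ ↥(A ∩ B) :=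
    rhomSub C (A ∩ B) (Set.inter_subset_left.trans Set.subset_union_left)
  have hAB : A' ∪ B' = Set.univ := by
    rw [Set.eq_univ_iff_forall]
    intro x
    exact x.2
  have pA' : PathConnectedSpace A' := eA.symm.surjective.pathConnectedSpace eA.symm.continuous
  have cB' : ContractibleSpace B' := eB.contractibleSpace
  have hne' : (A' ∩ B').Nonempty := by
    obtain ⟨x, hx⟩ := hne
    exact ⟨⟨x, Or.inl hx.1⟩, hx⟩
  have h := h3 F ↥C A' B' (hA.preimage continuous_subtype_val) (hB.preimage continuous_subtype_val)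
    hAB pA' cB' k (by rw [rhom_rank_homeo h4 F eAB 0]; exact hk) hne'
  rw [rhom_rank_homeo h4 F eA 1] at h
  exact h

theorem rhom_two (h2 : H0PathStmt) (F : Type) [Field F] (Z : Type)
    [TopologicalSpace Z] (A B : Set Z) (hA : IsOpen A) (hB : IsOpen B) (pA : PathConnectedSpace A)
    (pB : PathConnectedSpace B) :
    Module.rank F (Hq F 0 ↥(A ∪ B)) ≤ ((1 + 1 : ℕ) : Cardinal) := by
  let C : Set Z := A ∪ B
  let A' : Set ↥C := Subtype.val ⁻¹' A
  let B' : Set ↥C := Subtype.val ⁻¹' B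
  have eA : ↥A' ≃ₜ ↥A := rhomSub C A Set.subset_union_left
  have eB : ↥B' ≃ₜ ↥B := rhomSub C B Set.subset_union_right
  have hAB : A' ∪ B' = Set.univ := by
    rw [Set.eq_univ_iff_forall]
    intro x
    exact x.2
  have pA' : PathConnectedSpace A' := eA.symm.surjective.pathConnectedSpace eA.symm.continuous
  have pB' : PathConnectedSpace B' := eB.symm.surjective.pathConnectedSpace eB.symm.continuous
  have hr := mvβ_zero_surjective (K := F) (hA.preimage continuous_subtype_val)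
    (hB.preimage continuous_subtype_val) hAB
  have h := LinearMap.rank_le_of_surjective _ (LinearMap.range_eq_top.1 hr)
  rw [rank_prod', h2 F A', h2 F B'] at h
  refine h.trans ?_
  norm_num

/-! ### Projective space -/

/-- the ambient space -/
abbrev rhomE : Type := EuclideanSpace ℝ (Fin 4)

/-- the class of a point of the sphere -/
def rhomMk (x : Metric.sphere (0 : rhomE) 1) : RP3 := Quotient.mk antipodal x

theorem rhomMk_surj (p : RP3) : ∃ x, rhomMk x = p := Quotient.exists_rep p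

theorem rhomMk_cont : Continuous rhomMk := continuous_quotient_mk'

/-- the columns of the projection matrix -/
def rhomCol (k : Fin 4) : RP3 → rhomE :=
  Quotient.lift (s := antipodal) (fun x : Metric.sphere (0 : rhomE) 1 => (x : rhomE) k • (x : rhomE)) (by
    rintro x y (h | h)
    · rw [h]
    · rw [h]
      show (-(y : rhomE)) k • (-(y : rhomE)) = (y : rhomE) k • (y : rhomE)
      rw [PiLp.neg_apply, neg_smul, smul_neg, neg_neg])

theorem rhomCol_mk (k : Fin 4) (x : Metric.sphere (0 : rhomE) 1) :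
    rhomCol k (rhomMk x) = (x : rhomE) k • (x : rhomE) := rfl

theorem rhom_cont_coord (k : Fin 4) : Continuous (fun x : rhomE => x k) :=
  (EuclideanSpace.proj (𝕜 := ℝ) k).continuous

theorem rhomCol_cont (k : Fin 4) : Continuous (rhomCol k) := by
  refine Continuous.quotient_lift ?_ _
  exact ((rhom_cont_coord k).comp continuous_subtype_val).smul continuous_subtype_val

/-- the standard open sets -/
def rhomV (k : Fin 4) : Set RP3 := {p | rhomCol k p k ≠ 0}

theorem rhomV_open (k : Fin 4) : IsOpen (rhomV k) :=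
  isOpen_ne_fun ((rhom_cont_coord k).comp (rhomCol_cont k)) continuous_const

theorem rhomCol_mk_apply (k i : Fin 4) (x : Metric.sphere (0 : rhomE) 1) :
    rhomCol k (rhomMk x) i = (x : rhomE) k * (x : rhomE) i := by
  rw [rhomCol_mk, PiLp.smul_apply]
  rfl

theorem rhomV_mk (k : Fin 4) (x : Metric.sphere (0 : rhomE) 1) :
    rhomMk x ∈ rhomV k ↔ (x : rhomE) k ≠ 0 := by
  show rhomCol k (rhomMk x) k ≠ 0 ↔ _
  rw [rhomCol_mk_apply, mul_self_ne_zero]

/-- a point of the sphere -/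
noncomputable def rhomPt : Metric.sphere (0 : rhomE) 1 := ⟨EuclideanSpace.single 0 1, by
  rw [mem_sphere_zero_iff_norm]
  simp⟩

/-- normalisation -/
noncomputable def rhomNz (v : rhomE) (hv : v ≠ 0) : Metric.sphere (0 : rhomE) 1 :=
  ⟨‖v‖⁻¹ • v, by
    rw [mem_sphere_zero_iff_norm, norm_smul, norm_inv, norm_norm,
      inv_mul_cancel₀ (norm_ne_zero_iff.2 hv)]⟩

open Classical in
/-- the projection -/
noncomputable def rhomPr (v : rhomE) : RP3 :=
  rhomMk (if hv : v ≠ 0 then rhomNz v hv else rhomPt)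

theorem rhomPr_ne {v : rhomE} (hv : v ≠ 0) : rhomPr v = rhomMk (rhomNz v hv) := by
  unfold rhomPr
  rw [dif_pos hv]

theorem rhomPr_cont : ContinuousOn rhomPr {0}ᶜ := by
  rw [continuousOn_iff_continuous_domRestrict]
  have hsub : ∀ y : ↥({0}ᶜ : Set rhomE), y.1 ≠ 0 := fun y => y.2
  have h : (fun y : ↥({0}ᶜ : Set rhomE) => rhomPr y.1) = fun y => rhomMk (rhomNz y.1 (hsub y)) :=
    funext fun y => rhomPr_ne (hsub y)
  have h2 : Continuous (fun y : ↥({0}ᶜ : Set rhomE) => rhomPr y.1) := by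
    rw [h]
    refine rhomMk_cont.comp ?_
    unfold rhomNz
    refine Continuous.subtype_mk ?_ _
    exact (continuous_subtype_val.norm.inv₀ fun y => norm_ne_zero_iff.2 (hsub y)).smul
      continuous_subtype_val
  exact h2

theorem rhomPr_smul {c : ℝ} (hc : c ≠ 0) (x : Metric.sphere (0 : rhomE) 1) :
    rhomPr (c • (x : rhomE)) = rhomMk x := by
  have hx : ‖(x : rhomE)‖ = 1 := mem_sphere_zero_iff_norm.1 x.2
  have hx0 : (x : rhomE) ≠ 0 := by
    rw [← norm_ne_zero_iff, hx]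
    exact one_ne_zero
  rw [rhomPr_ne (smul_ne_zero hc hx0)]
  refine Quotient.sound ?_
  show (rhomNz (c • (x : rhomE)) _ : rhomE) = x ∨ (rhomNz (c • (x : rhomE)) _ : rhomE) = -x
  have h : (rhomNz (c • (x : rhomE)) (smul_ne_zero hc hx0) : rhomE) = (|c|⁻¹ * c) • (x : rhomE) := by
    unfold rhomNz
    simp only [norm_smul, hx, mul_one, Real.norm_eq_abs, smul_smul]
  rw [h]
  rcases lt_or_gt_of_ne hc with h0 | h0
  · right
    rw [abs_of_neg h0]
    have : (-c)⁻¹ * c = -1 := by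
      field_simp
    rw [this, neg_smul, one_smul]
  · left
    rw [abs_of_pos h0, inv_mul_cancel₀ hc, one_smul]

theorem rhomPr_mem {v : rhomE} (hv : v ≠ 0) (k : Fin 4) : rhomPr v ∈ rhomV k ↔ v k ≠ 0 := by
  rw [rhomPr_ne hv, rhomV_mk]
  have : (rhomNz v hv : rhomE) k = ‖v‖⁻¹ * v k := rfl
  rw [this]
  have h2 : ‖v‖⁻¹ ≠ 0 := inv_ne_zero (norm_ne_zero_iff.2 hv)
  constructor
  · intro h h3
    exact h (by rw [h3, mul_zero])
  · intro h
    exact mul_ne_zero h2 h

/-- the standard open sets are contractible -/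
theorem rhomV_contr (k : Fin 4) : ContractibleSpace (rhomV k) := by
  let C : Set rhomE := {v | 0 < v k}
  have hC : Convex ℝ C := by
    intro a ha b hb s t hs ht hst
    show 0 < (s • a + t • b) k
    rw [PiLp.add_apply, PiLp.smul_apply, PiLp.smul_apply]
    have ha' : 0 < a k := ha
    have hb' : 0 < b k := hb
    show 0 < s * a k + t * b k
    rcases eq_or_lt_of_le hs with h | h
    · have : t = 1 := by linarith
      rw [← h, this]
      linarith
    · have h1 := mul_pos h ha'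
      have h2 := mul_nonneg ht hb'.le
      linarith
  have hCn : C.Nonempty := ⟨EuclideanSpace.single k 1, by
    show 0 < (EuclideanSpace.single k (1 : ℝ)) k
    simp⟩
  have cC : ContractibleSpace C := hC.contractibleSpace hCn
  have hC0 : ∀ v ∈ C, v ≠ 0 := by
    rintro v hv rfl
    exact lt_irrefl _ (show (0 : ℝ) < 0 from hv)
  have hf : ∀ p ∈ rhomV k, rhomCol k p ∈ C := by
    intro p hp
    obtain ⟨x, rfl⟩ := rhomMk_surj p
    rw [rhomV_mk] at hp
    show 0 < rhomCol k (rhomMk x) k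
    rw [rhomCol_mk_apply]
    exact mul_self_pos.2 hp
  have hg : ∀ v ∈ C, rhomPr v ∈ rhomV k := fun v hv => (rhomPr_mem (hC0 v hv) k).2 (ne_of_gt hv)
  let f : C(rhomV k, C) := ⟨fun p => ⟨rhomCol k p.1, hf p.1 p.2⟩,
    ((rhomCol_cont k).comp continuous_subtype_val).subtype_mk _⟩
  let g : C(C, rhomV k) := ⟨fun v => ⟨rhomPr v.1, hg v.1 v.2⟩, by
    refine Continuous.subtype_mk ?_ _
    exact rhomPr_cont.comp_continuous continuous_subtype_val fun v => hC0 v.1 v.2⟩
  have hgf : g.comp ((ContinuousMap.id C).comp f) = ContinuousMap.id _ := by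
    ext1 p
    apply Subtype.ext
    obtain ⟨p, hp⟩ := p
    obtain ⟨x, rfl⟩ := rhomMk_surj p
    show rhomPr (rhomCol k (rhomMk x)) = rhomMk x
    rw [rhomCol_mk]
    exact rhomPr_smul ((rhomV_mk k x).1 hp) x
  rw [contractible_iff_id_nullhomotopic, ← hgf]
  exact ((id_nullhomotopic C).comp_left f).comp_right g

/-- images of path connected cones -/
theorem rhom_pc (T : Set rhomE) (hT : IsPathConnected T) (h0 : ∀ v ∈ T, v ≠ 0) (S : Set RP3)
    (h1 : ∀ v ∈ T, rhomPr v ∈ S)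
    (h2 : ∀ x, rhomMk x ∈ S → ∃ c : ℝ, c ≠ 0 ∧ c • (x : rhomE) ∈ T) : PathConnectedSpace S := by
  have h3 : rhomPr '' T = S := by
    apply Set.Subset.antisymm
    · rintro _ ⟨v, hv, rfl⟩
      exact h1 v hv
    · intro p hp
      obtain ⟨x, rfl⟩ := rhomMk_surj p
      obtain ⟨c, hc, hc2⟩ := h2 x hp
      exact ⟨_, hc2, rhomPr_smul hc x⟩
  rw [← isPathConnected_iff_pathConnectedSpace, ← h3]
  exact hT.image' (rhomPr_cont.mono fun v hv => h0 v hv)

/-- the subspace of the vectors whose first coordinates vanish -/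
def rhomN (j : ℕ) : Submodule ℝ rhomE where
  carrier := {v | ∀ i : Fin 4, i.1 < j → v i = 0}
  add_mem' := by
    intro a b ha hb i hi
    rw [PiLp.add_apply, ha i hi, hb i hi, add_zero]
  zero_mem' := fun _ _ => rfl
  smul_mem' := by
    intro c a ha i hi
    rw [PiLp.smul_apply, ha i hi, smul_zero]

theorem rhomN_codim {j : ℕ} (hj : 2 ≤ j) : 1 < Module.rank ℝ (rhomE ⧸ rhomN j) := by
  let φ : rhomE →ₗ[ℝ] ℝ × ℝ :=
    { toFun := fun v => (v 0, v 1)
      map_add' := fun _ _ => rfl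
      map_smul' := fun _ _ => rfl }
  have hφ : rhomN j ≤ LinearMap.ker φ := by
    intro v hv
    rw [LinearMap.mem_ker]
    exact Prod.ext (hv 0 (by show 0 < j; omega)) (hv 1 (by show 1 < j; omega))
  have hs : Function.Surjective ((rhomN j).liftQ φ hφ) := by
    intro p
    refine ⟨(rhomN j).mkQ (WithLp.toLp 2 ![p.1, p.2, 0, 0]), ?_⟩
    rw [Submodule.mkQ_apply, Submodule.liftQ_apply]
    rfl
  have h := LinearMap.rank_le_of_surjective _ hs
  rw [rank_prod', Module.rank_self] at h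
  refine lt_of_lt_of_le ?_ h
  norm_num

theorem rhomN_pc {j : ℕ} (hj : 2 ≤ j) : IsPathConnected ((rhomN j : Set rhomE)ᶜ) :=
  isPathConnected_compl_of_one_lt_codim (rhomN_codim hj)

/-- unions of the standard open sets -/
def rhomW (j : ℕ) : Set RP3 := {p | ∃ i : Fin 4, i.1 < j ∧ p ∈ rhomV i}

theorem rhomW_open (j : ℕ) : IsOpen (rhomW j) := by
  have : rhomW j = ⋃ i : {i : Fin 4 // i.1 < j}, rhomV i.1 := by
    ext p
    rw [Set.mem_iUnion]
    constructor
    · rintro ⟨i, hi, h⟩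
      exact ⟨⟨i, hi⟩, h⟩
    · rintro ⟨⟨i, hi⟩, h⟩
      exact ⟨i, hi, h⟩
  rw [this]
  exact isOpen_iUnion fun i => rhomV_open i.1

theorem rhomN_not {j : ℕ} {v : rhomE} (hv : v ∉ rhomN j) : ∃ i : Fin 4, i.1 < j ∧ v i ≠ 0 := by
  by_contra hcon
  apply hv
  intro i hi
  by_contra h
  exact hcon ⟨i, hi, h⟩

theorem rhomN_not' {j : ℕ} {v : rhomE} {i : Fin 4} (hi : i.1 < j) (h : v i ≠ 0) : v ∉ rhomN j :=
  fun hv => h (hv i hi)

theorem rhomW_pc {j : ℕ} (hj : 2 ≤ j) : PathConnectedSpace (rhomW j) := by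
  refine rhom_pc _ (rhomN_pc hj) ?_ _ ?_ ?_
  · rintro v hv rfl
    exact hv (Submodule.zero_mem _)
  · intro v hv
    obtain ⟨i, hi, h⟩ := rhomN_not hv
    refine ⟨i, hi, (rhomPr_mem ?_ i).2 h⟩
    rintro rfl
    exact h rfl
  · rintro x ⟨i, hi, h⟩
    refine ⟨1, one_ne_zero, ?_⟩
    rw [one_smul]
    exact rhomN_not' hi ((rhomV_mk i x).1 h)

theorem rhomWV_pc {j : ℕ} (hj : 2 ≤ j) (k : Fin 4) (hk : j ≤ k.1) :
    PathConnectedSpace ↥(rhomW j ∩ rhomV k) := by
  let u : rhomE → rhomE := fun v => WithLp.toLp 2 (fun i => if i = k then 1 else v i)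
  have hu : Continuous u := by
    refine (PiLp.continuous_toLp 2 _).comp (continuous_pi fun i => ?_)
    by_cases h : i = k
    · simp only [h, if_true]
      exact continuous_const
    · simp only [h, if_false]
      exact rhom_cont_coord i
  have hu1 : ∀ v, u v k = 1 := fun v => if_pos rfl
  have hu2 : ∀ v (i : Fin 4), i ≠ k → u v i = v i := fun v i h => if_neg h
  refine rhom_pc (u '' ((rhomN j : Set rhomE)ᶜ)) ((rhomN_pc hj).image hu) ?_ _ ?_ ?_
  · rintro _ ⟨v, -, rfl⟩ h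
    have := hu1 v
    rw [h] at this
    exact zero_ne_one this
  · rintro _ ⟨v, hv, rfl⟩
    have hne : u v ≠ 0 := by
      intro h
      have := hu1 v
      rw [h] at this
      exact zero_ne_one this
    obtain ⟨i, hi, h⟩ := rhomN_not hv
    refine ⟨⟨i, hi, (rhomPr_mem hne i).2 ?_⟩, (rhomPr_mem hne k).2 ?_⟩
    · rw [hu2 v i (by rintro rfl; omega)]
      exact h
    · rw [hu1]
      exact one_ne_zero
  · rintro x ⟨⟨i, hi, h⟩, hk2⟩
    have hxk := (rhomV_mk k x).1 hk2
    have hxi := (rhomV_mk i x).1 h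
    refine ⟨((x : rhomE) k)⁻¹, inv_ne_zero hxk, ((x : rhomE) k)⁻¹ • (x : rhomE), ?_, ?_⟩
    · refine rhomN_not' hi ?_
      rw [PiLp.smul_apply]
      exact mul_ne_zero (inv_ne_zero hxk) hxi
    · ext l
      by_cases hl : l = k
      · rw [hl, hu1, PiLp.smul_apply]
        exact (inv_mul_cancel₀ hxk).symm
      · rw [hu2 _ l hl]

theorem rhom_quad (s : ℝ) (hs : s = 1 ∨ s = -1) :
    PathConnectedSpace ↥{p : RP3 | 0 < s * rhomCol 0 p 1} := by
  let T : Set rhomE := {v | 0 < v 0 ∧ 0 < s * v 1}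
  have hT : Convex ℝ T := by
    intro a ha b hb x y hx hy hxy
    have e0 : (x • a + y • b) 0 = x * a 0 + y * b 0 := rfl
    have e1 : (x • a + y • b) 1 = x * a 1 + y * b 1 := rfl
    obtain ⟨a0, a1⟩ := ha
    obtain ⟨b0, b1⟩ := hb
    show 0 < (x • a + y • b) 0 ∧ 0 < s * (x • a + y • b) 1
    rw [e0, e1]
    have e2 : s * (x * a 1 + y * b 1) = x * (s * a 1) + y * (s * b 1) := by ring
    rw [e2]
    rcases eq_or_lt_of_le hx with h | h
    · have : y = 1 := by linarith
      rw [← h, this]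
      constructor <;> linarith
    · constructor
      · have h1 := mul_pos h a0
        have h2 := mul_nonneg hy b0.le
        linarith
      · have h1 := mul_pos h a1
        have h2 := mul_nonneg hy b1.le
        linarith
  have hTn : T.Nonempty := by
    refine ⟨WithLp.toLp 2 ![1, s, 0, 0], ?_, ?_⟩
    · show (0 : ℝ) < 1
      exact one_pos
    · show (0 : ℝ) < s * s
      rcases hs with h | h <;> rw [h] <;> norm_num
  have h0 : ∀ v ∈ T, v ≠ 0 := by
    rintro v hv rfl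
    exact lt_irrefl _ (show (0 : ℝ) < 0 from hv.1)
  refine rhom_pc T (hT.isPathConnected hTn) h0 _ ?_ ?_
  · intro v hv
    show 0 < s * rhomCol 0 (rhomPr v) 1
    rw [rhomPr_ne (h0 v hv), rhomCol_mk_apply]
    have e0 : (rhomNz v (h0 v hv) : rhomE) 0 = ‖v‖⁻¹ * v 0 := rfl
    have e1 : (rhomNz v (h0 v hv) : rhomE) 1 = ‖v‖⁻¹ * v 1 := rfl
    have hn : 0 < ‖v‖⁻¹ := inv_pos.2 (norm_pos_iff.2 (h0 v hv))
    rw [e0, e1]
    have e2 : s * (‖v‖⁻¹ * v 0 * (‖v‖⁻¹ * v 1)) = (‖v‖⁻¹ * ‖v‖⁻¹) * (v 0 * (s * v 1)) := by ring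
    rw [e2]
    exact mul_pos (mul_pos hn hn) (mul_pos hv.1 hv.2)
  · intro x hx
    have hx' : 0 < s * rhomCol 0 (rhomMk x) 1 := hx
    rw [rhomCol_mk_apply] at hx'
    have hx0 : (x : rhomE) 0 ≠ 0 := by
      intro h
      rw [h, zero_mul, mul_zero] at hx'
      exact lt_irrefl _ hx'
    refine ⟨(x : rhomE) 0, hx0, ?_, ?_⟩
    · show 0 < (x : rhomE) 0 * (x : rhomE) 0
      exact mul_self_pos.2 hx0
    · exact hx'

theorem rHom (h1 : ContrStmt) (h2 : H0PathStmt) (h3 : MVUpStmt) (h4 : HomeoStmt) : RPHomStmt := by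
  intro F _
  -- the first step
  have c0 := rhomV_contr 0
  have p0 : PathConnectedSpace (rhomV 0) := inferInstance
  have e01 : rhomV 0 ∩ rhomV 1 = {p : RP3 | 0 < 1 * rhomCol 0 p 1} ∪ {p : RP3 | 0 < -1 * rhomCol 0 p 1} := by
    ext p
    obtain ⟨x, rfl⟩ := rhomMk_surj p
    rw [Set.mem_inter_iff, Set.mem_union, rhomV_mk, rhomV_mk]
    show _ ↔ 0 < 1 * rhomCol 0 (rhomMk x) 1 ∨ 0 < -1 * rhomCol 0 (rhomMk x) 1
    rw [rhomCol_mk_apply]
    constructor
    · rintro ⟨ha, hb⟩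
      rcases lt_or_gt_of_ne (mul_ne_zero ha hb) with h | h
      · right; linarith
      · left; linarith
    · intro h
      have h5 : (x : rhomE) 0 * (x : rhomE) 1 ≠ 0 := by
        rcases h with h | h
        · intro h6; rw [h6] at h; norm_num at h
        · intro h6; rw [h6] at h; norm_num at h
      exact ⟨left_ne_zero_of_mul h5, right_ne_zero_of_mul h5⟩
  have o1 : ∀ s : ℝ, IsOpen {p : RP3 | 0 < s * rhomCol 0 p 1} := fun s =>
    isOpen_lt continuous_const (continuous_const.mul ((rhom_cont_coord 1).comp (rhomCol_cont 0)))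
  have q1 := rhom_quad 1 (Or.inl rfl)
  have q2 := rhom_quad (-1) (Or.inr rfl)
  have r1 : Module.rank F (Hq F 0 ↥(rhomV 0 ∩ rhomV 1)) ≤ ((1 + 1 : ℕ) : Cardinal) := by
    rw [e01]
    exact rhom_two h2 F RP3 _ _ (o1 1) (o1 (-1)) q1 q2
  have n1 : (rhomV 0 ∩ rhomV 1).Nonempty := by
    rw [e01]
    obtain ⟨y⟩ := (inferInstance : Nonempty ↥{p : RP3 | 0 < (1 : ℝ) * rhomCol 0 p 1})
    exact ⟨y.1, Or.inl y.2⟩
  have s1 := rhom_step h3 h4 F RP3 (rhomV 0) (rhomV 1) (rhomV_open 0) (rhomV_open 1) p0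
    (rhomV_contr 1) 1 r1 n1
  have z0 : Module.rank F (Hq F 1 ↥(rhomV 0)) = 0 := by
    have : Subsingleton (Hq F (0 + 1) ↥(rhomV 0)) := h1 F _ 0
    exact rank_subsingleton' F _
  rw [z0, zero_add] at s1
  have w2 : rhomV 0 ∪ rhomV 1 = rhomW 2 := by
    ext p
    constructor
    · rintro (h | h)
      · exact ⟨0, by norm_num, h⟩
      · exact ⟨1, by norm_num, h⟩
    · rintro ⟨i, hi, h⟩
      have : i = 0 ∨ i = 1 := by omega
      rcases this with rfl | rfl
      · exact Or.inl h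
      · exact Or.inr h
  have w3 : rhomW 2 ∪ rhomV 2 = rhomW 3 := by
    ext p
    constructor
    · rintro (⟨i, hi, h⟩ | h)
      · exact ⟨i, by omega, h⟩
      · exact ⟨2, by norm_num, h⟩
    · rintro ⟨i, hi, h⟩
      by_cases h2 : i.1 < 2
      · exact Or.inl ⟨i, h2, h⟩
      · have : i = 2 := by omega
        rw [this] at h
        exact Or.inr h
  have w4 : rhomW 3 ∪ rhomV 3 = Set.univ := by
    rw [Set.eq_univ_iff_forall]
    intro p
    obtain ⟨x, rfl⟩ := rhomMk_surj p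
    have hx : ∃ i : Fin 4, (x : rhomE) i ≠ 0 := by
      by_contra hcon
      have hx0 : (x : rhomE) = 0 := by
        ext i
        by_contra h
        exact hcon ⟨i, h⟩
      have hn : ‖(x : rhomE)‖ = 1 := mem_sphere_zero_iff_norm.1 x.2
      rw [hx0, norm_zero] at hn
      exact zero_ne_one hn
    obtain ⟨i, hi⟩ := hx
    have hi' := (rhomV_mk i x).2 hi
    by_cases h : i.1 < 3
    · exact Or.inl ⟨i, h, hi'⟩
    · have : i = 3 := by omega
      rw [this] at hi'
      exact Or.inr hi'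
  rw [w2] at s1
  have pW2 := rhomW_pc (j := 2) le_rfl
  have pW3 := rhomW_pc (j := 3) (by norm_num)
  have pI2 := rhomWV_pc (j := 2) le_rfl 2 le_rfl
  have pI3 := rhomWV_pc (j := 3) (by norm_num) 3 le_rfl
  have ne2 : (rhomW 2 ∩ rhomV 2).Nonempty := by
    obtain ⟨y⟩ := (inferInstance : Nonempty ↥(rhomW 2 ∩ rhomV 2))
    exact ⟨y.1, y.2⟩
  have ne3 : (rhomW 3 ∩ rhomV 3).Nonempty := by
    obtain ⟨y⟩ := (inferInstance : Nonempty ↥(rhomW 3 ∩ rhomV 3))
    exact ⟨y.1, y.2⟩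
  have s2 := rhom_step h3 h4 F RP3 (rhomW 2) (rhomV 2) (rhomW_open 2) (rhomV_open 2) pW2
    (rhomV_contr 2) 0 (by rw [h2 F ↥(rhomW 2 ∩ rhomV 2)]; norm_num) ne2
  rw [w3] at s2
  have s3 := h3 F RP3 (rhomW 3) (rhomV 3) (rhomW_open 3) (rhomV_open 3) w4 pW3
    (rhomV_contr 3) 0 (by rw [h2 F ↥(rhomW 3 ∩ rhomV 3)]; norm_num) ne3
  rw [Nat.cast_zero, add_zero] at s2 s3
  rw [Nat.cast_one] at s1
  exact s3.trans (s2.trans s1)

end TightRP
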