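import Pool.Agent.Lib.MP_7cdc3e_gt.Spec

/-!
# MP_7cdc3e_gt, module Circle: the punctured plane
-/

open HoloConj Pool.Agent.Lib.SingHom

namespace TightRP

/-- a space embedded in the plane with star shaped image is contractible -/
private theorem circle_contr {Y : Type} [TopologicalSpace Y] (e : Y → EuclideanSpace ℝ (Fin 2))
    (he : Topology.IsEmbedding e) (y₀ : Y)
    (h : ∀ (y : Y) (a b : ℝ), 0 ≤ a → 0 ≤ b → a + b = 1 → ∃ z, e z = a • e y₀ + b • e y) :
    ContractibleSpace Y := by
  have hs : StarConvex ℝ (e y₀) (Set.range e) := by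
    rintro _ ⟨y, rfl⟩ a b ha hb hab
    obtain ⟨z, hz⟩ := h y a b ha hb hab
    exact ⟨z, hz⟩
  have hc : ContractibleSpace ↥(Set.range e) := hs.contractibleSpace ⟨e y₀, y₀, rfl⟩
  exact he.toHomeomorph.contractibleSpace

private theorem circle_coord (a b : ℝ) (u v : EuclideanSpace ℝ (Fin 2)) (i : Fin 2) :
    (a • u + b • v) i = a * u i + b * v i := by
  simp

/-- the plane without the lower half line -/
private def circleA : Set (Pn 2) := {x | ¬ (x.1 0 = 0 ∧ x.1 1 ≤ 0)}

/-- the plane without the upper half line -/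
private def circleB : Set (Pn 2) := {x | ¬ (x.1 0 = 0 ∧ 0 ≤ x.1 1)}

private theorem circle_ext {x : EuclideanSpace ℝ (Fin 2)} (h0 : x 0 = 0) (h1 : x 1 = 0) : x = 0 := by
  ext i
  fin_cases i
  · exact h0
  · exact h1

private theorem circle_cont0 : Continuous (fun x : Pn 2 => x.1 0) := by fun_prop

private theorem circle_cont1 : Continuous (fun x : Pn 2 => x.1 1) := by fun_prop

private theorem circle_openA : IsOpen circleA := by
  have h : IsClosed {x : Pn 2 | x.1 0 = 0 ∧ x.1 1 ≤ 0} :=
    (isClosed_eq circle_cont0 continuous_const).inter (isClosed_le circle_cont1 continuous_const)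
  exact h.isOpen_compl

private theorem circle_openB : IsOpen circleB := by
  have h : IsClosed {x : Pn 2 | x.1 0 = 0 ∧ 0 ≤ x.1 1} :=
    (isClosed_eq circle_cont0 continuous_const).inter (isClosed_le continuous_const circle_cont1)
  exact h.isOpen_compl

private theorem circle_cover : circleA ∪ circleB = Set.univ := by
  ext x
  simp only [Set.mem_union, Set.mem_univ, iff_true]
  by_contra h
  push Not at h
  obtain ⟨h1, h2⟩ := h
  have h1' : x.1 0 = 0 ∧ x.1 1 ≤ 0 := not_not.mp h1
  have h2' : x.1 0 = 0 ∧ 0 ≤ x.1 1 := not_not.mp h2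
  exact x.2 (circle_ext h1'.1 (le_antisymm h1'.2 h2'.2))

private theorem circle_emb {Y : Type} [TopologicalSpace Y] (A : Set Y) (e : Y → EuclideanSpace ℝ (Fin 2))
    (he : Topology.IsEmbedding e) : Topology.IsEmbedding (fun a : A => e a.1) :=
  he.comp Topology.IsEmbedding.subtypeVal

private theorem circle_embX : Topology.IsEmbedding (fun x : Pn 2 => x.1) :=
  Topology.IsEmbedding.subtypeVal

private theorem circle_contrA : ContractibleSpace circleA := by
  have hne : (!₂[(0 : ℝ), 1] : EuclideanSpace ℝ (Fin 2)) ≠ 0 := by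
    intro h
    have : (!₂[(0 : ℝ), 1] : EuclideanSpace ℝ (Fin 2)) 1 = 0 := by rw [h]; rfl
    exact one_ne_zero this
  have hmem : (⟨!₂[(0 : ℝ), 1], hne⟩ : Pn 2) ∈ circleA := by
    rintro ⟨-, h⟩
    have h' : (1 : ℝ) ≤ 0 := h
    linarith
  refine circle_contr (fun a : circleA => a.1.1) (circle_emb circleA _ circle_embX)
    ⟨⟨!₂[(0 : ℝ), 1], hne⟩, hmem⟩ ?_
  rintro ⟨⟨y, hy⟩, hyA⟩ a b ha hb hab
  have key : ¬ ((a • (!₂[(0 : ℝ), 1] : EuclideanSpace ℝ (Fin 2)) + b • y) 0 = 0 ∧
      (a • (!₂[(0 : ℝ), 1] : EuclideanSpace ℝ (Fin 2)) + b • y) 1 ≤ 0) := by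
    rw [circle_coord, circle_coord]
    change ¬ (a * 0 + b * y 0 = 0 ∧ a * 1 + b * y 1 ≤ 0)
    rintro ⟨h0, h1⟩
    rcases eq_or_lt_of_le hb with hb0 | hb0
    · rw [← hb0] at h1 hab
      linarith
    · have hy0 : y 0 = 0 := by
        have : b * y 0 = 0 := by linarith
        rcases mul_eq_zero.mp this with h | h
        · exact absurd h hb0.ne'
        · exact h
      have hy1 : 0 < y 1 := by
        by_contra hn
        exact hyA ⟨hy0, not_lt.mp hn⟩
      have := mul_pos hb0 hy1
      linarith
  have hne' : (a • (!₂[(0 : ℝ), 1] : EuclideanSpace ℝ (Fin 2)) + b • y) ≠ 0 := by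
    intro h
    apply key
    rw [h]
    exact ⟨rfl, le_refl _⟩
  exact ⟨⟨⟨_, hne'⟩, key⟩, rfl⟩

private theorem circle_contrB : ContractibleSpace circleB := by
  have hne : (!₂[(0 : ℝ), -1] : EuclideanSpace ℝ (Fin 2)) ≠ 0 := by
    intro h
    have : (!₂[(0 : ℝ), -1] : EuclideanSpace ℝ (Fin 2)) 1 = 0 := by rw [h]; rfl
    have h' : (-1 : ℝ) = 0 := this
    linarith
  have hmem : (⟨!₂[(0 : ℝ), -1], hne⟩ : Pn 2) ∈ circleB := by
    rintro ⟨-, h⟩
    have h' : (0 : ℝ) ≤ -1 := h
    linarith
  refine circle_contr (fun a : circleB => a.1.1) (circle_emb circleB _ circle_embX)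
    ⟨⟨!₂[(0 : ℝ), -1], hne⟩, hmem⟩ ?_
  rintro ⟨⟨y, hy⟩, hyA⟩ a b ha hb hab
  have key : ¬ ((a • (!₂[(0 : ℝ), -1] : EuclideanSpace ℝ (Fin 2)) + b • y) 0 = 0 ∧
      0 ≤ (a • (!₂[(0 : ℝ), -1] : EuclideanSpace ℝ (Fin 2)) + b • y) 1) := by
    rw [circle_coord, circle_coord]
    change ¬ (a * 0 + b * y 0 = 0 ∧ 0 ≤ a * (-1) + b * y 1)
    rintro ⟨h0, h1⟩
    rcases eq_or_lt_of_le hb with hb0 | hb0
    · rw [← hb0] at h1 hab
      linarith
    · have hy0 : y 0 = 0 := by
        have : b * y 0 = 0 := by linarith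
        rcases mul_eq_zero.mp this with h | h
        · exact absurd h hb0.ne'
        · exact h
      have hy1 : y 1 < 0 := by
        by_contra hn
        exact hyA ⟨hy0, not_lt.mp hn⟩
      have := mul_neg_of_pos_of_neg hb0 hy1
      linarith
  have hne' : (a • (!₂[(0 : ℝ), -1] : EuclideanSpace ℝ (Fin 2)) + b • y) ≠ 0 := by
    intro h
    apply key
    rw [h]
    exact ⟨rfl, le_refl _⟩
  exact ⟨⟨⟨_, hne'⟩, key⟩, rfl⟩

/-- the intersection -/
private abbrev circleW : Type := ↥(circleA ∩ circleB)

private theorem circle_W (x : Pn 2) : x ∈ circleA ∩ circleB ↔ x.1 0 ≠ 0 := by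
  constructor
  · rintro ⟨h1, h2⟩ h0
    rcases le_total (x.1 1) 0 with h | h
    · exact h1 ⟨h0, h⟩
    · exact h2 ⟨h0, h⟩
  · intro h
    exact ⟨fun h' => h h'.1, fun h' => h h'.1⟩

private def circleU : Set circleW := {w | 0 < w.1.1 0}

private def circleV : Set circleW := {w | w.1.1 0 < 0}

private theorem circle_contW : Continuous (fun w : circleW => w.1.1 0) :=
  circle_cont0.comp continuous_subtype_val

private theorem circle_openU : IsOpen circleU := isOpen_lt continuous_const circle_contW

private theorem circle_openV : IsOpen circleV := isOpen_lt circle_contW continuous_const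

private theorem circle_coverW : circleU ∪ circleV = Set.univ := by
  ext w
  simp only [Set.mem_union, Set.mem_univ, iff_true]
  have h := (circle_W w.1).mp w.2
  rcases lt_or_gt_of_ne h with h | h
  · exact Or.inr h
  · exact Or.inl h

private theorem circle_mk {p : EuclideanSpace ℝ (Fin 2)} (h : p 0 ≠ 0) :
    ∃ w : circleW, w.1.1 = p := by
  have hp : p ≠ 0 := by
    intro h'
    apply h
    rw [h']
    rfl
  exact ⟨⟨⟨p, hp⟩, (circle_W ⟨p, hp⟩).mpr h⟩, rfl⟩

private theorem circle_embW : Topology.IsEmbedding (fun w : circleW => w.1.1) :=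
  circle_emb (circleA ∩ circleB) _ circle_embX

private theorem circle_contrU : ContractibleSpace circleU := by
  obtain ⟨w₀, hw₀⟩ := circle_mk (p := !₂[(1 : ℝ), 0]) (by
    change (1 : ℝ) ≠ 0
    exact one_ne_zero)
  have hm : w₀ ∈ circleU := by
    change 0 < w₀.1.1 0
    rw [hw₀]
    change (0 : ℝ) < 1
    exact one_pos
  refine circle_contr (fun a : circleU => a.1.1.1) (circle_emb circleU _ circle_embW) ⟨w₀, hm⟩ ?_
  rintro ⟨y, hy⟩ a b ha hb hab
  have key : 0 < (a • w₀.1.1 + b • y.1.1) 0 := by
    rw [circle_coord]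
    have h1 : 0 < w₀.1.1 0 := hm
    have h2 : 0 < y.1.1 0 := hy
    rcases eq_or_lt_of_le hb with hb0 | hb0
    · have ha1 : a = 1 := by linarith
      rw [← hb0, ha1]
      linarith
    · have := mul_pos hb0 h2
      have := mul_nonneg ha h1.le
      linarith
  obtain ⟨w, hw⟩ := circle_mk key.ne'
  refine ⟨⟨w, ?_⟩, hw⟩
  change 0 < w.1.1 0
  rw [hw]
  exact key

private theorem circle_contrV : ContractibleSpace circleV := by
  obtain ⟨w₀, hw₀⟩ := circle_mk (p := !₂[(-1 : ℝ), 0]) (by
    change (-1 : ℝ) ≠ 0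
    exact neg_ne_zero.mpr one_ne_zero)
  have hm : w₀ ∈ circleV := by
    change w₀.1.1 0 < 0
    rw [hw₀]
    change (-1 : ℝ) < 0
    exact neg_one_lt_zero
  refine circle_contr (fun a : circleV => a.1.1.1) (circle_emb circleV _ circle_embW) ⟨w₀, hm⟩ ?_
  rintro ⟨y, hy⟩ a b ha hb hab
  have key : (a • w₀.1.1 + b • y.1.1) 0 < 0 := by
    rw [circle_coord]
    have h1 : w₀.1.1 0 < 0 := hm
    have h2 : y.1.1 0 < 0 := hy
    rcases eq_or_lt_of_le hb with hb0 | hb0
    · have ha1 : a = 1 := by linarith
      rw [← hb0, ha1]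
      linarith
    · have := mul_neg_of_pos_of_neg hb0 h2
      have := mul_nonpos_of_nonneg_of_nonpos ha h1.le
      linarith
  obtain ⟨w, hw⟩ := circle_mk key.ne
  refine ⟨⟨w, ?_⟩, hw⟩
  change w.1.1 0 < 0
  rw [hw]
  exact key

private theorem circle_pathX : PathConnectedSpace (Pn 2) := by
  have h : 1 < Module.rank ℝ (EuclideanSpace ℝ (Fin 2)) := by
    rw [← Module.finrank_eq_rank, finrank_euclideanSpace_fin]
    norm_num
  have h2 := isPathConnected_compl_singleton_of_one_lt_rank h (0 : EuclideanSpace ℝ (Fin 2))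
  exact isPathConnected_iff_pathConnectedSpace.mp h2

/-- M2. -/
theorem mCircle (h1 : ContrStmt) (h2 : H0PathStmt) (h3 : H0LowStmt) : CircleStmt := by
  intro F _
  have := circle_contrA
  have := circle_contrB
  have := circle_contrU
  have := circle_contrV
  have := circle_pathX
  have rA : Module.rank F (Hq F 0 circleA) = 1 := h2 F circleA
  have rB : Module.rank F (Hq F 0 circleB) = 1 := h2 F circleB
  have rU : Module.rank F (Hq F 0 circleU) = 1 := h2 F circleU
  have rV : Module.rank F (Hq F 0 circleV) = 1 := h2 F circleV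
  have rX : Module.rank F (Hq F 0 (Pn 2)) = 1 := h2 F (Pn 2)
  have fin_of : ∀ (M : Type) [AddCommGroup M] [Module F M], Module.rank F M = 1 →
      Module.Finite F M := by
    intro M _ _ h
    apply Module.rank_lt_aleph0_iff.mp
    rw [h]
    exact Cardinal.one_lt_aleph0
  have := fin_of _ rA
  have := fin_of _ rB
  have := fin_of _ rU
  have := fin_of _ rV
  have := fin_of _ rX
  have dA : Module.finrank F (Hq F 0 circleA) = 1 := Module.finrank_eq_of_rank_eq (by rw [rA]; rfl)
  have dB : Module.finrank F (Hq F 0 circleB) = 1 := Module.finrank_eq_of_rank_eq (by rw [rB]; rfl)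
  have dU : Module.finrank F (Hq F 0 circleU) = 1 := Module.finrank_eq_of_rank_eq (by rw [rU]; rfl)
  have dV : Module.finrank F (Hq F 0 circleV) = 1 := Module.finrank_eq_of_rank_eq (by rw [rV]; rfl)
  have dX : Module.finrank F (Hq F 0 (Pn 2)) = 1 := Module.finrank_eq_of_rank_eq (by rw [rX]; rfl)
  -- the intersection
  have sW : Function.Surjective (mvβ F circleU circleV 0) :=
    LinearMap.range_eq_top.mp (mvβ_zero_surjective circle_openU circle_openV circle_coverW)
  have : Module.Finite F (Hq F 0 circleW) := Module.Finite.of_surjective _ sW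
  have uW : Module.finrank F (Hq F 0 circleW) ≤ 2 := by
    have h := LinearMap.finrank_range_add_finrank_ker (mvβ F circleU circleV 0)
    rw [LinearMap.range_eq_top.mpr sW, finrank_top, Module.finrank_prod, dU, dV] at h
    omega
  have lW : 2 ≤ Module.finrank F (Hq F 0 circleW) := by
    classical
    have hg : Continuous (fun w : circleW => if 0 < w.1.1 0 then (0 : Fin 2) else 1) := by
      apply continuous_def.mpr
      intro s _
      have hU : IsOpen circleU := circle_openU
      have hV : IsOpen circleV := circle_openV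
      have e : (fun w : circleW => if 0 < w.1.1 0 then (0 : Fin 2) else 1) ⁻¹' s =
          (if (0 : Fin 2) ∈ s then circleU else ∅) ∪ (if (1 : Fin 2) ∈ s then circleV else ∅) := by
        ext w
        have hw := (circle_W w.1).mp w.2
        rw [Set.mem_preimage, Set.mem_union]
        by_cases hp : 0 < w.1.1 0
        · have hwU : w ∈ circleU := hp
          have hwV : w ∉ circleV := fun h => absurd hp (not_lt.mpr (le_of_lt h))
          rw [if_pos hp]
          by_cases h0 : (0 : Fin 2) ∈ s <;> by_cases h1 : (1 : Fin 2) ∈ s <;>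
            simp [h0, h1, hwU, hwV]
        · have hwU : w ∉ circleU := hp
          have hwV : w ∈ circleV := lt_of_le_of_ne (not_lt.mp hp) hw
          rw [if_neg hp]
          by_cases h0 : (0 : Fin 2) ∈ s <;> by_cases h1 : (1 : Fin 2) ∈ s <;>
            simp [h0, h1, hwU, hwV]
      rw [e]
      apply IsOpen.union
      · split_ifs
        · exact hU
        · exact isOpen_empty
      · split_ifs
        · exact hV
        · exact isOpen_empty
    have hs : Function.Surjective (fun w : circleW => if 0 < w.1.1 0 then (0 : Fin 2) else 1) := by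
      intro j
      fin_cases j
      · obtain ⟨w, hw⟩ := circle_mk (p := !₂[(1 : ℝ), 0]) (by
          change (1 : ℝ) ≠ 0
          exact one_ne_zero)
        refine ⟨w, ?_⟩
        have : 0 < w.1.1 0 := by
          rw [hw]
          change (0 : ℝ) < 1
          exact one_pos
        exact if_pos this
      · obtain ⟨w, hw⟩ := circle_mk (p := !₂[(-1 : ℝ), 0]) (by
          change (-1 : ℝ) ≠ 0
          exact neg_ne_zero.mpr one_ne_zero)
        refine ⟨w, ?_⟩
        have : ¬ 0 < w.1.1 0 := by
          rw [hw]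
          change ¬ (0 : ℝ) < -1
          norm_num
        exact if_neg this
    have h := h3 F circleW 2 _ hg hs
    rw [← Module.finrank_eq_rank] at h
    exact_mod_cast h
  have dW : Module.finrank F (Hq F 0 circleW) = 2 := le_antisymm uW lW
  -- the Mayer-Vietoris sequence
  have sX : Function.Surjective (mvβ F circleA circleB 0) :=
    LinearMap.range_eq_top.mp (mvβ_zero_surjective circle_openA circle_openB circle_cover)
  have k1 := LinearMap.finrank_range_add_finrank_ker (mvβ F circleA circleB 0)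
  rw [LinearMap.range_eq_top.mpr sX, finrank_top, Module.finrank_prod, dA, dB, dX,
    ← range_mvα circle_openA circle_openB circle_cover 0] at k1
  have k2 := LinearMap.finrank_range_add_finrank_ker (mvα F circleA circleB 0)
  have dW' : Module.finrank F (Hq F 0 ↥(circleA ∩ circleB)) = 2 := dW
  rw [dW'] at k2
  have k3 : Module.finrank F (LinearMap.ker (mvα F circleA circleB 0)) = 1 := by omega
  have : Module.Finite F (Hq F 0 ↥(circleA ∩ circleB)) :=
    inferInstanceAs (Module.Finite F (Hq F 0 circleW))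
  -- the first homology
  have s1 : Subsingleton (Hq F 1 circleA) := h1 F circleA 0
  have s2 : Subsingleton (Hq F 1 circleB) := h1 F circleB 0
  have hr : LinearMap.range (mvβ F circleA circleB (0 + 1)) = ⊥ := by
    rw [LinearMap.range_eq_bot]
    apply LinearMap.ext
    rintro ⟨x, y⟩
    have hx : x = 0 := Subsingleton.elim (α := Hq F 1 circleA) x 0
    have hy : y = 0 := Subsingleton.elim (α := Hq F 1 circleB) y 0
    rw [hx, hy]
    exact map_zero _
  obtain ⟨e⟩ := exists_mvConn (K := F) circle_openA circle_openB circle_cover 0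
  have e2 : (Hq F (0 + 1) (Pn 2) ⧸ LinearMap.range (mvβ F circleA circleB (0 + 1))) ≃ₗ[F]
      Hq F (0 + 1) (Pn 2) := Submodule.quotEquivOfEqBot _ hr
  have h := (e.trans e2).rank_eq
  rw [← Module.finrank_eq_rank, k3] at h
  rw [show (1 : ℕ) = 0 + 1 from rfl, ← h]
  exact Nat.cast_one

end TightRP
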