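import Pool.Agent.Lib.MP_7cdc3e_gt.Spec

set_option linter.unusedSectionVars false

open HoloConj Pool.Agent.Lib.SingHom

namespace TightRP

/-! ### the cochain -/

section abs

variable {Y : Type} [TopologicalSpace Y] {ι : Type} (W : ι → Set Y) (s : Y → ι)
  (A : ι → ι → ZMod 2)

/-- the value of the cochain on a singular simplex of dimension one -/
noncomputable def cycTh (σ : C(Sx 1, Y)) : ZMod 2 := by
  classical
  exact if h : ∃ w, ∀ t, σ t ∈ W w then
    A (s (σ (stdSimplex.vertex 0))) h.choose + A (s (σ (stdSimplex.vertex 1))) h.choose else 0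

/-- the cochain -/
noncomputable def cycTT : SC (ZMod 2) Y 1 →ₗ[ZMod 2] ZMod 2 :=
  Finsupp.linearCombination (ZMod 2) (cycTh W s A)

theorem cycTT_single (σ : C(Sx 1, Y)) : cycTT W s A (Finsupp.single σ 1) = cycTh W s A σ := by
  rw [cycTT, Finsupp.linearCombination_single, one_smul]

variable {W s A}

private theorem cyc_z2 : ∀ x z x' y y' : ZMod 2, x + z + x' = 0 → y + z + y' = 0 →
    x' + y' = x + y := by decide

theorem cycTh_eq (hs : ∀ y, y ∈ W (s y))
    (hA : ∀ y a b c, y ∈ W a → y ∈ W b → y ∈ W c → A a b + A b c + A a c = 0)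
    (σ : C(Sx 1, Y)) (w : ι) (hw : ∀ t, σ t ∈ W w) :
    cycTh W s A σ = A (s (σ (stdSimplex.vertex 0))) w + A (s (σ (stdSimplex.vertex 1))) w := by
  classical
  have h : ∃ w, ∀ t, σ t ∈ W w := ⟨w, hw⟩
  have e : cycTh W s A σ = A (s (σ (stdSimplex.vertex 0))) h.choose +
      A (s (σ (stdSimplex.vertex 1))) h.choose := by
    unfold cycTh
    exact dif_pos h
  rw [e]
  have hw' := h.choose_spec
  have h0 := hA (σ (stdSimplex.vertex 0)) (s (σ (stdSimplex.vertex 0))) w h.choose (hs _) (hw _)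
    (hw' _)
  have h1 := hA (σ (stdSimplex.vertex 1)) (s (σ (stdSimplex.vertex 1))) w h.choose (hs _) (hw _)
    (hw' _)
  exact cyc_z2 _ _ _ _ _ h0 h1

theorem cyc_face {n : ℕ} (τ : C(Sx (n + 1), Y)) (i : Fin (n + 2)) (j : Fin (n + 1)) :
    face i τ (stdSimplex.vertex j) = τ (stdSimplex.vertex (i.succAbove j)) := by
  show τ (smap i.succAbove (stdSimplex.vertex j)) = _
  rw [smap_eq_aff, aff_vertex]

private theorem cyc_z3 : ∀ x y z : ZMod 2,
    (-1 : ZMod 2) ^ 0 • (x + y) + (-1 : ZMod 2) ^ 1 • (z + y) + (-1 : ZMod 2) ^ 2 • (z + x) = 0 := by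
  decide

theorem cycTT_sbd_single (hs : ∀ y, y ∈ W (s y))
    (hA : ∀ y a b c, y ∈ W a → y ∈ W b → y ∈ W c → A a b + A b c + A a c = 0)
    (τ : C(Sx 2, Y)) (w : ι) (hw : ∀ t, τ t ∈ W w) :
    cycTT W s A (sbd (ZMod 2) 1 (Finsupp.single τ 1)) = 0 := by
  rw [sbd_single, sbdv, map_sum]
  have e : ∀ i : Fin 3, cycTT W s A ((-1 : ZMod 2) ^ (i : ℕ) • Finsupp.single (face i τ) 1) =
      (-1 : ZMod 2) ^ (i : ℕ) • (A (s (τ (stdSimplex.vertex (i.succAbove 0)))) w +
        A (s (τ (stdSimplex.vertex (i.succAbove 1)))) w) := by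
    intro i
    rw [map_smul, cycTT_single, cycTh_eq hs hA (face i τ) w (fun t => hw _), cyc_face, cyc_face]
  rw [Finset.sum_congr rfl fun i _ => e i, Fin.sum_univ_three]
  exact cyc_z3 (A (s (τ (stdSimplex.vertex 1))) w) (A (s (τ (stdSimplex.vertex 2))) w)
    (A (s (τ (stdSimplex.vertex 0))) w)

theorem cycTT_sbd (hs : ∀ y, y ∈ W (s y))
    (hA : ∀ y a b c, y ∈ W a → y ∈ W b → y ∈ W c → A a b + A b c + A a c = 0)
    {c : SC (ZMod 2) Y 2} (hc : c ∈ ⨆ w, inU (ZMod 2) (W w) 2) :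
    cycTT W s A (sbd (ZMod 2) 1 c) = 0 := by
  have h : (⨆ w, inU (ZMod 2) (W w) 2) ≤ LinearMap.ker (cycTT W s A ∘ₗ sbd (ZMod 2) 1) := by
    apply iSup_le
    intro w c hc
    have h1 : (cycTT W s A ∘ₗ sbd (ZMod 2) 1) c ∈ (⊥ : Submodule (ZMod 2) (ZMod 2)) := by
      refine supp_map (ZMod 2) (cycTT W s A ∘ₗ sbd (ZMod 2) 1) ?_ hc
      intro τ hτ
      rw [LinearMap.comp_apply, Submodule.mem_bot]
      exact cycTT_sbd_single hs hA τ w hτ
    exact (Submodule.mem_bot _).1 h1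
  exact h hc

theorem cyc_SS_iSup {n : ℕ} {c : SC (ZMod 2) Y n} (hc : c ∈ ⨆ w, inU (ZMod 2) (W w) n) :
    SS (ZMod 2) n c ∈ ⨆ w, inU (ZMod 2) (W w) n := by
  have h : (⨆ w, inU (ZMod 2) (W w) n) ≤
      (⨆ w, inU (ZMod 2) (W w) n).comap (SS (ZMod 2) n) :=
    iSup_le fun w c hc => Submodule.mem_iSup_of_mem w (SS_mem_inU hc)
  exact h hc

theorem cyc_HH_iSup {n : ℕ} {c : SC (ZMod 2) Y n} (hc : c ∈ ⨆ w, inU (ZMod 2) (W w) n) :
    HH (ZMod 2) n c ∈ ⨆ w, inU (ZMod 2) (W w) (n + 1) := by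
  have h : (⨆ w, inU (ZMod 2) (W w) n) ≤
      (⨆ w, inU (ZMod 2) (W w) (n + 1)).comap (HH (ZMod 2) n) :=
    iSup_le fun w c hc => Submodule.mem_iSup_of_mem w (HH_mem_inU hc)
  exact h hc

theorem cyc_pow (hs : ∀ y, y ∈ W (s y))
    (hA : ∀ y a b c, y ∈ W a → y ∈ W b → y ∈ W c → A a b + A b c + A a c = 0)
    {z : SC (ZMod 2) Y 1} (hz : sbd (ZMod 2) 0 z = 0) (hzs : z ∈ ⨆ w, inU (ZMod 2) (W w) 1) (k : ℕ) :
    ((SS (ZMod 2) 1) ^ k) z ∈ ⨆ w, inU (ZMod 2) (W w) 1 ∧
      sbd (ZMod 2) 0 (((SS (ZMod 2) 1) ^ k) z) = 0 ∧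
      cycTT W s A (((SS (ZMod 2) 1) ^ k) z) = cycTT W s A z := by
  induction k with
  | zero => exact ⟨hzs, hz, rfl⟩
  | succ k ih =>
    obtain ⟨h1, h2, h3⟩ := ih
    rw [SS_pow_succ]
    refine ⟨cyc_SS_iSup h1, ?_, ?_⟩
    · rw [sbd_SS, h2, map_zero]
    · have h4 := sbd_HH (ZMod 2) 0 (((SS (ZMod 2) 1) ^ k) z)
      rw [h2, map_zero, add_zero] at h4
      have h5 := cycTT_sbd hs hA (cyc_HH_iSup h1)
      rw [h4, map_sub, sub_eq_zero] at h5
      rw [← h5, h3]

theorem cyc_abs (h3 : SmallStmt) (hW : ∀ w, IsOpen (W w)) (hs : ∀ y, y ∈ W (s y))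
    (hA : ∀ y a b c, y ∈ W a → y ∈ W b → y ∈ W c → A a b + A b c + A a c = 0)
    (hH : Subsingleton (Hq (ZMod 2) 1 Y)) {z : SC (ZMod 2) Y 1} (hz : sbd (ZMod 2) 0 z = 0)
    (hzs : z ∈ ⨆ w, inU (ZMod 2) (W w) 1) : cycTT W s A z = 0 := by
  have hcov : (⋃ w, W w) = Set.univ := by
    apply Set.eq_univ_of_forall
    intro y
    exact Set.mem_iUnion.2 ⟨s y, hs y⟩
  have hb : IsBdry (ZMod 2) 1 z :=
    (cls_eq_zero (ZMod 2) (X := Y) (n := 1) ⟨z, hz⟩).1 (Subsingleton.elim _ _)
  obtain ⟨c, hc⟩ := hb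
  obtain ⟨k, hk⟩ := h3 Y ι W hW hcov 2 c
  have h4 := cycTT_sbd hs hA hk
  have h5 : ∀ k : ℕ, sbd (ZMod 2) 1 (((SS (ZMod 2) 2) ^ k) c) = ((SS (ZMod 2) 1) ^ k) z := by
    intro k
    induction k with
    | zero => exact hc
    | succ k ih => rw [SS_pow_succ, SS_pow_succ, sbd_SS, ih]
  rw [h5 k, (cyc_pow hs hA hz hzs k).2.2] at h4
  exact h4

end abs

/-! ### the punctured star -/

section star

variable {ι : Type} [Fintype ι] [DecidableEq ι] (K : Cx ι) (v : ι)

/-- the vertex as a point -/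
noncomputable def cycE : K.real := ⟨Pi.single v 1, by
  refine ⟨?_, ?_, ?_⟩
  · intro i
    by_cases h : i = v
    · subst h
      rw [Pi.single_eq_same]
      exact zero_le_one
    · rw [Pi.single_eq_of_ne h]
  · rw [Finset.sum_pi_single']
    exact if_pos (Finset.mem_univ v)
  · have e : supp (Pi.single v (1 : ℝ) : ι → ℝ) = {v} := by
      ext i
      rw [supp, Finset.mem_filter, Finset.mem_singleton]
      constructor
      · rintro ⟨-, h⟩
        by_contra hne
        exact h (Pi.single_eq_of_ne hne _)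
      · rintro rfl
        refine ⟨Finset.mem_univ _, ?_⟩
        rw [Pi.single_eq_same]
        exact one_ne_zero
    rw [e]
    exact K.vertex_mem v⟩

/-- the punctured open star -/
abbrev CycY : Type := ↥(K.star {v} \ {cycE K v})

variable {K v}

theorem cyc_mem_star {x : K.real} : x ∈ K.star {v} ↔ 0 < x.1 v := by
  show 0 < ∑ i ∈ {v}, x.1 i ↔ _
  rw [Finset.sum_singleton]

theorem cyc_pos (y : CycY K v) : 0 < y.1.1 v := cyc_mem_star.1 y.2.1

theorem cyc_face_mem (y : CycY K v) (t : Finset ι) (ht : t.Nonempty) (h : ∀ i ∈ t, 0 < y.1.1 i) :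
    t ∈ K.faces := by
  refine K.down _ y.1.2.2.2 t ?_ ht
  intro i hi
  rw [supp, Finset.mem_filter]
  exact ⟨Finset.mem_univ _, (h i hi).ne'⟩

theorem cyc_exists (y : CycY K v) : ∃ w, w ≠ v ∧ 0 < y.1.1 w := by
  by_contra hcon
  push Not at hcon
  have h0 : ∀ w, w ≠ v → y.1.1 w = 0 := fun w hw => le_antisymm (hcon w hw) (y.1.2.1 w)
  apply y.2.2
  rw [Set.mem_singleton_iff]
  apply Subtype.ext
  funext i
  show y.1.1 i = (Pi.single v (1 : ℝ) : ι → ℝ) i
  have h1 : y.1.1 v = 1 := by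
    have h2 := y.1.2.2.1
    rw [Finset.sum_eq_single v (fun w _ hw => h0 w hw)
      (fun h => absurd (Finset.mem_univ v) h)] at h2
    exact h2
  by_cases h : i = v
  · subst h
    rw [Pi.single_eq_same, h1]
  · rw [Pi.single_eq_of_ne h, h0 i h]

/-- the cover -/
def cycW (K : Cx ι) (v : ι) (w : ι) : Set (CycY K v) := {y | w ≠ v ∧ 0 < y.1.1 w}

theorem cycW_open (w : ι) : IsOpen (cycW K v w) := by
  by_cases h : w = v
  · have : cycW K v w = ∅ := by
      ext y
      constructor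
      · rintro ⟨h1, -⟩
        exact h1 h
      · intro h1
        exact h1.elim
    rw [this]
    exact isOpen_empty
  · have : cycW K v w = (fun y : CycY K v => y.1.1 w) ⁻¹' Set.Ioi 0 := by
      ext y
      exact ⟨fun h1 => h1.2, fun h1 => ⟨h, h1⟩⟩
    rw [this]
    exact isOpen_Ioi.preimage
      ((continuous_apply w).comp (continuous_subtype_val.comp continuous_subtype_val))

/-- the coordinates of the points of the edge -/
noncomputable def cycF (v a b : ι) (u : ℝ) : ι → ℝ := fun i =>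
  (if i = v then 1 / 2 else 0) + (if i = a then (1 - u) / 2 else 0) + (if i = b then u / 2 else 0)

theorem cycF_real {a b : ι} (h : (K.link v).Adj a b) (u : ℝ) (hu : 0 ≤ u ∧ u ≤ 1) :
    (∀ i, 0 ≤ cycF v a b u i) ∧ ∑ i, cycF v a b u i = 1 ∧ supp (cycF v a b u) ∈ K.faces := by
  refine ⟨?_, ?_, ?_⟩
  · intro i
    unfold cycF
    have h1 : (0 : ℝ) ≤ (if i = v then 1 / 2 else 0) := by split_ifs <;> norm_num
    have h2 : (0 : ℝ) ≤ (if i = a then (1 - u) / 2 else 0) := by
      split_ifs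
      · linarith
      · exact le_rfl
    have h3 : (0 : ℝ) ≤ (if i = b then u / 2 else 0) := by
      split_ifs
      · linarith
      · exact le_rfl
    linarith
  · unfold cycF
    rw [Finset.sum_add_distrib, Finset.sum_add_distrib, Finset.sum_ite_eq', Finset.sum_ite_eq',
      Finset.sum_ite_eq', if_pos (Finset.mem_univ _), if_pos (Finset.mem_univ _),
      if_pos (Finset.mem_univ _)]
    ring
  · have hf : ({v, a, b} : Finset ι) ∈ K.faces := h.2.2.2
    refine K.down _ hf _ ?_ ?_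
    · intro i hi
      rw [supp, Finset.mem_filter] at hi
      by_contra hcon
      apply hi.2
      rw [Finset.mem_insert, Finset.mem_insert, Finset.mem_singleton] at hcon
      push Not at hcon
      unfold cycF
      rw [if_neg hcon.1, if_neg hcon.2.1, if_neg hcon.2.2]
      norm_num
    · refine ⟨v, ?_⟩
      rw [supp, Finset.mem_filter]
      refine ⟨Finset.mem_univ _, ?_⟩
      unfold cycF
      rw [if_pos rfl, if_neg (Ne.symm h.2.1), if_neg (Ne.symm h.2.2.1)]
      norm_num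

theorem cycF_v {a b : ι} (h : (K.link v).Adj a b) (u : ℝ) : cycF v a b u v = 1 / 2 := by
  unfold cycF
  rw [if_pos rfl, if_neg (Ne.symm h.2.1), if_neg (Ne.symm h.2.2.1)]
  norm_num

theorem cycF_a {a b : ι} (h : (K.link v).Adj a b) (u : ℝ) : cycF v a b u a = (1 - u) / 2 := by
  unfold cycF
  rw [if_neg h.2.1, if_pos rfl, if_neg h.1]
  ring

theorem cycF_b {a b : ι} (h : (K.link v).Adj a b) (u : ℝ) : cycF v a b u b = u / 2 := by
  unfold cycF
  rw [if_neg h.2.2.1, if_neg (Ne.symm h.1), if_pos rfl]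
  ring

theorem cycF_other {a b : ι} (u : ℝ) {w : ι} (hv : w ≠ v) (ha : w ≠ a) (hb : w ≠ b) :
    cycF v a b u w = 0 := by
  unfold cycF
  rw [if_neg hv, if_neg ha, if_neg hb]
  norm_num

/-- paths along the edge -/
noncomputable def cycPath {a b : ι} (h : (K.link v).Adj a b) (u : C(Sx 1, ℝ))
    (hu : ∀ t, 0 ≤ u t ∧ u t ≤ 1) : C(Sx 1, CycY K v) where
  toFun t := ⟨⟨cycF v a b (u t), cycF_real h (u t) (hu t)⟩, by
    refine ⟨?_, ?_⟩
    · rw [cyc_mem_star]
      show 0 < cycF v a b (u t) v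
      rw [cycF_v h]
      norm_num
    · intro hcon
      rw [Set.mem_singleton_iff] at hcon
      have h1 := congrArg (fun x : K.real => x.1 v) hcon
      have h2 : cycF v a b (u t) v = (Pi.single v (1 : ℝ) : ι → ℝ) v := h1
      rw [cycF_v h, Pi.single_eq_same] at h2
      norm_num at h2⟩
  continuous_toFun := by
    refine Continuous.subtype_mk (Continuous.subtype_mk ?_ _) _
    apply continuous_pi
    intro i
    unfold cycF
    have hc : Continuous (fun t => u t) := u.continuous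
    split_ifs <;> fun_prop

theorem cycPath_val {a b : ι} (h : (K.link v).Adj a b) (u : C(Sx 1, ℝ))
    (hu : ∀ t, 0 ≤ u t ∧ u t ≤ 1) (t : Sx 1) : (cycPath h u hu t).1.1 = cycF v a b (u t) := rfl

/-- the first half -/
noncomputable def cycU1 : C(Sx 1, ℝ) := ⟨fun t => t 1 / 2, by
  exact ((continuous_apply (1 : Fin 2)).comp continuous_subtype_val).div_const 2⟩

/-- the second half -/
noncomputable def cycU2 : C(Sx 1, ℝ) := ⟨fun t => 1 / 2 + t 1 / 2, by
  exact continuous_const.add (((continuous_apply (1 : Fin 2)).comp continuous_subtype_val).div_const 2)⟩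

theorem cycU1_mem (t : Sx 1) : 0 ≤ cycU1 t ∧ cycU1 t ≤ 1 := by
  have h1 := stdSimplex.zero_le t 1
  have h2 := stdSimplex.le_one t 1
  show 0 ≤ t 1 / 2 ∧ t 1 / 2 ≤ 1
  constructor <;> linarith

theorem cycU2_mem (t : Sx 1) : 0 ≤ cycU2 t ∧ cycU2 t ≤ 1 := by
  have h1 := stdSimplex.zero_le t 1
  have h2 := stdSimplex.le_one t 1
  show 0 ≤ 1 / 2 + t 1 / 2 ∧ 1 / 2 + t 1 / 2 ≤ 1
  constructor <;> linarith

theorem cyc_v0 : (stdSimplex.vertex 0 : Sx 1) 1 = 0 := by
  simp

theorem cyc_v1 : (stdSimplex.vertex 1 : Sx 1) 1 = 1 := by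
  simp

theorem cyc_face_const {Y : Type} [TopologicalSpace Y] (σ : C(Sx 1, Y)) (i : Fin 2) (y : Y)
    (h : σ (stdSimplex.vertex (i.succAbove 0)) = y) : face i σ = ContinuousMap.const _ y := by
  ext1 t
  have ht : t = stdSimplex.vertex 0 := by
    apply stdSimplex.ext
    funext j
    have hj : j = 0 := Fin.ext (by omega)
    subst hj
    have h1 := stdSimplex.sum_eq_one t
    rw [Fin.sum_univ_one] at h1
    rw [h1]
    simp
  rw [ht, cyc_face, h]
  rfl

theorem cyc_sbd {Y : Type} [TopologicalSpace Y] (σ : C(Sx 1, Y)) (y0 y1 : Y)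
    (h0 : σ (stdSimplex.vertex 0) = y0) (h1 : σ (stdSimplex.vertex 1) = y1) :
    sbd (ZMod 2) 0 (Finsupp.single σ 1) =
      Finsupp.single (ContinuousMap.const _ y1) 1 - Finsupp.single (ContinuousMap.const _ y0) 1 := by
  rw [sbd_single, sbdv, Fin.sum_univ_two, cyc_face_const σ 0 y1 h1, cyc_face_const σ 1 y0 h0]
  rw [Fin.val_zero, Fin.val_one, pow_zero, pow_one, one_smul, neg_one_smul, sub_eq_add_neg]

/-! ### edges of the link -/

/-- the chain of an edge -/
noncomputable def cycD (p : {p : ι × ι // (K.link v).Adj p.1 p.2}) : SC (ZMod 2) (CycY K v) 1 :=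
  Finsupp.single (cycPath p.2 cycU1 cycU1_mem) 1 + Finsupp.single (cycPath p.2 cycU2 cycU2_mem) 1

/-- the chain of a vertex of the link -/
noncomputable def cycP (K : Cx ι) (v a : ι) : SC (ZMod 2) (CycY K v) 0 := by
  classical
  exact if h : ∃ y : CycY K v, y.1.1 v = 1 / 2 ∧ y.1.1 a = 1 / 2 then
    Finsupp.single (ContinuousMap.const _ h.choose) 1 else 0

theorem cyc_unique (a : ι) (hav : a ≠ v) (y z : CycY K v) (hyv : y.1.1 v = 1 / 2)
    (hya : y.1.1 a = 1 / 2) (hzv : z.1.1 v = 1 / 2) (hza : z.1.1 a = 1 / 2) : y = z := by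
  have key : ∀ y : CycY K v, y.1.1 v = 1 / 2 → y.1.1 a = 1 / 2 → ∀ i, i ≠ v → i ≠ a →
      y.1.1 i = 0 := by
    intro y hv ha i hiv hia
    have h1 := y.1.2.2.1
    rw [← Finset.add_sum_erase _ _ (Finset.mem_univ v),
      ← Finset.add_sum_erase _ _ (Finset.mem_erase.2 ⟨hav, Finset.mem_univ a⟩), hv, ha] at h1
    have h2 : ∑ x ∈ (Finset.univ.erase v).erase a, y.1.1 x = 0 := by linarith
    rw [Finset.sum_eq_zero_iff_of_nonneg (fun j _ => y.1.2.1 j)] at h2
    exact h2 i (Finset.mem_erase.2 ⟨hia, Finset.mem_erase.2 ⟨hiv, Finset.mem_univ i⟩⟩)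
  apply Subtype.ext
  apply Subtype.ext
  funext i
  by_cases h1 : i = v
  · rw [h1, hyv, hzv]
  by_cases h2 : i = a
  · rw [h2, hya, hza]
  · rw [key y hyv hya i h1 h2, key z hzv hza i h1 h2]

theorem cycP_eq (a : ι) (hav : a ≠ v) (y : CycY K v) (hyv : y.1.1 v = 1 / 2)
    (hya : y.1.1 a = 1 / 2) : cycP K v a = Finsupp.single (ContinuousMap.const _ y) 1 := by
  classical
  have h : ∃ y : CycY K v, y.1.1 v = 1 / 2 ∧ y.1.1 a = 1 / 2 := ⟨y, hyv, hya⟩
  have e : cycP K v a = Finsupp.single (ContinuousMap.const _ h.choose) 1 := by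
    unfold cycP
    exact dif_pos h
  rw [e, cyc_unique a hav h.choose y h.choose_spec.1 h.choose_spec.2 hyv hya]

theorem cycU1_v0 : cycU1 (stdSimplex.vertex 0) = 0 := by
  show (stdSimplex.vertex 0 : Sx 1) 1 / 2 = 0
  rw [cyc_v0, zero_div]

theorem cycU1_v1 : cycU1 (stdSimplex.vertex 1) = 1 / 2 := by
  show (stdSimplex.vertex 1 : Sx 1) 1 / 2 = 1 / 2
  rw [cyc_v1]

theorem cycU2_v0 : cycU2 (stdSimplex.vertex 0) = 1 / 2 := by
  show 1 / 2 + (stdSimplex.vertex 0 : Sx 1) 1 / 2 = 1 / 2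
  rw [cyc_v0, zero_div, add_zero]

theorem cycU2_v1 : cycU2 (stdSimplex.vertex 1) = 1 := by
  show 1 / 2 + (stdSimplex.vertex 1 : Sx 1) 1 / 2 = 1
  rw [cyc_v1]
  norm_num

theorem cyc_mid (p : {p : ι × ι // (K.link v).Adj p.1 p.2}) :
    cycPath p.2 cycU1 cycU1_mem (stdSimplex.vertex 1) =
      cycPath p.2 cycU2 cycU2_mem (stdSimplex.vertex 0) := by
  apply Subtype.ext
  apply Subtype.ext
  rw [cycPath_val, cycPath_val, cycU1_v1, cycU2_v0]

theorem cycD_sbd (p : {p : ι × ι // (K.link v).Adj p.1 p.2}) :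
    sbd (ZMod 2) 0 (cycD p) = cycP K v p.1.2 - cycP K v p.1.1 := by
  rw [cycD, map_add, cyc_sbd _ _ _ rfl rfl, cyc_sbd _ _ _ rfl rfl, cyc_mid,
    cycP_eq p.1.1 p.2.2.1 (cycPath p.2 cycU1 cycU1_mem (stdSimplex.vertex 0)) (by
      rw [cycPath_val, cycF_v p.2]) (by
      rw [cycPath_val, cycF_a p.2, cycU1_v0, sub_zero]),
    cycP_eq p.1.2 p.2.2.2.1 (cycPath p.2 cycU2 cycU2_mem (stdSimplex.vertex 1)) (by
      rw [cycPath_val, cycF_v p.2]) (by
      rw [cycPath_val, cycF_b p.2, cycU2_v1])]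
  abel

theorem cycD_small (p : {p : ι × ι // (K.link v).Adj p.1 p.2}) :
    cycD p ∈ ⨆ w, inU (ZMod 2) (cycW K v w) 1 := by
  apply Submodule.add_mem
  · apply Submodule.mem_iSup_of_mem p.1.1
    apply single_mem_supp (ZMod 2) (P := fun σ : C(Sx 1, CycY K v) => ∀ t, σ t ∈ cycW K v p.1.1)
    intro t
    refine ⟨p.2.2.1, ?_⟩
    rw [cycPath_val, cycF_a p.2]
    have h2 := stdSimplex.le_one t 1
    have h3 : cycU1 t = t 1 / 2 := rfl
    rw [h3]
    linarith
  · apply Submodule.mem_iSup_of_mem p.1.2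
    apply single_mem_supp (ZMod 2) (P := fun σ : C(Sx 1, CycY K v) => ∀ t, σ t ∈ cycW K v p.1.2)
    intro t
    refine ⟨p.2.2.2.1, ?_⟩
    rw [cycPath_val, cycF_b p.2]
    have h2 := stdSimplex.zero_le t 1
    have h3 : cycU2 t = 1 / 2 + t 1 / 2 := rfl
    rw [h3]
    linarith

end star

private theorem cyc_factor {V W : Type} [AddCommGroup V] [Module (ZMod 2) V] [AddCommGroup W]
    [Module (ZMod 2) W] (f : V →ₗ[ZMod 2] W) (g : V →ₗ[ZMod 2] ZMod 2)
    (h : ∀ x, f x = 0 → g x = 0) : ∃ k : W →ₗ[ZMod 2] ZMod 2, ∀ x, k (f x) = g x := by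
  have h1 : g ∈ (LinearMap.ker f).dualAnnihilator := by
    rw [Submodule.mem_dualAnnihilator]
    intro x hx
    exact h x hx
  rw [← LinearMap.range_dualMap_eq_dualAnnihilator_ker f] at h1
  obtain ⟨k, hk⟩ := h1
  exact ⟨k, fun x => LinearMap.congr_fun hk x⟩

theorem mCyc (h1 : StarContrStmt) (h2 : LocHomStmt) (h3 : SmallStmt) : CycStmt := by
  classical
  intro ι _ _ K hK v α hα hcoc
  -- the homology of the punctured star
  have hopen : IsOpen (K.star {v}) := by
    have : K.star {v} = (fun x : K.real => x.1 v) ⁻¹' Set.Ioi 0 := by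
      ext x
      exact cyc_mem_star
    rw [this]
    exact isOpen_Ioi.preimage ((continuous_apply v).comp continuous_subtype_val)
  have hev : cycE K v ∈ K.star {v} := by
    rw [cyc_mem_star]
    show 0 < (Pi.single v (1 : ℝ) : ι → ℝ) v
    rw [Pi.single_eq_same]
    exact zero_lt_one
  have hH : Subsingleton (Hq (ZMod 2) 1 (CycY K v)) :=
    (h2 (ZMod 2) K.real hK (K.star {v}) hopen (h1 ι K v) (cycE K v) hev).1
  -- the choice of a vertex
  have hex : ∀ y : CycY K v, ∃ w, w ≠ v ∧ 0 < y.1.1 w := cyc_exists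
  choose s hs1 hs2 using hex
  let A : ι → ι → ZMod 2 := fun a b => if a = b then 0 else α a b
  have hAself : ∀ a, A a a = 0 := fun a => if_pos rfl
  have hAne : ∀ a b, a ≠ b → A a b = α a b := fun a b h => if_neg h
  have hAsym : ∀ a b, A a b = A b a := by
    intro a b
    by_cases h : a = b
    · rw [h]
    · rw [hAne a b h, hAne b a (Ne.symm h), hα]
  have hs : ∀ y, y ∈ cycW K v (s y) := fun y => ⟨hs1 y, hs2 y⟩
  have hA : ∀ (y : CycY K v) a b c, y ∈ cycW K v a → y ∈ cycW K v b → y ∈ cycW K v c →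
      A a b + A b c + A a c = 0 := by
    rintro y a b c ⟨hav, hya⟩ ⟨hbv, hyb⟩ ⟨hcv, hyc⟩
    by_cases hab : a = b
    · subst hab
      rw [hAself, zero_add, CharTwo.add_self_eq_zero]
    by_cases hbc : b = c
    · subst hbc
      rw [hAself, add_zero, CharTwo.add_self_eq_zero]
    by_cases hac : a = c
    · subst hac
      rw [hAself, add_zero, hAsym b a, CharTwo.add_self_eq_zero]
    rw [hAne a b hab, hAne b c hbc, hAne a c hac]
    have hyv := cyc_pos y
    have adj : ∀ i j, i ≠ j → i ≠ v → j ≠ v → 0 < y.1.1 i → 0 < y.1.1 j → (K.link v).Adj i j := by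
      intro i j hij hiv hjv hyi hyj
      refine ⟨hij, hiv, hjv, cyc_face_mem y _ ⟨v, Finset.mem_insert_self _ _⟩ ?_⟩
      intro k hk
      rw [Finset.mem_insert, Finset.mem_insert, Finset.mem_singleton] at hk
      rcases hk with rfl | rfl | rfl
      · exact hyv
      · exact hyi
      · exact hyj
    apply hcoc a b c (adj a b hab hav hbv hya hyb) (adj b c hbc hbv hcv hyb hyc)
      (adj a c hac hav hcv hya hyc)
    refine cyc_face_mem y _ ⟨v, Finset.mem_insert_self _ _⟩ ?_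
    intro k hk
    rw [Finset.mem_insert, Finset.mem_insert, Finset.mem_insert, Finset.mem_singleton] at hk
    rcases hk with rfl | rfl | rfl | rfl
    · exact hyv
    · exact hya
    · exact hyb
    · exact hyc
  -- the linear maps
  let E : Type := {p : ι × ι // (K.link v).Adj p.1 p.2}
  let bdE : (E →₀ ZMod 2) →ₗ[ZMod 2] (ι →₀ ZMod 2) :=
    Finsupp.linearCombination (ZMod 2) (fun p : E => Finsupp.single p.1.2 1 - Finsupp.single p.1.1 1)
  let LE : (E →₀ ZMod 2) →ₗ[ZMod 2] ZMod 2 :=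
    Finsupp.linearCombination (ZMod 2) (fun p : E => A p.1.1 p.1.2)
  let DE : (E →₀ ZMod 2) →ₗ[ZMod 2] SC (ZMod 2) (CycY K v) 1 :=
    Finsupp.linearCombination (ZMod 2) (fun p : E => cycD p)
  let PE : (ι →₀ ZMod 2) →ₗ[ZMod 2] SC (ZMod 2) (CycY K v) 0 :=
    Finsupp.linearCombination (ZMod 2) (fun a => cycP K v a)
  have e1 : (sbd (ZMod 2) 0) ∘ₗ DE = PE ∘ₗ bdE := by
    apply Finsupp.lhom_ext'
    intro p
    apply LinearMap.ext_ring
    show sbd (ZMod 2) 0 (DE (Finsupp.single p 1)) = PE (bdE (Finsupp.single p 1))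
    have hD : DE (Finsupp.single p 1) = cycD p := by
      show Finsupp.linearCombination (ZMod 2) _ _ = _
      rw [Finsupp.linearCombination_single, one_smul]
    have hb : bdE (Finsupp.single p 1) = Finsupp.single p.1.2 1 - Finsupp.single p.1.1 1 := by
      show Finsupp.linearCombination (ZMod 2) _ _ = _
      rw [Finsupp.linearCombination_single, one_smul]
    have hP : ∀ a, PE (Finsupp.single a 1) = cycP K v a := by
      intro a
      show Finsupp.linearCombination (ZMod 2) _ _ = _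
      rw [Finsupp.linearCombination_single, one_smul]
    rw [hD, hb, map_sub, hP, hP]
    exact cycD_sbd p
  have e2 : (cycTT (cycW K v) s A) ∘ₗ DE = LE := by
    apply Finsupp.lhom_ext'
    intro p
    apply LinearMap.ext_ring
    show cycTT (cycW K v) s A (DE (Finsupp.single p 1)) = LE (Finsupp.single p 1)
    have hD : DE (Finsupp.single p 1) = cycD p := by
      show Finsupp.linearCombination (ZMod 2) _ _ = _
      rw [Finsupp.linearCombination_single, one_smul]
    have hL : LE (Finsupp.single p 1) = A p.1.1 p.1.2 := by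
      show Finsupp.linearCombination (ZMod 2) _ _ = _
      rw [Finsupp.linearCombination_single, one_smul]
    rw [hD, hL, cycD, map_add, cycTT_single, cycTT_single]
    have hw1 : ∀ t, cycPath p.2 cycU1 cycU1_mem t ∈ cycW K v p.1.1 := by
      intro t
      refine ⟨p.2.2.1, ?_⟩
      rw [cycPath_val, cycF_a p.2]
      have h2 := stdSimplex.le_one t 1
      have h3 : cycU1 t = t 1 / 2 := rfl
      rw [h3]
      linarith
    have hw2 : ∀ t, cycPath p.2 cycU2 cycU2_mem t ∈ cycW K v p.1.2 := by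
      intro t
      refine ⟨p.2.2.2.1, ?_⟩
      rw [cycPath_val, cycF_b p.2]
      have h2 := stdSimplex.zero_le t 1
      have h3 : cycU2 t = 1 / 2 + t 1 / 2 := rfl
      rw [h3]
      linarith
    rw [cycTh_eq hs hA _ p.1.1 hw1, cycTh_eq hs hA _ p.1.2 hw2, cyc_mid]
    have s0 : s (cycPath p.2 cycU1 cycU1_mem (stdSimplex.vertex 0)) = p.1.1 := by
      by_contra hne
      have h4 := hs2 (cycPath p.2 cycU1 cycU1_mem (stdSimplex.vertex 0))
      have h5 := hs1 (cycPath p.2 cycU1 cycU1_mem (stdSimplex.vertex 0))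
      rw [cycPath_val, cycU1_v0] at h4
      by_cases hb : s (cycPath p.2 cycU1 cycU1_mem (stdSimplex.vertex 0)) = p.1.2
      · rw [hb, cycF_b p.2, zero_div] at h4
        exact lt_irrefl _ h4
      · rw [cycF_other 0 h5 hne hb] at h4
        exact lt_irrefl _ h4
    have s3 : s (cycPath p.2 cycU2 cycU2_mem (stdSimplex.vertex 1)) = p.1.2 := by
      by_contra hne
      have h4 := hs2 (cycPath p.2 cycU2 cycU2_mem (stdSimplex.vertex 1))
      have h5 := hs1 (cycPath p.2 cycU2 cycU2_mem (stdSimplex.vertex 1))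
      rw [cycPath_val, cycU2_v1] at h4
      by_cases hb : s (cycPath p.2 cycU2 cycU2_mem (stdSimplex.vertex 1)) = p.1.1
      · rw [hb, cycF_a p.2, sub_self, zero_div] at h4
        exact lt_irrefl _ h4
      · rw [cycF_other 1 h5 hb hne] at h4
        exact lt_irrefl _ h4
    have sm : s (cycPath p.2 cycU2 cycU2_mem (stdSimplex.vertex 0)) = p.1.1 ∨
        s (cycPath p.2 cycU2 cycU2_mem (stdSimplex.vertex 0)) = p.1.2 := by
      by_contra hne
      push Not at hne
      have h4 := hs2 (cycPath p.2 cycU2 cycU2_mem (stdSimplex.vertex 0))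
      have h5 := hs1 (cycPath p.2 cycU2 cycU2_mem (stdSimplex.vertex 0))
      rw [cycPath_val, cycF_other _ h5 hne.1 hne.2] at h4
      exact lt_irrefl _ h4
    rw [s0, s3, hAself, hAself, zero_add, add_zero]
    rcases sm with h | h
    · rw [h, hAself, zero_add]
    · rw [h, hAself, add_zero, hAsym]
  have e3 : ∀ z, DE z ∈ ⨆ w, inU (ZMod 2) (cycW K v w) 1 := by
    intro z
    induction z using Finsupp.induction_linear with
    | zero =>
      rw [map_zero]
      exact Submodule.zero_mem _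
    | add x y hx hy =>
      rw [map_add]
      exact Submodule.add_mem _ hx hy
    | single p r =>
      have : DE (Finsupp.single p r) = r • cycD p := by
        show Finsupp.linearCombination (ZMod 2) _ _ = _
        rw [Finsupp.linearCombination_single]
      rw [this]
      exact Submodule.smul_mem _ _ (cycD_small p)
  obtain ⟨k, hk⟩ := cyc_factor bdE LE (by
    intro z hz
    have h4 : sbd (ZMod 2) 0 (DE z) = 0 := by
      have := LinearMap.congr_fun e1 z
      rw [LinearMap.comp_apply, LinearMap.comp_apply, hz, map_zero] at this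
      exact this
    have h5 := cyc_abs h3 cycW_open hs hA hH h4 (e3 z)
    have h6 := LinearMap.congr_fun e2 z
    rw [LinearMap.comp_apply, h5] at h6
    exact h6.symm)
  refine ⟨fun a => k (Finsupp.single a 1), ?_⟩
  intro a b hab
  have h7 := hk (Finsupp.single (⟨(a, b), hab⟩ : E) 1)
  have hb : bdE (Finsupp.single (⟨(a, b), hab⟩ : E) 1) =
      Finsupp.single b 1 - Finsupp.single a 1 := by
    show Finsupp.linearCombination (ZMod 2) _ _ = _
    rw [Finsupp.linearCombination_single, one_smul]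
  have hL : LE (Finsupp.single (⟨(a, b), hab⟩ : E) 1) = A a b := by
    show Finsupp.linearCombination (ZMod 2) _ _ = _
    rw [Finsupp.linearCombination_single, one_smul]
  rw [hb, hL, map_sub, hAne a b hab.1, CharTwo.sub_eq_add] at h7
  rw [← h7, add_comm]

end TightRP
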