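import Pool.Agent.Lib.MP_7cdc3e_gt.Spec

open HoloConj Pool.Agent.Lib.SingHom

namespace TightRP

private lemma del_two (x : ZMod 2) : x + x = 0 := by
  rw [← two_mul]
  have h : (2 : ZMod 2) = 0 := by decide
  rw [h, zero_mul]

private lemma del_sum_symm {α : Type} [DecidableEq α] (A B : Finset α) (g : α → ZMod 2) :
    ∑ x ∈ (A \ B) ∪ (B \ A), g x = ∑ x ∈ A, g x + ∑ x ∈ B, g x := by
  have hd : Disjoint (A \ B) (B \ A) := by
    rw [Finset.disjoint_left]
    intro x h1 h2
    exact (Finset.mem_sdiff.1 h2).2 (Finset.mem_sdiff.1 h1).1
  rw [Finset.sum_union hd]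
  have h1 := Finset.sum_inter_add_sum_sdiff A B g
  have h2 := Finset.sum_inter_add_sum_sdiff B A g
  rw [Finset.inter_comm B A] at h2
  rw [← h1, ← h2]
  have h3 := del_two (∑ x ∈ A ∩ B, g x)
  calc ∑ x ∈ A \ B, g x + ∑ x ∈ B \ A, g x
      = ∑ x ∈ A \ B, g x + ∑ x ∈ B \ A, g x + 0 := (add_zero _).symm
    _ = ∑ x ∈ A \ B, g x + ∑ x ∈ B \ A, g x + (∑ x ∈ A ∩ B, g x + ∑ x ∈ A ∩ B, g x) := by rw [h3]
    _ = _ := by ring

private lemma del_even {α : Type} [DecidableEq α] (A : Finset α) (P : α → Prop) [DecidablePred P] :
    Even (A.filter P).card ↔ ∑ x ∈ A, (if P x then (1 : ZMod 2) else 0) = 0 := by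
  rw [← Finset.sum_filter, Finset.sum_const, nsmul_eq_mul, mul_one, ZMod.natCast_eq_zero_iff_even]

private lemma del_one {V W : Type} [DecidableEq V] (q : V → W) (E : Finset (Sym2 V)) (m : ℕ)
    (f : Fin m → Finset (Sym2 V)) (h : ML q E f) (e : Sym2 V) :
    ∃ f' : Fin m → Finset (Sym2 V), ML q (E.erase e) f' := by
  classical
  unfold ML at h ⊢
  obtain ⟨h1, h2, h3, h4, h5⟩ := h
  by_cases hJ : ∀ j, e ∉ f j
  · refine ⟨f, fun x hx => h1 x (Finset.mem_of_mem_erase hx), fun j x hx => ?_, h3,
      fun x hx => h4 x (Finset.mem_of_mem_erase hx), fun α hα => ?_⟩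
    · rw [Finset.mem_erase]
      refine ⟨fun h6 => hJ j (h6 ▸ hx), h2 j hx⟩
    · obtain ⟨β, hβ⟩ := h5 α hα
      exact ⟨β, fun a b hab => hβ a b (Finset.mem_of_mem_erase hab)⟩
  · push Not at hJ
    obtain ⟨j1, hj1⟩ := hJ
    have heE : e ∈ E := h2 j1 hj1
    -- the modified function
    have key : ∀ (α : Sym2 V → ZMod 2) (s : ZMod 2) (A : Finset (Sym2 V)),
        ∑ x ∈ A, (α x + if x = e then s else 0) = ∑ x ∈ A, α x + if e ∈ A then s else 0 := by
      intro α s A
      rw [Finset.sum_add_distrib, Finset.sum_ite_eq' A e (fun _ => s)]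
    have key2 : ∀ (α : Sym2 V → ZMod 2) (s : ZMod 2),
        (∀ j, ∑ x ∈ f j, (α x + if x = e then s else 0) = 0) →
        ∃ β : W → ZMod 2, ∀ a b, s(a, b) ∈ E.erase e → α s(a, b) = β (q a) + β (q b) := by
      intro α s hα
      obtain ⟨β, hβ⟩ := h5 (fun x => α x + if x = e then s else 0) hα
      refine ⟨β, fun a b hab => ?_⟩
      rw [Finset.mem_erase] at hab
      have h6 := hβ a b hab.2
      simp only [if_neg hab.1, add_zero] at h6
      exact h6
    by_cases hJ2 : ∃ j2, j2 ≠ j1 ∧ e ∈ f j2
    · obtain ⟨j2, hj21, hj2⟩ := hJ2
      have huniq : ∀ j, e ∈ f j → j = j1 ∨ j = j2 := by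
        intro j hj
        by_contra hne
        push Not at hne
        have h6 : ({j, j1, j2} : Finset (Fin m)) ⊆ Finset.univ.filter (fun j => e ∈ f j) := by
          intro x hx
          rw [Finset.mem_filter]
          refine ⟨Finset.mem_univ x, ?_⟩
          rw [Finset.mem_insert, Finset.mem_insert, Finset.mem_singleton] at hx
          rcases hx with rfl | rfl | rfl
          · exact hj
          · exact hj1
          · exact hj2
        have h7 := Finset.card_le_card h6
        have h8 : ({j, j1, j2} : Finset (Fin m)).card = 3 := by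
          rw [Finset.card_eq_three]
          exact ⟨j, j1, j2, hne.1, hne.2, hj21.symm, rfl⟩
        have h9 := h4 e heE
        omega
      set f' : Fin m → Finset (Sym2 V) := fun j =>
        if j = j1 then (f j1 \ f j2) ∪ (f j2 \ f j1) else if j = j2 then ∅ else f j with hf'
      have f1 : f' j1 = (f j1 \ f j2) ∪ (f j2 \ f j1) := by
        simp only [hf', if_true]
      have f2 : f' j2 = ∅ := by
        simp only [hf', if_neg hj21, if_true]
      have f3 : ∀ j, j ≠ j1 → j ≠ j2 → f' j = f j := by
        intro j h6 h7
        simp only [hf', if_neg h6, if_neg h7]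
      refine ⟨f', fun x hx => h1 x (Finset.mem_of_mem_erase hx), fun j x hx => ?_, fun j w => ?_, fun x hx => ?_,
        fun α hα => ?_⟩
      · rw [Finset.mem_erase]
        by_cases hjj1 : j = j1
        · rw [hjj1, f1, Finset.mem_union, Finset.mem_sdiff, Finset.mem_sdiff] at hx
          rcases hx with hx | hx
          · exact ⟨fun h6 => hx.2 (h6 ▸ hj2), h2 _ hx.1⟩
          · exact ⟨fun h6 => hx.2 (h6 ▸ hj1), h2 _ hx.1⟩
        · by_cases hjj2 : j = j2
          · rw [hjj2, f2] at hx
            exact absurd hx (Finset.notMem_empty x)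
          · rw [f3 j hjj1 hjj2] at hx
            refine ⟨fun h6 => ?_, h2 _ hx⟩
            rcases huniq j (h6 ▸ hx) with h7 | h7
            · exact hjj1 h7
            · exact hjj2 h7
      · by_cases hjj1 : j = j1
        · rw [hjj1, f1, del_even, del_sum_symm, (del_even _ _).1 (h3 j1 w), (del_even _ _).1 (h3 j2 w), add_zero]
        · by_cases hjj2 : j = j2
          · rw [hjj2, f2]
            simp
          · rw [f3 j hjj1 hjj2]
            exact h3 j w
      · have hx4 := h4 x (Finset.mem_of_mem_erase hx)
        refine le_trans ?_ hx4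
        by_cases hx1 : x ∈ f j1
        · apply Finset.card_le_card
          intro j hj
          rw [Finset.mem_filter] at hj ⊢
          refine ⟨Finset.mem_univ j, ?_⟩
          by_cases hjj1 : j = j1
          · rw [hjj1]
            exact hx1
          · by_cases hjj2 : j = j2
            · rw [hjj2, f2] at hj
              exact absurd hj.2 (Finset.notMem_empty x)
            · rw [f3 j hjj1 hjj2] at hj
              exact hj.2
        · by_cases hx2 : x ∈ f j2
          · have h6 : Finset.univ.filter (fun j => x ∈ f' j) ⊆
                insert j1 ((Finset.univ.filter (fun j => x ∈ f j)).erase j2) := by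
              intro j hj
              rw [Finset.mem_filter] at hj
              rw [Finset.mem_insert, Finset.mem_erase, Finset.mem_filter]
              by_cases hjj1 : j = j1
              · exact Or.inl hjj1
              · by_cases hjj2 : j = j2
                · rw [hjj2, f2] at hj
                  exact absurd hj.2 (Finset.notMem_empty x)
                · rw [f3 j hjj1 hjj2] at hj
                  exact Or.inr ⟨hjj2, Finset.mem_univ j, hj.2⟩
            have h7 := Finset.card_le_card h6
            have h8 := Finset.card_insert_le j1 ((Finset.univ.filter (fun j => x ∈ f j)).erase j2)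
            have h9 : j2 ∈ Finset.univ.filter (fun j => x ∈ f j) := by
              rw [Finset.mem_filter]
              exact ⟨Finset.mem_univ j2, hx2⟩
            have h10 := Finset.card_erase_add_one h9
            omega
          · apply Finset.card_le_card
            intro j hj
            rw [Finset.mem_filter] at hj ⊢
            refine ⟨Finset.mem_univ j, ?_⟩
            by_cases hjj1 : j = j1
            · rw [hjj1, f1, Finset.mem_union, Finset.mem_sdiff, Finset.mem_sdiff] at hj
              rcases hj.2 with h6 | h6
              · exact absurd h6.1 hx1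
              · exact absurd h6.1 hx2
            · by_cases hjj2 : j = j2
              · rw [hjj2, f2] at hj
                exact absurd hj.2 (Finset.notMem_empty x)
              · rw [f3 j hjj1 hjj2] at hj
                exact hj.2
      · apply key2 α (∑ x ∈ f j1, α x)
        intro j
        rw [key]
        by_cases hjj1 : j = j1
        · rw [hjj1, if_pos hj1]
          exact del_two _
        · by_cases hjj2 : j = j2
          · rw [hjj2, if_pos hj2]
            have h6 := hα j1
            rw [f1, del_sum_symm] at h6
            rw [add_comm]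
            exact h6
          · have h6 : e ∉ f j := by
              intro h7
              rcases huniq j h7 with h8 | h8
              · exact hjj1 h8
              · exact hjj2 h8
            have h7 := hα j
            rw [f3 j hjj1 hjj2] at h7
            rw [if_neg h6, h7, add_zero]
    · have huniq : ∀ j, j ≠ j1 → e ∉ f j := fun j h6 h7 => hJ2 ⟨j, h6, h7⟩
      set f' : Fin m → Finset (Sym2 V) := fun j => if j = j1 then ∅ else f j with hf'
      have f1 : f' j1 = ∅ := by
        simp only [hf', if_true]
      have f3 : ∀ j, j ≠ j1 → f' j = f j := by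
        intro j h6
        simp only [hf', if_neg h6]
      refine ⟨f', fun x hx => h1 x (Finset.mem_of_mem_erase hx), fun j x hx => ?_, fun j w => ?_, fun x hx => ?_,
        fun α hα => ?_⟩
      · rw [Finset.mem_erase]
        by_cases hjj1 : j = j1
        · rw [hjj1, f1] at hx
          exact absurd hx (Finset.notMem_empty x)
        · rw [f3 j hjj1] at hx
          exact ⟨fun h6 => huniq j hjj1 (h6 ▸ hx), h2 _ hx⟩
      · by_cases hjj1 : j = j1
        · rw [hjj1, f1]
          simp
        · rw [f3 j hjj1]
          exact h3 j w
      · refine le_trans (Finset.card_le_card ?_) (h4 x (Finset.mem_of_mem_erase hx))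
        intro j hj
        rw [Finset.mem_filter] at hj ⊢
        refine ⟨Finset.mem_univ j, ?_⟩
        by_cases hjj1 : j = j1
        · rw [hjj1, f1] at hj
          exact absurd hj.2 (Finset.notMem_empty x)
        · rw [f3 j hjj1] at hj
          exact hj.2
      · apply key2 α (∑ x ∈ f j1, α x)
        intro j
        rw [key]
        by_cases hjj1 : j = j1
        · rw [hjj1, if_pos hj1]
          exact del_two _
        · have h7 := hα j
          rw [f3 j hjj1] at h7
          rw [if_neg (huniq j hjj1), h7, add_zero]

theorem pDel : DelStmt := by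
  classical
  intro V W _ q E m f h E' hE'
  have main : ∀ n : ℕ, ∀ (E : Finset (Sym2 V)) (f : Fin m → Finset (Sym2 V)), ML q E f → E' ⊆ E →
      (E \ E').card = n → ∃ f' : Fin m → Finset (Sym2 V), ML q E' f' := by
    intro n
    induction n with
    | zero =>
      intro E f h hE hn
      rw [Finset.card_eq_zero, Finset.sdiff_eq_empty_iff_subset] at hn
      have h1 : E = E' := Finset.Subset.antisymm hn hE
      rw [← h1]
      exact ⟨f, h⟩
    | succ n ih =>
      intro E f h hE hn
      have h1 : (E \ E').Nonempty := by
        rw [← Finset.card_pos]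
        omega
      obtain ⟨e, he⟩ := h1
      rw [Finset.mem_sdiff] at he
      obtain ⟨f', hf'⟩ := del_one q E m f h e
      refine ih (E.erase e) f' hf' ?_ ?_
      · intro x hx
        rw [Finset.mem_erase]
        exact ⟨fun h2 => he.2 (h2 ▸ hx), hE hx⟩
      · have h2 : E.erase e \ E' = (E \ E').erase e := by
          ext x
          simp only [Finset.mem_sdiff, Finset.mem_erase]
          tauto
        rw [h2, Finset.card_erase_of_mem (Finset.mem_sdiff.2 he), hn]
        rfl
  obtain ⟨f', hf'⟩ := main _ E f h hE' rfl
  exact ⟨m, f', hf'⟩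

end TightRP
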