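import Pool.Agent.Lib.MP_7cdc3e_gt.Spec

/-!
# MP_7cdc3e_gt, module Facet: facets of a finitely generated cone
-/

open HoloConj Pool.Agent.Lib.SingHom

namespace TightRP

/-- a functional which vanishes on the span of the zeros and not on a vector of the kernel of `w`
leads to a functional with more zeros -/
theorem facetStep {W : Type} [AddCommGroup W] [Module ℝ W] [FiniteDimensional ℝ W] {X : Set W}
    (hX : X.Finite) {w u : W →ₗ[ℝ] ℝ} (hw : ∀ x ∈ X, 0 ≤ w x)
    (hu : Submodule.span ℝ {x ∈ X | w x = 0} ≤ LinearMap.ker u) {z : W} (hz : w z = 0)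
    (huz : u z ≠ 0) (hneg : ∃ x ∈ X, u x < 0) :
    ∃ w' : W →ₗ[ℝ] ℝ, w' ≠ 0 ∧ (∀ x ∈ X, 0 ≤ w' x) ∧
      Module.finrank ℝ (Submodule.span ℝ {x ∈ X | w x = 0}) <
        Module.finrank ℝ (Submodule.span ℝ {x ∈ X | w' x = 0}) := by
  obtain ⟨x₀, hx₀, hx₀u⟩ := hneg
  have hfin : {x ∈ X | u x < 0}.Finite := hX.subset (Set.sep_subset _ _)
  obtain ⟨x₁, hx₁, hmin⟩ := Set.exists_min_image {x ∈ X | u x < 0} (fun x => w x / (- u x)) hfin
    ⟨x₀, hx₀, hx₀u⟩
  have hwpos : ∀ x ∈ X, u x < 0 → 0 < w x := by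
    intro x hx hux
    rcases (hw x hx).lt_or_eq with h | h
    · exact h
    · exfalso
      have h1 : u x = 0 := hu (Submodule.subset_span ⟨hx, h.symm⟩)
      exact hux.ne h1
  have ht0 : 0 < w x₁ / (- u x₁) := div_pos (hwpos x₁ hx₁.1 hx₁.2) (by linarith [hx₁.2])
  set t := w x₁ / (- u x₁) with ht
  refine ⟨w + t • u, ?_, ?_, ?_⟩
  · intro h
    have h1 := LinearMap.congr_fun h z
    rw [LinearMap.add_apply, LinearMap.smul_apply, hz, LinearMap.zero_apply, zero_add,
      smul_eq_mul] at h1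
    rcases mul_eq_zero.mp h1 with h2 | h2
    · exact ht0.ne' h2
    · exact huz h2
  · intro x hx
    rw [LinearMap.add_apply, LinearMap.smul_apply, smul_eq_mul]
    by_cases hux : u x < 0
    · have h1 : t ≤ w x / (- u x) := hmin x ⟨hx, hux⟩
      rw [le_div_iff₀ (by linarith)] at h1
      nlinarith
    · have h1 : 0 ≤ t * u x := mul_nonneg ht0.le (not_lt.mp hux)
      have := hw x hx
      linarith
  · apply Submodule.finrank_lt_finrank_of_lt
    refine lt_of_le_of_ne (Submodule.span_mono ?_) ?_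
    · rintro x ⟨hx, hwx⟩
      refine ⟨hx, ?_⟩
      have h1 : u x = 0 := hu (Submodule.subset_span ⟨hx, hwx⟩)
      rw [LinearMap.add_apply, LinearMap.smul_apply, hwx, h1]
      simp
    · intro h
      have h1 : x₁ ∈ Submodule.span ℝ {x ∈ X | w x = 0} := by
        rw [h]
        refine Submodule.subset_span ⟨hx₁.1, ?_⟩
        rw [LinearMap.add_apply, LinearMap.smul_apply, smul_eq_mul, ht]
        have h3 : u x₁ ≠ 0 := hx₁.2.ne
        rw [div_neg, neg_mul, div_mul_cancel₀ _ h3, add_neg_cancel]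
      have h2 : u x₁ = 0 := hu h1
      exact hx₁.2.ne h2

theorem fFacet : FacetStmt := by
  classical
  intro W _ _ _ X hX hspan ⟨w₀, hw₀⟩ hdim
  let P : ℕ → Prop := fun k => ∃ w : W →ₗ[ℝ] ℝ, w ≠ 0 ∧ (∀ x ∈ X, 0 ≤ w x) ∧
    Module.finrank ℝ (Submodule.span ℝ {x ∈ X | w x = 0}) = k
  have hXne : X.Nonempty := by
    by_contra h
    rw [Set.not_nonempty_iff_eq_empty] at h
    rw [h, Submodule.span_empty] at hspan
    have h1 : Module.finrank ℝ (⊥ : Submodule ℝ W) = Module.finrank ℝ W := by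
      rw [hspan]; exact finrank_top ℝ W
    rw [finrank_bot] at h1
    omega
  have hP0 : ∃ k, P k := by
    obtain ⟨x, hx⟩ := hXne
    refine ⟨_, w₀, ?_, fun x hx => (hw₀ x hx).le, rfl⟩
    intro h
    have := hw₀ x hx
    rw [h, LinearMap.zero_apply] at this
    exact lt_irrefl _ this
  have hPb : ∀ k, P k → k ≤ Module.finrank ℝ W := by
    rintro k ⟨w, -, -, hk⟩
    rw [← hk]
    exact Submodule.finrank_le _
  obtain ⟨k₀, hk₀⟩ := hP0
  have hPk := Nat.findGreatest_spec (P := P) (hPb k₀ hk₀) hk₀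
  set k := Nat.findGreatest P (Module.finrank ℝ W) with hk
  obtain ⟨w, hw0, hwX, hwk⟩ := hPk
  refine ⟨w, hw0, hwX, ?_⟩
  have hker : Submodule.span ℝ {x ∈ X | w x = 0} ≤ LinearMap.ker w := by
    rw [Submodule.span_le]
    rintro x ⟨-, hx⟩
    exact hx
  have hkd : Module.finrank ℝ (LinearMap.ker w) + 1 = Module.finrank ℝ W := by
    have h1 := LinearMap.finrank_range_add_finrank_ker w
    have h2 : LinearMap.range w = ⊤ := LinearMap.range_eq_top.mpr (LinearMap.surjective hw0)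
    rw [h2, finrank_top, Module.finrank_self] at h1
    omega
  by_contra hcon
  have hlt : Submodule.span ℝ {x ∈ X | w x = 0} < LinearMap.ker w := by
    refine lt_of_le_of_ne hker fun h => hcon ?_
    rw [h]; exact hkd
  obtain ⟨z, hz, hzY⟩ := SetLike.exists_of_lt hlt
  obtain ⟨u, huz, hu⟩ := Submodule.exists_le_ker_of_notMem hzY
  have hux : ∃ x ∈ X, u x ≠ 0 := by
    by_contra h
    have h1 : Submodule.span ℝ X ≤ LinearMap.ker u := by
      rw [Submodule.span_le]
      intro y hy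
      by_contra h2
      exact h ⟨y, hy, h2⟩
    rw [hspan] at h1
    exact huz (h1 Submodule.mem_top)
  have hmax : ∀ w' : W →ₗ[ℝ] ℝ, w' ≠ 0 → (∀ x ∈ X, 0 ≤ w' x) →
      ¬ Module.finrank ℝ (Submodule.span ℝ {x ∈ X | w x = 0}) <
        Module.finrank ℝ (Submodule.span ℝ {x ∈ X | w' x = 0}) := by
    intro w' h1 h2 h3
    have h4 : P (Module.finrank ℝ (Submodule.span ℝ {x ∈ X | w' x = 0})) := ⟨w', h1, h2, rfl⟩
    have h5 := Nat.le_findGreatest (hPb _ h4) h4
    rw [← hk] at h5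
    omega
  obtain ⟨x, hx, hux⟩ := hux
  rcases lt_or_gt_of_ne hux with h | h
  · obtain ⟨w', h1, h2, h3⟩ := facetStep hX hwX hu hz huz ⟨x, hx, h⟩
    exact hmax w' h1 h2 h3
  · have hu' : Submodule.span ℝ {x ∈ X | w x = 0} ≤ LinearMap.ker (-u) := by
      intro y hy
      have : u y = 0 := hu hy
      rw [LinearMap.mem_ker, LinearMap.neg_apply, this, neg_zero]
    obtain ⟨w', h1, h2, h3⟩ := facetStep hX hwX hu' hz
      (by rw [LinearMap.neg_apply]; exact neg_ne_zero.mpr huz)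
      ⟨x, hx, by rw [LinearMap.neg_apply]; linarith⟩
    exact hmax w' h1 h2 h3

end TightRP
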