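import Pool.Agent.Lib.MP_7cdc3e_gt.Spec

/-!
# MP_7cdc3e_gt, module Flag: ten layers cut off by half-spaces
-/

open HoloConj Pool.Agent.Lib.SingHom

namespace TightRP

/-- the lifted points span -/
theorem flagSpan {ι : Type} {N : ℕ} (hN : 1 ≤ N) {p : ι → EuclideanSpace ℝ (Fin N)}
    (hp : ∀ (l : EuclideanSpace ℝ (Fin N) →ₗ[ℝ] ℝ) (c : ℝ), (∀ i, l (p i) = c) → l = 0) :
    Submodule.span ℝ (Set.range (fun i => ((1 : ℝ), p i))) = ⊤ := by
  have hne : Nonempty ι := by
    by_contra h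
    rw [not_nonempty_iff] at h
    have h1 := hp (EuclideanSpace.proj (⟨0, hN⟩ : Fin N) :
      EuclideanSpace ℝ (Fin N) →L[ℝ] ℝ).toLinearMap 0 (fun i => (h.false i).elim)
    have h2 := LinearMap.congr_fun h1 (EuclideanSpace.single (⟨0, hN⟩ : Fin N) (1 : ℝ))
    simp at h2
  obtain ⟨i₀⟩ := hne
  by_contra h
  obtain ⟨z, hz⟩ : ∃ z, z ∉ Submodule.span ℝ (Set.range (fun i => ((1 : ℝ), p i))) := by
    by_contra h'
    apply h
    rw [eq_top_iff]
    intro z _
    by_contra h2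
    exact h' ⟨z, h2⟩
  obtain ⟨f, hfz, hf⟩ := Submodule.exists_le_ker_of_notMem hz
  have h1 : ∀ i, f (1, p i) = 0 := fun i => hf (Submodule.subset_span ⟨i, rfl⟩)
  have hdec : ∀ y : ℝ × EuclideanSpace ℝ (Fin N), f y = y.1 * f (1, 0) + f (0, y.2) := by
    intro y
    have e1 : y = y.1 • ((1 : ℝ), (0 : EuclideanSpace ℝ (Fin N))) + (0, y.2) := by
      ext <;> simp
    conv_lhs => rw [e1]
    rw [map_add, map_smul, smul_eq_mul]
  have h2 : ∀ i, (f ∘ₗ LinearMap.inr ℝ ℝ (EuclideanSpace ℝ (Fin N))) (p i) = - f (1, 0) := by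
    intro i
    have h3 := hdec (1, p i)
    rw [h1 i] at h3
    show f (0, p i) = - f (1, 0)
    have h4 : (0 : ℝ) = 1 * f (1, 0) + f (0, p i) := h3
    linarith
  have h3 := hp _ _ h2
  have h4 : ∀ y, f (0, y) = 0 := fun y => LinearMap.congr_fun h3 y
  have h5 : f (1, 0) = 0 := by
    have := h2 i₀
    rw [h3, LinearMap.zero_apply] at this
    linarith
  apply hfz
  rw [hdec z, h5, h4]
  ring

/-- the bottom points lie on a segment -/
theorem flagLine {ι : Type} [Fintype ι] {N : ℕ} (p : ι → EuclideanSpace ℝ (Fin N)) (B : Set ι)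
    (hr : Module.finrank ℝ (Submodule.span ℝ ((fun i => ((1 : ℝ), p i)) '' B)) = 2) :
    ∃ ia ∈ B, ∃ ib ∈ B, ∃ ρ : EuclideanSpace ℝ (Fin N) →ₗ[ℝ] ℝ, ρ (p ib) - ρ (p ia) = 1 ∧
      ∀ i ∈ B, 0 ≤ ρ (p i) - ρ (p ia) ∧ ρ (p i) - ρ (p ia) ≤ 1 ∧
        p i = p ia + (ρ (p i) - ρ (p ia)) • (p ib - p ia) := by
  have hBne : B.Nonempty := by
    by_contra h
    rw [Set.not_nonempty_iff_eq_empty] at h
    rw [h, Set.image_empty, Submodule.span_empty, finrank_bot] at hr
    omega
  obtain ⟨i0, hi0⟩ := hBne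
  obtain ⟨i1, hi1, hne⟩ : ∃ i1 ∈ B, p i1 ≠ p i0 := by
    by_contra h
    have h1 : Submodule.span ℝ ((fun i => ((1 : ℝ), p i)) '' B) ≤
        Submodule.span ℝ {((1 : ℝ), p i0)} := by
      rw [Submodule.span_le]
      rintro _ ⟨i, hi, rfl⟩
      have h2 : p i = p i0 := by
        by_contra h3
        exact h ⟨i, hi, h3⟩
      show ((1 : ℝ), p i) ∈ Submodule.span ℝ {((1 : ℝ), p i0)}
      rw [h2]
      exact Submodule.mem_span_singleton_self _
    have h2 := Submodule.finrank_mono h1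
    have h3 := finrank_span_le_card (R := ℝ) ({((1 : ℝ), p i0)} : Set (ℝ × EuclideanSpace ℝ (Fin N)))
    rw [hr] at h2
    simp at h3
    omega
  set u := p i1 - p i0 with hu
  have hu0 : u ≠ 0 := sub_ne_zero.mpr hne
  -- the two points span everything
  have hind : LinearIndependent ℝ ![((1 : ℝ), p i0), ((1 : ℝ), p i1)] := by
    rw [LinearIndependent.pair_iff]
    intro s t hst
    have h1 : s + t = 0 := by
      have := congrArg Prod.fst hst
      simpa using this
    have h2 : s • p i0 + t • p i1 = 0 := by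
      have := congrArg Prod.snd hst
      simpa using this
    have h3 : s = -t := by linarith
    have h4 : t • u = 0 := by
      rw [hu, smul_sub]
      rw [h3, neg_smul] at h2
      rw [sub_eq_add_neg, add_comm]
      exact h2
    have h5 : t = 0 := by
      rcases smul_eq_zero.mp h4 with h6 | h6
      · exact h6
      · exact absurd h6 hu0
    exact ⟨by rw [h3, h5, neg_zero], h5⟩
  have hspan : Submodule.span ℝ (Set.range ![((1 : ℝ), p i0), ((1 : ℝ), p i1)]) =
      Submodule.span ℝ ((fun i => ((1 : ℝ), p i)) '' B) := by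
    apply Submodule.eq_of_le_of_finrank_eq
    · apply Submodule.span_mono
      rintro _ ⟨j, rfl⟩
      fin_cases j
      · exact ⟨i0, hi0, rfl⟩
      · exact ⟨i1, hi1, rfl⟩
    · rw [finrank_span_eq_card hind, hr]
      simp
  have hline : ∀ i ∈ B, ∃ β : ℝ, p i = p i0 + β • u := by
    intro i hi
    have h1 : ((1 : ℝ), p i) ∈ Submodule.span ℝ (Set.range ![((1 : ℝ), p i0), ((1 : ℝ), p i1)]) := by
      rw [hspan]
      exact Submodule.subset_span ⟨i, hi, rfl⟩
    obtain ⟨c, hc⟩ := (Submodule.mem_span_range_iff_exists_fun ℝ).mp h1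
    rw [Fin.sum_univ_two] at hc
    have h2 : c 0 + c 1 = 1 := by
      have := congrArg Prod.fst hc
      simpa using this
    have h3 : c 0 • p i0 + c 1 • p i1 = p i := by
      have := congrArg Prod.snd hc
      simpa using this
    refine ⟨c 1, ?_⟩
    have h4 : c 0 = 1 - c 1 := by linarith
    rw [← h3, h4, hu]
    module
  -- a functional
  obtain ⟨f, hfu, -⟩ := Submodule.exists_le_ker_of_notMem
    (show u ∉ (⊥ : Submodule ℝ (EuclideanSpace ℝ (Fin N))) from fun h => hu0 ((Submodule.mem_bot ℝ).mp h))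
  set τ : EuclideanSpace ℝ (Fin N) →ₗ[ℝ] ℝ := (f u)⁻¹ • f with hτ
  have hτu : τ u = 1 := by
    rw [hτ, LinearMap.smul_apply, smul_eq_mul, inv_mul_cancel₀ hfu]
  have hline' : ∀ i ∈ B, p i = p i0 + (τ (p i) - τ (p i0)) • u := by
    intro i hi
    obtain ⟨β, hβ⟩ := hline i hi
    have h1 : τ (p i) - τ (p i0) = β := by
      rw [hβ, map_add, map_smul, hτu]
      simp
    rw [h1]; exact hβ
  obtain ⟨ia, hia, hmin⟩ := Set.exists_min_image B (fun i => τ (p i)) (Set.toFinite B) ⟨i0, hi0⟩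
  obtain ⟨ib, hib, hmax⟩ := Set.exists_max_image B (fun i => τ (p i)) (Set.toFinite B) ⟨i0, hi0⟩
  have hD : 0 < τ (p ib) - τ (p ia) := by
    have h1 : τ (p i1) - τ (p i0) = 1 := by rw [← map_sub, ← hu, hτu]
    have h2 : τ (p ia) ≤ τ (p i0) := hmin i0 hi0
    have h3 : τ (p i1) ≤ τ (p ib) := hmax i1 hi1
    linarith
  set D := τ (p ib) - τ (p ia) with hDdef
  have hρ : ∀ i, (D⁻¹ • τ) (p i) - (D⁻¹ • τ) (p ia) = D⁻¹ * (τ (p i) - τ (p ia)) := by
    intro i
    show D⁻¹ * τ (p i) - D⁻¹ * τ (p ia) = D⁻¹ * (τ (p i) - τ (p ia))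
    ring
  refine ⟨ia, hia, ib, hib, D⁻¹ • τ, ?_, ?_⟩
  · rw [hρ, ← hDdef, inv_mul_cancel₀ hD.ne']
  · intro i hi
    rw [hρ]
    have h1 : τ (p ia) ≤ τ (p i) := hmin i hi
    have h2 : τ (p i) ≤ τ (p ib) := hmax i hi
    refine ⟨mul_nonneg (inv_nonneg.mpr hD.le) (by linarith), ?_, ?_⟩
    · rw [← inv_mul_cancel₀ hD.ne']
      exact mul_le_mul_of_nonneg_left (by linarith) (inv_nonneg.mpr hD.le)
    · have h3 : p ib - p ia = D • u := by
        have h4 := hline' ib hib
        have h5 := hline' ia hia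
        have h6 : p ib - p ia = (p i0 + (τ (p ib) - τ (p i0)) • u) -
            (p i0 + (τ (p ia) - τ (p i0)) • u) := by
          rw [← h4, ← h5]
        rw [h6, hDdef]
        module
      rw [h3, smul_smul]
      have h7 : D⁻¹ * (τ (p i) - τ (p ia)) * D = τ (p i) - τ (p ia) := by
        field_simp
      rw [h7]
      have h4 := hline' i hi
      have h5 := hline' ia hia
      have h6 : p i = p ia + ((p i0 + (τ (p i) - τ (p i0)) • u) -
            (p i0 + (τ (p ia) - τ (p i0)) • u)) := by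
        rw [← h4, ← h5]
        module
      conv_lhs => rw [h6]
      module

/-- an affine function with prescribed signs at `0` and on the positive values -/
theorem flagTwo {ι : Type} [Fintype ι] (B : Set ι) (θ : ι → ℝ) (q : ι → Prop)
    (hq0 : ∀ i ∈ B, q i → θ i = 0) (hq1 : ∀ i ∈ B, ¬ q i → 0 < θ i) (s0 s1 : Bool) :
    ∃ α β : ℝ, ∀ i ∈ B, (q i → (s0 = true → 0 < α + β * θ i) ∧ (s0 = false → α + β * θ i < 0)) ∧
      (¬ q i → (s1 = true → 0 < α + β * θ i) ∧ (s1 = false → α + β * θ i < 0)) := by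
  obtain ⟨δ, hδ, hδi⟩ : ∃ δ : ℝ, 0 < δ ∧ ∀ i ∈ B, ¬ q i → δ ≤ θ i := by
    by_cases hne : {i ∈ B | ¬ q i}.Nonempty
    · obtain ⟨j, hj, hmin⟩ := Set.exists_min_image {i ∈ B | ¬ q i} θ (Set.toFinite _) hne
      exact ⟨θ j, hq1 j hj.1 hj.2, fun i hi hqi => hmin i ⟨hi, hqi⟩⟩
    · refine ⟨1, one_pos, fun i hi hqi => ?_⟩
      exact absurd ⟨i, hi, hqi⟩ hne
  cases s0 <;> cases s1
  · refine ⟨-1, 0, fun i hi => ⟨fun _ => ⟨fun h => by simp at h, fun _ => by norm_num⟩,
      fun _ => ⟨fun h => by simp at h, fun _ => by norm_num⟩⟩⟩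
  · refine ⟨-(δ / 2), 1, fun i hi => ⟨fun h1 => ⟨fun h => by simp at h, fun _ => ?_⟩,
      fun h1 => ⟨fun _ => ?_, fun h => by simp at h⟩⟩⟩
    · rw [hq0 i hi h1]; linarith
    · have := hδi i hi h1
      linarith
  · refine ⟨δ / 2, -1, fun i hi => ⟨fun h1 => ⟨fun _ => ?_, fun h => by simp at h⟩,
      fun h1 => ⟨fun h => by simp at h, fun _ => ?_⟩⟩⟩
    · rw [hq0 i hi h1]; linarith
    · have := hδi i hi h1
      linarith
  · refine ⟨1, 0, fun i hi => ⟨fun _ => ⟨fun _ => by norm_num, fun h => by simp at h⟩,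
      fun _ => ⟨fun _ => by norm_num, fun h => by simp at h⟩⟩⟩

/-- the assembly of a cut -/
theorem flagCut {ι : Type} [Fintype ι] {N : ℕ} {p : ι → EuclideanSpace ℝ (Fin N)} {lay' : ι → ℕ}
    (hsep : ∀ (g : ℝ × EuclideanSpace ℝ (Fin N) →ₗ[ℝ] ℝ) (s : ℕ → Bool),
      ∃ l : ℝ × EuclideanSpace ℝ (Fin N) →ₗ[ℝ] ℝ, ∀ i, (lay' i = 0 → l (1, p i) = g (1, p i)) ∧
        (0 < lay' i → (s (lay' i) = true → 0 < l (1, p i)) ∧
          (s (lay' i) = false → l (1, p i) < 0)))
    {lay : ι → Fin 10} (hup : ∀ i, lay' i ≠ 0 → (lay i : ℕ) = min (lay' i + 1) 9)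
    (hlow : ∀ i, lay' i = 0 → lay i = 0 ∨ lay i = 1) (Θ : EuclideanSpace ℝ (Fin N) →ₗ[ℝ] ℝ) (κ : ℝ)
    (h0 : ∀ i, lay' i = 0 → lay i = 0 → κ + Θ (p i) = 0)
    (h1 : ∀ i, lay' i = 0 → lay i = 1 → 0 < κ + Θ (p i)) : Cuts p lay := by
  intro s
  obtain ⟨α, β, hαβ⟩ := flagTwo {i | lay' i = 0} (fun i => κ + Θ (p i)) (fun i => lay i = 0)
    (fun i hi hq => h0 i hi hq) (fun i hi hq => h1 i hi ((hlow i hi).resolve_left hq)) (s 0) (s 1)
  obtain ⟨l, hl⟩ := hsep ((α + β * κ) • LinearMap.fst ℝ ℝ (EuclideanSpace ℝ (Fin N)) +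
    β • (Θ ∘ₗ LinearMap.snd ℝ ℝ (EuclideanSpace ℝ (Fin N))))
    (fun j => s ⟨min (j + 1) 9, by omega⟩)
  have hdec : ∀ y : EuclideanSpace ℝ (Fin N), l (1, y) = l (1, 0) + l (0, y) := by
    intro y
    rw [← map_add]
    congr 1
    ext <;> simp
  refine ⟨l ∘ₗ LinearMap.inr ℝ ℝ (EuclideanSpace ℝ (Fin N)), - l (1, 0), fun i => ?_⟩
  have hval : (l ∘ₗ LinearMap.inr ℝ ℝ (EuclideanSpace ℝ (Fin N))) (p i) = l (0, p i) := rfl
  rw [hval]
  have key : (s (lay i) = true → 0 < l (1, p i)) ∧ (s (lay i) = false → l (1, p i) < 0) := by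
    by_cases hi : lay' i = 0
    · have h2 : l (1, p i) = α + β * (κ + Θ (p i)) := by
        rw [(hl i).1 hi]
        simp only [LinearMap.add_apply, LinearMap.smul_apply, LinearMap.fst_apply,
          LinearMap.comp_apply, LinearMap.snd_apply, smul_eq_mul]
        ring
      rw [h2]
      rcases hlow i hi with h3 | h3
      · rw [h3]
        exact (hαβ i hi).1 h3
      · have h4 := (hαβ i hi).2 (by rw [h3]; decide)
        rw [h3]; exact h4
    · have h2 := (hl i).2 (Nat.pos_of_ne_zero hi)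
      have h3 : (⟨min (lay' i + 1) 9, by omega⟩ : Fin 10) = lay i := Fin.ext (hup i hi).symm
      simp only [h3] at h2
      exact h2
  rw [hdec] at key
  exact ⟨fun h => by linarith [key.1 h], fun h => by linarith [key.2 h]⟩

theorem fFlag (h : FlagLinStmt) : FlagStmt := by
  classical
  intro ι _ N hN p hp
  have hdim : Module.finrank ℝ (ℝ × EuclideanSpace ℝ (Fin N)) = (N - 1) + 2 := by
    rw [Module.finrank_prod, Module.finrank_self, finrank_euclideanSpace_fin]
    omega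
  obtain ⟨lay', hle, hsurj, hrank, hsep⟩ := h (N - 1) (ℝ × EuclideanSpace ℝ (Fin N)) ι
    (fun i => ((1 : ℝ), p i)) (flagSpan (by omega) hp)
    ⟨LinearMap.fst ℝ ℝ (EuclideanSpace ℝ (Fin N)), fun i => one_pos⟩ hdim
  obtain ⟨ia, hia, ib, hib, ρ, hρ, hseg⟩ := flagLine p {i | lay' i = 0} hrank
  have hia' : lay' ia = 0 := hia
  have hib' : lay' ib = 0 := hib
  have hab : p ia ≠ p ib := by
    intro h1
    rw [h1, sub_self] at hρ
    exact zero_ne_one hρ
  set lay : ι → Fin 10 := fun i => if lay' i = 0 then (if p i = p ia then 0 else 1) else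
    ⟨min (lay' i + 1) 9, by omega⟩ with hlay
  have hup : ∀ i, lay' i ≠ 0 → (lay i : ℕ) = min (lay' i + 1) 9 := by
    intro i hi
    simp only [hlay, if_neg hi]
  have hlow : ∀ i, lay' i = 0 → lay i = 0 ∨ lay i = 1 := by
    intro i hi
    simp only [hlay, if_pos hi]
    by_cases h1 : p i = p ia
    · left; rw [if_pos h1]
    · right; rw [if_neg h1]
  have hlow0 : ∀ i, lay' i = 0 → (lay i = 0 ↔ p i = p ia) := by
    intro i hi
    simp only [hlay, if_pos hi]
    by_cases h1 : p i = p ia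
    · simp [h1]
    · simp [h1]
  have hbot : ∀ i, (lay i = 0 ∨ lay i = 1) → lay' i = 0 := by
    intro i hi
    by_contra h1
    have h2 := hup i h1
    have h3 : 1 ≤ lay' i := Nat.one_le_iff_ne_zero.mpr h1
    rcases hi with h4 | h4
    · rw [h4] at h2
      have h5 : ((0 : Fin 10) : ℕ) = 0 := rfl
      rw [h5] at h2
      omega
    · rw [h4] at h2
      have h5 : ((1 : Fin 10) : ℕ) = 1 := rfl
      rw [h5] at h2
      omega
  have hne01 : (1 : Fin 10) ≠ 0 := by decide
  refine ⟨lay, p ia, p ib, hab, ?_, ?_, ?_, ⟨ib, ?_, rfl⟩, ?_, ?_⟩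
  · intro j
    by_cases h0 : j = 0
    · exact ⟨ia, by rw [h0]; exact (hlow0 ia hia').mpr rfl⟩
    by_cases h1 : j = 1
    · refine ⟨ib, ?_⟩
      rw [h1]
      exact (hlow ib hib').resolve_left fun h2 => hab ((hlow0 ib hib').mp h2).symm
    · have hj : 2 ≤ (j : ℕ) := by
        have h2 : (j : ℕ) ≠ 0 := fun h3 => h0 (Fin.ext h3)
        have h3 : (j : ℕ) ≠ 1 := fun h4 => h1 (Fin.ext h4)
        omega
      have hj2 : (j : ℕ) ≤ 9 := Nat.lt_succ_iff.mp j.2
      obtain ⟨i, hi⟩ := hsurj (j - 1) (by omega)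
      refine ⟨i, Fin.ext ?_⟩
      rw [hup i (by omega), hi]
      omega
  · intro i hi
    exact (hlow0 i (hbot i (Or.inl hi))).mp hi
  · intro i hi
    have h1 := hbot i (Or.inr hi)
    obtain ⟨h2, h3, h4⟩ := hseg i h1
    refine ⟨ρ (p i) - ρ (p ia), ?_, h3, h4⟩
    rcases h2.lt_or_eq with h5 | h5
    · exact h5
    · exfalso
      rw [← h5, zero_smul, add_zero] at h4
      have h6 := (hlow0 i h1).mpr h4
      rw [hi] at h6
      exact hne01 h6
  · exact (hlow ib hib').resolve_left fun h2 => hab ((hlow0 ib hib').mp h2).symm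
  · refine flagCut hsep hup hlow ρ (- ρ (p ia)) ?_ ?_
    · intro i hi h0
      rw [(hlow0 i hi).mp h0]
      ring
    · intro i hi h1
      obtain ⟨h2, h3, h4⟩ := hseg i hi
      rcases h2.lt_or_eq with h5 | h5
      · linarith
      · exfalso
        rw [← h5, zero_smul, add_zero] at h4
        have h6 := (hlow0 i hi).mpr h4
        rw [h1] at h6
        exact hne01 h6
  · have hsw : ∀ i, swapLay p (p ib) lay i =
        if lay' i = 0 then (if p i = p ib then 0 else 1) else lay i := by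
      intro i
      unfold swapLay
      by_cases hi : lay' i = 0
      · rw [if_pos hi]
        simp only [if_pos (hlow i hi)]
      · rw [if_neg hi]
        simp only [if_neg (fun h1 => hi (hbot i h1))]
    refine flagCut hsep ?_ ?_ (-ρ) (ρ (p ib)) ?_ ?_
    · intro i hi
      rw [hsw, if_neg hi]
      exact hup i hi
    · intro i hi
      rw [hsw, if_pos hi]
      by_cases h1 : p i = p ib
      · left; rw [if_pos h1]
      · right; rw [if_neg h1]
    · intro i hi h0
      rw [hsw, if_pos hi] at h0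
      by_cases h1 : p i = p ib
      · rw [h1, LinearMap.neg_apply]; ring
      · rw [if_neg h1] at h0
        exact absurd h0 hne01
    · intro i hi h0
      rw [hsw, if_pos hi] at h0
      by_cases h1 : p i = p ib
      · rw [if_pos h1] at h0
        exact absurd h0.symm hne01
      · obtain ⟨h2, h3, h4⟩ := hseg i hi
        rw [LinearMap.neg_apply]
        rcases h3.lt_or_eq with h5 | h5
        · linarith
        · exfalso
          rw [h5, one_smul] at h4
          apply h1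
          rw [h4]
          abel

end TightRP
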