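import Pool.Agent.Lib.MP_7cdc3e_gt.Spec

/-!
# MP_7cdc3e_gt, FlagLin: the complete flag of faces, linear form
-/

open HoloConj Pool.Agent.Lib.SingHom

namespace TightRP

/-- a bound for finitely many quotients -/
private theorem flagLin_bound {ι : Type} [Fintype ι] (a b : ι → ℝ) :
    ∃ R : ℝ, ∀ i, 0 < b i → |a i| < R * b i := by
  refine ⟨1 + ∑ i, |a i| / |b i|, fun i hi => ?_⟩
  have h1 : |a i| / |b i| ≤ ∑ i, |a i| / |b i| :=
    Finset.single_le_sum (f := fun i => |a i| / |b i|)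
      (fun i _ => div_nonneg (abs_nonneg _) (abs_nonneg _)) (Finset.mem_univ i)
  rw [abs_of_pos hi] at h1
  rw [← div_lt_iff₀ hi]
  linarith

private theorem flagLin_step (hF : FacetStmt) (m : ℕ)
    (IH : ∀ (W : Type) [AddCommGroup W] [Module ℝ W] [FiniteDimensional ℝ W] (ι : Type)
      [Fintype ι] (x : ι → W), Submodule.span ℝ (Set.range x) = ⊤ →
      (∃ w₀ : W →ₗ[ℝ] ℝ, ∀ i, 0 < w₀ (x i)) →
      Module.finrank ℝ W = m + 2 → ∃ lay : ι → ℕ, (∀ i, lay i ≤ m) ∧ (∀ j ≤ m, ∃ i, lay i = j) ∧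
        Module.finrank ℝ (Submodule.span ℝ (x '' {i | lay i = 0})) = 2 ∧
        ∀ (g : W →ₗ[ℝ] ℝ) (s : ℕ → Bool), ∃ l : W →ₗ[ℝ] ℝ, ∀ i,
          (lay i = 0 → l (x i) = g (x i)) ∧
          (0 < lay i → (s (lay i) = true → 0 < l (x i)) ∧ (s (lay i) = false → l (x i) < 0)))
    (W : Type) [AddCommGroup W] [Module ℝ W] [FiniteDimensional ℝ W] (ι : Type)
    [Fintype ι] (x : ι → W) (hx : Submodule.span ℝ (Set.range x) = ⊤)
    (hw : ∃ w₀ : W →ₗ[ℝ] ℝ, ∀ i, 0 < w₀ (x i)) (hd : Module.finrank ℝ W = m + 1 + 2) :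
    ∃ lay : ι → ℕ, (∀ i, lay i ≤ m + 1) ∧ (∀ j ≤ m + 1, ∃ i, lay i = j) ∧
      Module.finrank ℝ (Submodule.span ℝ (x '' {i | lay i = 0})) = 2 ∧
      ∀ (g : W →ₗ[ℝ] ℝ) (s : ℕ → Bool), ∃ l : W →ₗ[ℝ] ℝ, ∀ i,
        (lay i = 0 → l (x i) = g (x i)) ∧
        (0 < lay i → (s (lay i) = true → 0 < l (x i)) ∧ (s (lay i) = false → l (x i) < 0)) := by
  classical
  obtain ⟨w₀, hw₀⟩ := hw
  obtain ⟨w, hwne, hwpos, hwdim⟩ := hF W (Set.range x) (Set.finite_range x) hx
    ⟨w₀, by rintro _ ⟨i, rfl⟩; exact hw₀ i⟩ (by omega)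
  have hwx : ∀ i, 0 ≤ w (x i) := fun i => hwpos _ ⟨i, rfl⟩
  let Y : Submodule ℝ W := Submodule.span ℝ {y ∈ Set.range x | w y = 0}
  have hYdim : Module.finrank ℝ Y = m + 2 := by
    have : Module.finrank ℝ Y + 1 = Module.finrank ℝ W := hwdim
    omega
  let x' : {i // w (x i) = 0} → Y := fun i => ⟨x i, Submodule.subset_span ⟨⟨i, rfl⟩, i.2⟩⟩
  have hx' : Submodule.span ℝ (Set.range x') = ⊤ := by
    apply Submodule.map_injective_of_injective Y.injective_subtype
    rw [Submodule.map_span, Submodule.map_subtype_top, ← Set.range_comp]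
    congr 1
    ext y
    constructor
    · rintro ⟨i, rfl⟩
      exact ⟨⟨i, rfl⟩, i.2⟩
    · rintro ⟨⟨i, rfl⟩, hi⟩
      exact ⟨⟨i, hi⟩, rfl⟩
  obtain ⟨lay', hl1, hl2, hl3, hl4⟩ := IH Y {i // w (x i) = 0} x' hx'
    ⟨w₀.comp Y.subtype, fun i => hw₀ i⟩ hYdim
  obtain ⟨lay, hlay⟩ : ∃ lay : ι → ℕ, lay =
      fun i => if h : w (x i) = 0 then lay' ⟨i, h⟩ else m + 1 := ⟨_, rfl⟩
  have hp : ∀ i (h : w (x i) = 0), lay i = lay' ⟨i, h⟩ := fun i h => by
    rw [hlay]
    exact dif_pos h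
  have hn : ∀ i, w (x i) ≠ 0 → lay i = m + 1 := fun i h => by
    rw [hlay]
    exact dif_neg h
  refine ⟨lay, fun i => ?_, fun j hj => ?_, ?_, fun g s => ?_⟩
  · by_cases h : w (x i) = 0
    · rw [hp i h]
      exact (hl1 _).trans (Nat.le_succ m)
    · rw [hn i h]
  · rcases Nat.lt_or_ge m j with h | h
    · have hj' : j = m + 1 := by omega
      by_contra hcon
      push Not at hcon
      apply hwne
      have h1 : ∀ i, w (x i) = 0 := by
        intro i
        by_contra h2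
        exact hcon i ((hn i h2).trans hj'.symm)
      have h2 : Submodule.span ℝ (Set.range x) ≤ LinearMap.ker w := by
        rw [Submodule.span_le]
        rintro _ ⟨i, rfl⟩
        exact h1 i
      rw [hx, top_le_iff] at h2
      exact LinearMap.ker_eq_top.1 h2
    · obtain ⟨⟨i, hi⟩, h1⟩ := hl2 j h
      exact ⟨i, (hp i hi).trans h1⟩
  · have h1 : x '' {i | lay i = 0} = Y.subtype '' (x' '' {i | lay' i = 0}) := by
      ext y
      constructor
      · rintro ⟨i, hi, rfl⟩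
        have h2 : w (x i) = 0 := by
          by_contra h2
          have h3 : lay i = 0 := hi
          rw [hn i h2] at h3
          omega
        refine ⟨x' ⟨i, h2⟩, ⟨⟨i, h2⟩, ?_, rfl⟩, rfl⟩
        exact (hp i h2).symm.trans hi
      · rintro ⟨_, ⟨⟨i, h2⟩, hi, rfl⟩, rfl⟩
        exact ⟨i, (hp i h2).trans hi, rfl⟩
    rw [h1, ← Submodule.map_span]
    rw [Submodule.finrank_map_subtype_eq]
    exact hl3
  · obtain ⟨l', hl'⟩ := hl4 (g.comp Y.subtype) s
    obtain ⟨L, hL⟩ := LinearMap.exists_extend l'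
    have hL' : ∀ i, L (x' i : W) = l' (x' i) := fun i => LinearMap.congr_fun hL (x' i)
    obtain ⟨R, hR⟩ := flagLin_bound (fun i => L (x i)) (fun i => w (x i))
    refine ⟨L + (if s (m + 1) = true then R else -R) • w, fun i => ?_⟩
    rw [LinearMap.add_apply, LinearMap.smul_apply, smul_eq_mul]
    by_cases h : w (x i) = 0
    · rw [h, mul_zero, add_zero, hp i h]
      have h1 := hl' ⟨i, h⟩
      rw [← hL' ⟨i, h⟩] at h1
      exact h1
    · rw [hn i h]
      have h1 := hR i (lt_of_le_of_ne (hwx i) (Ne.symm h))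
      have h2 := abs_lt.1 h1
      refine ⟨fun h3 => absurd h3 (Nat.succ_ne_zero m), fun _ => ⟨fun h3 => ?_, fun h3 => ?_⟩⟩
      · rw [if_pos h3]
        linarith
      · rw [if_neg (by rw [h3]; decide)]
        linarith

theorem fFlagLin (h : FacetStmt) : FlagLinStmt := by
  intro m
  induction m with
  | zero =>
    intro W _ _ _ ι _ x hx hw hd
    refine ⟨fun _ => 0, fun _ => le_rfl, fun j hj => ?_, ?_, fun g s => ⟨g, fun i =>
      ⟨fun _ => rfl, fun h => absurd h (lt_irrefl _)⟩⟩⟩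
    · have h1 : Nonempty ι := by
        by_contra h1
        rw [not_nonempty_iff] at h1
        rw [Set.range_eq_empty, Submodule.span_empty] at hx
        have h2 : Module.finrank ℝ (⊤ : Submodule ℝ W) = 0 := by
          rw [← hx]
          exact finrank_bot ℝ W
        rw [finrank_top] at h2
        omega
      exact ⟨h1.some, (Nat.le_zero.1 hj).symm⟩
    · have h1 : x '' {i | (fun _ => 0 : ι → ℕ) i = 0} = Set.range x := by
        rw [← Set.image_univ]
        congr 1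
        ext i
        simp
      rw [h1, hx, finrank_top]
      omega
  | succ m IH =>
    intro W _ _ _ ι _ x hx hw hd
    exact flagLin_step h m IH W ι x hx hw hd

end TightRP
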