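import Pool.Agent.Lib.MP_7cdc3e_gt.Spec

/-!
# MP_7cdc3e_gt, module Imm: local injectivity near a vertex
-/

open HoloConj Pool.Agent.Lib.SingHom

namespace TightRP

variable {ι : Type} [Fintype ι] [DecidableEq ι]

/-- the point `(1 - t) e_v + t e_a` -/
def immPt (v a : ι) (t : ℝ) : ι → ℝ :=
  fun i => (1 - t) * (if i = v then 1 else 0) + t * (if i = a then 1 else 0)

omit [Fintype ι] in
theorem immPt_cont (v a : ι) : Continuous (immPt v a) := by
  unfold immPt
  exact continuous_pi fun i => by fun_prop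

omit [Fintype ι] in
theorem immPt_zero (v a : ι) : immPt v a 0 = fun i => if i = v then 1 else 0 := by
  funext i
  simp [immPt]

theorem immPt_sum (v a : ι) (t : ℝ) {E : Type} [AddCommGroup E] [Module ℝ E] (p : ι → E) :
    ∑ i, immPt v a t i • p i = (1 - t) • p v + t • p a := by
  have h : ∀ i, immPt v a t i • p i =
      (if i = v then (1 - t) • p i else 0) + (if i = a then t • p i else 0) := by
    intro i
    unfold immPt
    rw [add_smul]
    by_cases h1 : i = v <;> by_cases h2 : i = a <;> simp [h1, h2]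
  rw [Finset.sum_congr rfl fun i _ => h i, Finset.sum_add_distrib, Finset.sum_ite_eq' ,
    Finset.sum_ite_eq']
  simp

theorem immPt_mem {K : Cx ι} {v a : ι} (hva : v ≠ a) (hf : ({v, a} : Finset ι) ∈ K.faces) {t : ℝ}
    (ht0 : 0 < t) (ht1 : t < 1) : immPt v a t ∈ K.real := by
  refine ⟨fun i => ?_, ?_, ?_⟩
  · unfold immPt
    have h1 : 0 ≤ 1 - t := by linarith
    have h2 : (0 : ℝ) ≤ if i = v then 1 else 0 := by split_ifs <;> norm_num
    have h3 : (0 : ℝ) ≤ if i = a then 1 else 0 := by split_ifs <;> norm_num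
    exact add_nonneg (mul_nonneg h1 h2) (mul_nonneg ht0.le h3)
  · have h := immPt_sum v a t (fun _ => (1 : ℝ))
    simp only [smul_eq_mul, mul_one] at h
    rw [h]; ring
  · have h : supp (immPt v a t) = {v, a} := by
      ext i
      simp only [supp, Finset.mem_filter, Finset.mem_univ, true_and, Finset.mem_insert,
        Finset.mem_singleton, immPt]
      by_cases h2 : i = v
      · subst h2
        simp [hva]
        linarith
      · by_cases h3 : i = a
        · subst h3
          simp [h2]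
          linarith
        · simp [h2, h3]
    rw [h]; exact hf

theorem immVert_mem (K : Cx ι) (v : ι) : (fun i => if i = v then (1 : ℝ) else 0) ∈ K.real := by
  refine ⟨fun i => ?_, by simp, ?_⟩
  · by_cases h : i = v <;> simp [h]
  · have h : supp (fun i => if i = v then (1 : ℝ) else 0) = {v} := by
      ext i
      simp [supp]
    rw [h]; exact K.vertex_mem v

/-- small points on two edges at `v` -/
theorem immSmall {K : Cx ι} {N : ℕ} {p : ι → EuclideanSpace ℝ (Fin N)} (hL : LocInj (plMap K p))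
    (v : ι) : ∃ V ∈ nhds (fun i => if i = v then (1 : ℝ) else 0),
      ∀ x y : K.real, x.1 ∈ V → y.1 ∈ V → plMap K p x = plMap K p y → x = y := by
  obtain ⟨U, hU, hinj⟩ := hL ⟨_, immVert_mem K v⟩
  rw [mem_nhds_subtype] at hU
  obtain ⟨V, hV, hVU⟩ := hU
  exact ⟨V, hV, fun x y hx hy h => hinj (hVU hx) (hVU hy) h⟩

omit [Fintype ι] in
theorem immEv {v a : ι} {V : Set (ι → ℝ)} (hV : V ∈ nhds (fun i => if i = v then (1 : ℝ) else 0)) :
    ∃ δ : ℝ, 0 < δ ∧ ∀ t, 0 < t → t < δ → immPt v a t ∈ V := by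
  have h1 : Filter.Tendsto (immPt v a) (nhds 0) (nhds (fun i => if i = v then (1 : ℝ) else 0)) := by
    have := (immPt_cont v a).tendsto 0
    rwa [immPt_zero] at this
  have h2 := h1 hV
  rw [Filter.mem_map, Metric.mem_nhds_iff] at h2
  obtain ⟨δ, hδ, h3⟩ := h2
  refine ⟨δ, hδ, fun t ht0 ht1 => h3 ?_⟩
  rw [Metric.mem_ball, Real.dist_eq, sub_zero, abs_of_pos ht0]
  exact ht1

theorem iEdge : ImmEdgeStmt := by
  intro ι _ _ K N p hL i j hij he
  obtain ⟨V, hV, hVi⟩ := immSmall hL i
  obtain ⟨δ, hδ, h1⟩ := immEv (a := j) hV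
  have hne : i ≠ j := hij.1
  set t := min (δ / 2) (1 / 2) with ht
  have ht0 : 0 < t := by rw [ht]; positivity
  have ht1 : t < 1 := (min_le_right _ _).trans_lt (by norm_num)
  have htδ : t < δ := (min_le_left _ _).trans_lt (by linarith)
  have hm : immPt i j t ∈ K.real := immPt_mem hne hij.2 ht0 ht1
  have h2 := hVi ⟨_, hm⟩ ⟨_, immVert_mem K i⟩ (h1 t ht0 htδ) (mem_of_mem_nhds hV) ?_
  · have h3 := congrFun (congrArg Subtype.val h2) j
    have h4 : immPt i j t j = t := by
      unfold immPt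
      rw [if_neg hne.symm, if_pos rfl]; ring
    have h5 : immPt i j t j = 0 := by
      rw [show immPt i j t j = (if j = i then (1 : ℝ) else 0) from h3, if_neg hne.symm]
    rw [h4] at h5
    exact ht0.ne' h5
  · unfold plMap
    show ∑ k, immPt i j t k • p k = ∑ k, (if k = i then (1 : ℝ) else 0) • p k
    rw [immPt_sum, ← he, ← add_smul]
    simp

theorem iDir : ImmDirStmt := by
  intro ι _ _ K N p hL v a b ha hb hab r hr he
  obtain ⟨V, hV, hVi⟩ := immSmall hL v
  obtain ⟨δ₁, hδ₁, h1⟩ := immEv (a := a) hV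
  obtain ⟨δ₂, hδ₂, h2⟩ := immEv (a := b) hV
  obtain ⟨t, ht0, ht1, ht2, ht3, ht4⟩ : ∃ t : ℝ, 0 < t ∧ t < 1 ∧ t < δ₁ ∧ t * r < 1 ∧ t * r < δ₂ := by
    refine ⟨min (min (δ₁ / 2) (1 / 2)) (min (1 / (2 * r)) (δ₂ / (2 * r))), by positivity, ?_, ?_,
      ?_, ?_⟩
    · exact ((min_le_left _ _).trans (min_le_right _ _)).trans_lt (by norm_num)
    · exact ((min_le_left _ _).trans (min_le_left _ _)).trans_lt (by linarith)
    · have h3 : min (min (δ₁ / 2) (1 / 2)) (min (1 / (2 * r)) (δ₂ / (2 * r))) ≤ 1 / (2 * r) :=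
        (min_le_right _ _).trans (min_le_left _ _)
      calc _ ≤ 1 / (2 * r) * r := mul_le_mul_of_nonneg_right h3 hr.le
        _ = 1 / 2 := by field_simp
        _ < 1 := by norm_num
    · have h3 : min (min (δ₁ / 2) (1 / 2)) (min (1 / (2 * r)) (δ₂ / (2 * r))) ≤ δ₂ / (2 * r) :=
        (min_le_right _ _).trans (min_le_right _ _)
      calc _ ≤ δ₂ / (2 * r) * r := mul_le_mul_of_nonneg_right h3 hr.le
        _ = δ₂ / 2 := by field_simp
        _ < δ₂ := by linarith
  have htr : 0 < t * r := by positivity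
  have hma : immPt v a t ∈ K.real := immPt_mem (Ne.symm ha.1) ha.2 ht0 ht1
  have hmb : immPt v b (t * r) ∈ K.real := immPt_mem (Ne.symm hb.1) hb.2 htr ht3
  have h3 := hVi ⟨_, hma⟩ ⟨_, hmb⟩ (h1 t ht0 ht2) (h2 _ htr ht4) ?_
  · have h4 := congrFun (congrArg Subtype.val h3) a
    have h5 : immPt v a t a = t := by
      unfold immPt
      rw [if_neg ha.1, if_pos rfl]; ring
    have h6 : immPt v b (t * r) a = 0 := by
      unfold immPt
      rw [if_neg ha.1, if_neg hab]; ring
    have h7 : immPt v a t a = immPt v b (t * r) a := h4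
    rw [h5, h6] at h7
    exact ht0.ne' h7
  · unfold plMap
    show ∑ k, immPt v a t k • p k = ∑ k, immPt v b (t * r) k • p k
    rw [immPt_sum, immPt_sum]
    have e1 : (1 - t) • p v + t • p a = p v + t • (p a - p v) := by module
    have e2 : (1 - t * r) • p v + (t * r) • p b = p v + t • (r • (p b - p v)) := by module
    rw [e1, e2, he]

end TightRP
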