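import Pool.Agent.Lib.MP_7cdc3e_gt.Spec

/-!
# MP_7cdc3e_gt: module LemA
-/

open HoloConj Pool.Agent.Lib.SingHom

namespace TightRP

private lemma lemA_touch_symm {V : Type} {G : SimpleGraph V} {A B : Set V} (h : Touch G A B) :
    Touch G B A := by
  obtain ⟨u, hu, w, hw, huw⟩ := h
  exact ⟨w, hw, u, hu, huw.symm⟩

private lemma lemA_const {V : Type} (G : SimpleGraph V) (B : Set V) (hB : ConnOn G B)
    (g : V → Fin 2) (hg : ∀ a ∈ B, ∀ b ∈ B, G.Adj a b → g a = g b) :
    ∀ a ∈ B, ∀ b ∈ B, g a = g b := by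
  intro a ha b hb
  by_contra hne
  refine hB.2 ⟨g, hg, fun j => ?_⟩
  by_cases h1 : g a = j
  · exact ⟨a, ha, h1⟩
  · exact ⟨b, hb, by omega⟩

private lemma lemA_union {V κ : Type} (G : SimpleGraph V) (A : Set V) (B : κ → Set V)
    (I : Set κ) (hA : ConnOn G A) (hB : ∀ i ∈ I, ConnOn G (B i))
    (hT : ∀ i ∈ I, Touch G A (B i)) : ConnOn G (A ∪ ⋃ i ∈ I, B i) := by
  refine ⟨hA.1.mono Set.subset_union_left, ?_⟩
  rintro ⟨g, hg, hs⟩
  obtain ⟨a0, ha0⟩ := hA.1
  have hsub : ∀ i ∈ I, ∀ v ∈ B i, v ∈ A ∪ ⋃ i ∈ I, B i := fun i hi v hv =>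
    Or.inr (Set.mem_biUnion hi hv)
  have hAc : ∀ a ∈ A, g a = g a0 := fun a ha =>
    lemA_const G A hA g (fun a ha b hb hab => hg a (Or.inl ha) b (Or.inl hb) hab) a ha a0 ha0
  have hall : ∀ v ∈ A ∪ ⋃ i ∈ I, B i, g v = g a0 := by
    rintro v (hv | hv)
    · exact hAc v hv
    · obtain ⟨i, hi, hvi⟩ := Set.mem_iUnion₂.1 hv
      obtain ⟨u, hu, w, hw, huw⟩ := hT i hi
      have h1 : g v = g w := lemA_const G (B i) (hB i hi) g
        (fun a ha b hb hab => hg a (hsub i hi a ha) b (hsub i hi b hb) hab) v hvi w hw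
      rw [h1, ← hg u (Or.inl hu) w (hsub i hi w hw) huw]
      exact hAc u hu
  obtain ⟨u, hu, hu0⟩ := hs 0
  obtain ⟨w, hw, hw1⟩ := hs 1
  rw [hall u hu] at hu0
  rw [hall w hw, hu0] at hw1
  exact absurd hw1 (by decide)

private lemma lemA_clique {V : Type} (G : SimpleGraph V) (hG : Planarish G) (κ : Type) [Fintype κ]
    [DecidableEq κ] (hκ : 5 ≤ Fintype.card κ) (C : κ → Set V) (hC : ∀ i, ConnOn G (C i))
    (hd : ∀ i j, i ≠ j → Disjoint (C i) (C j)) (ht : ∀ i j, i ≠ j → Touch G (C i) (C j)) :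
    False := by
  have h1 := hG κ (by omega) C hC hd (Finset.univ.filter (fun e : Sym2 κ => ¬ e.IsDiag)) (by
    intro i j hij
    have h2 := (Finset.mem_filter.1 hij).2
    rw [Sym2.mk_isDiag_iff] at h2
    exact ⟨h2, ht i j h2⟩)
  have h2 : (Finset.univ.filter (fun e : Sym2 κ => ¬ e.IsDiag)).card =
      (Fintype.card κ).choose 2 := by
    rw [← Sym2.card_subtype_not_diag, Fintype.card_subtype]
  rw [h2] at h1
  generalize Fintype.card κ = n at h1 hκ
  have h3 : n.choose 2 * 2 = n * (n - 1) := by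
    rw [Nat.choose_two_right, Nat.div_mul_cancel]
    exact (Nat.even_mul_pred_self n).two_dvd
  obtain ⟨k, rfl⟩ : ∃ k, n = k + 5 := ⟨n - 5, by omega⟩
  have h4 : (k + 5 - 1) = k + 4 := by omega
  rw [h4] at h3
  have h5 : 3 * (k + 5) - 6 = 3 * k + 9 := by omega
  rw [h5] at h1
  nlinarith

/-- **LemA.** -/
theorem pLemA : LemAStmt := by
  classical
  intro V G hG B hB hd
  by_contra hno
  -- no independent triple
  have hind : ∀ i j k, i ≠ j → i ≠ k → j ≠ k → ¬ Touch G (B i) (B j) → ¬ Touch G (B i) (B k) →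
      Touch G (B j) (B k) := by
    intro i j k h1 h2 h3 h4 h5
    by_contra h6
    exact hno ⟨i, j, k, h1, h2, h3, h4, h5, h6⟩
  let H : SimpleGraph (Fin 9) :=
    { Adj := fun i j => i ≠ j ∧ Touch G (B i) (B j)
      symm := ⟨fun i j h => ⟨h.1.symm, lemA_touch_symm h.2⟩⟩
      loopless := ⟨fun i h => h.1 rfl⟩ }
  have hadj : ∀ i j, H.Adj i j ↔ i ≠ j ∧ Touch G (B i) (B j) := fun i j => Iff.rfl
  have hdeg : ∀ x, 4 ≤ H.degree x := by
    intro x
    by_contra hx
    push Not at hx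
    have h1 : Hᶜ.degree x = Fintype.card (Fin 9) - 1 - H.degree x := H.degree_compl x
    rw [Fintype.card_fin] at h1
    refine lemA_clique G hG {y // y ∈ Hᶜ.neighborFinset x} ?_ (fun y => B y) (fun y => hB y)
      (fun i j hij => hd i j (fun h => hij (Subtype.ext h))) ?_
    · rw [Fintype.card_coe, SimpleGraph.card_neighborFinset_eq_degree]
      omega
    · rintro ⟨i, hi⟩ ⟨j, hj⟩ hij
      rw [SimpleGraph.mem_neighborFinset, SimpleGraph.compl_adj] at hi hj
      have hij' : i ≠ j := fun h => hij (Subtype.ext h)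
      exact hind x i j hi.1 hj.1 hij' (fun h => hi.2 ⟨hi.1, h⟩) (fun h => hj.2 ⟨hj.1, h⟩)
  have hE : H.edgeFinset.card ≤ 21 := by
    have := hG (Fin 9) (by rw [Fintype.card_fin]; norm_num) B hB hd H.edgeFinset (by
      intro i j hij
      rw [SimpleGraph.mem_edgeFinset] at hij
      exact hij)
    rw [Fintype.card_fin] at this
    omega
  obtain ⟨x, hx⟩ : ∃ x, H.degree x ≤ 4 := by
    by_contra hc
    push Not at hc
    have h1 : ∑ v, H.degree v = 2 * H.edgeFinset.card := H.sum_degrees_eq_twice_card_edges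
    have h2 : ∑ v : Fin 9, 5 ≤ ∑ v, H.degree v := Finset.sum_le_sum fun v _ => hc v
    rw [h1, Finset.sum_const, Finset.card_univ, Fintype.card_fin] at h2
    simp only [smul_eq_mul] at h2
    omega
  have hcx : Hᶜ.degree x = 4 := by
    have h1 : Hᶜ.degree x = Fintype.card (Fin 9) - 1 - H.degree x := H.degree_compl x
    rw [Fintype.card_fin] at h1
    have := hdeg x
    omega
  set Y : Set V := B x ∪ ⋃ i ∈ (H.neighborSet x), B i with hY
  have hYc : ConnOn G Y := lemA_union G (B x) B (H.neighborSet x) (hB x) (fun i _ => hB i)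
    (fun i hi => ((hadj x i).1 hi).2)
  have hnb : ∀ y, y ∈ Hᶜ.neighborFinset x ↔ x ≠ y ∧ ¬ H.Adj x y := fun y => by
    rw [SimpleGraph.mem_neighborFinset, SimpleGraph.compl_adj]
  -- some non-neighbour does not touch Y
  obtain ⟨b, hb, hbY⟩ : ∃ b ∈ Hᶜ.neighborFinset x, ¬ Touch G Y (B b) := by
    by_contra hc
    push Not at hc
    refine lemA_clique G hG (Option {y // y ∈ Hᶜ.neighborFinset x}) ?_
      (fun o => o.elim Y (fun y => B y)) ?_ ?_ ?_
    · rw [Fintype.card_option, Fintype.card_coe, SimpleGraph.card_neighborFinset_eq_degree, hcx]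
    · rintro (_ | y)
      · exact hYc
      · exact hB y
    · have key : ∀ y : {y // y ∈ Hᶜ.neighborFinset x}, Disjoint Y (B y) := by
        rintro ⟨y, hy⟩
        rw [hnb] at hy
        rw [hY, Set.disjoint_union_left]
        refine ⟨hd x y hy.1, ?_⟩
        rw [Set.disjoint_iUnion₂_left]
        intro i hi
        refine hd i y ?_
        rintro rfl
        exact hy.2 hi
      rintro (_ | i) (_ | j) hij
      · exact absurd rfl hij
      · exact key j
      · exact (key i).symm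
      · exact hd i j (fun h => hij (by rw [Subtype.ext h]))
    · rintro (_ | i) (_ | j) hij
      · exact absurd rfl hij
      · exact hc j j.2
      · exact lemA_touch_symm (hc i i.2)
      · obtain ⟨i, hi⟩ := i
        obtain ⟨j, hj⟩ := j
        rw [hnb] at hi hj
        have hij' : i ≠ j := by
          rintro rfl
          exact hij rfl
        exact hind x i j hi.1 hj.1 hij' (fun h => hi.2 ⟨hi.1, h⟩) (fun h => hj.2 ⟨hj.1, h⟩)
  have hsub : H.neighborFinset b ⊆ (Hᶜ.neighborFinset x).erase b := by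
    intro c hc
    rw [SimpleGraph.mem_neighborFinset] at hc
    have hcb := (hadj b c).1 hc
    have hb' := (hnb b).1 hb
    rw [Finset.mem_erase, hnb]
    refine ⟨hcb.1.symm, ?_, ?_⟩
    · rintro rfl
      exact hb'.2 hc.symm
    · intro hxc
      apply hbY
      obtain ⟨u, hu, w, hw, huw⟩ := hcb.2
      exact ⟨w, Or.inr (Set.mem_biUnion hxc hw), u, hu, huw.symm⟩
  have h1 := Finset.card_le_card hsub
  rw [SimpleGraph.card_neighborFinset_eq_degree, Finset.card_erase_of_mem hb,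
    SimpleGraph.card_neighborFinset_eq_degree, hcx] at h1
  have := hdeg b
  omega

end TightRP
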