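import Pool.Agent.Lib.MP_7cdc3e_gt.Spec

/-!
# MP_7cdc3e_gt, module LemB: the double layers
-/

open HoloConj Pool.Agent.Lib.SingHom

namespace TightRP

section
variable {V : Type} {G : SimpleGraph V}

private lemma lemB_tsymm {A B : Set V} (h : Touch G A B) : Touch G B A := by
  obtain ⟨u, hu, w, hw, hadj⟩ := h
  exact ⟨w, hw, u, hu, hadj.symm⟩

private lemma lemB_tmono {A A' B B' : Set V} (hA : A ⊆ A') (hB : B ⊆ B')
    (h : Touch G A B) : Touch G A' B' := by
  obtain ⟨u, hu, w, hw, hadj⟩ := h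
  exact ⟨u, hA hu, w, hB hw, hadj⟩

/-- indicator of touching -/
private noncomputable def lemBt (G : SimpleGraph V) (A B : Set V) : ℕ := by
  classical
  exact if Touch G A B then 1 else 0

private lemma lemBt_one {A B : Set V} (h : Touch G A B) : lemBt G A B = 1 := by
  unfold lemBt
  exact if_pos h

private lemma lemBt_zero {A B : Set V} (h : ¬ Touch G A B) : lemBt G A B = 0 := by
  unfold lemBt
  exact if_neg h

private lemma lemBt_symm (A B : Set V) : lemBt G A B = lemBt G B A := by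
  by_cases h : Touch G A B
  · rw [lemBt_one h, lemBt_one (lemB_tsymm h)]
  · rw [lemBt_zero h, lemBt_zero fun h' => h (lemB_tsymm h')]

/-- the number of ordered touching pairs -/
private lemma lemB_count (hG : Planarish G) (κ : Type) [Fintype κ] [DecidableEq κ]
    (h3 : 3 ≤ Fintype.card κ) (B : κ → Set V) (hB : ∀ i, ConnOn G (B i))
    (hd : ∀ i j, i ≠ j → Disjoint (B i) (B j)) :
    ∑ u, ∑ w, (if u = w then 0 else lemBt G (B u) (B w)) ≤ 2 * (3 * Fintype.card κ - 6) := by
  classical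
  obtain ⟨H, hH⟩ : ∃ H : SimpleGraph κ, ∀ u w, H.Adj u w ↔ u ≠ w ∧ Touch G (B u) (B w) :=
    ⟨{ Adj := fun u w => u ≠ w ∧ Touch G (B u) (B w)
       symm := ⟨fun u w h => ⟨h.1.symm, lemB_tsymm h.2⟩⟩
       loopless := ⟨fun _ h => h.1 rfl⟩ }, fun u w => Iff.rfl⟩
  have h1 := hG κ h3 B hB hd H.edgeFinset (by
    intro i j hij
    rw [SimpleGraph.mem_edgeFinset, SimpleGraph.mem_edgeSet, hH] at hij
    exact hij)
  have h2 := H.sum_degrees_eq_twice_card_edges
  have h4 : ∀ u, ∑ w, (if u = w then 0 else lemBt G (B u) (B w)) = H.degree u := by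
    intro u
    rw [← SimpleGraph.card_neighborFinset_eq_degree, SimpleGraph.neighborFinset_eq_filter,
      Finset.card_filter]
    refine Finset.sum_congr rfl fun w _ => ?_
    by_cases huw : u = w
    · rw [if_pos huw, if_neg]
      rw [hH]
      exact fun h => h.1 huw
    · rw [if_neg huw]
      by_cases ht : Touch G (B u) (B w)
      · rw [lemBt_one ht, if_pos ((hH u w).2 ⟨huw, ht⟩)]
      · rw [lemBt_zero ht, if_neg fun h => ht ((hH u w).1 h).2]
  calc ∑ u, ∑ w, (if u = w then 0 else lemBt G (B u) (B w)) = ∑ u, H.degree u :=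
        Finset.sum_congr rfl fun u _ => h4 u
    _ = 2 * H.edgeFinset.card := h2
    _ ≤ _ := by omega

/-- disjoint sets without touching pairs split their union -/
private lemma lemB_split {k : ℕ} (S : Fin (k + 1) → Set V) (hne : ∀ c, (S c).Nonempty)
    (hd : ∀ c c', c ≠ c' → Disjoint (S c) (S c')) (ht : ∀ c c', c ≠ c' → ¬ Touch G (S c) (S c')) :
    SplitsOn G (k + 1) (⋃ c, S c) := by
  classical
  obtain ⟨g, hg⟩ : ∃ g : V → Fin (k + 1), ∀ c, ∀ u ∈ S c, g u = c := by
    refine ⟨fun u => if h : ∃ c, u ∈ S c then h.choose else 0, ?_⟩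
    intro c u hu
    have h : ∃ c, u ∈ S c := ⟨c, hu⟩
    show (if h : ∃ c, u ∈ S c then h.choose else 0) = c
    rw [dif_pos h]
    by_contra hne'
    exact Set.disjoint_left.1 (hd _ _ hne') h.choose_spec hu
  refine ⟨g, ?_, ?_⟩
  · intro u hu w hw hadj
    obtain ⟨c, hc⟩ := Set.mem_iUnion.1 hu
    obtain ⟨c', hc'⟩ := Set.mem_iUnion.1 hw
    rw [hg c u hc, hg c' w hc']
    by_contra hcc
    exact ht c c' hcc ⟨u, hc, w, hc', hadj⟩
  · intro c
    obtain ⟨u, hu⟩ := hne c
    exact ⟨u, Set.mem_iUnion.2 ⟨c, hu⟩, hg c u hu⟩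

private lemma lemB_split2 {A B S : Set V} (hA : A.Nonempty) (hB : B.Nonempty)
    (hAB : Disjoint A B) (tAB : ¬ Touch G A B) (hS : A ∪ B = S) : SplitsOn G 2 S := by
  have h := lemB_split (G := G) (k := 1) ![A, B]
    (by intro c; fin_cases c; exacts [hA, hB])
    (by
      intro c c' hc
      fin_cases c <;> fin_cases c' <;> first | exact absurd rfl hc | exact hAB | exact hAB.symm)
    (by
      intro c c' hc
      fin_cases c <;> fin_cases c' <;>
        first | exact absurd rfl hc | exact tAB | exact fun h => tAB (lemB_tsymm h))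
  have e : (⋃ c, (![A, B] : Fin 2 → Set V) c) = S := by
    rw [← hS]
    ext u
    rw [Set.mem_iUnion, Fin.exists_fin_two]
    rfl
  rw [e] at h
  exact h

private lemma lemB_split3 {A B C S : Set V} (hA : A.Nonempty) (hB : B.Nonempty)
    (hC : C.Nonempty) (hAB : Disjoint A B) (hAC : Disjoint A C) (hBC : Disjoint B C)
    (tAB : ¬ Touch G A B) (tAC : ¬ Touch G A C) (tBC : ¬ Touch G B C) (hS : A ∪ B ∪ C = S) :
    SplitsOn G 3 S := by
  have h := lemB_split (G := G) (k := 2) ![A, B, C]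
    (by intro c; fin_cases c; exacts [hA, hB, hC])
    (by
      intro c c' hc
      fin_cases c <;> fin_cases c' <;>
        first | exact absurd rfl hc | exact hAB | exact hAB.symm | exact hAC | exact hAC.symm
              | exact hBC | exact hBC.symm)
    (by
      intro c c' hc
      fin_cases c <;> fin_cases c' <;>
        first | exact absurd rfl hc | exact tAB | exact fun h => tAB (lemB_tsymm h) | exact tAC
              | exact fun h => tAC (lemB_tsymm h) | exact tBC | exact fun h => tBC (lemB_tsymm h))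
  have e : (⋃ c, (![A, B, C] : Fin 3 → Set V) c) = S := by
    rw [← hS]
    ext u
    rw [Set.mem_iUnion]
    constructor
    · rintro ⟨c, hc⟩
      fin_cases c
      · exact Or.inl (Or.inl hc)
      · exact Or.inl (Or.inr hc)
      · exact Or.inr hc
    · rintro ((h | h) | h)
      · exact ⟨0, h⟩
      · exact ⟨1, h⟩
      · exact ⟨2, h⟩
  rw [e] at h
  exact h

private lemma lemB_const {A : Set V} (hA : ConnOn G A) (g : V → Fin 2)
    (hg : ∀ u ∈ A, ∀ w ∈ A, G.Adj u w → g u = g w) : ∀ u ∈ A, ∀ w ∈ A, g u = g w := by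
  intro u hu w hw
  by_contra hne
  apply hA.2
  refine ⟨g, hg, fun j => ?_⟩
  by_cases h : j = g u
  · exact ⟨u, hu, h.symm⟩
  · refine ⟨w, hw, ?_⟩
    omega

private lemma lemB_union {A B : Set V} (hA : ConnOn G A) (hB : ConnOn G B)
    (h : Touch G A B) : ConnOn G (A ∪ B) := by
  refine ⟨hA.1.mono Set.subset_union_left, ?_⟩
  rintro ⟨g, hg, hs⟩
  have hA' := lemB_const hA g fun u hu w hw => hg u (Or.inl hu) w (Or.inl hw)
  have hB' := lemB_const hB g fun u hu w hw => hg u (Or.inr hu) w (Or.inr hw)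
  obtain ⟨u, hu, w, hw, hadj⟩ := h
  have huw := hg u (Or.inl hu) w (Or.inr hw) hadj
  have hall : ∀ x ∈ A ∪ B, g x = g u := by
    rintro x (hx | hx)
    · exact hA' x hx u hu
    · exact (hB' x hx w hw).trans huw.symm
  obtain ⟨x, hx, hx0⟩ := hs 0
  obtain ⟨y, hy, hy1⟩ := hs 1
  have h1 := hall x hx
  have h2 := hall y hy
  rw [hx0] at h1
  rw [hy1] at h2
  exact absurd (h1.trans h2.symm) (by decide)

/-- the two pieces of a set which is not connected -/
private lemma lemB_pieces {S : Set V} (hne : S.Nonempty) (h3 : ¬ SplitsOn G 3 S)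
    (hc : ¬ ConnOn G S) : ∃ B : Fin 2 → Set V, (∀ i, ConnOn G (B i)) ∧ Disjoint (B 0) (B 1) ∧
      B 0 ∪ B 1 = S ∧ ¬ Touch G (B 0) (B 1) := by
  have h2 : SplitsOn G 2 S := by
    by_contra h
    exact hc ⟨hne, h⟩
  obtain ⟨g, hg, hs⟩ := h2
  obtain ⟨B, hB⟩ : ∃ B : Fin 2 → Set V, B = fun i => {u | u ∈ S ∧ g u = i} := ⟨_, rfl⟩
  have hBm : ∀ i u, u ∈ B i ↔ u ∈ S ∧ g u = i := fun i u => by rw [hB]; exact Iff.rfl
  have hdis : ∀ i j, i ≠ j → Disjoint (B i) (B j) := by
    intro i j hij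
    rw [Set.disjoint_left]
    intro u hu hu'
    exact hij (((hBm i u).1 hu).2.symm.trans ((hBm j u).1 hu').2)
  have hnt : ∀ i j, i ≠ j → ¬ Touch G (B i) (B j) := by
    rintro i j hij ⟨u, hu, w, hw, hadj⟩
    have h1 := (hBm i u).1 hu
    have h2 := (hBm j w).1 hw
    exact hij (h1.2.symm.trans ((hg u h1.1 w h2.1 hadj).trans h2.2))
  have hun : ∀ i j, i ≠ j → B i ∪ B j = S := by
    intro i j hij
    ext u
    constructor
    · rintro (h | h)
      · exact ((hBm i u).1 h).1
      · exact ((hBm j u).1 h).1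
    · intro hu
      by_cases h : g u = i
      · exact Or.inl ((hBm i u).2 ⟨hu, h⟩)
      · exact Or.inr ((hBm j u).2 ⟨hu, by omega⟩)
  have hne' : ∀ i, (B i).Nonempty := by
    intro i
    obtain ⟨u, hu, hgu⟩ := hs i
    exact ⟨u, (hBm i u).2 ⟨hu, hgu⟩⟩
  have hconn : ∀ i j, i ≠ j → ConnOn G (B i) := by
    intro i j hij
    refine ⟨hne' i, ?_⟩
    rintro ⟨g0, hg0, hs0⟩
    apply h3
    refine lemB_split3 (A := {u | u ∈ B i ∧ g0 u = 0}) (B := {u | u ∈ B i ∧ g0 u = 1}) (C := B j)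
      ?_ ?_ (hne' j) ?_ ?_ ?_ ?_ ?_ ?_ ?_
    · obtain ⟨u, hu, hu0⟩ := hs0 0
      exact ⟨u, hu, hu0⟩
    · obtain ⟨u, hu, hu0⟩ := hs0 1
      exact ⟨u, hu, hu0⟩
    · rw [Set.disjoint_left]
      rintro u ⟨-, hu⟩ ⟨-, hu'⟩
      exact absurd (hu.symm.trans hu') (by decide)
    · exact (hdis i j hij).mono_left fun u hu => hu.1
    · exact (hdis i j hij).mono_left fun u hu => hu.1
    · rintro ⟨u, ⟨hu, hu0⟩, w, ⟨hw, hw1⟩, hadj⟩
      have := hg0 u hu w hw hadj
      rw [hu0, hw1] at this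
      exact absurd this (by decide)
    · exact fun h => hnt i j hij (lemB_tmono (fun u hu => hu.1) (le_refl _) h)
    · exact fun h => hnt i j hij (lemB_tmono (fun u hu => hu.1) (le_refl _) h)
    · rw [← hun i j hij]
      congr 1
      ext u
      constructor
      · rintro (h | h)
        · exact h.1
        · exact h.1
      · intro h
        by_cases h0 : g0 u = 0
        · exact Or.inl ⟨h, h0⟩
        · exact Or.inr ⟨h, by omega⟩
  refine ⟨B, ?_, hdis 0 1 (by decide), hun 0 1 (by decide), hnt 0 1 (by decide)⟩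
  intro i
  by_cases h : i = 0
  · rw [h]
    exact hconn 0 1 (by decide)
  · exact hconn i 0 h

/-- a piece touches `X` -/
private lemma lemB_touchX {X A E : Set V} (hX : X.Nonempty) (hA : A.Nonempty)
    (hAE : A ⊆ E) (ht : ¬ Touch G A (E \ A)) (hXE : Disjoint X E)
    (h2 : ¬ SplitsOn G 2 (X ∪ E)) : Touch G X A := by
  by_contra h
  apply h2
  have hXA : Disjoint X A := hXE.mono_right hAE
  refine lemB_split2 (A := A) (B := X ∪ (E \ A)) hA (hX.mono Set.subset_union_left) ?_ ?_ ?_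
  · rw [Set.disjoint_union_right]
    exact ⟨hXA.symm, Set.disjoint_sdiff_right⟩
  · rintro ⟨u, hu, w, hw, hadj⟩
    rcases hw with hw | hw
    · exact h ⟨w, hw, u, hu, hadj.symm⟩
    · exact ht ⟨u, hu, w, hw, hadj⟩
  · ext u
    constructor
    · rintro (h | h | h)
      · exact Or.inr (hAE h)
      · exact Or.inl h
      · exact Or.inr h.1
    · rintro (h | h)
      · exact Or.inr (Or.inl h)
      · by_cases hu : u ∈ A
        · exact Or.inl hu
        · exact Or.inr (Or.inr ⟨h, hu⟩)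

private lemma lemB_iU2 (A : Fin 2 → Set V) : (⋃ i, A i) = A 0 ∪ A 1 := by
  ext u
  rw [Set.mem_iUnion, Fin.exists_fin_two]
  rfl

private lemma lemB_iU1 (A : Fin 1 → Set V) : (⋃ i, A i) = A 0 := by
  ext u
  rw [Set.mem_iUnion]
  constructor
  · rintro ⟨i, hi⟩
    rwa [Subsingleton.elim (0 : Fin 1) i]
  · intro h
    exact ⟨0, h⟩

private lemma lemB_parts {S : Set V} (hne : S.Nonempty) (h3 : ¬ SplitsOn G 3 S) :
    ∃ (p : ℕ) (B : Fin p → Set V), (p = 1 ∨ p = 2) ∧ (p = 1 → ConnOn G S) ∧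
      (p = 2 → ¬ ConnOn G S) ∧ (∀ i, ConnOn G (B i)) ∧ (∀ i j, i ≠ j → Disjoint (B i) (B j)) ∧
      (∀ i j, i ≠ j → ¬ Touch G (B i) (B j)) ∧ (⋃ i, B i) = S := by
  by_cases hc : ConnOn G S
  · refine ⟨1, fun _ => S, Or.inl rfl, fun _ => hc, fun h => absurd h (by norm_num),
      fun _ => hc, ?_, ?_, ?_⟩
    · intro i j hij
      exact absurd (Subsingleton.elim i j) hij
    · intro i j hij
      exact absurd (Subsingleton.elim i j) hij
    · exact lemB_iU1 _
  · obtain ⟨B, hB, hd, hu, ht⟩ := lemB_pieces hne h3 hc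
    refine ⟨2, B, Or.inr rfl, fun h => absurd h (by norm_num), fun _ => hc, hB, ?_, ?_, ?_⟩
    · intro i j hij
      fin_cases i <;> fin_cases j <;> first | exact absurd rfl hij | exact hd | exact hd.symm
    · intro i j hij
      fin_cases i <;> fin_cases j <;>
        first | exact absurd rfl hij | exact ht | exact fun h => ht (lemB_tsymm h)
    · rw [lemB_iU2]
      exact hu

private lemma lemB_core {A0 A1 B0 B1 S : Set V} (hA0 : A0.Nonempty) (hA1 : A1.Nonempty)
    (hB1 : B1.Nonempty) (dA : Disjoint A0 A1) (dB : Disjoint B0 B1)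
    (d01 : Disjoint A0 B1) (d10 : Disjoint A1 B0) (d11 : Disjoint A1 B1)
    (tA : ¬ Touch G A0 A1) (tB : ¬ Touch G B0 B1) (t01 : ¬ Touch G A0 B1)
    (t10 : ¬ Touch G A1 B0) (t11 : ¬ Touch G A1 B1) (hS : A0 ∪ A1 ∪ (B0 ∪ B1) = S) :
    SplitsOn G 3 S := by
  refine lemB_split3 (A := A0 ∪ B0) (B := A1) (C := B1) (hA0.mono Set.subset_union_left) hA1 hB1
    (Set.disjoint_union_left.2 ⟨dA, d10.symm⟩) (Set.disjoint_union_left.2 ⟨d01, dB⟩) d11 ?_ ?_
    t11 ?_
  · rintro ⟨u, hu | hu, w, hw, hadj⟩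
    · exact tA ⟨u, hu, w, hw, hadj⟩
    · exact t10 ⟨w, hw, u, hu, hadj.symm⟩
  · rintro ⟨u, hu | hu, w, hw, hadj⟩
    · exact t01 ⟨u, hu, w, hw, hadj⟩
    · exact tB ⟨u, hu, w, hw, hadj⟩
  · rw [← hS]
    ext u
    simp only [Set.mem_union]
    tauto

private lemma lemBt_not {A B : Set V} (h : lemBt G A B = 0) : ¬ Touch G A B := by
  intro h'
  rw [lemBt_one h'] at h
  exact absurd h (by norm_num)

private lemma lemB_W {p q : ℕ} (hp : p = 1 ∨ p = 2) (hq : q = 1 ∨ q = 2) (A : Fin p → Set V)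
    (B : Fin q → Set V) (hA : ∀ i, (A i).Nonempty) (hB : ∀ i, (B i).Nonempty)
    (dA : ∀ i j, i ≠ j → Disjoint (A i) (A j)) (dB : ∀ i j, i ≠ j → Disjoint (B i) (B j))
    (tA : ∀ i j, i ≠ j → ¬ Touch G (A i) (A j)) (tB : ∀ i j, i ≠ j → ¬ Touch G (B i) (B j))
    (d : ∀ i j, Disjoint (A i) (B j))
    (h3 : ¬ SplitsOn G 3 ((⋃ i, A i) ∪ ⋃ j, B j)) :
    p + q ≤ ∑ i, ∑ j, lemBt G (A i) (B j) + 2 := by
  rcases hp with rfl | rfl <;> rcases hq with rfl | rfl
  · omega
  · by_contra hlt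
    rw [lemB_iU1, lemB_iU2] at h3
    simp only [Fin.sum_univ_two, Fin.sum_univ_one] at hlt
    have h0 : lemBt G (A 0) (B 0) = 0 := by omega
    have h1 : lemBt G (A 0) (B 1) = 0 := by omega
    exact h3 (lemB_split3 (hA 0) (hB 0) (hB 1) (d 0 0) (d 0 1) (dB 0 1 (by decide))
      (lemBt_not h0) (lemBt_not h1) (tB 0 1 (by decide)) (Set.union_assoc _ _ _))
  · by_contra hlt
    rw [lemB_iU1, lemB_iU2] at h3
    simp only [Fin.sum_univ_two, Fin.sum_univ_one] at hlt
    have h0 : lemBt G (A 0) (B 0) = 0 := by omega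
    have h1 : lemBt G (A 1) (B 0) = 0 := by omega
    exact h3 (lemB_split3 (hA 0) (hA 1) (hB 0) (dA 0 1 (by decide)) (d 0 0) (d 1 0)
      (tA 0 1 (by decide)) (lemBt_not h0) (lemBt_not h1) rfl)
  · by_contra hlt
    rw [lemB_iU2, lemB_iU2] at h3
    simp only [Fin.sum_univ_two] at hlt
    have hc : (lemBt G (A 0) (B 1) = 0 ∧ lemBt G (A 1) (B 0) = 0 ∧ lemBt G (A 1) (B 1) = 0) ∨
        (lemBt G (A 0) (B 0) = 0 ∧ lemBt G (A 1) (B 0) = 0 ∧ lemBt G (A 1) (B 1) = 0) ∨
        (lemBt G (A 0) (B 0) = 0 ∧ lemBt G (A 0) (B 1) = 0 ∧ lemBt G (A 1) (B 1) = 0) ∨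
        (lemBt G (A 0) (B 0) = 0 ∧ lemBt G (A 0) (B 1) = 0 ∧ lemBt G (A 1) (B 0) = 0) := by
      omega
    have a01 := dA 0 1 (by decide)
    have b01 := dB 0 1 (by decide)
    have ta := tA 0 1 (by decide)
    have tb := tB 0 1 (by decide)
    rcases hc with ⟨h1, h2, h4⟩ | ⟨h1, h2, h4⟩ | ⟨h1, h2, h4⟩ | ⟨h1, h2, h4⟩
    · exact h3 (lemB_core (hA 0) (hA 1) (hB 1) a01 b01 (d 0 1) (d 1 0) (d 1 1) ta tb
        (lemBt_not h1) (lemBt_not h2) (lemBt_not h4) rfl)
    · exact h3 (lemB_core (hA 0) (hA 1) (hB 0) a01 b01.symm (d 0 0) (d 1 1) (d 1 0) ta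
        (fun h => tb (lemB_tsymm h)) (lemBt_not h1) (lemBt_not h4) (lemBt_not h2)
        (by rw [Set.union_comm (B 1)]))
    · exact h3 (lemB_core (hA 1) (hA 0) (hB 1) a01.symm b01 (d 1 1) (d 0 0) (d 0 1)
        (fun h => ta (lemB_tsymm h)) tb (lemBt_not h4) (lemBt_not h1) (lemBt_not h2)
        (by rw [Set.union_comm (A 1)]))
    · exact h3 (lemB_core (hA 1) (hA 0) (hB 0) a01.symm b01.symm (d 1 0) (d 0 1) (d 0 0)
        (fun h => ta (lemB_tsymm h)) (fun h => tb (lemB_tsymm h)) (lemBt_not h4) (lemBt_not h2)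
        (lemBt_not h1) (by rw [Set.union_comm (A 1), Set.union_comm (B 1)]))

/-! ### Counting -/

private lemma lemB_off {κ : Type} [Fintype κ] [DecidableEq κ] (f : κ → ℕ) (u : κ) :
    ∑ w, (if u = w then 0 else f w) + f u = ∑ w, f w := by
  have h : ∀ w, (if u = w then 0 else f w) + (if u = w then f w else 0) = f w := by
    intro w
    split_ifs <;> simp
  calc ∑ w, (if u = w then 0 else f w) + f u
      = ∑ w, (if u = w then 0 else f w) + ∑ w, (if u = w then f w else 0) := by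
        rw [Finset.sum_ite_eq, if_pos (Finset.mem_univ u)]
    _ = ∑ w, f w := by
        rw [← Finset.sum_add_distrib]
        exact Finset.sum_congr rfl fun w _ => h w

private lemma lemB_opt {κ : Type} {R : Set V → Set V → Prop} (hR : ∀ A B, R A B → R B A)
    {X : Set V} {C : κ → Set V} (hX : ∀ a, R X (C a)) (hC : ∀ a b, a ≠ b → R (C a) (C b)) :
    ∀ a b : Option κ, a ≠ b → R (a.elim X C) (b.elim X C) := by
  rintro (_ | a) (_ | b) hab
  · exact absurd rfl hab
  · exact hX b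
  · exact hR _ _ (hX a)
  · exact hC a b fun h => hab (by rw [h])

private lemma lemB_opt1 {κ : Type} {P : Set V → Prop} {X : Set V} {C : κ → Set V} (hX : P X)
    (hC : ∀ a, P (C a)) : ∀ a : Option κ, P (a.elim X C) := by
  rintro (_ | a)
  · exact hX
  · exact hC a

/-- at most four pairwise touching sets -/
private lemma lemB_K (hG : Planarish G) (κ : Type) [Fintype κ] [DecidableEq κ] (C : κ → Set V)
    (hC : ∀ i, ConnOn G (C i)) (hd : ∀ i j, i ≠ j → Disjoint (C i) (C j))
    (ht : ∀ i j, i ≠ j → Touch G (C i) (C j)) : Fintype.card κ ≤ 4 := by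
  by_contra hlt
  have h := lemB_count hG κ (by omega) C hC hd
  have e : ∀ u, ∑ w, (if u = w then 0 else lemBt G (C u) (C w)) = Fintype.card κ - 1 := by
    intro u
    have e1 : ∑ w, (if u = w then 0 else lemBt G (C u) (C w)) =
        ∑ w : κ, (if u = w then 0 else 1) := by
      refine Finset.sum_congr rfl fun w _ => ?_
      by_cases huw : u = w
      · rw [if_pos huw, if_pos huw]
      · rw [if_neg huw, if_neg huw, lemBt_one (ht u w huw)]
    have e2 := lemB_off (fun _ : κ => 1) u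
    have e3 : ∑ _w : κ, 1 = Fintype.card κ := by
      rw [Finset.sum_const, Finset.card_univ, smul_eq_mul, mul_one]
    rw [e3] at e2
    rw [e1]
    exact Nat.eq_sub_of_add_eq e2
  rw [Finset.sum_congr rfl fun u _ => e u, Finset.sum_const, Finset.card_univ, smul_eq_mul] at h
  obtain ⟨n, hn⟩ : ∃ n, Fintype.card κ = n + 5 := ⟨Fintype.card κ - 5, by omega⟩
  rw [hn] at h
  have h5 : n + 5 - 1 = n + 4 := rfl
  rw [h5] at h
  have h6 : 3 * (n + 5) - 6 = 3 * n + 9 := by omega
  rw [h6] at h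
  nlinarith [h]

end

section
variable {V : Type} {G : SimpleGraph V} (hG : Planarish G) {X : Set V} (hX : ConnOn G X)
  {κ : Type} [Fintype κ] [DecidableEq κ] (C : κ → Set V) (hC : ∀ i, ConnOn G (C i))
  (hd : ∀ i j, i ≠ j → Disjoint (C i) (C j)) (hXd : ∀ i, Disjoint X (C i))
  (hXt : ∀ i, Touch G X (C i))

include hG hX hC hd hXd hXt

/-- the count for cells touching `X` -/
private lemma lemB_cells (h2 : 2 ≤ Fintype.card κ) :
    ∑ u, ∑ w, (if u = w then 0 else lemBt G (C u) (C w)) + 6 ≤ 4 * Fintype.card κ := by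
  have h := lemB_count hG (Option κ) (by rw [Fintype.card_option]; omega) (fun o => o.elim X C)
    (lemB_opt1 hX hC) (lemB_opt (fun _ _ h => h.symm) hXd hd)
  have e1 : ∑ w : Option κ, (if (none : Option κ) = w then 0 else
      lemBt G ((none : Option κ).elim X C) (w.elim X C)) = Fintype.card κ := by
    rw [Fintype.sum_option, if_pos rfl, zero_add]
    rw [Finset.sum_congr rfl (g := fun _ => 1), Finset.sum_const, Finset.card_univ, smul_eq_mul,
      mul_one]
    intro w _
    rw [if_neg (by simp)]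
    exact lemBt_one (hXt w)
  have e2 : ∀ u : κ, ∑ w : Option κ, (if some u = w then 0 else
      lemBt G ((some u).elim X C) (w.elim X C)) =
      1 + ∑ w, (if u = w then 0 else lemBt G (C u) (C w)) := by
    intro u
    rw [Fintype.sum_option]
    congr 1
    · rw [if_neg (by simp)]
      exact lemBt_one (lemB_tsymm (hXt u))
    · refine Finset.sum_congr rfl fun w _ => ?_
      by_cases huw : u = w
      · rw [if_pos huw, if_pos (by rw [huw])]
      · rw [if_neg huw, if_neg fun h => huw (Option.some.inj h)]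
        rfl
  rw [Fintype.sum_option, e1, Finset.sum_congr rfl fun u _ => e2 u, Finset.sum_add_distrib,
    Finset.sum_const, Finset.card_univ, smul_eq_mul, mul_one, Fintype.card_option] at h
  omega

omit [Fintype κ] in
private lemma lemB_V2 (M : Finset κ)
    (hM : ∀ a ∈ M, ∀ b ∈ M, a ≠ b → Touch G (C a) (C b)) : M.card ≤ 3 := by
  have h := lemB_K hG (Option M) (fun o => o.elim X (fun a : M => C a.1))
    (lemB_opt1 hX fun a => hC a.1)
    (lemB_opt (fun _ _ h => h.symm) (fun a => hXd a.1)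
      fun a b hab => hd a.1 b.1 fun h => hab (Subtype.ext h))
    (lemB_opt (R := Touch G) (fun _ _ h => lemB_tsymm h) (fun a => hXt a.1)
      fun a b hab => hM a.1 a.2 b.1 b.2 fun h => hab (Subtype.ext h))
  rw [Fintype.card_option, Fintype.card_coe] at h
  omega

omit [Fintype κ] in
private lemma lemB_V1 {Z : Set V} (hZ : ConnOn G Z) (hXZ : Disjoint X Z) (tXZ : Touch G X Z)
    (M : Finset κ) (hM : ∀ a ∈ M, ∀ b ∈ M, a ≠ b → Touch G (C a) (C b))
    (hZd : ∀ a ∈ M, Disjoint Z (C a)) (hZt : ∀ a ∈ M, Touch G Z (C a)) : M.card ≤ 2 := by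
  have h := lemB_K hG (Option (Option M))
    (fun o => o.elim X (fun o' => o'.elim Z (fun a : M => C a.1)))
    (lemB_opt1 hX (lemB_opt1 hZ fun a => hC a.1))
    (lemB_opt (fun _ _ h => h.symm) (lemB_opt1 hXZ fun a => hXd a.1)
      (lemB_opt (fun _ _ h => h.symm) (fun a => hZd a.1 a.2)
        fun a b hab => hd a.1 b.1 fun h => hab (Subtype.ext h)))
    (lemB_opt (R := Touch G) (fun _ _ h => lemB_tsymm h)
      (lemB_opt1 (P := Touch G X) tXZ fun a => hXt a.1)
      (lemB_opt (R := Touch G) (fun _ _ h => lemB_tsymm h) (fun a => hZt a.1 a.2)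
        fun a b hab => hM a.1 a.2 b.1 b.2 fun h => hab (Subtype.ext h)))
  rw [Fintype.card_option, Fintype.card_option, Fintype.card_coe] at h
  omega

omit hG hX hd hXd hXt [DecidableEq κ] [Fintype κ] in
/-- the star of a cell is connected -/
private lemma lemB_starConn (y : κ) :
    ConnOn G {u | u ∈ C y ∨ ∃ a, a ≠ y ∧ Touch G (C y) (C a) ∧ u ∈ C a} := by
  refine ⟨(hC y).1.mono fun u hu => Or.inl hu, ?_⟩
  rintro ⟨g, hg, hs⟩
  have hc : ∀ a, (a = y ∨ (a ≠ y ∧ Touch G (C y) (C a))) → ∀ u ∈ C a, ∀ w ∈ C a, g u = g w := by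
    intro a ha
    have hsub : ∀ u ∈ C a, u ∈ {u | u ∈ C y ∨ ∃ a, a ≠ y ∧ Touch G (C y) (C a) ∧ u ∈ C a} := by
      intro u hu
      rcases ha with ha | ha
      · exact Or.inl (ha ▸ hu)
      · exact Or.inr ⟨a, ha.1, ha.2, hu⟩
    exact lemB_const (hC a) g fun u hu w hw => hg u (hsub u hu) w (hsub w hw)
  obtain ⟨x, hx⟩ := (hC y).1
  have hall : ∀ u, (u ∈ C y ∨ ∃ a, a ≠ y ∧ Touch G (C y) (C a) ∧ u ∈ C a) → g u = g x := by
    rintro u (hu | ⟨a, hay, hta, hu⟩)
    · exact hc y (Or.inl rfl) u hu x hx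
    · obtain ⟨z, hz, w, hw, hadj⟩ := hta
      have h1 := hc a (Or.inr ⟨hay, ⟨z, hz, w, hw, hadj⟩⟩) u hu w hw
      have h2 := hg z (Or.inl hz) w (Or.inr ⟨a, hay, ⟨z, hz, w, hw, hadj⟩, hw⟩) hadj
      have h3 := hc y (Or.inl rfl) z hz x hx
      rw [h1, ← h2, h3]
  obtain ⟨u, hu, hu0⟩ := hs 0
  obtain ⟨w, hw, hw1⟩ := hs 1
  have h1 := hall u hu
  have h2 := hall w hw
  rw [hu0] at h1
  rw [hw1] at h2
  exact absurd (h1.trans h2.symm) (by decide)

omit [Fintype κ] in
/-- a vertex with three nonneighbours: some nonneighbour does not touch the star -/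
private lemma lemB_far (hI : ∀ a b c, a ≠ b → a ≠ c → b ≠ c →
      Touch G (C a) (C b) ∨ Touch G (C a) (C c) ∨ Touch G (C b) (C c)) (y : κ) (M : Finset κ)
    (hM : ∀ a, a ∈ M ↔ a ≠ y ∧ ¬ Touch G (C y) (C a)) (h3 : 3 ≤ M.card) :
    ∃ b ∈ M, ∀ z, (z = y ∨ (z ≠ y ∧ Touch G (C y) (C z))) → z ≠ b ∧ ¬ Touch G (C b) (C z) := by
  by_contra hcon
  push Not at hcon
  have h := lemB_V1 hG hX C hC hd hXd hXt (lemB_starConn C hC y) ?_ ?_ M ?_ ?_ ?_
  · omega
  · rw [Set.disjoint_left]
    rintro u hu (hu' | ⟨a, -, -, hu'⟩)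
    · exact Set.disjoint_left.1 (hXd y) hu hu'
    · exact Set.disjoint_left.1 (hXd a) hu hu'
  · exact lemB_tmono (le_refl _) (fun u hu => Or.inl hu) (hXt y)
  · intro a ha b hb hab
    have ha' := (hM a).1 ha
    have hb' := (hM b).1 hb
    rcases hI y a b ha'.1.symm hb'.1.symm hab with h | h | h
    · exact absurd h ha'.2
    · exact absurd h hb'.2
    · exact h
  · intro b hb
    have hb' := (hM b).1 hb
    rw [Set.disjoint_left]
    rintro u (hu | ⟨a, hay, hta, hu⟩) hu'
    · exact Set.disjoint_left.1 (hd y b hb'.1.symm) hu hu'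
    · refine Set.disjoint_left.1 (hd a b ?_) hu hu'
      rintro rfl
      exact hb'.2 hta
  · intro b hb
    have hb' := (hM b).1 hb
    obtain ⟨z, hz, hz'⟩ := hcon b hb
    have hzb : z ≠ b := by
      rcases hz with rfl | hz
      · exact hb'.1.symm
      · rintro rfl
        exact hb'.2 hz.2
    have ht := hz' hzb
    refine lemB_tmono ?_ (le_refl _) (lemB_tsymm ht)
    intro u hu
    rcases hz with rfl | hz
    · exact Or.inl hu
    · exact Or.inr ⟨z, hz.1, hz.2, hu⟩

omit hG hX hC hd hXd hXt in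
private lemma lemB_deg (y : κ) : ∃ N M : Finset κ,
    (∀ a, a ∈ N ↔ a ≠ y ∧ Touch G (C y) (C a)) ∧ (∀ a, a ∈ M ↔ a ≠ y ∧ ¬ Touch G (C y) (C a)) ∧
    N.card = ∑ w, (if y = w then 0 else lemBt G (C y) (C w)) ∧
    N.card + M.card + 1 = Fintype.card κ := by
  classical
  refine ⟨Finset.univ.filter fun a => a ≠ y ∧ Touch G (C y) (C a),
    Finset.univ.filter fun a => a ≠ y ∧ ¬ Touch G (C y) (C a), ?_, ?_, ?_, ?_⟩
  · intro a
    simp
  · intro a
    simp
  · rw [Finset.card_filter]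
    refine Finset.sum_congr rfl fun w _ => ?_
    by_cases hyw : y = w
    · rw [if_pos hyw, if_neg fun h => h.1 hyw.symm]
    · rw [if_neg hyw]
      by_cases ht : Touch G (C y) (C w)
      · rw [lemBt_one ht, if_pos ⟨Ne.symm hyw, ht⟩]
      · rw [lemBt_zero ht, if_neg fun h => ht h.2]
  · have h1 := lemB_off (fun _ : κ => 1) y
    have e3 : ∑ _w : κ, 1 = Fintype.card κ := by
      rw [Finset.sum_const, Finset.card_univ, smul_eq_mul, mul_one]
    rw [e3] at h1
    rw [← h1, Finset.card_filter, Finset.card_filter, ← Finset.sum_add_distrib]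
    congr 1
    refine Finset.sum_congr rfl fun w _ => ?_
    by_cases hyw : y = w
    · rw [if_pos hyw, if_neg fun h => h.1 hyw.symm, if_neg fun h => h.1 hyw.symm]
    · rw [if_neg hyw]
      by_cases ht : Touch G (C y) (C w)
      · rw [if_pos ⟨Ne.symm hyw, ht⟩, if_neg fun h => h.2 ht]
      · rw [if_neg fun h => ht h.2, if_pos ⟨Ne.symm hyw, ht⟩]

/-- the three cases -/
private lemma lemB_sing (hI : ∀ a b c, a ≠ b → a ≠ c → b ≠ c →
      Touch G (C a) (C b) ∨ Touch G (C a) (C c) ∨ Touch G (C b) (C c)) (k : ℕ) (hk : k ≤ 2)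
    (hκ : Fintype.card κ + k = 7)
    (hsum : ∑ u, ∑ w, (if u = w then 0 else lemBt G (C u) (C w)) + 8 * k ≤ 22)
    (h1 : k = 1 → ∃ j j' : Set V, ConnOn G j ∧ ConnOn G j' ∧ Disjoint j j' ∧ Disjoint X j ∧
      Disjoint X j' ∧ Touch G X j ∧ Touch G X j' ∧ (∀ a, Disjoint j (C a)) ∧
      (∀ a, Disjoint j' (C a)) ∧ ∀ a, Touch G j (C a) ∨ Touch G j' (C a)) : False := by
  choose N M hN hM hdeg hcard using lemB_deg (G := G) C
  have hclique : ∀ y, ∀ a ∈ M y, ∀ b ∈ M y, a ≠ b → Touch G (C a) (C b) := by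
    intro y a ha b hb hab
    have ha' := (hM y a).1 ha
    have hb' := (hM y b).1 hb
    rcases hI y a b ha'.1.symm hb'.1.symm hab with h | h | h
    · exact absurd h ha'.2
    · exact absurd h hb'.2
    · exact h
  have hM3 : ∀ y, (M y).card ≤ 3 := fun y =>
    lemB_V2 hG hX C hC hd hXd hXt (M y) (hclique y)
  rw [Finset.sum_congr rfl fun u _ => (hdeg u).symm] at hsum
  -- a vertex of small degree
  obtain ⟨y, hy⟩ : ∃ y, (N y).card ≤ 3 - k := by
    by_contra hcon
    push Not at hcon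
    have h2 : ∑ _u : κ, (4 - k) ≤ ∑ u, (N u).card :=
      Finset.sum_le_sum fun u _ => by have := hcon u; omega
    rw [Finset.sum_const, Finset.card_univ, smul_eq_mul] at h2
    have h4 : Fintype.card κ = 7 - k := by omega
    rw [h4] at h2
    interval_cases k <;> omega
  have hc1 := hcard y
  have hc2 := hM3 y
  have hMy : (M y).card = 3 := by omega
  have hNy : (N y).card = 3 - k := by omega
  obtain ⟨b, hb, hfar⟩ := lemB_far hG hX C hC hd hXd hXt hI y (M y) (hM y) (le_of_eq hMy.symm)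
  have hyN : y ∉ N y := fun h => ((hN y y).1 h).1 rfl
  have hT : insert y (N y) ⊆ M b := by
    intro z hz
    rw [hM b z]
    refine hfar z ?_
    rcases Finset.mem_insert.1 hz with h | h
    · exact Or.inl h
    · exact Or.inr ((hN y z).1 h)
  have hTc : (insert y (N y)).card = 4 - k := by
    rw [Finset.card_insert_of_notMem hyN]
    omega
  have hk3 : k = 0 ∨ k = 1 ∨ k = 2 := by omega
  rcases hk3 with hk0 | hk0 | hk0
  · have h5 := Finset.card_le_card hT
    have h6 := hM3 b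
    omega
  · -- one double
    obtain ⟨j, j', hj, hj', hjj, hXj, hXj', tXj, tXj', hjd, hjd', hor⟩ := h1 hk0
    have hT2 : ∀ a ∈ insert y (N y), ∀ c ∈ insert y (N y), a ≠ c → Touch G (C a) (C c) :=
      fun a ha c hc => hclique b a (hT ha) c (hT hc)
    have key : ∀ i : Set V, ConnOn G i → Disjoint X i → Touch G X i → (∀ a, Disjoint i (C a)) →
        ∃ a ∈ insert y (N y), ¬ Touch G i (C a) := by
      intro i hi hXi tXi hid
      by_contra hcon
      push Not at hcon
      have := lemB_V1 hG hX C hC hd hXd hXt hi hXi tXi (insert y (N y)) hT2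
        (fun a _ => hid a) hcon
      omega
    have hsub : ∀ a ∈ insert y (N y), ∀ u ∈ C a,
        u ∈ {u | u ∈ C y ∨ ∃ a, a ≠ y ∧ Touch G (C y) (C a) ∧ u ∈ C a} := by
      intro a ha u hu
      rcases Finset.mem_insert.1 ha with h | h
      · exact Or.inl (h ▸ hu)
      · have h' := (hN y a).1 h
        exact Or.inr ⟨a, h'.1, h'.2, hu⟩
    have hS := lemB_starConn (G := G) C hC y
    obtain ⟨S, hSdef⟩ : ∃ S : Set V,
        S = {u | u ∈ C y ∨ ∃ a, a ≠ y ∧ Touch G (C y) (C a) ∧ u ∈ C a} := ⟨_, rfl⟩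
    rw [← hSdef] at hS hsub
    obtain ⟨a, ha, hta⟩ := key j hj hXj tXj hjd
    obtain ⟨a', ha', hta'⟩ := key j' hj' hXj' tXj' hjd'
    have tSj' : Touch G S j' := lemB_tmono (hsub a ha) (le_refl _)
      (lemB_tsymm ((hor a).resolve_left hta))
    have tSj : Touch G S j := lemB_tmono (hsub a' ha') (le_refl _)
      (lemB_tsymm ((hor a').resolve_right hta'))
    have hZ : ConnOn G (S ∪ j ∪ j') :=
      lemB_union (lemB_union hS hj tSj) hj'
        (lemB_tmono Set.subset_union_left (le_refl _) tSj')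
    have hXS : Disjoint X S := by
      rw [hSdef, Set.disjoint_left]
      rintro u hu (hu' | ⟨a, -, -, hu'⟩)
      · exact Set.disjoint_left.1 (hXd y) hu hu'
      · exact Set.disjoint_left.1 (hXd a) hu hu'
    have h := lemB_V1 hG hX C hC hd hXd hXt hZ
      (Set.disjoint_union_right.2 ⟨Set.disjoint_union_right.2 ⟨hXS, hXj⟩, hXj'⟩)
      (lemB_tmono (le_refl _) Set.subset_union_right tXj') (M y) (hclique y) ?_ ?_
    · omega
    · intro c hc
      have hc' := (hM y c).1 hc
      refine Set.disjoint_union_left.2 ⟨Set.disjoint_union_left.2 ⟨?_, hjd c⟩, hjd' c⟩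
      rw [hSdef, Set.disjoint_left]
      rintro u (hu | ⟨a, hay, hta, hu⟩) hu'
      · exact Set.disjoint_left.1 (hd y c hc'.1.symm) hu hu'
      · refine Set.disjoint_left.1 (hd a c ?_) hu hu'
        rintro rfl
        exact hc'.2 hta
    · intro c hc
      rcases hor c with h | h
      · exact lemB_tmono (fun u hu => Or.inl (Or.inr hu)) (le_refl _) h
      · exact lemB_tmono (fun u hu => Or.inr hu) (le_refl _) h
  · -- two doubles
    have hyM : y ∉ M y := fun h => ((hM y y).1 h).1 rfl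
    have h5 : ∑ z ∈ insert y (M y), (N z).card ≤ ∑ z, (N z).card :=
      Finset.sum_le_sum_of_subset (Finset.subset_univ _)
    rw [Finset.sum_insert hyM] at h5
    have h6 : ∑ _z ∈ M y, 2 ≤ ∑ z ∈ M y, (N z).card := by
      refine Finset.sum_le_sum fun z hz => ?_
      have h7 : (M y).erase z ⊆ N z := by
        intro c hc
        rw [Finset.mem_erase] at hc
        rw [hN z c]
        exact ⟨hc.1, hclique y z hz c hc.2 hc.1.symm⟩
      have h8 := Finset.card_le_card h7
      rw [Finset.card_erase_of_mem hz, hMy] at h8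
      exact h8
    rw [Finset.sum_const, smul_eq_mul, hMy] at h6
    omega

end

/-! ### The sum over all groups -/

private lemma lemB_inj {α β : Type} [Fintype α] [Fintype β] [DecidableEq β] (e : α → β)
    (he : Function.Injective e) (F : β → ℕ) : ∑ x, F (e x) ≤ ∑ c, F c := by
  rw [← Finset.sum_image (f := F) (g := e) (s := Finset.univ) (fun _ _ _ _ h => he h)]
  exact Finset.sum_le_sum_of_subset (Finset.subset_univ _)

private lemma lemB_abs {V : Type} {G : SimpleGraph V} (hG : Planarish G) {X : Set V}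
    (hX : ConnOn G X) (O : Type) [Fintype O] [DecidableEq O] (hO : Fintype.card O = 7)
    (E : O → Set V) (hE : ∀ c, (E c).Nonempty) (hEd : ∀ c c', c ≠ c' → Disjoint (E c) (E c'))
    (hXE : ∀ c, Disjoint X (E c)) (h2 : ∀ c, ¬ SplitsOn G 2 (X ∪ E c))
    (h3p : ∀ c c', ¬ SplitsOn G 3 (E c ∪ E c'))
    (h3t : ∀ c c' c'', ¬ SplitsOn G 3 (E c ∪ E c' ∪ E c'')) : False := by
  classical
  choose p B hp hp1 hp2 hB hBd hBt hBu using fun c =>
    lemB_parts (G := G) (hE c) (by have := h3p c c; rwa [Set.union_self] at this)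
  have hBE : ∀ c i, B c i ⊆ E c := fun c i => by
    rw [← hBu c]
    exact Set.subset_iUnion _ i
  have htX : ∀ c i, Touch G X (B c i) := by
    intro c i
    refine lemB_touchX hX.1 (hB c i).1 (hBE c i) ?_ (hXE c) (h2 c)
    rintro ⟨u, hu, w, hw, hadj⟩
    rw [← hBu c] at hw
    obtain ⟨j, hj⟩ := Set.mem_iUnion.1 hw.1
    refine hBt c i j ?_ ⟨u, hu, w, hj, hadj⟩
    rintro rfl
    exact hw.2 hj
  have hBB : ∀ c c', c ≠ c' → ∀ i j, Disjoint (B c i) (B c' j) := fun c c' hcc i j =>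
    (hEd c c' hcc).mono (hBE c i) (hBE c' j)
  have hp' : ∀ c, 1 ≤ p c := fun c => by rcases hp c with h | h <;> omega
  obtain ⟨P, hP⟩ : ∃ P, P = ∑ c, p c := ⟨_, rfl⟩
  have hone : ∑ _c : O, 1 = 7 := by
    rw [Finset.sum_const, Finset.card_univ, smul_eq_mul, mul_one, hO]
  have hP7 : 7 ≤ P := by
    rw [hP, ← hone]
    exact Finset.sum_le_sum fun c _ => hp' c
  -- the count
  have hcells := lemB_cells hG hX (fun u : (Σ c, Fin (p c)) => B u.1 u.2)
    (fun u => hB u.1 u.2) (by
      rintro ⟨c, i⟩ ⟨c', j⟩ hne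
      by_cases hcc : c = c'
      · subst hcc
        exact hBd c i j fun h => hne (by rw [h])
      · exact hBB c c' hcc i j) (fun u => (hXE u.1).mono_right (hBE u.1 u.2))
    (fun u => htX u.1 u.2) (by
      rw [Fintype.card_sigma]
      simp only [Fintype.card_fin]
      omega)
  rw [Fintype.card_sigma] at hcells
  simp only [Fintype.card_fin] at hcells
  rw [← hP] at hcells
  -- lower bound
  obtain ⟨W, hW⟩ : ∃ W : O → O → ℕ, W = fun c c' => ∑ i, ∑ j, lemBt G (B c i) (B c' j) :=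
    ⟨_, rfl⟩
  have hlow : ∑ c, ∑ c', (if c = c' then 0 else W c c') ≤
      ∑ u : (Σ c, Fin (p c)), ∑ w : (Σ c, Fin (p c)),
        (if u = w then 0 else lemBt G (B u.1 u.2) (B w.1 w.2)) := by
    rw [Fintype.sum_sigma]
    refine Finset.sum_le_sum fun c _ => ?_
    have e : ∀ i : Fin (p c), ∑ c', (if c = c' then 0 else ∑ j, lemBt G (B c i) (B c' j)) ≤
        ∑ w : (Σ c, Fin (p c)),
          (if (⟨c, i⟩ : Σ c, Fin (p c)) = w then 0 else lemBt G (B c i) (B w.1 w.2)) := by
      intro i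
      rw [Fintype.sum_sigma]
      refine Finset.sum_le_sum fun c' _ => ?_
      by_cases hcc : c = c'
      · rw [if_pos hcc]
        exact Nat.zero_le _
      · rw [if_neg hcc]
        refine Finset.sum_le_sum fun j _ => ?_
        rw [if_neg]
        intro h
        exact hcc (congrArg Sigma.fst h)
    refine le_trans (le_of_eq ?_) (Finset.sum_le_sum fun i _ => e i)
    rw [Finset.sum_comm]
    refine Finset.sum_congr rfl fun c' _ => ?_
    by_cases hcc : c = c'
    · rw [if_pos hcc, Finset.sum_congr rfl fun i _ => if_pos hcc, Finset.sum_const_zero]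
    · rw [if_neg hcc, Finset.sum_congr rfl fun i _ => if_neg hcc, hW]
  have hWlow : ∀ c c', c ≠ c' → (p c - 1) + (p c' - 1) +
      (if p c = 1 ∧ p c' = 1 then lemBt G (E c) (E c') else 0) ≤ W c c' := by
    intro c c' hcc
    have h := lemB_W (G := G) (hp c) (hp c') (B c) (B c') (fun i => (hB c i).1)
      (fun i => (hB c' i).1) (hBd c) (hBd c') (hBt c) (hBt c') (hBB c c' hcc)
      (by rw [hBu, hBu]; exact h3p c c')
    have hWc : W c c' = ∑ i, ∑ j, lemBt G (B c i) (B c' j) := by rw [hW]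
    by_cases hs : p c = 1 ∧ p c' = 1
    · rw [if_pos hs, hs.1, hs.2]
      have e : ∀ (q q' : ℕ) (A : Fin q → Set V) (A' : Fin q' → Set V), q = 1 → q' = 1 →
          lemBt G (⋃ i, A i) (⋃ i, A' i) = ∑ i, ∑ j, lemBt G (A i) (A' j) := by
        rintro q q' A A' rfl rfl
        rw [lemB_iU1, lemB_iU1, Fin.sum_univ_one, Fin.sum_univ_one]
      have e' := e _ _ (B c) (B c') hs.1 hs.2
      rw [hBu, hBu, ← hWc] at e'
      omega
    · rw [if_neg hs, hWc]
      have h1 := hp' c
      have h1' := hp' c'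
      omega
  obtain ⟨K, hK⟩ : ∃ K, K = ∑ c, (p c - 1) := ⟨_, rfl⟩
  have hKP : K + 7 = P := by
    rw [hK, hP, ← hone, ← Finset.sum_add_distrib]
    refine Finset.sum_congr rfl fun c _ => ?_
    have := hp' c
    omega
  have hL : ∑ c, ∑ c', (if c = c' then 0 else (p c - 1) + (p c' - 1)) = 12 * K := by
    have e : ∀ c, ∑ c', (if c = c' then 0 else (p c - 1) + (p c' - 1)) + 2 * (p c - 1) =
        7 * (p c - 1) + K := by
      intro c
      have h := lemB_off (fun c' => (p c - 1) + (p c' - 1)) c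
      rw [Finset.sum_add_distrib, ← hK, Finset.sum_const, Finset.card_univ, smul_eq_mul, hO] at h
      omega
    have e2 := Finset.sum_congr (s₁ := (Finset.univ : Finset O)) rfl fun c _ => e c
    rw [Finset.sum_add_distrib, Finset.sum_add_distrib, ← Finset.mul_sum, ← Finset.mul_sum,
      ← hK, Finset.sum_const, Finset.card_univ, smul_eq_mul, hO] at e2
    omega
  have hLS : ∑ c, ∑ c', (if c = c' then 0 else (p c - 1) + (p c' - 1)) +
      ∑ c, ∑ c', (if c = c' then 0 else
        (if p c = 1 ∧ p c' = 1 then lemBt G (E c) (E c') else 0)) ≤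
      ∑ c, ∑ c', (if c = c' then 0 else W c c') := by
    rw [← Finset.sum_add_distrib]
    refine Finset.sum_le_sum fun c _ => ?_
    rw [← Finset.sum_add_distrib]
    refine Finset.sum_le_sum fun c' _ => ?_
    by_cases hcc : c = c'
    · rw [if_pos hcc, if_pos hcc, if_pos hcc]
    · rw [if_neg hcc, if_neg hcc, if_neg hcc]
      exact hWlow c c' hcc
  have hsing : ∑ u : {c // p c = 1}, ∑ w : {c // p c = 1},
      (if u = w then 0 else lemBt G (E u.1) (E w.1)) ≤
      ∑ c, ∑ c', (if c = c' then 0 else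
        (if p c = 1 ∧ p c' = 1 then lemBt G (E c) (E c') else 0)) := by
    refine le_trans ?_ (lemB_inj (Subtype.val : {c // p c = 1} → O) Subtype.val_injective _)
    refine Finset.sum_le_sum fun u _ => ?_
    refine le_trans ?_ (lemB_inj (Subtype.val : {c // p c = 1} → O) Subtype.val_injective _)
    refine Finset.sum_le_sum fun w _ => ?_
    by_cases huw : u = w
    · rw [if_pos huw]
      exact Nat.zero_le _
    · rw [if_neg huw, if_neg fun h => huw (Subtype.ext h), if_pos ⟨u.2, w.2⟩]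
  have hcard : Fintype.card {c // p c = 1} + K = 7 := by
    rw [Fintype.card_subtype, Finset.card_filter, hK, ← Finset.sum_add_distrib, ← hone]
    refine Finset.sum_congr rfl fun c _ => ?_
    rcases hp c with h | h
    · rw [if_pos h, h]
    · rw [if_neg (by omega), h]
  have hK2 : K ≤ 2 := by omega
  refine lemB_sing hG hX (fun u : {c // p c = 1} => E u.1) (fun u => hp1 u.1 u.2)
    (fun u w huw => hEd u.1 w.1 fun h => huw (Subtype.ext h)) (fun u => hXE u.1) ?_ ?_ K hK2
    hcard (by omega) ?_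
  · intro u
    refine lemB_touchX hX.1 (hE u.1) (le_refl _) ?_ (hXE u.1) (h2 u.1)
    rintro ⟨x, hx, w, hw, hadj⟩
    exact hw.2 hw.1
  · intro a b c hab hac hbc
    by_contra hcon
    push Not at hcon
    exact h3t a.1 b.1 c.1 (lemB_split3 (hE a.1) (hE b.1) (hE c.1)
      (hEd a.1 b.1 fun h => hab (Subtype.ext h)) (hEd a.1 c.1 fun h => hac (Subtype.ext h))
      (hEd b.1 c.1 fun h => hbc (Subtype.ext h)) hcon.1 hcon.2.1 hcon.2.2 rfl)
  · intro hK1
    obtain ⟨c, hc⟩ : ∃ c, p c = 2 := by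
      by_contra hcon
      push Not at hcon
      have : K = 0 := by
        rw [hK]
        refine Finset.sum_eq_zero fun c _ => ?_
        rcases hp c with h | h
        · omega
        · exact absurd h (hcon c)
      omega
    obtain ⟨A, hA, hAd, hAu, hAt⟩ := lemB_pieces (G := G) (hE c)
      (by have := h3p c c; rwa [Set.union_self] at this) (hp2 c hc)
    have hsub : ∀ i, A i ⊆ E c := by
      intro i
      rw [← hAu]
      fin_cases i
      · exact Set.subset_union_left
      · exact Set.subset_union_right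
    have hdif : ∀ u : {c // p c = 1}, c ≠ u.1 := by
      rintro u h
      have := u.2
      rw [← h, hc] at this
      exact absurd this (by norm_num)
    have hXt : ∀ i, Touch G X (A i) := by
      intro i
      refine lemB_touchX hX.1 (hA i).1 (hsub i) ?_ (hXE c) (h2 c)
      rintro ⟨x, hx, w, hw, hadj⟩
      rw [← hAu] at hw
      fin_cases i
      · rcases hw.1 with h | h
        · exact hw.2 h
        · exact hAt ⟨x, hx, w, h, hadj⟩
      · rcases hw.1 with h | h
        · exact hAt ⟨w, h, x, hx, hadj.symm⟩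
        · exact hw.2 h
    refine ⟨A 0, A 1, hA 0, hA 1, hAd, (hXE c).mono_right (hsub 0), (hXE c).mono_right (hsub 1),
      hXt 0, hXt 1, fun u => (hEd c u.1 (hdif u)).mono_left (hsub 0),
      fun u => (hEd c u.1 (hdif u)).mono_left (hsub 1), ?_⟩
    intro u
    by_contra hcon
    push Not at hcon
    exact h3p c u.1 (lemB_split3 (hA 0).1 (hA 1).1 (hE u.1) hAd
      ((hEd c u.1 (hdif u)).mono_left (hsub 0)) ((hEd c u.1 (hdif u)).mono_left (hsub 1)) hAt
      hcon.1 hcon.2 (by rw [hAu]))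

private lemma lemB_card : ∀ i : Fin 9, i ≠ 0 →
    Fintype.card {c : Fin 9 // c ≠ 0 ∧ c ≠ i} = 7 := by
  decide

theorem pLemB : LemBStmt := by
  classical
  intro V G hG D hne hdis h3 i hi
  by_contra hcon
  push Not at hcon
  have hu2 : ∀ a b : Fin 9, (⋃ j ∈ ({a, b} : Finset (Fin 9)), D j) = D a ∪ D b := by
    intro a b
    ext u
    simp
  have hu3 : ∀ a b c : Fin 9, (⋃ j ∈ ({a, b, c} : Finset (Fin 9)), D j) = D a ∪ D b ∪ D c := by
    intro a b c
    ext u
    simp [or_assoc]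
  have hX : ConnOn G (D 0 ∪ D i) := by
    refine ⟨(hne 0).mono Set.subset_union_left, ?_⟩
    rw [← hu2]
    exact hcon {0, i} (by simp) (by simp) (le_trans Finset.card_le_two (by norm_num))
  refine lemB_abs hG hX {c : Fin 9 // c ≠ 0 ∧ c ≠ i} (lemB_card i hi) (fun c => D c.1)
    (fun c => hne c.1) (fun c c' hcc => hdis c.1 c'.1 fun h => hcc (Subtype.ext h)) ?_ ?_ ?_ ?_
  · intro c
    exact Set.disjoint_union_left.2 ⟨hdis 0 c.1 c.2.1.symm, hdis i c.1 c.2.2.symm⟩
  · intro c
    rw [← hu3]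
    exact hcon {0, i, c.1} (by simp) (by simp) Finset.card_le_three
  · intro c c'
    rw [← hu2]
    exact h3 _ (le_trans Finset.card_le_two (by norm_num))
  · intro c c' c''
    rw [← hu3]
    exact h3 _ Finset.card_le_three

end TightRP
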