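import Pool.Agent.Lib.MP_7cdc3e_gt.Spec

/-!
# MP_7cdc3e_gt: P3, planarity of the links
-/

open HoloConj Pool.Agent.Lib.SingHom

namespace TightRP

theorem linkPlanar_third {ι : Type} [DecidableEq ι] {a b : ι} (hab : a ≠ b) {t : Finset ι}
    (ht : t.card = 3) (ha : a ∈ t) (hb : b ∈ t) :
    ∃ w, w ≠ a ∧ w ≠ b ∧ t = {a, b, w} := by
  have hsub : ({a, b} : Finset ι) ⊆ t := by
    intro x hx
    rcases Finset.mem_insert.mp hx with h | h
    · rw [h]; exact ha
    · rw [Finset.mem_singleton.mp h]; exact hb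
  have hc : (t \ {a, b}).card = 1 := by
    rw [Finset.card_sdiff_of_subset hsub, ht, Finset.card_pair hab]
  obtain ⟨w, hw⟩ := Finset.card_eq_one.mp hc
  have hw' : w ∈ t \ {a, b} := by rw [hw]; exact Finset.mem_singleton_self w
  rw [Finset.mem_sdiff, Finset.mem_insert, Finset.mem_singleton] at hw'
  push Not at hw'
  refine ⟨w, hw'.2.1, hw'.2.2, ?_⟩
  ext x
  rw [Finset.mem_insert, Finset.mem_insert, Finset.mem_singleton]
  constructor
  · intro hx
    by_cases h1 : x = a
    · exact Or.inl h1
    by_cases h2 : x = b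
    · exact Or.inr (Or.inl h2)
    right; right
    have : x ∈ t \ {a, b} := by
      rw [Finset.mem_sdiff, Finset.mem_insert, Finset.mem_singleton]
      exact ⟨hx, by push Not; exact ⟨h1, h2⟩⟩
    rw [hw] at this
    exact Finset.mem_singleton.mp this
  · rintro (h | h | h)
    · rw [h]; exact ha
    · rw [h]; exact hb
    · rw [h]; exact hw'.1

theorem pLinkPlanar (h1 : TriStmt) (h2 : CycStmt) (h3 : PlanarStmt) : LinkPlanarStmt := by
  classical
  intro ι _ _ K hK v
  set T : Finset (Finset ι) := Finset.univ.filter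
    (fun t => t.card = 3 ∧ v ∉ t ∧ insert v t ∈ K.faces) with hT
  have hmem : ∀ t, t ∈ T ↔ t.card = 3 ∧ v ∉ t ∧ insert v t ∈ K.faces := by
    intro t
    rw [hT, Finset.mem_filter]
    exact ⟨fun h => h.2, fun h => ⟨Finset.mem_univ _, h⟩⟩
  apply h3 ι (K.link v) T
  · intro t ht
    obtain ⟨hc, hv, hf⟩ := (hmem t).mp ht
    refine ⟨hc, ?_⟩
    intro a ha b hb hab
    refine ⟨hab, fun h => hv (h ▸ ha), fun h => hv (h ▸ hb), ?_⟩
    apply K.down _ hf
    · intro x hx
      simp only [Finset.mem_insert, Finset.mem_singleton] at hx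
      rcases hx with h | h | h
      · rw [h]; exact Finset.mem_insert_self _ _
      · rw [h]; exact Finset.mem_insert_of_mem ha
      · rw [h]; exact Finset.mem_insert_of_mem hb
    · exact ⟨v, Finset.mem_insert_self _ _⟩
  · intro a b hab
    obtain ⟨hne, hav, hbv, hf⟩ := hab
    by_contra hcon
    push Not at hcon
    obtain ⟨u, hu, huc⟩ := Finset.exists_subset_card_eq (Nat.succ_le_of_lt hcon)
    have hz : ∀ t : u, ∃ w, w ≠ a ∧ w ≠ b ∧ t.1 = {a, b, w} ∧ t.1 ∈ T := by
      intro t
      have ht := hu t.2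
      rw [Finset.mem_filter] at ht
      obtain ⟨w, ha, hb, he⟩ := linkPlanar_third hne ((hmem _).mp ht.1).1 ht.2.1 ht.2.2
      exact ⟨w, ha, hb, he, ht.1⟩
    choose w hwa hwb hwe hwT using hz
    have e : Fin 3 ≃ u := (Fintype.equivFinOfCardEq (by rw [Fintype.card_coe, huc])).symm
    refine h1 ι K hK {v, a, b} hf ?_ (fun j => w (e j)) ?_ ?_ ?_
    · rw [Finset.card_insert_of_notMem, Finset.card_pair hne]
      rw [Finset.mem_insert, Finset.mem_singleton]
      push Not
      exact ⟨hav.symm, hbv.symm⟩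
    · intro i j hij
      apply e.injective
      apply Subtype.ext
      have : w (e i) = w (e j) := hij
      rw [hwe (e i), hwe (e j), this]
    · intro j
      have hv' := ((hmem _).mp (hwT (e j))).2.1
      rw [Finset.mem_insert, Finset.mem_insert, Finset.mem_singleton]
      push Not
      refine ⟨?_, hwa _, hwb _⟩
      intro h
      apply hv'
      rw [hwe (e j), ← h]
      simp
    · intro j
      have hf' := ((hmem _).mp (hwT (e j))).2.2
      have : insert (w (e j)) ({v, a, b} : Finset ι) = insert v (e j).1 := by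
        rw [hwe (e j)]
        ext x
        simp only [Finset.mem_insert, Finset.mem_singleton]
        tauto
      rw [this]
      exact hf'
  · intro α hs hα
    apply h2 ι K hK v α hs
    intro a b c hab hbc hac hf
    apply hα a b c hab.1 hbc.1 hac.1
    rw [hmem]
    refine ⟨?_, ?_, hf⟩
    · rw [Finset.card_insert_of_notMem, Finset.card_pair hbc.1]
      rw [Finset.mem_insert, Finset.mem_singleton]
      push Not
      exact ⟨hab.1, hac.1⟩
    · rw [Finset.mem_insert, Finset.mem_insert, Finset.mem_singleton]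
      push Not
      exact ⟨hab.2.1.symm, hbc.2.1.symm, hbc.2.2.1.symm⟩

end TightRP
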