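import Pool.Agent.Lib.MP_7cdc3e_gt.Spec

/-!
# MP_7cdc3e_gt, module LocHom: local homology of a three-manifold
-/

open HoloConj Pool.Agent.Lib.SingHom Topology

namespace TightRP

theorem locHomSurj (F : Type) [Field F] {X Y : Type} [TopologicalSpace X] [TopologicalSpace Y]
    (h : X ≃ₜ Y) (n : ℕ) : Function.Surjective (Hmap F n (h : C(X, Y))) := by
  intro y
  refine ⟨Hmap F n (h.symm : C(Y, X)) y, ?_⟩
  rw [← Hmap_comp_apply]
  have h1 : (h : C(X, Y)).comp (h.symm : C(Y, X)) = ContinuousMap.id Y := by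
    ext z
    exact h.apply_symm_apply z
  rw [h1, Hmap_id]
  rfl

/-- a coordinate patch inside `U` centred at `x` -/
theorem locHomPatch {M : Type} [TopologicalSpace M] (hM : LocEuc3 M) {U : Set M} (hU : IsOpen U)
    {x : M} (hx : x ∈ U) :
    ∃ ψ : EuclideanSpace ℝ (Fin 3) → U, IsOpenEmbedding ψ ∧ ψ 0 = ⟨x, hx⟩ := by
  obtain ⟨W, hW, hxW, ⟨φ⟩⟩ := hM x
  set c : EuclideanSpace ℝ (Fin 3) := φ ⟨x, hxW⟩ with hc
  have hS : IsOpen {y : EuclideanSpace ℝ (Fin 3) | (φ.symm y : M) ∈ U} :=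
    hU.preimage (continuous_subtype_val.comp φ.symm.continuous)
  have hcS : c ∈ {y : EuclideanSpace ℝ (Fin 3) | (φ.symm y : M) ∈ U} := by
    show (φ.symm c : M) ∈ U
    rw [hc, φ.symm_apply_apply]
    exact hx
  obtain ⟨r, hr, hball⟩ := Metric.isOpen_iff.mp hS c hcS
  have hu : IsOpenEmbedding (OpenPartialHomeomorph.univBall c r) :=
    OpenPartialHomeomorph.isOpenEmbedding _ (OpenPartialHomeomorph.univBall_source c r)
  have hψ₀ : IsOpenEmbedding (fun y : EuclideanSpace ℝ (Fin 3) =>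
      ((φ.symm (OpenPartialHomeomorph.univBall c r y) : W) : M)) :=
    (hW.isOpenEmbedding_subtypeVal.comp φ.symm.isOpenEmbedding).comp hu
  have hmem : ∀ y : EuclideanSpace ℝ (Fin 3),
      ((φ.symm (OpenPartialHomeomorph.univBall c r y) : W) : M) ∈ U := by
    intro y
    apply hball
    have h1 := (OpenPartialHomeomorph.univBall c r).map_source
      (x := y) (by rw [OpenPartialHomeomorph.univBall_source]; trivial)
    rwa [OpenPartialHomeomorph.univBall_target c hr] at h1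
  refine ⟨fun y => ⟨_, hmem y⟩, ?_, ?_⟩
  · exact IsOpenEmbedding.of_comp _ hU.isOpenEmbedding_subtypeVal hψ₀
  · apply Subtype.ext
    show ((φ.symm (OpenPartialHomeomorph.univBall c r 0) : W) : M) = x
    rw [OpenPartialHomeomorph.univBall_apply_zero, hc, φ.symm_apply_apply]

theorem locHomMain (F : Type) [Field F] {M : Type} [TopologicalSpace M] [T2Space M]
    (hM : LocEuc3 M) {U : Set M} (hU : IsOpen U) {x : M} (hx : x ∈ U) (n : ℕ)
    (hn : Subsingleton (Hq F n U)) :
    ∃ f : Hq F n (Pn 3) →ₗ[F] Hq F n ↥(U \ {x}), Function.Surjective f := by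
  obtain ⟨ψ, hψ, hψ0⟩ := locHomPatch hM hU hx
  set x' : U := ⟨x, hx⟩ with hx'
  set A : Set U := {x'}ᶜ with hA
  set B : Set U := Set.range ψ with hB
  have hAo : IsOpen A := isOpen_compl_singleton
  have hBo : IsOpen B := hψ.isOpen_range
  have hAB : A ∪ B = Set.univ := by
    rw [Set.eq_univ_iff_forall]
    intro y
    by_cases h : y = x'
    · right
      exact ⟨0, by rw [hψ0, h]⟩
    · left; exact h
  -- the first homeomorphism
  have he : IsEmbedding (fun y : Pn 3 => ψ y.1) := hψ.isEmbedding.comp IsEmbedding.subtypeVal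
  have hrange : Set.range (fun y : Pn 3 => ψ y.1) = A ∩ B := by
    ext z
    constructor
    · rintro ⟨y, rfl⟩
      refine ⟨?_, ⟨y.1, rfl⟩⟩
      intro h1
      have h2 : ψ y.1 = ψ 0 := by rw [hψ0]; exact h1
      exact y.2 (hψ.injective h2)
    · rintro ⟨h1, ⟨y, rfl⟩⟩
      refine ⟨⟨y, ?_⟩, rfl⟩
      rintro rfl
      exact h1 hψ0
  let κ : Pn 3 ≃ₜ ↥(A ∩ B) := he.toHomeomorph.trans (Homeomorph.setCongr hrange)
  -- the last homeomorphism
  let lam : ↥A ≃ₜ ↥(U \ {x}) :=
    { toFun := fun z => ⟨z.1.1, z.1.2, fun h => z.2 (Subtype.ext h)⟩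
      invFun := fun z => ⟨⟨z.1, z.2.1⟩, fun h => z.2.2 (congrArg Subtype.val h)⟩
      left_inv := fun z => rfl
      right_inv := fun z => rfl
      continuous_toFun := (continuous_subtype_val.comp continuous_subtype_val).subtype_mk _
      continuous_invFun := (continuous_subtype_val.subtype_mk _).subtype_mk _ }
  have hα : Function.Surjective (mvα F A B n) := by
    rw [← LinearMap.range_eq_top, range_mvα hAo hBo hAB n, LinearMap.ker_eq_top]
    ext z
    exact Subsingleton.elim _ _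
    exact Subsingleton.elim _ _
  have hj : Function.Surjective (Hmap F n (jL A B)) := by
    intro z
    obtain ⟨w, hw⟩ := hα (z, 0)
    exact ⟨w, congrArg Prod.fst hw⟩
  refine ⟨Hmap F n (lam : C(_, _)) ∘ₗ Hmap F n (jL A B) ∘ₗ Hmap F n (κ : C(_, _)), ?_⟩
  rw [LinearMap.coe_comp, LinearMap.coe_comp]
  exact (locHomSurj F lam n).comp (hj.comp (locHomSurj F κ n))

theorem mLocHom (h1 : ContrStmt) (h2 : P3Stmt) : LocHomStmt := by
  intro F _ M _ _ hM U hU hc x hx
  obtain ⟨h3, h4⟩ := h2 F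
  obtain ⟨f, hf⟩ := locHomMain F hM hU hx 1 (h1 F U 0)
  obtain ⟨g, hg⟩ := locHomMain F hM hU hx 2 (h1 F U 1)
  refine ⟨hf.subsingleton, ?_⟩
  exact (LinearMap.rank_le_of_surjective g hg).trans h4

end TightRP
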