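import Pool.Agent.Lib.MP_7cdc3e_gt.Spec

set_option autoImplicit false

open HoloConj Pool.Agent.Lib.SingHom

namespace TightRP

section mvkey

variable (F : Type) [Field F] {X Y : Type} [TopologicalSpace X] [TopologicalSpace Y]

/-- a homeomorphism induces an isomorphism -/
noncomputable def mvkeyEquiv (h : X ≃ₜ Y) (n : ℕ) : Hq F n X ≃ₗ[F] Hq F n Y :=
  LinearEquiv.ofLinearMap (Hmap F n (h : C(X, Y))) (Hmap F n (h.symm : C(Y, X)))
    (by
      rw [← Hmap_comp]
      have : ((h : C(X, Y)).comp (h.symm : C(Y, X))) = ContinuousMap.id Y := by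
        ext y; simp
      rw [this, Hmap_id])
    (by
      rw [← Hmap_comp]
      have : ((h.symm : C(Y, X)).comp (h : C(X, Y))) = ContinuousMap.id X := by
        ext y; simp
      rw [this, Hmap_id])

theorem mvkeyEquiv_apply (h : X ≃ₜ Y) (n : ℕ) (c : Hq F n X) :
    mvkeyEquiv F h n c = Hmap F n (h : C(X, Y)) c := rfl

/-- The inequality in the union. -/
theorem mvkey_core (h3 : H0LowStmt) {U V : Set X} (hU : IsOpen U) (hV : IsOpen V)
    (hUV : U ∪ V = Set.univ) (hU1 : Subsingleton (Hq F 1 U))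
    (hU0 : Module.rank F (Hq F 0 U) ≤ 1) (hV0 : Module.rank F (Hq F 0 V) ≤ 1)
    (hX1 : Module.rank F (Hq F 1 X) ≤ 1) (hinj : Function.Injective (Hmap F 1 (incl V)))
    (hne : Nonempty X) (k : ℕ) (g : ↥(U ∩ V) → Fin k) (hg : Continuous g)
    (hgs : Function.Surjective g) :
    k + Module.finrank F (Hq F 1 V) ≤ Module.finrank F (Hq F 1 X) + 1 := by
  have hfX : Module.Finite F (Hq F 1 X) := by
    rw [← Module.rank_lt_aleph0_iff]
    exact lt_of_le_of_lt hX1 Cardinal.one_lt_aleph0
  -- the range of `mvβ 1`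
  have hrange : LinearMap.range (mvβ F U V 1) = LinearMap.range (Hmap F 1 (incl V)) := by
    ext y
    constructor
    · rintro ⟨⟨a, b⟩, rfl⟩
      refine ⟨-b, ?_⟩
      have ha : a = 0 := Subsingleton.elim _ _
      rw [mvβ, LinearMap.coprod_apply, LinearMap.neg_apply]
      simp only [ha, map_zero, zero_add, map_neg]
    · rintro ⟨b, rfl⟩
      refine ⟨(0, -b), ?_⟩
      rw [mvβ, LinearMap.coprod_apply, LinearMap.neg_apply]
      simp only [map_zero, zero_add, map_neg, neg_neg]
  have hfr : Module.finrank F (LinearMap.range (mvβ F U V 1)) = Module.finrank F (Hq F 1 V) := by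
    rw [hrange]
    exact LinearMap.finrank_range_of_inj hinj
  obtain ⟨e⟩ := exists_mvConn (K := F) hU hV hUV 0
  have hq := Submodule.finrank_quotient_add_finrank (LinearMap.range (mvβ F U V (0 + 1)))
  have hq' : Module.finrank F (Hq F 1 X ⧸ LinearMap.range (mvβ F U V 1))
      + Module.finrank F (Hq F 1 V) = Module.finrank F (Hq F 1 X) := by
    rw [← hfr]
    exact hq
  have hfk : Module.Finite F (LinearMap.ker (mvα F U V 0)) := Module.Finite.equiv e.symm
  have hfe : Module.finrank F (LinearMap.ker (mvα F U V 0))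
      = Module.finrank F (Hq F 1 X ⧸ LinearMap.range (mvβ F U V 1)) := e.finrank_eq
  -- H_0
  have hfU : Module.Finite F (Hq F 0 U) := by
    rw [← Module.rank_lt_aleph0_iff]
    exact lt_of_le_of_lt hU0 Cardinal.one_lt_aleph0
  have hfV : Module.Finite F (Hq F 0 V) := by
    rw [← Module.rank_lt_aleph0_iff]
    exact lt_of_le_of_lt hV0 Cardinal.one_lt_aleph0
  have hfU1 : Module.finrank F (Hq F 0 U) ≤ 1 := by
    have := hU0
    rw [← Module.finrank_eq_rank F (Hq F 0 U)] at this
    exact_mod_cast this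
  have hfV1 : Module.finrank F (Hq F 0 V) ≤ 1 := by
    have := hV0
    rw [← Module.finrank_eq_rank F (Hq F 0 V)] at this
    exact_mod_cast this
  have hprod : Module.finrank F (Hq F 0 U × Hq F 0 V) ≤ 2 := by
    rw [Module.finrank_prod]
    omega
  -- `H_0(X)` is not zero
  have hX0 : (1 : Cardinal) ≤ Module.rank F (Hq F 0 X) := by
    obtain ⟨x0⟩ := hne
    have := h3 F X 1 (fun _ => 0) continuous_const (fun j => ⟨x0, Subsingleton.elim _ _⟩)
    exact_mod_cast this
  have hsurj := mvβ_zero_surjective (K := F) hU hV hUV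
  have hfX0 : Module.Finite F (Hq F 0 X) :=
    Module.Finite.of_surjective (mvβ F U V 0) (LinearMap.range_eq_top.mp hsurj)
  have hX0' : 1 ≤ Module.finrank F (Hq F 0 X) := by
    rw [← Module.finrank_eq_rank F (Hq F 0 X)] at hX0
    exact_mod_cast hX0
  have hrn := LinearMap.finrank_range_add_finrank_ker (mvβ F U V 0)
  have hker1 : Module.finrank F (LinearMap.ker (mvβ F U V 0)) ≤ 1 := by
    rw [hsurj, finrank_top] at hrn
    omega
  have hra : LinearMap.range (mvα F U V 0) = LinearMap.ker (mvβ F U V 0) :=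
    range_mvα hU hV hUV 0
  -- the intersection
  have hlow : (k : Cardinal) ≤ Module.rank F (Hq F 0 ↥(U ∩ V)) := h3 F _ k g hg hgs
  have hfr2 : Module.Finite F (LinearMap.range (mvα F U V 0)) := by
    rw [hra]
    infer_instance
  have hsum := LinearMap.rank_range_add_rank_ker (mvα F U V 0)
  rw [← hsum, ← Module.finrank_eq_rank F (LinearMap.range (mvα F U V 0)),
    ← Module.finrank_eq_rank F (LinearMap.ker (mvα F U V 0))] at hlow
  have hlow' : k ≤ Module.finrank F (LinearMap.range (mvα F U V 0))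
      + Module.finrank F (LinearMap.ker (mvα F U V 0)) := by exact_mod_cast hlow
  have hr1 : Module.finrank F (LinearMap.range (mvα F U V 0)) ≤ 1 := by
    rw [hra]
    exact hker1
  omega

end mvkey

theorem tMVKey (h1 : ContrStmt) (h2 : H0PathStmt) (h3 : H0LowStmt) : MVKeyStmt := by
  intro F _ Z _ A B hA hB hcA hB0 hZ1 hBinj hABinj k g hk hg hgs
  let U : Set ↥(A ∪ B) := Subtype.val ⁻¹' A
  let V : Set ↥(A ∪ B) := Subtype.val ⁻¹' B
  have hU : IsOpen U := hA.preimage continuous_subtype_val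
  have hV : IsOpen V := hB.preimage continuous_subtype_val
  have hUV : U ∪ V = Set.univ := by
    ext x
    simp only [Set.mem_univ, iff_true]
    exact x.2
  -- homeomorphisms
  let eU : ↥U ≃ₜ ↥A :=
    { toFun := fun u => ⟨u.1.1, u.2⟩
      invFun := fun a => ⟨⟨a.1, Or.inl a.2⟩, a.2⟩
      left_inv := fun _ => rfl
      right_inv := fun _ => rfl
      continuous_toFun := by fun_prop
      continuous_invFun := by fun_prop }
  let eV : ↥V ≃ₜ ↥B :=
    { toFun := fun u => ⟨u.1.1, u.2⟩
      invFun := fun a => ⟨⟨a.1, Or.inr a.2⟩, a.2⟩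
      left_inv := fun _ => rfl
      right_inv := fun _ => rfl
      continuous_toFun := by fun_prop
      continuous_invFun := by fun_prop }
  have hcU : ContractibleSpace ↥U := eU.contractibleSpace
  have hU1 : Subsingleton (Hq F 1 U) := h1 F ↥U 0
  have hU0 : Module.rank F (Hq F 0 U) ≤ 1 := by
    have : PathConnectedSpace ↥U := inferInstance
    exact (h2 F ↥U).le
  have hV0 : Module.rank F (Hq F 0 V) ≤ 1 := by
    rw [(mvkeyEquiv F eV 0).rank_eq]
    exact hB0
  have hX1 : Module.rank F (Hq F 1 ↥(A ∪ B)) ≤ 1 :=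
    le_trans (LinearMap.rank_le_of_injective (Hmap F 1 (incl (A ∪ B))) hABinj) hZ1
  have hinj : Function.Injective (Hmap F 1 (incl V)) := by
    have hcomp : (incl (A ∪ B)).comp (incl V) = (incl B).comp (eV : C(↥V, ↥B)) := rfl
    have h4 : Function.Injective (Hmap F 1 ((incl (A ∪ B)).comp (incl V))) := by
      rw [hcomp, Hmap_comp]
      exact (show Function.Injective (Hmap F 1 (incl B)) from hBinj).comp
        (mvkeyEquiv F eV 1).injective
    rw [Hmap_comp] at h4
    exact Function.Injective.of_comp h4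
  let gi : C(↥(U ∩ V), ↥(A ∩ B)) := ⟨fun u => ⟨u.1.1, u.2.1, u.2.2⟩, by fun_prop⟩
  have hgi : Function.Surjective gi := by
    intro a
    exact ⟨⟨⟨a.1, Or.inl a.2.1⟩, a.2.1, a.2.2⟩, rfl⟩
  have hne : Nonempty ↥(A ∪ B) := by
    obtain ⟨a, -⟩ := hgs ⟨0, hk⟩
    exact ⟨⟨a.1, Or.inl a.2.1⟩⟩
  have hmain := mvkey_core F h3 hU hV hUV hU1 hU0 hV0 hX1 hinj hne k (g ∘ gi)
    (hg.comp gi.continuous) (hgs.comp hgi)
  rw [(mvkeyEquiv F eV 1).finrank_eq] at hmain
  exact hmain

end TightRP
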