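import Pool.Agent.Lib.MP_7cdc3e_gt.Spec

/-!
# MacLane's bound

`pMacLane : MacLaneStmt`: a graph with a MacLane family (every edge in at most two of the sets, the
sets even at every vertex, and only coboundaries orthogonal to all the sets) has at most `3 n - 6`
edges.
-/

open HoloConj Pool.Agent.Lib.SingHom

namespace TightRP

/-- a nonempty even set of edges has at least three elements -/
theorem macLane_three {V W : Type} [DecidableEq V] [DecidableEq W] (q : V → W)
    (E S : Finset (Sym2 V)) (hE : ∀ e ∈ E, ¬ (Sym2.map q e).IsDiag) (hS : S ⊆ E)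
    (hinj : Set.InjOn (Sym2.map q) (↑E : Set (Sym2 V)))
    (heven : ∀ w : W, Even (S.filter (fun e => w ∈ Sym2.map q e)).card) (hne : S.Nonempty) :
    3 ≤ S.card := by
  obtain ⟨e₁, he₁⟩ := hne
  induction e₁ using Sym2.ind with
  | _ u v =>
  have huv : q u ≠ q v := by
    have := hE _ (hS he₁)
    simpa using this
  have key : ∀ w : W, w ∈ Sym2.map q s(u, v) → ∃ e ∈ S, e ≠ s(u, v) ∧ w ∈ Sym2.map q e := by
    intro w hw
    by_contra hcon
    push Not at hcon
    have h1 : S.filter (fun e => w ∈ Sym2.map q e) = {s(u, v)} := by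
      ext e
      simp only [Finset.mem_filter, Finset.mem_singleton]
      constructor
      · rintro ⟨h1, h2⟩
        by_contra h3
        exact hcon e h1 h3 h2
      · rintro rfl
        exact ⟨he₁, hw⟩
    have h2 := heven w
    rw [h1] at h2
    simp at h2
  obtain ⟨e₂, h2S, h2ne, h2m⟩ := key (q u) (by simp)
  obtain ⟨e₃, h3S, h3ne, h3m⟩ := key (q v) (by simp)
  have h23 : e₂ ≠ e₃ := by
    intro h
    subst h
    apply h2ne
    apply hinj (hS h2S) (hS he₁)
    rw [Sym2.map_mk]
    exact ((Sym2.mem_and_mem_iff huv).1 ⟨h2m, h3m⟩)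
  have hsub : ({s(u, v), e₂, e₃} : Finset (Sym2 V)) ⊆ S := by
    intro e he
    simp only [Finset.mem_insert, Finset.mem_singleton] at he
    rcases he with rfl | rfl | rfl <;> assumption
  calc 3 = ({s(u, v), e₂, e₃} : Finset (Sym2 V)).card := by
        rw [Finset.card_insert_of_notMem, Finset.card_pair h23]
        simp [h2ne.symm, h3ne.symm]
    _ ≤ S.card := Finset.card_le_card hsub

/-- double counting of the pairs `(e, j)` with `e ∈ f j` -/
theorem macLane_count {V : Type} [DecidableEq V] (E : Finset (Sym2 V)) (m : ℕ)
    (f : Fin m → Finset (Sym2 V)) (hf : ∀ j, f j ⊆ E) (p : Sym2 V → Prop) [DecidablePred p] :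
    ∑ j, ((f j).filter p).card =
      ∑ e ∈ E.filter p, (Finset.univ.filter (fun j => e ∈ f j)).card := by
  classical
  simp only [Finset.card_filter, Finset.sum_filter]
  have h1 : ∀ j, (∑ e ∈ f j, if p e then 1 else 0) =
      ∑ e ∈ E, if p e then (if e ∈ f j then 1 else 0) else 0 := by
    intro j
    rw [← Finset.sum_subset (hf j)]
    · refine Finset.sum_congr rfl fun e he => ?_
      simp [he]
    · intro e _ he
      simp [he]
  simp only [h1]
  rw [Finset.sum_comm]
  refine Finset.sum_congr rfl fun e _ => ?_
  split_ifs with h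
  · rfl
  · simp

/-- the linear algebra: `|E| ≤ (n - 1) + a`, and `|E| ≤ (n - 1) + (a - 1)` if every edge is in
an even number of the sets -/
theorem macLane_rank {V W : Type} [DecidableEq V] [Fintype W] [Nonempty W] (q : V → W)
    (E : Finset (Sym2 V)) (m : ℕ) (f : Fin m → Finset (Sym2 V)) (hf : ∀ j, f j ⊆ E)
    (hco : ∀ α : Sym2 V → ZMod 2, (∀ j, ∑ e ∈ f j, α e = 0) →
      ∃ β : W → ZMod 2, ∀ a b, s(a, b) ∈ E → α s(a, b) = β (q a) + β (q b)) :
    E.card + 1 ≤ Fintype.card W + Fintype.card {j // (f j).Nonempty} ∧
    ((∀ e ∈ E, Even (Finset.univ.filter (fun j => e ∈ f j)).card) →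
      0 < Fintype.card {j // (f j).Nonempty} →
      E.card + 2 ≤ Fintype.card W + Fintype.card {j // (f j).Nonempty}) := by
  classical
  -- the coboundary map
  let δ : (W → ZMod 2) →ₗ[ZMod 2] (E → ZMod 2) :=
    { toFun := fun β e => β (q (Quot.out e.1).1) + β (q (Quot.out e.1).2)
      map_add' := fun β β' => by
        funext e
        simp only [Pi.add_apply]
        ring
      map_smul' := fun c β => by
        funext e
        simp only [Pi.smul_apply, smul_eq_mul, RingHom.id_apply]
        ring }
  let φ : (E → ZMod 2) →ₗ[ZMod 2] ({j // (f j).Nonempty} → ZMod 2) :=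
    { toFun := fun α j => ∑ e : E, if e.1 ∈ f j.1 then α e else 0
      map_add' := fun α α' => by
        funext j
        simp only [Pi.add_apply]
        rw [← Finset.sum_add_distrib]
        refine Finset.sum_congr rfl fun e _ => ?_
        split_ifs <;> simp
      map_smul' := fun c α => by
        funext j
        simp only [Pi.smul_apply, smul_eq_mul, RingHom.id_apply]
        rw [Finset.mul_sum]
        refine Finset.sum_congr rfl fun e _ => ?_
        split_ifs <;> simp }
  have hδ : Module.finrank (ZMod 2) (LinearMap.range δ) + 1 ≤ Fintype.card W := by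
    have h1 := LinearMap.finrank_range_add_finrank_ker δ
    rw [Module.finrank_pi] at h1
    have h2 : 0 < Module.finrank (ZMod 2) (LinearMap.ker δ) := by
      rw [Module.finrank_pos_iff]
      refine ⟨⟨⟨fun _ => 1, ?_⟩, 0, ?_⟩⟩
      · rw [LinearMap.mem_ker]
        funext e
        exact CharTwo.add_self_eq_zero (1 : ZMod 2)
      · intro h
        have h3 := congrArg Subtype.val h
        have h4 := congrFun h3 (Classical.arbitrary W)
        simp at h4
    omega
  have hker : LinearMap.ker φ ≤ LinearMap.range δ := by
    intro α hα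
    rw [LinearMap.mem_ker] at hα
    obtain ⟨β, hβ⟩ := hco (fun e => if h : e ∈ E then α ⟨e, h⟩ else 0) (by
      intro j
      have h1 : ∑ e ∈ f j, (if h : e ∈ E then α ⟨e, h⟩ else 0) =
          ∑ e : E, if e.1 ∈ f j then α e else 0 := by
        have h2 := Finset.sum_coe_sort E
          (fun e => if e ∈ f j then (if h : e ∈ E then α ⟨e, h⟩ else 0) else 0)
        rw [Finset.sum_ite_mem, Finset.inter_eq_right.2 (hf j)] at h2
        rw [← h2]
        refine Finset.sum_congr rfl fun e _ => ?_
        simp
      rw [h1]
      by_cases hj : (f j).Nonempty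
      · exact congrFun hα ⟨j, hj⟩
      · rw [Finset.not_nonempty_iff_eq_empty] at hj
        simp [hj])
    refine ⟨β, ?_⟩
    funext e
    have h2 : s((Quot.out e.1).1, (Quot.out e.1).2) = e.1 := Quot.out_eq e.1
    have h3 := hβ (Quot.out e.1).1 (Quot.out e.1).2 (by rw [h2]; exact e.2)
    rw [h2] at h3
    simp only [Subtype.coe_eta, Finset.coe_mem, dif_pos] at h3
    exact h3.symm
  have hrn := LinearMap.finrank_range_add_finrank_ker φ
  rw [Module.finrank_pi, Fintype.card_coe] at hrn
  have hk := Submodule.finrank_mono hker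
  constructor
  · have h1 : Module.finrank (ZMod 2) (LinearMap.range φ) ≤ Fintype.card {j // (f j).Nonempty} := by
      have := Submodule.finrank_le (LinearMap.range φ)
      rwa [Module.finrank_pi] at this
    omega
  · intro hev hpos
    let σ : ({j // (f j).Nonempty} → ZMod 2) →ₗ[ZMod 2] ZMod 2 :=
      ∑ j, LinearMap.proj j
    have hσ : ∀ c, σ c = ∑ j, c j := fun c => by simp [σ]
    have hle : LinearMap.range φ ≤ LinearMap.ker σ := by
      rintro _ ⟨α, rfl⟩
      rw [LinearMap.mem_ker, hσ]
      change ∑ j : {j // (f j).Nonempty}, ∑ e : E, (if e.1 ∈ f j.1 then α e else 0) = 0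
      rw [Finset.sum_comm]
      refine Finset.sum_eq_zero fun e _ => ?_
      rw [← Finset.sum_filter, Finset.sum_const, nsmul_eq_mul]
      have h1 : (Finset.univ.filter (fun j : {j // (f j).Nonempty} => e.1 ∈ f j.1)).card =
          (Finset.univ.filter (fun j => e.1 ∈ f j)).card := by
        rw [← Finset.card_map (Function.Embedding.subtype _)]
        refine congrArg Finset.card ?_
        ext j
        simp only [Finset.mem_map, Finset.mem_filter, Finset.mem_univ, true_and,
          Function.Embedding.coe_subtype, Subtype.exists, exists_and_right, exists_eq_right]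
        exact ⟨fun h => h.2, fun h => ⟨⟨_, h⟩, h⟩⟩
      rw [h1]
      obtain ⟨r, hr⟩ := hev e.1 e.2
      rw [hr, Nat.cast_add, CharTwo.add_self_eq_zero, zero_mul]
    have h2 : Module.finrank (ZMod 2) (LinearMap.ker σ) + 1 ≤
        Fintype.card {j // (f j).Nonempty} := by
      have h3 := LinearMap.finrank_range_add_finrank_ker σ
      rw [Module.finrank_pi] at h3
      have h4 : 0 < Module.finrank (ZMod 2) (LinearMap.range σ) := by
        rw [Module.finrank_pos_iff]
        obtain ⟨j⟩ := Fintype.card_pos_iff.1 hpos
        refine ⟨⟨⟨σ (Pi.single j 1), ⟨_, rfl⟩⟩, 0, ?_⟩⟩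
        intro h
        have h5 : σ (Pi.single j 1) = 0 := congrArg Subtype.val h
        rw [hσ] at h5
        simp at h5
      omega
    have h5 := Submodule.finrank_mono hle
    omega

/-- MacLane's bound -/
theorem pMacLane : MacLaneStmt := by
  classical
  intro V W _ _ q E m f hML hinj hW
  obtain ⟨hE, hf, hev, h2, hco⟩ := hML
  have : Nonempty W := Fintype.card_pos_iff.1 (by omega)
  obtain ⟨hr1, hr2⟩ := macLane_rank q E m f hf hco
  set a := Fintype.card {j // (f j).Nonempty} with ha
  -- the edges in exactly one of the sets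
  set S := E.filter (fun e => Odd (Finset.univ.filter (fun j => e ∈ f j)).card) with hS
  have hcount : 3 * a + S.card ≤ 2 * E.card := by
    have h1 : 3 * a ≤ ∑ j, (f j).card := by
      rw [ha, Fintype.card_subtype, Finset.card_filter, Finset.mul_sum]
      refine Finset.sum_le_sum fun j _ => ?_
      split_ifs with hj
      · rw [mul_one]
        exact macLane_three q E (f j) hE (hf j) hinj (hev j) hj
      · simp
    have h3 := macLane_count E m f hf (fun _ => True)
    simp only [Finset.filter_true] at h3
    have h4 : ∑ e ∈ E, (Finset.univ.filter (fun j => e ∈ f j)).card + S.card ≤ 2 * E.card := by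
      rw [hS, Finset.card_filter, ← Finset.sum_add_distrib, mul_comm, ← smul_eq_mul,
        ← Finset.sum_const]
      refine Finset.sum_le_sum fun e he => ?_
      have h5 := h2 e he
      split_ifs with ho
      · obtain ⟨r, hr⟩ := ho
        omega
      · omega
    omega
  by_cases hne : S.Nonempty
  · have hS3 : 3 ≤ S.card := by
      refine macLane_three q E S hE (Finset.filter_subset _ _) hinj (fun w => ?_) hne
      have h3 := macLane_count E m f hf (fun e => w ∈ Sym2.map q e)
      have h4 : Even (∑ j, ((f j).filter (fun e => w ∈ Sym2.map q e)).card) :=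
        Finset.even_sum _ fun j _ => hev j w
      rw [h3, Finset.even_sum_iff_even_card_odd] at h4
      rw [hS, Finset.filter_filter]
      rw [Finset.filter_filter] at h4
      have h5 : E.filter (fun e => Odd (Finset.univ.filter (fun j => e ∈ f j)).card ∧
          w ∈ Sym2.map q e) = E.filter (fun e => w ∈ Sym2.map q e ∧
            Odd (Finset.univ.filter (fun j => e ∈ f j)).card) := by
        refine Finset.filter_congr fun e _ => ?_
        exact and_comm
      rw [h5]
      exact h4
    omega
  · have hev' : ∀ e ∈ E, Even (Finset.univ.filter (fun j => e ∈ f j)).card := by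
      intro e he
      by_contra hcon
      rw [Nat.not_even_iff_odd] at hcon
      exact hne ⟨e, Finset.mem_filter.2 ⟨he, hcon⟩⟩
    by_cases ha0 : 0 < a
    · have := hr2 hev' ha0
      omega
    · omega

end TightRP
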