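import Pool.Agent.Lib.MP_7cdc3e_gt.Spec

/-!
# MP_7cdc3e_gt, module Main: the theorem for complexes
-/

open HoloConj Pool.Agent.Lib.SingHom

namespace TightRP

section
variable {ι : Type} [Fintype ι] [DecidableEq ι]

/-- the vertices in the layers of `J` -/
private noncomputable def mainL (lay : ι → Fin 10) (J : Finset (Fin 10)) : Finset ι :=
  Finset.univ.filter (fun i => lay i ∈ J)

private lemma main_memL (lay : ι → Fin 10) (J : Finset (Fin 10)) (i : ι) :
    i ∈ mainL lay J ↔ lay i ∈ J := by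
  unfold mainL
  rw [Finset.mem_filter]
  exact ⟨fun h => h.2, fun h => ⟨Finset.mem_univ i, h⟩⟩

private lemma main_starMono (K : Cx ι) {S T : Finset ι} (h : S ⊆ T) : K.star S ⊆ K.star T := by
  intro x hx
  change 0 < ∑ i ∈ S, x.1 i at hx
  change 0 < ∑ i ∈ T, x.1 i
  exact hx.trans_le (Finset.sum_le_sum_of_subset_of_nonneg h fun i _ _ => x.2.1 i)

/-- half-spaces: every proper union of layers is injective in homology -/
private lemma main_inj (h4 : StarInjStmt) (K : Cx ι) (F : Type) [Field F] {N : ℕ}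
    (p : ι → EuclideanSpace ℝ (Fin N))
    (hall : ∀ (l : EuclideanSpace ℝ (Fin N) →ₗ[ℝ] ℝ) (c : ℝ), l ≠ 0 → ∀ n ≤ 1,
      HInj F {x : K.real | c < l (plMap K p x)} n)
    (lay : ι → Fin 10) (hsurj : Function.Surjective lay) (hcut : Cuts p lay)
    (J : Finset (Fin 10)) (hJ : J.Nonempty) (hJ' : J ≠ Finset.univ) (n : ℕ) (hn : n ≤ 1) :
    HInj F (K.star (mainL lay J)) n := by
  classical
  obtain ⟨l, c, hlc⟩ := hcut (fun j => decide (j ∈ J))
  have hT : ∀ i, lay i ∈ J → c < l (p i) := fun i hi => (hlc i).1 (decide_eq_true hi)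
  have hF : ∀ i, lay i ∉ J → l (p i) < c := fun i hi => (hlc i).2 (decide_eq_false hi)
  have hl : l ≠ 0 := by
    rintro rfl
    obtain ⟨j, hj⟩ := hJ
    obtain ⟨i, hi⟩ := hsurj j
    have h1 := hT i (by rw [hi]; exact hj)
    obtain ⟨k, hk⟩ : ∃ k, k ∉ J := by
      by_contra hcon
      push Not at hcon
      exact hJ' (Finset.eq_univ_iff_forall.2 hcon)
    obtain ⟨i', hi'⟩ := hsurj k
    have h2 := hF i' (by rw [hi']; exact hk)
    rw [LinearMap.zero_apply] at h1 h2
    exact lt_asymm h1 h2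
  have hne : ∀ i, l (p i) - c ≠ 0 := by
    intro i
    by_cases hi : lay i ∈ J
    · exact (sub_pos.2 (hT i hi)).ne'
    · exact (sub_neg.2 (hF i hi)).ne
  have hset : {x : K.real | c < l (plMap K p x)} =
      {x : K.real | 0 < ∑ i, x.1 i * (l (p i) - c)} := by
    ext x
    have e : ∑ i, x.1 i * (l (p i) - c) = l (plMap K p x) - c := by
      have e1 : l (plMap K p x) = ∑ i, x.1 i * l (p i) := by
        unfold plMap
        rw [map_sum]
        refine Finset.sum_congr rfl fun i _ => ?_
        rw [map_smul, smul_eq_mul]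
      have e2 : ∑ i, x.1 i * (l (p i) - c) = ∑ i, x.1 i * l (p i) - (∑ i, x.1 i) * c := by
        rw [Finset.sum_mul, ← Finset.sum_sub_distrib]
        refine Finset.sum_congr rfl fun i _ => ?_
        ring
      rw [e2, e1, x.2.2.1, one_mul]
    change c < l (plMap K p x) ↔ 0 < ∑ i, x.1 i * (l (p i) - c)
    rw [e, sub_pos]
  have h5 := hall l c hl n hn
  rw [hset] at h5
  have h6 := h4 ι K F n (fun i => l (p i) - c) hne h5
  have h7 : Finset.univ.filter (fun i => 0 < l (p i) - c) = mainL lay J := by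
    ext i
    rw [main_memL, Finset.mem_filter]
    constructor
    · rintro ⟨-, h8⟩
      by_contra h9
      exact lt_asymm (sub_pos.1 h8) (hF i h9)
    · intro h8
      exact ⟨Finset.mem_univ i, sub_pos.2 (hT i h8)⟩
  rw [h7] at h6
  exact h6

/-- a connected set of vertices without edges has one element -/
private lemma main_single {V : Type} [DecidableEq V] (G : SimpleGraph V) (S : Set V)
    (hS : ConnOn G S) (hE : ∀ u ∈ S, ∀ w ∈ S, ¬ G.Adj u w) : ∃ v, S = {v} := by
  obtain ⟨⟨v, hv⟩, h2⟩ := hS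
  refine ⟨v, ?_⟩
  ext w
  rw [Set.mem_singleton_iff]
  constructor
  · intro hw
    by_contra hwv
    apply h2
    refine ⟨fun u => if u = v then 0 else 1, ?_, ?_⟩
    · intro u hu u' hu' hadj
      exact absurd hadj (hE u hu u' hu')
    · intro j
      fin_cases j
      · exact ⟨v, hv, if_pos rfl⟩
      · exact ⟨w, hw, if_neg hwv⟩
  · rintro rfl
    exact hv

/-- a connected set `{v} ∪ S` contains a neighbour of `v` in `S` -/
private lemma main_nbr {V : Type} [DecidableEq V] (G : SimpleGraph V) (v : V) (S : Set V)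
    (hv : v ∉ S) (hS : S.Nonempty) (hc : ConnOn G (insert v S)) : ∃ u ∈ S, G.Adj v u := by
  by_contra hcon
  push Not at hcon
  apply hc.2
  obtain ⟨w, hw⟩ := hS
  refine ⟨fun u => if u = v then 0 else 1, ?_, ?_⟩
  · intro u hu u' hu' hadj
    rcases Set.mem_insert_iff.1 hu with h1 | h1
    · rcases Set.mem_insert_iff.1 hu' with h2 | h2
      · rw [h1, h2]
      · exact absurd (h1 ▸ hadj) (hcon u' h2)
    · rcases Set.mem_insert_iff.1 hu' with h2 | h2
      · exact absurd ((h2 ▸ hadj).symm) (hcon u h1)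
      · have e1 : u ≠ v := fun h => hv (h ▸ h1)
        have e2 : u' ≠ v := fun h => hv (h ▸ h2)
        change (if u = v then (0 : Fin 2) else 1) = if u' = v then 0 else 1
        rw [if_neg e1, if_neg e2]
  · intro j
    fin_cases j
    · exact ⟨v, Set.mem_insert _ _, if_pos rfl⟩
    · refine ⟨w, Set.mem_insert_of_mem _ hw, if_neg ?_⟩
      rintro rfl
      exact hv hw

/-- the part of the link of `v` in the layer `j + 1` -/
private def mainD (K : Cx ι) (lay : ι → Fin 10) (v : ι) (j : Fin 9) : Set ι :=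
  K.lk v ∩ {i | lay i = j.succ}

private lemma main_union (K : Cx ι) (lay : ι → Fin 10) (v : ι) (J : Finset (Fin 9)) :
    (⋃ j ∈ J, mainD K lay v j) = K.lk v ∩ ↑(mainL lay (J.image Fin.succ)) := by
  ext i
  rw [Set.mem_iUnion₂, Set.mem_inter_iff, Finset.mem_coe, main_memL, Finset.mem_image]
  constructor
  · rintro ⟨j, hj, h1, h2⟩
    exact ⟨h1, j, hj, h2.symm⟩
  · rintro ⟨h1, j, hj, h2⟩
    exact ⟨j, hj, h1, h2.symm⟩

private lemma main_ne_univ (J : Finset (Fin 9)) (hJ : J.card ≤ 3) :
    insert 0 (J.image Fin.succ) ≠ (Finset.univ : Finset (Fin 10)) := by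
  intro h
  have h1 : (insert 0 (J.image Fin.succ) : Finset (Fin 10)).card = 10 := by
    rw [h, Finset.card_univ, Fintype.card_fin]
  have h2 := Finset.card_insert_le (0 : Fin 10) (J.image Fin.succ)
  have h3 := Finset.card_image_le (s := J) (f := (Fin.succ : Fin 9 → Fin 10))
  omega

private lemma main_ne_univ' (J : Finset (Fin 9)) :
    J.image Fin.succ ≠ (Finset.univ : Finset (Fin 10)) := by
  intro h
  have h1 : (0 : Fin 10) ∈ J.image Fin.succ := by
    rw [h]
    exact Finset.mem_univ _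
  obtain ⟨j, -, hj⟩ := Finset.mem_image.1 h1
  exact Fin.succ_ne_zero j hj

/-- the inequality at a vertex which is a layer -/
private lemma main_vtx (h4 : StarInjStmt) (h6 : VertexStmt) (h7 : MonoStmt) (K : Cx ι) (F : Type)
    [Field F] {N : ℕ} (p : ι → EuclideanSpace ℝ (Fin N)) (hpc : PathConnectedSpace K.real)
    (hrank : Module.rank F (Hq F 1 K.real) ≤ 1)
    (hall : ∀ (l : EuclideanSpace ℝ (Fin N) →ₗ[ℝ] ℝ) (c : ℝ), l ≠ 0 → ∀ n ≤ 1,
      HInj F {x : K.real | c < l (plMap K p x)} n)
    (lay : ι → Fin 10) (v : ι) (hsurj : Function.Surjective lay) (hcut : Cuts p lay)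
    (hz : ∀ i, lay i = 0 ↔ i = v) (J : Finset (Fin 9)) (hJ : J.Nonempty) (hJ3 : J.card ≤ 3) :
    Module.finrank F (Hq F 1 (K.star (mainL lay (insert 0 (J.image Fin.succ))))) ≤ 1 ∧
      ∀ k, 1 ≤ k → SplitsOn (K.link v) k (⋃ j ∈ J, mainD K lay v j) →
        k + Module.finrank F (Hq F 1 (K.star (mainL lay (J.image Fin.succ)))) ≤
          Module.finrank F (Hq F 1 (K.star (mainL lay (insert 0 (J.image Fin.succ))))) + 1 := by
  have hJi : (J.image Fin.succ).Nonempty := hJ.image _
  have e0 := main_inj h4 K F p hall lay hsurj hcut (J.image Fin.succ) hJi (main_ne_univ' J) 0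
    (by norm_num)
  have e1 := main_inj h4 K F p hall lay hsurj hcut (J.image Fin.succ) hJi (main_ne_univ' J) 1
    le_rfl
  have e2 := main_inj h4 K F p hall lay hsurj hcut (insert 0 (J.image Fin.succ))
    (Finset.insert_nonempty _ _) (main_ne_univ J hJ3) 1 le_rfl
  refine ⟨(h7 F K.real _ _ (le_refl _) hrank e2 e2).2, ?_⟩
  intro k hk hsp
  rw [main_union] at hsp
  have hv : v ∉ mainL lay (J.image Fin.succ) := by
    rw [main_memL, (hz v).2 rfl]
    intro h
    obtain ⟨j, -, hj⟩ := Finset.mem_image.1 h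
    exact Fin.succ_ne_zero j hj
  have hne : (mainL lay (J.image Fin.succ)).Nonempty := by
    obtain ⟨j, hj⟩ := hJi
    obtain ⟨i, hi⟩ := hsurj j
    exact ⟨i, (main_memL _ _ _).2 (by rw [hi]; exact hj)⟩
  have hins : insert v (mainL lay (J.image Fin.succ)) =
      mainL lay (insert 0 (J.image Fin.succ)) := by
    ext i
    rw [Finset.mem_insert, main_memL, main_memL, Finset.mem_insert, hz i]
  have h8 := h6 ι K F hpc hrank v (mainL lay (J.image Fin.succ)) hv hne e0 e1
    (by rw [hins]; exact e2) k hk hsp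
  rw [hins] at h8
  exact h8

/-- every layer meets the link of the vertex -/
private lemma main_Dne (h4 : StarInjStmt) (h5 : StarConnStmt) (K : Cx ι) (F : Type)
    [Field F] {N : ℕ} (p : ι → EuclideanSpace ℝ (Fin N)) (hpc : PathConnectedSpace K.real)
    (hall : ∀ (l : EuclideanSpace ℝ (Fin N) →ₗ[ℝ] ℝ) (c : ℝ), l ≠ 0 → ∀ n ≤ 1,
      HInj F {x : K.real | c < l (plMap K p x)} n)
    (lay : ι → Fin 10) (v : ι) (hsurj : Function.Surjective lay) (hcut : Cuts p lay)
    (hz : ∀ i, lay i = 0 ↔ i = v) (j : Fin 9) : (mainD K lay v j).Nonempty := by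
  have e0 := main_inj h4 K F p hall lay hsurj hcut (insert 0 (({j} : Finset (Fin 9)).image Fin.succ))
    (Finset.insert_nonempty _ _) (main_ne_univ {j} (by rw [Finset.card_singleton]; norm_num)) 0
    (by norm_num)
  have hne : (mainL lay (insert 0 (({j} : Finset (Fin 9)).image Fin.succ))).Nonempty :=
    ⟨v, (main_memL _ _ _).2 (by rw [(hz v).2 rfl]; exact Finset.mem_insert_self _ _)⟩
  have h1 := (h5 ι K F hpc _ hne e0).2
  have h2 : (↑(mainL lay (insert 0 (({j} : Finset (Fin 9)).image Fin.succ))) : Set ι) =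
      insert v {i | lay i = j.succ} := by
    ext i
    rw [Finset.mem_coe, main_memL, Finset.mem_insert, Finset.image_singleton,
      Finset.mem_singleton, hz i, Set.mem_insert_iff]
    exact Iff.rfl
  rw [h2] at h1
  obtain ⟨i, hi⟩ := hsurj j.succ
  obtain ⟨u, hu, hadj⟩ := main_nbr K.graph v {i | lay i = j.succ}
    (fun h => Fin.succ_ne_zero j (by rw [← (h : lay v = j.succ), (hz v).2 rfl])) ⟨i, hi⟩ h1
  exact ⟨u, ⟨hadj.1.symm, hadj.2⟩, hu⟩

/-- the bottom layer is one vertex -/
private lemma main_zero (h2 : ImmEdgeStmt) (h4 : StarInjStmt) (h5 : StarConnStmt) (K : Cx ι)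
    (F : Type) [Field F] {N : ℕ} (p : ι → EuclideanSpace ℝ (Fin N))
    (hpc : PathConnectedSpace K.real) (hloc : LocInj (plMap K p))
    (hall : ∀ (l : EuclideanSpace ℝ (Fin N) →ₗ[ℝ] ℝ) (c : ℝ), l ≠ 0 → ∀ n ≤ 1,
      HInj F {x : K.real | c < l (plMap K p x)} n)
    (lay : ι → Fin 10) (hsurj : Function.Surjective lay) (hcut : Cuts p lay)
    (a : EuclideanSpace ℝ (Fin N)) (ha : ∀ i, lay i = 0 → p i = a) :
    ∃ v, ∀ i, lay i = 0 ↔ i = v := by
  have e0 := main_inj h4 K F p hall lay hsurj hcut {0} (Finset.singleton_nonempty _)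
    (by
      intro h
      have h1 : (1 : Fin 10) ∈ ({0} : Finset (Fin 10)) := by
        rw [h]
        exact Finset.mem_univ _
      rw [Finset.mem_singleton] at h1
      exact absurd h1 (by decide)) 0 (by norm_num)
  obtain ⟨w, hw⟩ := hsurj 0
  have hne : (mainL lay {0}).Nonempty :=
    ⟨w, (main_memL _ _ _).2 (by rw [hw]; exact Finset.mem_singleton_self _)⟩
  have h1 := (h5 ι K F hpc _ hne e0).2
  obtain ⟨v, hv⟩ := main_single K.graph _ h1 (by
    intro u hu u' hu' hadj
    rw [Finset.mem_coe, main_memL, Finset.mem_singleton] at hu hu'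
    exact h2 ι K N p hloc u u' hadj ((ha u hu).trans (ha u' hu').symm))
  refine ⟨v, fun i => ?_⟩
  have h3 : i ∈ (↑(mainL lay {0}) : Set ι) ↔ i ∈ ({v} : Set ι) := by rw [hv]
  rw [Finset.mem_coe, main_memL, Finset.mem_singleton, Set.mem_singleton_iff] at h3
  exact h3

end

theorem mMain (h1 : FlagStmt) (h2 : ImmEdgeStmt) (h3 : ImmDirStmt) (h4 : StarInjStmt)
    (h5 : StarConnStmt) (h6 : VertexStmt) (h7 : MonoStmt) (h8 : LinkPlanarStmt) (h9 : LemAStmt)
    (h10 : LemBStmt) : MainStmt := by
  intro ι _ _ K hE hpc F _ hrank N hN p hloc hsub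
  by_contra hcon
  have hall : ∀ (l : EuclideanSpace ℝ (Fin N) →ₗ[ℝ] ℝ) (c : ℝ), l ≠ 0 → ∀ n ≤ 1,
      HInj F {x : K.real | c < l (plMap K p x)} n := by
    intro l c hl n hn
    by_contra h
    exact hcon ⟨l, c, hl, n, hn, h⟩
  obtain ⟨lay, a, b, hab, hsurj, hl0, hl1, ⟨w, hw1, hwb⟩, hcut, hcut'⟩ := h1 ι N hN p hsub
  -- the other layering
  obtain ⟨lay', hlay'⟩ : ∃ lay', lay' = swapLay p b lay := ⟨_, rfl⟩
  rw [← hlay'] at hcut'
  have hs1 : ∀ i, (lay i = 0 ∨ lay i = 1) → p i = b → lay' i = 0 := by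
    intro i hi hb
    rw [hlay']
    unfold swapLay
    rw [if_pos hi, if_pos hb]
  have hs2 : ∀ i, (lay i = 0 ∨ lay i = 1) → p i ≠ b → lay' i = 1 := by
    intro i hi hb
    rw [hlay']
    unfold swapLay
    rw [if_pos hi, if_neg hb]
  have hs3 : ∀ i, ¬ (lay i = 0 ∨ lay i = 1) → lay' i = lay i := by
    intro i hi
    rw [hlay']
    unfold swapLay
    rw [if_neg hi]
  -- the two vertices
  obtain ⟨v, hv⟩ := main_zero h2 h4 h5 K F p hpc hloc hall lay hsurj hcut a hl0
  have hpv : p v = a := hl0 v ((hv v).2 rfl)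
  have hsurj' : Function.Surjective lay' := by
    intro j
    by_cases hj0 : j = 0
    · exact ⟨w, by rw [hj0]; exact hs1 w (Or.inr hw1) hwb⟩
    by_cases hj1 : j = 1
    · refine ⟨v, ?_⟩
      rw [hj1]
      exact hs2 v (Or.inl ((hv v).2 rfl)) (by rw [hpv]; exact hab)
    obtain ⟨i, hi⟩ := hsurj j
    refine ⟨i, ?_⟩
    rw [hs3 i (by rw [hi]; push Not; exact ⟨hj0, hj1⟩), hi]
  have hl0' : ∀ i, lay' i = 0 → p i = b := by
    intro i hi
    by_contra hb
    by_cases h : lay i = 0 ∨ lay i = 1
    · rw [hs2 i h hb] at hi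
      exact absurd hi (by decide)
    · rw [hs3 i h] at hi
      exact h (Or.inl hi)
  obtain ⟨v', hv'⟩ := main_zero h2 h4 h5 K F p hpc hloc hall lay' hsurj' hcut' b hl0'
  have hpv' : p v' = b := hl0' v' ((hv' v').2 rfl)
  have hlayv' : lay v' = 1 := by
    have h11 : lay' v' = 0 := (hv' v').2 rfl
    by_cases h : lay v' = 0 ∨ lay v' = 1
    · rcases h with h | h
      · exact absurd ((hl0 v' h).symm.trans hpv') hab
      · exact h
    · rw [hs3 v' h] at h11
      exact absurd (Or.inl h11) h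
  have hsame : ∀ (j : Fin 9), j ≠ 0 → ∀ i, lay' i = j.succ ↔ lay i = j.succ := by
    intro j hj i
    have hj1 : j.succ ≠ 0 := Fin.succ_ne_zero j
    have hj2 : j.succ ≠ 1 := by
      intro h
      apply hj
      have : j.succ = (0 : Fin 9).succ := h
      exact Fin.succ_injective _ this
    by_cases h : lay i = 0 ∨ lay i = 1
    · have h12 : lay' i = 0 ∨ lay' i = 1 := by
        by_cases hb : p i = b
        · exact Or.inl (hs1 i h hb)
        · exact Or.inr (hs2 i h hb)
      constructor
      · intro h13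
        rw [h13] at h12
        rcases h12 with h12 | h12
        · exact absurd h12 hj1
        · exact absurd h12 hj2
      · intro h13
        rw [h13] at h
        rcases h with h | h
        · exact absurd h hj1
        · exact absurd h hj2
    · rw [hs3 i h]
  -- the vertex v
  have key : ∀ (J : Finset (Fin 9)), J.card ≤ 3 →
      ¬ SplitsOn (K.link v) 3 (⋃ j ∈ J, mainD K lay v j) := by
    intro J hJ3 hsp
    have hJ : J.Nonempty := by
      by_contra hJe
      rw [Finset.not_nonempty_iff_eq_empty] at hJe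
      obtain ⟨g, -, hg⟩ := hsp
      obtain ⟨u, hu, -⟩ := hg 0
      rw [hJe] at hu
      simp at hu
    obtain ⟨k1, k2⟩ := main_vtx h4 h6 h7 K F p hpc hrank hall lay v hsurj hcut hv J hJ hJ3
    have k3 := k2 3 (by norm_num) hsp
    omega
  have hdis : ∀ i j : Fin 9, i ≠ j → Disjoint (mainD K lay v i) (mainD K lay v j) := by
    intro i j hij
    rw [Set.disjoint_left]
    rintro u ⟨-, hu1⟩ ⟨-, hu2⟩
    exact hij (Fin.succ_injective _ ((hu1 : lay u = i.succ).symm.trans hu2))
  have hB := h10 ι (K.link v) (h8 ι K hE v) (mainD K lay v)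
    (main_Dne h4 h5 K F p hpc hall lay v hsurj hcut hv) hdis key
  -- the homology of v' and one layer
  have hzero : ∀ i : Fin 9, i ≠ 0 →
      Module.finrank F (Hq F 1 (K.star (mainL lay' (insert 0 (({i} : Finset (Fin 9)).image
        Fin.succ))))) = 0 := by
    intro i hi
    obtain ⟨J, hJ0, hJi, hJ3, hsp⟩ := hB i hi
    obtain ⟨k1, k2⟩ := main_vtx h4 h6 h7 K F p hpc hrank hall lay v hsurj hcut hv J ⟨0, hJ0⟩ hJ3
    have k3 := k2 2 (by norm_num) hsp
    have k4 : Module.finrank F (Hq F 1 (K.star (mainL lay (J.image Fin.succ)))) = 0 := by omega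
    have e1 := main_inj h4 K F p hall lay hsurj hcut (J.image Fin.succ)
      (Finset.Nonempty.image ⟨0, hJ0⟩ _) (main_ne_univ' J) 1 le_rfl
    have e2 := main_inj h4 K F p hall lay' hsurj' hcut'
      (insert 0 (({i} : Finset (Fin 9)).image Fin.succ)) (Finset.insert_nonempty _ _)
      (main_ne_univ {i} (by rw [Finset.card_singleton]; norm_num)) 1 le_rfl
    have hsubset : mainL lay' (insert 0 (({i} : Finset (Fin 9)).image Fin.succ)) ⊆
        mainL lay (J.image Fin.succ) := by
      intro u hu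
      rw [main_memL, Finset.mem_insert, Finset.image_singleton, Finset.mem_singleton] at hu
      rw [main_memL, Finset.mem_image]
      rcases hu with hu | hu
      · rw [hv' u] at hu
        rw [hu, hlayv']
        exact ⟨0, hJ0, rfl⟩
      · rw [hsame i hi u] at hu
        exact ⟨i, hJi, hu.symm⟩
    have k5 := (h7 F K.real _ _ (main_starMono K hsubset) hrank e2 e1).1
    omega
  -- the vertex v'
  have hdis' : ∀ i j : Fin 9, i ≠ j → Disjoint (mainD K lay' v' i) (mainD K lay' v' j) := by
    intro i j hij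
    rw [Set.disjoint_left]
    rintro u ⟨-, hu1⟩ ⟨-, hu2⟩
    exact hij (Fin.succ_injective _ ((hu1 : lay' u = i.succ).symm.trans hu2))
  have hne' := main_Dne h4 h5 K F p hpc hall lay' v' hsurj' hcut' hv'
  have hconn : ∀ i, ConnOn (K.link v') (mainD K lay' v' i) := by
    intro i
    refine ⟨hne' i, ?_⟩
    by_cases hi : i = 0
    · -- the bottom layer has one element
      rintro ⟨g, -, hg⟩
      obtain ⟨u, hu, hgu⟩ := hg 0
      obtain ⟨u', hu', hgu'⟩ := hg 1
      have huu : u ≠ u' := by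
        rintro rfl
        rw [hgu] at hgu'
        exact absurd hgu' (by decide)
      have hform : ∀ x ∈ mainD K lay' v' i, ∃ r : ℝ, 0 < r ∧ p x - p v' = r • (a - b) := by
        rintro x ⟨-, hx⟩
        have hx1 : lay' x = 1 := by
          have : lay' x = i.succ := hx
          rw [this, hi]
          rfl
        have hxl : lay x = 0 ∨ lay x = 1 := by
          by_contra h
          rw [hs3 x h] at hx1
          exact h (Or.inr hx1)
        have hxb : p x ≠ b := by
          intro h
          rw [hs1 x hxl h] at hx1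
          exact absurd hx1 (by decide)
        rcases hxl with h | h
        · refine ⟨1, one_pos, ?_⟩
          rw [hl0 x h, hpv', one_smul]
        · obtain ⟨t, ht0, ht1, htp⟩ := hl1 x h
          refine ⟨1 - t, ?_, ?_⟩
          · rcases lt_or_eq_of_le ht1 with h14 | h14
            · linarith
            · exfalso
              apply hxb
              rw [htp, h14, one_smul]
              abel
          · rw [htp, hpv', sub_smul, one_smul, smul_sub, smul_sub]
            abel
      obtain ⟨r, hr, hru⟩ := hform u hu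
      obtain ⟨r', hr', hru'⟩ := hform u' hu'
      refine h3 ι K N p hloc v' u u' hu.1 hu'.1 huu (r / r') (div_pos hr hr') ?_
      rw [hru, hru', smul_smul, div_mul_cancel₀ _ hr'.ne']
    · intro hsp
      obtain ⟨-, k2⟩ := main_vtx h4 h6 h7 K F p hpc hrank hall lay' v' hsurj' hcut' hv' {i}
        (Finset.singleton_nonempty _) (by rw [Finset.card_singleton]; norm_num)
      have h15 : (⋃ j ∈ ({i} : Finset (Fin 9)), mainD K lay' v' j) = mainD K lay' v' i := by
        ext x
        simp
      rw [h15] at k2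
      have k3 := k2 2 (by norm_num) hsp
      have k4 := hzero i hi
      omega
  obtain ⟨i, j, k, hij, hik, hjk, n1, n2, n3⟩ := h9 ι (K.link v') (h8 ι K hE v')
    (mainD K lay' v') hconn hdis'
  obtain ⟨k1, k2⟩ := main_vtx h4 h6 h7 K F p hpc hrank hall lay' v' hsurj' hcut' hv' {i, j, k}
    ⟨i, by simp⟩ (Finset.card_le_three)
  have hsp : SplitsOn (K.link v') 3 (⋃ m ∈ ({i, j, k} : Finset (Fin 9)), mainD K lay' v' m) := by
    classical
    refine ⟨fun u => if u ∈ mainD K lay' v' i then 0 else if u ∈ mainD K lay' v' j then 1 else 2,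
      ?_, ?_⟩
    · have hmem : ∀ u ∈ (⋃ m ∈ ({i, j, k} : Finset (Fin 9)), mainD K lay' v' m),
          u ∈ mainD K lay' v' i ∨ u ∈ mainD K lay' v' j ∨ u ∈ mainD K lay' v' k := by
        intro u hu
        simpa using hu
      intro u hu u' hu' hadj
      rcases hmem u hu with h | h | h <;> rcases hmem u' hu' with h' | h' | h'
      · simp only [h, h', if_true]
      · exact absurd ⟨u, h, u', h', hadj⟩ n1
      · exact absurd ⟨u, h, u', h', hadj⟩ n2
      · exact absurd ⟨u', h', u, h, hadj.symm⟩ n1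
      · have e1 : u ∉ mainD K lay' v' i := fun h0 => Set.disjoint_left.1 (hdis' i j hij) h0 h
        have e2 : u' ∉ mainD K lay' v' i := fun h0 => Set.disjoint_left.1 (hdis' i j hij) h0 h'
        simp only [e1, e2, h, h', if_true, if_false]
      · exact absurd ⟨u, h, u', h', hadj⟩ n3
      · exact absurd ⟨u', h', u, h, hadj.symm⟩ n2
      · exact absurd ⟨u', h', u, h, hadj.symm⟩ n3
      · have e1 : u ∉ mainD K lay' v' i := fun h0 => Set.disjoint_left.1 (hdis' i k hik) h0 h
        have e2 : u' ∉ mainD K lay' v' i := fun h0 => Set.disjoint_left.1 (hdis' i k hik) h0 h'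
        have e3 : u ∉ mainD K lay' v' j := fun h0 => Set.disjoint_left.1 (hdis' j k hjk) h0 h
        have e4 : u' ∉ mainD K lay' v' j := fun h0 => Set.disjoint_left.1 (hdis' j k hjk) h0 h'
        simp only [e1, e2, e3, e4, if_false]
    · intro m
      fin_cases m
      · obtain ⟨u, hu⟩ := hne' i
        refine ⟨u, by simp [hu], ?_⟩
        exact if_pos hu
      · obtain ⟨u, hu⟩ := hne' j
        have e1 : u ∉ mainD K lay' v' i := fun h0 => Set.disjoint_left.1 (hdis' i j hij) h0 hu
        refine ⟨u, by simp [hu], ?_⟩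
        exact (if_neg e1).trans (if_pos hu)
      · obtain ⟨u, hu⟩ := hne' k
        have e1 : u ∉ mainD K lay' v' i := fun h0 => Set.disjoint_left.1 (hdis' i k hik) h0 hu
        have e2 : u ∉ mainD K lay' v' j := fun h0 => Set.disjoint_left.1 (hdis' j k hjk) h0 hu
        refine ⟨u, by simp [hu], ?_⟩
        exact (if_neg e1).trans (if_neg e2)
  have k3 := k2 3 (by norm_num) hsp
  omega

end TightRP
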