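import Pool.Agent.Lib.MP_7cdc3e_gt.Spec

/-!
# MP_7cdc3e_gt: T5, monotonicity of the rank of `H_1`
-/

open HoloConj Pool.Agent.Lib.SingHom

namespace TightRP

theorem tMono : MonoStmt := by
  intro F _ Z _ A B hAB hZ hA hB
  haveI hfZ : Module.Finite F (Hq F 1 Z) := by
    rw [← Module.rank_lt_aleph0_iff]
    exact hZ.trans_lt Cardinal.one_lt_aleph0
  haveI hfB : Module.Finite F (Hq F 1 B) := FiniteDimensional.of_injective _ hB
  let j : C(A, B) := ⟨Set.inclusion hAB, continuous_inclusion hAB⟩
  have hj : (incl B).comp j = incl A := rfl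
  have hji : Function.Injective (Hmap F 1 j) := by
    unfold HInj at hA
    rw [← hj, Hmap_comp] at hA
    exact Function.Injective.of_comp hA
  refine ⟨LinearMap.finrank_le_finrank_of_injective hji, ?_⟩
  refine (LinearMap.finrank_le_finrank_of_injective hB).trans ?_
  exact Module.finrank_le_of_rank_le (by simpa using hZ)

end TightRP
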