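import Pool.Agent.Lib.MP_7cdc3e_gt.Spec

/-!
# MP_7cdc3e_gt: M3, homology of punctured three-space
-/

open HoloConj Pool.Agent.Lib.SingHom

namespace TightRP

theorem mP3_path : PathConnectedSpace (Pn 2) := by
  have h : IsPathConnected ({(0 : EuclideanSpace ℝ (Fin 2))}ᶜ) :=
    isPathConnected_compl_singleton_of_one_lt_rank (by
      rw [← Module.finrank_eq_rank, finrank_euclideanSpace_fin]; norm_num) 0
  exact isPathConnected_iff_pathConnectedSpace.mp h

theorem mP3 (h1 : SuspStmt) (h2 : CircleStmt) : P3Stmt := by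
  intro F _
  refine ⟨(h1 F 2).2 mP3_path, ?_⟩
  obtain ⟨e⟩ := (h1 F 2).1 0
  rw [e.rank_eq, h2 F]

end TightRP
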