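import Pool.Agent.Lib.MP_7cdc3e_gt.Spec

/-!
# MP_7cdc3e_gt: module Planar
-/

open HoloConj Pool.Agent.Lib.SingHom

namespace TightRP

/-- the edges of a triangle, reduced to the edges between different classes, are even at every
class -/
private lemma planar_even {V W : Type} [DecidableEq V] [DecidableEq W] (q : V → W) (a b c : V)
    (hab : a ≠ b) (hbc : b ≠ c) (hac : a ≠ c) (w : W) :
    Even ((({s(a, b), s(b, c), s(a, c)} : Finset (Sym2 V)).filter
      (fun e => ¬ (Sym2.map q e).IsDiag ∧ w ∈ Sym2.map q e)).card) := by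
  have h1 : s(a, b) ∉ ({s(b, c), s(a, c)} : Finset (Sym2 V)) := by
    simp only [Finset.mem_insert, Finset.mem_singleton, Sym2.eq_iff, not_or]
    refine ⟨⟨fun h => hab h.1, fun h => hac h.1⟩, ⟨fun h => hbc h.2, fun h => hac h.1⟩⟩
  have h2 : s(b, c) ∉ ({s(a, c)} : Finset (Sym2 V)) := by
    simp only [Finset.mem_singleton, Sym2.eq_iff, not_or]
    exact ⟨fun h => hab h.1.symm, fun h => hbc h.1⟩
  rw [Finset.card_filter, Finset.sum_insert h1, Finset.sum_insert h2, Finset.sum_singleton]
  simp only [Sym2.map_mk, Sym2.mk_isDiag_iff, Sym2.mem_iff]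
  by_cases e1 : q a = q b
  · by_cases e2 : q b = q c
    · have e3 : q a = q c := e1.trans e2
      simp [e1, e2]
    · by_cases e4 : w = q b
      · simp [e1, e2, e4]
      · simp [e1, e2, e4]
  · by_cases e2 : q b = q c
    · by_cases e4 : w = q b
      · simp [e2, e4]
      · rw [e2] at e1
        by_cases e5 : w = q a
        · simp [e2, e1, e5]
        · have e6 : w ≠ q c := fun h => e4 (h.trans e2.symm)
          simp [e2, e1, e5, e6]
    · by_cases e3 : q a = q c
      · by_cases e4 : w = q b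
        · simp [e4, e2, e3, Ne.symm e2]
        · by_cases e5 : w = q c
          · simp [e3, e2, e5, Ne.symm e2]
          · simp [e3, e2, e4, e5]
      · by_cases e4 : w = q a
        · simp [e4, e1, e2, e3]
        · by_cases e5 : w = q b
          · simp [e5, e1, e2, e3, Ne.symm e1]
          · by_cases e6 : w = q c
            · simp [e6, e1, e2, e3, Ne.symm e2, Ne.symm e3]
            · simp [e4, e5, e6]

/-- the sum over the edges of a triangle -/
private lemma planar_sum {V W : Type} [DecidableEq V] [DecidableEq W] (q : V → W) (a b c : V)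
    (hab : a ≠ b) (hbc : b ≠ c) (hac : a ≠ c) (α : Sym2 V → ZMod 2) :
    ∑ e ∈ ({s(a, b), s(b, c), s(a, c)} : Finset (Sym2 V)).filter
      (fun e => ¬ (Sym2.map q e).IsDiag), α e =
      (if q a = q b then 0 else α s(a, b)) + (if q b = q c then 0 else α s(b, c)) +
        (if q a = q c then 0 else α s(a, c)) := by
  have h1 : s(a, b) ∉ ({s(b, c), s(a, c)} : Finset (Sym2 V)) := by
    simp only [Finset.mem_insert, Finset.mem_singleton, Sym2.eq_iff, not_or]
    refine ⟨⟨fun h => hab h.1, fun h => hac h.1⟩, ⟨fun h => hbc h.2, fun h => hac h.1⟩⟩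
  have h2 : s(b, c) ∉ ({s(a, c)} : Finset (Sym2 V)) := by
    simp only [Finset.mem_singleton, Sym2.eq_iff, not_or]
    exact ⟨fun h => hab h.1.symm, fun h => hbc h.1⟩
  rw [Finset.sum_filter, Finset.sum_insert h1, Finset.sum_insert h2, Finset.sum_singleton]
  simp only [Sym2.map_mk, Sym2.mk_isDiag_iff, ite_not, add_assoc]

open Classical in
/-- the edges between different classes with the triangles are a MacLane family -/
private lemma planar_ml {V W : Type} [Fintype V] [DecidableEq V] (q : V → W) (G : SimpleGraph V)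
    (T : Finset (Finset V))
    (hT : ∀ t ∈ T, t.card = 3 ∧ ∀ a ∈ t, ∀ b ∈ t, a ≠ b → G.Adj a b)
    (h2 : ∀ a b, G.Adj a b → (T.filter (fun t => a ∈ t ∧ b ∈ t)).card ≤ 2)
    (hα : ∀ α : V → V → ZMod 2, (∀ a b, α a b = α b a) →
      (∀ a b c, a ≠ b → b ≠ c → a ≠ c → ({a, b, c} : Finset V) ∈ T →
        α a b + α b c + α a c = 0) →
      ∃ β : V → ZMod 2, ∀ a b, G.Adj a b → α a b = β a + β b)
    (hβ : ∀ β : V → ZMod 2, (∀ a b, G.Adj a b → q a = q b → β a = β b) →
      ∃ β' : W → ZMod 2, ∀ v, β' (q v) = β v) :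
    ∃ (m : ℕ) (f : Fin m → Finset (Sym2 V)),
      ML q (Finset.univ.filter (fun e : Sym2 V => e ∈ G.edgeSet ∧ ¬ (Sym2.map q e).IsDiag)) f := by
  set E : Finset (Sym2 V) :=
    Finset.univ.filter (fun e : Sym2 V => e ∈ G.edgeSet ∧ ¬ (Sym2.map q e).IsDiag) with hE
  -- the members of the family
  let F : Finset V → Finset (Sym2 V) := fun t => E.filter (fun e => ∀ v ∈ e, v ∈ t)
  have hF : ∀ a b c : V, a ≠ b → b ≠ c → a ≠ c → ({a, b, c} : Finset V) ∈ T →
      F {a, b, c} = ({s(a, b), s(b, c), s(a, c)} : Finset (Sym2 V)).filter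
        (fun e => ¬ (Sym2.map q e).IsDiag) := by
    intro a b c hab hbc hac ht
    have hadj := (hT _ ht).2
    have g1 : G.Adj a b := hadj a (by simp) b (by simp) hab
    have g2 : G.Adj b c := hadj b (by simp) c (by simp) hbc
    have g3 : G.Adj a c := hadj a (by simp) c (by simp) hac
    ext e
    simp only [F, hE, Finset.mem_filter, Finset.mem_univ, true_and, Finset.mem_insert,
      Finset.mem_singleton]
    constructor
    · rintro ⟨⟨h1, h2⟩, h3⟩
      refine ⟨?_, h2⟩
      induction e with
      | _ u w =>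
        have hne : u ≠ w := fun h => by
          rw [h] at h2
          exact h2 (by simp)
        have hu : u = a ∨ u = b ∨ u = c := h3 u (by simp)
        have hw : w = a ∨ w = b ∨ w = c := h3 w (by simp)
        rcases hu with rfl | rfl | rfl <;> rcases hw with rfl | rfl | rfl <;>
          simp_all [Sym2.eq_swap]
    · rintro ⟨h1, h2⟩
      rcases h1 with rfl | rfl | rfl
      · exact ⟨⟨g1, h2⟩, by simp⟩
      · exact ⟨⟨g2, h2⟩, by simp⟩
      · exact ⟨⟨g3, h2⟩, by simp⟩
  have hcard : ∀ t ∈ T, ∃ a b c : V, a ≠ b ∧ b ≠ c ∧ a ≠ c ∧ t = {a, b, c} := by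
    intro t ht
    obtain ⟨a, b, c, h1, h2, h3, h4⟩ := Finset.card_eq_three.1 (hT t ht).1
    exact ⟨a, b, c, h1, h3, h2, h4⟩
  refine ⟨T.card, fun j => F (T.equivFin.symm j), ?_, ?_, ?_, ?_, ?_⟩
  · intro e he
    exact (Finset.mem_filter.1 he).2.2
  · intro j
    exact Finset.filter_subset _ _
  · intro j w
    obtain ⟨a, b, c, h1, h3, h4, h5⟩ := hcard _ (T.equivFin.symm j).2
    have h6 : ({a, b, c} : Finset V) ∈ T := h5 ▸ (T.equivFin.symm j).2
    show Even ((F (T.equivFin.symm j)).filter _).card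
    rw [h5, hF a b c h1 h3 h4 h6, Finset.filter_filter]
    exact planar_even q a b c h1 h3 h4 w
  · intro e he
    induction e with
    | _ u w =>
      have hadj : G.Adj u w := (Finset.mem_filter.1 he).2.1
      refine le_trans ?_ (h2 u w hadj)
      refine Finset.card_le_card_of_injOn (fun j => ((T.equivFin.symm j : T) : Finset V)) ?_ ?_
      · intro j hj
        have hj' := (Finset.mem_filter.1 (Finset.mem_coe.1 hj)).2
        have hj'' : ∀ v ∈ s(u, w), v ∈ ((T.equivFin.symm j : T) : Finset V) :=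
          (Finset.mem_filter.1 hj').2
        exact Finset.mem_coe.2 (Finset.mem_filter.2 ⟨(T.equivFin.symm j).2, hj'' u (by simp),
          hj'' w (by simp)⟩)
      · intro j _ j' _ hjj
        exact T.equivFin.symm.injective (Subtype.ext hjj)
  · intro α hα0
    obtain ⟨β, hβ1⟩ := hα (fun a b => if s(a, b) ∈ E then α s(a, b) else 0)
      (fun a b => by simp only [Sym2.eq_swap]) (by
        intro a b c hab hbc hac ht
        have hadj := (hT _ ht).2
        have g1 : G.Adj a b := hadj a (by simp) b (by simp) hab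
        have g2 : G.Adj b c := hadj b (by simp) c (by simp) hbc
        have g3 : G.Adj a c := hadj a (by simp) c (by simp) hac
        have h := hα0 (T.equivFin ⟨_, ht⟩)
        simp only [Equiv.symm_apply_apply] at h
        rw [hF a b c hab hbc hac ht, planar_sum q a b c hab hbc hac α] at h
        have k1 : ∀ x y : V, G.Adj x y →
            (if s(x, y) ∈ E then α s(x, y) else 0) = (if q x = q y then 0 else α s(x, y)) := by
          intro x y hxy
          have hm : s(x, y) ∈ E ↔ ¬ q x = q y := by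
            rw [hE, Finset.mem_filter]
            simp [hxy]
          by_cases hq : q x = q y
          · rw [if_pos hq, if_neg (fun h => hm.1 h hq)]
          · rw [if_neg hq, if_pos (hm.2 hq)]
        rw [k1 a b g1, k1 b c g2, k1 a c g3]
        exact h)
    obtain ⟨β', hβ'⟩ := hβ β (by
      intro a b hab hq
      have h1 := hβ1 a b hab
      rw [if_neg] at h1
      · have h3 : β b + β b = 0 := CharTwo.add_self_eq_zero _
        have h4 : β a + β b = β b + β b := by rw [← h1, h3]
        exact add_right_cancel h4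
      · intro hm
        exact (Finset.mem_filter.1 hm).2.2 (by simp [hq]))
    refine ⟨β', fun a b hab => ?_⟩
    rw [hβ', hβ', ← hβ1 a b (Finset.mem_filter.1 hab).2.1, if_pos hab]

open Classical in
/-- restriction of the classes: all the edges only touch the classes in `κ` -/
private lemma planar_restrict {V κ : Type} [DecidableEq V] [Inhabited κ] (q : V → κ ⊕ V)
    (E : Finset (Sym2 V)) (r : κ ⊕ V → κ) (hr : ∀ i, r (Sum.inl i) = i)
    (hE : ∀ e ∈ E, ∃ p : Sym2 κ, Sym2.map q e = Sym2.map Sum.inl p) {m : ℕ}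
    (f : Fin m → Finset (Sym2 V)) (h : ML q E f) : ML (fun v => r (q v)) E f := by
  obtain ⟨h1, h2, h3, h4, h5⟩ := h
  have hmap : ∀ (e : Sym2 V) (p : Sym2 κ), Sym2.map q e = Sym2.map Sum.inl p →
      Sym2.map (fun v => r (q v)) e = p := by
    intro e p hp
    have e1 : Sym2.map (fun v => r (q v)) e = Sym2.map r (Sym2.map q e) := by
      rw [Sym2.map_map]
      rfl
    rw [e1, hp, Sym2.map_map]
    have e2 : (r ∘ Sum.inl : κ → κ) = id := funext hr
    rw [e2, Sym2.map_id, id]
  refine ⟨?_, h2, ?_, h4, ?_⟩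
  · intro e he
    obtain ⟨p, hp⟩ := hE e he
    have h6 := h1 e he
    rw [hp] at h6
    rw [hmap e p hp]
    intro hd
    apply h6
    induction p with
    | _ x y =>
      rw [Sym2.mk_isDiag_iff] at hd
      rw [Sym2.map_mk, Sym2.mk_isDiag_iff, hd]
  · intro j w
    have h6 := h3 j (Sum.inl w)
    have h7 : (f j).filter (fun e => w ∈ Sym2.map (fun v => r (q v)) e) =
        (f j).filter (fun e => Sum.inl w ∈ Sym2.map q e) := by
      refine Finset.filter_congr fun e he => ?_
      obtain ⟨p, hp⟩ := hE e (h2 j he)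
      rw [hmap e p hp, hp, Sym2.mem_map]
      constructor
      · intro hw
        exact ⟨w, hw, rfl⟩
      · rintro ⟨w', hw', h8⟩
        rw [Sum.inl.injEq] at h8
        exact h8 ▸ hw'
    have h8 : Even ((f j).filter (fun e => w ∈ Sym2.map (fun v => r (q v)) e)).card := by
      rw [h7]
      convert h6
    convert h8
  · intro α hα
    obtain ⟨β, hβ⟩ := h5 α hα
    refine ⟨fun i => β (Sum.inl i), fun a b hab => ?_⟩
    obtain ⟨p, hp⟩ := hE _ hab
    have h6 : ∀ x ∈ s(a, b), Sum.inl (r (q x)) = q x := by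
      intro x hx
      have h7 : q x ∈ Sym2.map Sum.inl p := by
        rw [← hp]
        exact Sym2.mem_map.2 ⟨x, hx, rfl⟩
      obtain ⟨i, -, hi⟩ := Sym2.mem_map.1 h7
      rw [← hi, hr]
    rw [hβ a b hab]
    show β (q a) + β (q b) = β (Sum.inl (r (q a))) + β (Sum.inl (r (q b)))
    rw [h6 a (by simp), h6 b (by simp)]

/-- a function with values in `F_2` which is constant along the edges is constant on a connected
set -/
private lemma planar_const {V : Type} (G : SimpleGraph V) (B : Set V) (hB : ConnOn G B)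
    (β : V → ZMod 2) (hβ : ∀ a ∈ B, ∀ b ∈ B, G.Adj a b → β a = β b) :
    ∀ a ∈ B, ∀ b ∈ B, β a = β b := by
  intro a ha b hb
  by_contra hne
  apply hB.2
  have hz : ∀ x : ZMod 2, x = 0 ∨ x = 1 := by decide
  refine ⟨fun v => if β v = 0 then 0 else 1, fun u hu w hw huw => ?_, ?_⟩
  · show (if β u = 0 then (0 : Fin 2) else 1) = if β w = 0 then 0 else 1
    rw [hβ u hu w hw huw]
  · have h0 : ∃ u ∈ B, β u = 0 := by
      rcases hz (β a) with h | h
      · exact ⟨a, ha, h⟩
      · rcases hz (β b) with h' | h'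
        · exact ⟨b, hb, h'⟩
        · exact absurd (h.trans h'.symm) hne
    have h1 : ∃ u ∈ B, β u = 1 := by
      rcases hz (β a) with h | h
      · rcases hz (β b) with h' | h'
        · exact absurd (h.trans h'.symm) hne
        · exact ⟨b, hb, h'⟩
      · exact ⟨a, ha, h⟩
    intro j
    obtain ⟨u, hu, hu0⟩ := h0
    obtain ⟨w, hw, hw1⟩ := h1
    by_cases hj : j = 0
    · refine ⟨u, hu, ?_⟩
      show (if β u = 0 then (0 : Fin 2) else 1) = j
      rw [if_pos hu0, hj]
    · refine ⟨w, hw, ?_⟩
      show (if β w = 0 then (0 : Fin 2) else 1) = j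
      rw [if_neg (by rw [hw1]; decide)]
      omega

open Classical in
/-- **Planar.** -/
theorem pPlanar (h1 : DelStmt) (h2 : MacLaneStmt) : PlanarStmt := by
  intro V _ _ G T hT hT2 hα κ _ _ hκ B hB hdis P hP
  have : Nonempty κ := Fintype.card_pos_iff.1 (by omega)
  have : Inhabited κ := Classical.inhabited_of_nonempty inferInstance
  have : Nonempty (Sym2 V) := ⟨s((hB default).1.choose, (hB default).1.choose)⟩
  -- the classes
  let q : V → κ ⊕ V := fun v => if h : ∃ i, v ∈ B i then Sum.inl (Classical.choose h) else Sum.inr v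
  have hq : ∀ i, ∀ v ∈ B i, q v = Sum.inl i := by
    intro i v hv
    have h : ∃ i, v ∈ B i := ⟨i, hv⟩
    have h3 : q v = Sum.inl (Classical.choose h) := dif_pos h
    rw [h3]
    congr 1
    by_contra hne
    exact Set.disjoint_left.1 (hdis _ _ hne) (Classical.choose_spec h) hv
  have hq' : ∀ i v, q v = Sum.inl i → v ∈ B i := by
    intro i v hv
    by_cases h : ∃ i, v ∈ B i
    · have h3 : q v = Sum.inl (Classical.choose h) := dif_pos h
      rw [h3] at hv
      have h4 : Classical.choose h = i := Sum.inl.inj hv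
      rw [← h4]
      exact Classical.choose_spec h
    · have h3 : q v = Sum.inr v := dif_neg h
      rw [h3] at hv
      exact absurd hv (by simp)
  have hq'' : ∀ v, (∀ i, q v ≠ Sum.inl i) → q v = Sum.inr v := by
    intro v hv
    by_cases h : ∃ i, v ∈ B i
    · obtain ⟨i, hi⟩ := h
      exact absurd (hq i v hi) (hv i)
    · exact dif_neg h
  obtain ⟨m, f, hf⟩ := planar_ml q G T hT hT2 hα (by
    intro β hβ
    refine ⟨Sum.elim (fun i => β (hB i).1.choose) β, fun v => ?_⟩
    by_cases h : ∃ i, q v = Sum.inl i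
    · obtain ⟨i, hi⟩ := h
      rw [hi]
      show β (hB i).1.choose = β v
      exact planar_const G (B i) (hB i) β
        (fun a ha b hb hab => hβ a b hab ((hq i a ha).trans (hq i b hb).symm)) _
        (hB i).1.choose_spec _ (hq' i v hi)
    · rw [hq'' v (fun i hi => h ⟨i, hi⟩)]
      rfl)
  set E : Finset (Sym2 V) :=
    Finset.univ.filter (fun e : Sym2 V => e ∈ G.edgeSet ∧ ¬ (Sym2.map q e).IsDiag) with hE
  -- one edge for every pair
  have hch : ∀ p : Sym2 κ, p ∈ P → ∃ e ∈ E, Sym2.map q e = Sym2.map Sum.inl p := by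
    intro p hp
    induction p with
    | _ i j =>
      obtain ⟨hij, u, hu, w, hw, huw⟩ := hP i j hp
      refine ⟨s(u, w), ?_, ?_⟩
      · rw [hE, Finset.mem_filter]
        refine ⟨Finset.mem_univ _, huw, ?_⟩
        rw [Sym2.map_mk, Sym2.mk_isDiag_iff, hq i u hu, hq j w hw]
        intro h
        exact hij (Sum.inl.inj h)
      · rw [Sym2.map_mk, Sym2.map_mk, hq i u hu, hq j w hw]
  choose! ch hchE hchq using hch
  have hinj : Set.InjOn ch (P : Set (Sym2 κ)) := by
    intro p hp p' hp' h
    have e1 := hchq p hp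
    rw [h, hchq p' hp'] at e1
    exact (Sym2.map.injective Sum.inl_injective e1).symm
  set E' : Finset (Sym2 V) := P.image ch with hE'
  have hsub : E' ⊆ E := by
    intro e he
    obtain ⟨p, hp, rfl⟩ := Finset.mem_image.1 he
    exact hchE p hp
  have hcard : E'.card = P.card := Finset.card_image_of_injOn hinj
  have hfE : ML q E f := by
    rw [hE]
    convert hf
  obtain ⟨m', f', hf'⟩ := h1 V (κ ⊕ V) q E m f hfE E' hsub
  let r : κ ⊕ V → κ := Sum.elim id (fun _ => default)
  have hf'' := planar_restrict q E' r (fun i => rfl) (by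
    intro e he
    obtain ⟨p, hp, rfl⟩ := Finset.mem_image.1 he
    exact ⟨p, hchq p hp⟩) f' hf'
  have hmap : ∀ p ∈ P, Sym2.map (fun v => r (q v)) (ch p) = p := by
    intro p hp
    have e1 : Sym2.map (fun v => r (q v)) (ch p) = Sym2.map r (Sym2.map q (ch p)) := by
      rw [Sym2.map_map]
      rfl
    rw [e1, hchq p hp, Sym2.map_map]
    have e2 : (r ∘ Sum.inl : κ → κ) = id := funext fun _ => rfl
    rw [e2, Sym2.map_id, id]
  rw [← hcard]
  refine h2 V κ (fun v => r (q v)) E' m' f' hf'' ?_ hκ
  intro e he e' he' hee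
  obtain ⟨p, hp, rfl⟩ := Finset.mem_image.1 (Finset.mem_coe.1 he)
  obtain ⟨p', hp', rfl⟩ := Finset.mem_image.1 (Finset.mem_coe.1 he')
  rw [hmap p hp, hmap p' hp'] at hee
  rw [hee]

end TightRP
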