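import Pool.Agent.Lib.MP_7cdc3e_gt.Spec

/-!
# Small singular chains for an arbitrary open cover
-/

open HoloConj Pool.Agent.Lib.SingHom

namespace TightRP

section

variable {R : Type} [CommRing R] {X : Type} [TopologicalSpace X]

private theorem small_SS_mem {κ : Type} {W : κ → Set X} {n : ℕ} {c : SC R X n}
    (h : c ∈ ⨆ i, inU R (W i) n) : SS R n c ∈ ⨆ i, inU R (W i) n := by
  induction h using Submodule.iSup_induction' with
  | mem i x hx => exact Submodule.mem_iSup_of_mem i (SS_mem_inU hx)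
  | zero =>
    rw [map_zero]
    exact Submodule.zero_mem _
  | add x y _ _ hx hy =>
    rw [map_add]
    exact Submodule.add_mem _ hx hy

private theorem small_SS_pow_mem {κ : Type} {W : κ → Set X} {n : ℕ} {c : SC R X n}
    (h : c ∈ ⨆ i, inU R (W i) n) (k : ℕ) : ((SS R n) ^ k) c ∈ ⨆ i, inU R (W i) n := by
  induction k with
  | zero => exact h
  | succ k ih =>
    rw [SS_pow_succ]
    exact small_SS_mem ih

private theorem small_single {κ : Type} {W : κ → Set X} (hW : ∀ i, IsOpen (W i))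
    (hc : (⋃ i, W i) = Set.univ) {n : ℕ} (σ : C(Sx n, X)) :
    ∃ k : ℕ, ((SS R n) ^ k) (Finsupp.single σ 1) ∈ ⨆ i, inU R (W i) n := by
  have hcov : (Set.univ : Set (Sx n)) ⊆ ⋃ i : κ, (fun i : κ => σ ⁻¹' (W i)) i := by
    intro t _
    have ht : σ t ∈ ⋃ i, W i := by rw [hc]; trivial
    obtain ⟨i, hi⟩ := Set.mem_iUnion.1 ht
    exact Set.mem_iUnion.2 ⟨i, hi⟩
  obtain ⟨δ, hδ, hL⟩ := lebesgue_number_lemma_of_metric (isCompact_univ (X := Sx n))
    (c := fun i : κ => σ ⁻¹' (W i)) (fun i => (hW i).preimage σ.continuous) hcov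
  obtain ⟨k, hk⟩ := exists_pow_lt n hδ
  refine ⟨k, ?_⟩
  rw [← push_vx R σ, SS_pow_push]
  refine supp_map R (push R σ n) ?_
    (sdx_pow_mem R n k (vx n) zero_le_one (fun i j => dist_le_one _ _))
  intro w hw
  rw [mul_one] at hw
  rw [push_single]
  obtain ⟨b, hb⟩ := hL (w 0) (Set.mem_univ _)
  have hin : ∀ t, aff w t ∈ σ ⁻¹' (W b) := by
    intro t
    apply hb
    rw [Metric.mem_ball]
    have h0 : aff w (stdSimplex.vertex 0) = w 0 := aff_vertex w 0
    rw [← h0]
    exact (hw.dist_aff (by positivity) t _).trans_lt hk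
  exact Submodule.mem_iSup_of_mem b
    (single_mem_supp R (P := fun σ : C(Sx n, X) => ∀ t, σ t ∈ W b) (fun t => hin t) 1)

end

theorem mSmall : SmallStmt := by
  intro X _ κ W hW hc n c
  induction c using Finsupp.induction_linear with
  | zero => exact ⟨0, Submodule.zero_mem _⟩
  | add c c' h h' =>
    obtain ⟨k, hk⟩ := h
    obtain ⟨k', hk'⟩ := h'
    refine ⟨k + k', ?_⟩
    have e1 : ((SS (ZMod 2) n) ^ (k + k')) c = ((SS (ZMod 2) n) ^ k') (((SS (ZMod 2) n) ^ k) c) := by
      rw [add_comm k k', pow_add]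
      rfl
    have e2 : ((SS (ZMod 2) n) ^ (k + k')) c' =
        ((SS (ZMod 2) n) ^ k) (((SS (ZMod 2) n) ^ k') c') := by
      rw [pow_add]
      rfl
    rw [map_add, e1, e2]
    exact Submodule.add_mem _ (small_SS_pow_mem hk k') (small_SS_pow_mem hk' k)
  | single σ r =>
    obtain ⟨k, hk⟩ := small_single (R := ZMod 2) hW hc σ
    refine ⟨k, ?_⟩
    have e : Finsupp.single σ r = r • Finsupp.single σ (1 : ZMod 2) := by
      rw [Finsupp.smul_single, smul_eq_mul, mul_one]
    rw [e, map_smul]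
    exact Submodule.smul_mem _ r hk

end TightRP
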