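import Pool.Agent.Lib.MP_7cdc3e_gt.Spec

/-!
# MP_7cdc3e_gt: C4, connected stars
-/

open HoloConj Pool.Agent.Lib.SingHom

namespace TightRP

section

variable {ι : Type} [Fintype ι] [DecidableEq ι]

private lemma starConn_vertex (K : Cx ι) (v : ι) : (Pi.single v (1 : ℝ) : ι → ℝ) ∈ K.real := by
  refine ⟨fun i => ?_, Finset.sum_pi_single' v (1 : ℝ) Finset.univ |>.trans (if_pos (Finset.mem_univ v)), ?_⟩
  · rw [Pi.single_apply]
    split_ifs
    · exact zero_le_one
    · exact le_refl 0
  · have h : supp (Pi.single v (1 : ℝ) : ι → ℝ) = {v} := by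
      unfold supp
      ext i
      rw [Finset.mem_filter, Finset.mem_singleton, Pi.single_apply]
      constructor
      · rintro ⟨-, h⟩
        by_contra hne
        exact h (if_neg hne)
      · rintro rfl
        refine ⟨Finset.mem_univ _, ?_⟩
        rw [if_pos rfl]
        exact one_ne_zero
    rw [h]
    exact K.vertex_mem v

private lemma starConn_exists {S : Finset ι} {x : ι → ℝ} (h : 0 < ∑ i ∈ S, x i) : ∃ u ∈ S, 0 < x u := by
  by_contra h1
  push Not at h1
  exact absurd h (not_lt.2 (Finset.sum_nonpos h1))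

private lemma starConn_map (K : Cx ι) (S : Finset ι) (hsplit : SplitsOn K.graph 2 (↑S : Set ι)) :
    ∃ g : ↥(K.star S) → Fin 2, Continuous g ∧ Function.Surjective g := by
  obtain ⟨g, hg, hsurj⟩ := hsplit
  have hex : ∀ x : ↥(K.star S), ∃ u ∈ S, 0 < x.1.1 u := fun x => starConn_exists x.2
  choose c hcS hc using hex
  have hind : ∀ (x : ↥(K.star S)) (u w : ι), u ∈ S → w ∈ S → 0 < x.1.1 u → 0 < x.1.1 w → g u = g w := by
    intro x u w hu hw hxu hxw
    by_cases huw : u = w
    · rw [huw]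
    refine hg u hu w hw ⟨huw, K.down _ x.1.2.2.2 _ ?_ (Finset.insert_nonempty _ _)⟩
    intro i hi
    unfold supp
    rw [Finset.mem_filter]
    refine ⟨Finset.mem_univ i, ?_⟩
    rcases Finset.mem_insert.1 hi with rfl | hi
    · exact hxu.ne'
    · rw [Finset.mem_singleton.1 hi]
      exact hxw.ne'
  refine ⟨fun x => g (c x), ?_, ?_⟩
  · apply IsLocallyConstant.continuous
    rw [IsLocallyConstant.iff_exists_open]
    intro x
    refine ⟨{y | 0 < y.1.1 (c x)}, ?_, hc x, fun y hy => ?_⟩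
    · have hcont : Continuous fun y : ↥(K.star S) => y.1.1 (c x) :=
        (continuous_apply (c x)).comp (continuous_subtype_val.comp continuous_subtype_val)
      exact isOpen_lt continuous_const hcont
    · exact hind y (c y) (c x) (hcS y) (hcS x) (hc y) hy
  · intro j
    obtain ⟨u, huS, hgu⟩ := hsurj j
    have hr := starConn_vertex K u
    have hu : (0 : ℝ) < (Pi.single u (1 : ℝ) : ι → ℝ) u := by
      rw [Pi.single_apply, if_pos rfl]
      exact one_pos
    have h2 : (⟨Pi.single u (1 : ℝ), hr⟩ : K.real) ∈ K.star S := by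
      show 0 < ∑ i ∈ S, (Pi.single u (1 : ℝ) : ι → ℝ) i
      exact lt_of_lt_of_le hu (Finset.single_le_sum (f := fun i => (Pi.single u (1 : ℝ) : ι → ℝ) i)
        (fun i _ => hr.1 i) huS)
    refine ⟨⟨⟨Pi.single u (1 : ℝ), hr⟩, h2⟩, ?_⟩
    rw [← hgu]
    exact hind _ _ _ (hcS _) huS (hc _) hu

end

theorem cStarConn (h1 : H0PathStmt) (h2 : H0LowStmt) : StarConnStmt := by
  intro ι _ _ K F _ hK S hS hinj
  have hr : Module.rank F (Hq F 0 (K.star S)) ≤ 1 := by
    have h3 := LinearMap.rank_le_of_injective (Hmap F 0 (incl (K.star S))) hinj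
    rwa [h1 F K.real] at h3
  refine ⟨hr, Finset.coe_nonempty.2 hS, fun hsplit => ?_⟩
  obtain ⟨g, hg, hsurj⟩ := starConn_map K S hsplit
  have h3 := (h2 F (K.star S) 2 g hg hsurj).trans hr
  have h4 : ((2 : ℕ) : Cardinal) ≤ ((1 : ℕ) : Cardinal) := by
    rw [Nat.cast_one]
    exact h3
  rw [Nat.cast_le] at h4
  omega

end TightRP
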