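import Pool.Agent.Lib.MP_7cdc3e_gt.Spec

/-!
# MP_7cdc3e_gt: C1, open vertex stars are contractible
-/

open HoloConj Pool.Agent.Lib.SingHom

namespace TightRP

section

variable {ι : Type} [Fintype ι] [DecidableEq ι]

private lemma starContr_real (K : Cx ι) {x y : ι → ℝ} (hx : x ∈ K.real) (h0 : ∀ i, 0 ≤ y i)
    (h1 : ∑ i, y i = 1) (h2 : ∀ i, y i ≠ 0 → x i ≠ 0) : y ∈ K.real := by
  refine ⟨h0, h1, K.down _ hx.2.2 _ ?_ ?_⟩
  · intro i hi
    unfold supp at hi ⊢
    rw [Finset.mem_filter] at hi ⊢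
    exact ⟨Finset.mem_univ i, h2 i hi.2⟩
  · by_contra hne
    rw [Finset.not_nonempty_iff_eq_empty] at hne
    have h3 : ∑ i, y i = 0 := by
      apply Finset.sum_eq_zero
      intro i _
      by_contra h4
      have h5 : i ∈ supp y := by
        unfold supp
        rw [Finset.mem_filter]
        exact ⟨Finset.mem_univ i, h4⟩
      rw [hne] at h5
      exact absurd h5 (Finset.notMem_empty i)
    rw [h1] at h3
    exact one_ne_zero h3

private lemma starContr_vertex (K : Cx ι) (v : ι) : (Pi.single v (1 : ℝ) : ι → ℝ) ∈ K.real := by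
  refine ⟨fun i => ?_, Finset.sum_pi_single' v (1 : ℝ) Finset.univ |>.trans (if_pos (Finset.mem_univ v)), ?_⟩
  · rw [Pi.single_apply]
    split_ifs
    · exact zero_le_one
    · exact le_refl 0
  · have h : supp (Pi.single v (1 : ℝ) : ι → ℝ) = {v} := by
      unfold supp
      ext i
      rw [Finset.mem_filter, Finset.mem_singleton, Pi.single_apply]
      constructor
      · rintro ⟨-, h⟩
        by_contra hne
        exact h (if_neg hne)
      · rintro rfl
        refine ⟨Finset.mem_univ _, ?_⟩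
        rw [if_pos rfl]
        exact one_ne_zero
    rw [h]
    exact K.vertex_mem v

/-- the image of the star in the ambient vector space -/
private lemma starContr_image (K : Cx ι) (v : ι) :
    (Subtype.val '' (K.star {v}) : Set (ι → ℝ)) = {x | x ∈ K.real ∧ 0 < x v} := by
  ext x
  constructor
  · rintro ⟨y, hy, rfl⟩
    refine ⟨y.2, ?_⟩
    have h : 0 < ∑ i ∈ ({v} : Finset ι), y.1 i := hy
    rwa [Finset.sum_singleton] at h
  · rintro ⟨hx, hv⟩
    refine ⟨⟨x, hx⟩, ?_, rfl⟩
    show 0 < ∑ i ∈ ({v} : Finset ι), x i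
    rwa [Finset.sum_singleton]

private lemma starContr_starConvex (K : Cx ι) (v : ι) :
    StarConvex ℝ (Pi.single v (1 : ℝ) : ι → ℝ) {x | x ∈ K.real ∧ 0 < x v} := by
  rintro x ⟨hx, hv⟩ a b ha hb hab
  have hval : ∀ i, (a • (Pi.single v (1 : ℝ) : ι → ℝ) + b • x) i = a * (Pi.single v (1 : ℝ) : ι → ℝ) i + b * x i :=
    fun i => rfl
  have hs := starContr_vertex K v
  refine ⟨starContr_real K hx (fun i => ?_) ?_ (fun i hi => ?_), ?_⟩
  · rw [hval]
    exact add_nonneg (mul_nonneg ha (hs.1 i)) (mul_nonneg hb (hx.1 i))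
  · rw [Finset.sum_congr rfl fun i _ => hval i, Finset.sum_add_distrib, ← Finset.mul_sum, ← Finset.mul_sum,
      hs.2.1, hx.2.1, mul_one, mul_one, hab]
  · rw [hval] at hi
    intro h0
    rw [h0, mul_zero, add_zero] at hi
    have h1 : i ≠ v := by
      rintro rfl
      exact hv.ne' h0
    rw [Pi.single_apply, if_neg h1, mul_zero] at hi
    exact hi rfl
  · show 0 < (a • (Pi.single v (1 : ℝ) : ι → ℝ) + b • x) v
    rw [hval, Pi.single_apply, if_pos rfl, mul_one]
    rcases ha.lt_or_eq with h | h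
    · exact add_pos_of_pos_of_nonneg h (mul_nonneg hb hv.le)
    · rw [← h, zero_add] at hab
      rw [hab, one_mul]
      exact add_pos_of_nonneg_of_pos ha hv

end

theorem cStarContr : StarContrStmt := by
  intro ι _ _ K v
  have h1 : ContractibleSpace ({x | x ∈ K.real ∧ 0 < x v} : Set (ι → ℝ)) := by
    refine (starContr_starConvex K v).contractibleSpace ⟨Pi.single v (1 : ℝ), starContr_vertex K v, ?_⟩
    rw [Pi.single_apply, if_pos rfl]
    exact one_pos
  rw [← starContr_image K v] at h1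
  have e : ↥(K.star {v}) ≃ₜ ↥(Subtype.val '' (K.star {v}) : Set (ι → ℝ)) :=
    Topology.IsEmbedding.subtypeVal.homeomorphImage (K.star {v})
  exact e.contractibleSpace

end TightRP
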