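import Pool.Agent.Lib.MP_7cdc3e_gt.Spec

open HoloConj Pool.Agent.Lib.SingHom

namespace TightRP

section

variable {ι : Type} [Fintype ι] [DecidableEq ι]

/-- the normalized restriction to `S` -/
private noncomputable def starInjR (S : Finset ι) (x : ι → ℝ) : ι → ℝ :=
  fun i => if i ∈ S then x i / ∑ k ∈ S, x k else 0

private lemma starInjR_sumS {S : Finset ι} {x : ι → ℝ} (h : 0 < ∑ k ∈ S, x k) :
    ∑ i ∈ S, starInjR S x i = 1 := by
  have h1 : ∑ i ∈ S, starInjR S x i = ∑ i ∈ S, x i / ∑ k ∈ S, x k :=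
    Finset.sum_congr rfl fun i hi => if_pos hi
  rw [h1, ← Finset.sum_div]
  exact div_self h.ne'

private lemma starInjR_sum {S : Finset ι} {x : ι → ℝ} (h : 0 < ∑ k ∈ S, x k) :
    ∑ i, starInjR S x i = 1 := by
  rw [← starInjR_sumS h]
  symm
  apply Finset.sum_subset (Finset.subset_univ S)
  intro i _ hi
  exact if_neg hi

private lemma starInjR_nonneg {S : Finset ι} {x : ι → ℝ} (h : 0 < ∑ k ∈ S, x k) (hx : ∀ i, 0 ≤ x i) (i : ι) :
    0 ≤ starInjR S x i := by
  unfold starInjR
  split_ifs
  · exact div_nonneg (hx i) h.le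
  · exact le_refl 0

private lemma starInjR_supp {S : Finset ι} {x : ι → ℝ} {i : ι} (h : starInjR S x i ≠ 0) : x i ≠ 0 := by
  intro h0
  apply h
  unfold starInjR
  rw [h0, zero_div]
  split_ifs <;> rfl

private lemma starInj_real (K : Cx ι) {x y : ι → ℝ} (hx : x ∈ K.real) (h0 : ∀ i, 0 ≤ y i) (h1 : ∑ i, y i = 1)
    (h2 : ∀ i, y i ≠ 0 → x i ≠ 0) : y ∈ K.real := by
  refine ⟨h0, h1, K.down _ hx.2.2 _ ?_ ?_⟩
  · intro i hi
    unfold supp at hi ⊢
    rw [Finset.mem_filter] at hi ⊢
    exact ⟨Finset.mem_univ i, h2 i hi.2⟩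
  · by_contra hne
    rw [Finset.not_nonempty_iff_eq_empty] at hne
    have h3 : ∑ i, y i = 0 := by
      apply Finset.sum_eq_zero
      intro i _
      by_contra h4
      have h5 : i ∈ supp y := by
        unfold supp
        rw [Finset.mem_filter]
        exact ⟨Finset.mem_univ i, h4⟩
      rw [hne] at h5
      exact absurd h5 (Finset.notMem_empty i)
    rw [h1] at h3
    exact one_ne_zero h3

private lemma starInj_cont (K : Cx ι) (S : Finset ι) (i : ι) :
    Continuous fun x : ↥(K.star S) => starInjR S x.1.1 i := by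
  have hc : ∀ k : ι, Continuous fun x : ↥(K.star S) => x.1.1 k := fun k =>
    (continuous_apply k).comp (continuous_subtype_val.comp continuous_subtype_val)
  by_cases h : i ∈ S
  · have h1 : (fun x : ↥(K.star S) => starInjR S x.1.1 i) = fun x => x.1.1 i / ∑ k ∈ S, x.1.1 k := by
      ext x
      exact if_pos h
    rw [h1]
    refine Continuous.div (hc i) (continuous_finsetSum _ fun k _ => hc k) fun x => ?_
    exact (show 0 < ∑ k ∈ S, x.1.1 k from x.2).ne'
  · have h1 : (fun x : ↥(K.star S) => starInjR S x.1.1 i) = fun _ => 0 := by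
      ext x
      exact if_neg h
    rw [h1]
    exact continuous_const

end

theorem cStarInj : StarInjStmt := by
  intro ι _ _ K F _ n c hc h
  set S : Finset ι := Finset.univ.filter (fun i => 0 < c i) with hS
  set M : Set K.real := {x | 0 < ∑ i, x.1 i * c i} with hM
  have hSmem : ∀ i, i ∈ S ↔ 0 < c i := fun i => by
    rw [hS, Finset.mem_filter]
    exact ⟨fun h => h.2, fun h => ⟨Finset.mem_univ i, h⟩⟩
  have hMU : M ⊆ K.star S := by
    intro x hx
    show 0 < ∑ i ∈ S, x.1 i
    have hnn : ∀ i ∈ S, 0 ≤ x.1 i := fun i _ => x.2.1 i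
    rcases (Finset.sum_nonneg hnn).lt_or_eq with h1 | h1
    · exact h1
    · exfalso
      have h2 := (Finset.sum_eq_zero_iff_of_nonneg hnn).1 h1.symm
      have h3 : ∑ i, x.1 i * c i ≤ 0 := by
        apply Finset.sum_nonpos
        intro i _
        by_cases hi : i ∈ S
        · rw [h2 i hi, zero_mul]
        · have h4 : c i ≤ 0 := by
            by_contra h5
            exact hi ((hSmem i).2 (not_le.1 h5))
          exact mul_nonpos_of_nonneg_of_nonpos (x.2.1 i) h4
      exact absurd hx (not_lt.2 h3)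
  have hRreal : ∀ x : ↥(K.star S), starInjR S x.1.1 ∈ K.real := fun x =>
    starInj_real K x.1.2 (starInjR_nonneg x.2 x.1.2.1) (starInjR_sum x.2) fun i hi => starInjR_supp hi
  have hRM : ∀ x : ↥(K.star S), 0 < ∑ i, starInjR S x.1.1 i * c i := by
    intro x
    have hx : 0 < ∑ k ∈ S, x.1.1 k := x.2
    have h1 : ∑ i, starInjR S x.1.1 i * c i = ∑ i ∈ S, starInjR S x.1.1 i * c i := by
      symm
      apply Finset.sum_subset (Finset.subset_univ S)
      intro i _ hi
      have h2 : starInjR S x.1.1 i = 0 := if_neg hi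
      rw [h2, zero_mul]
    rw [h1]
    have hnn : ∀ i ∈ S, 0 ≤ starInjR S x.1.1 i * c i := fun i hi =>
      mul_nonneg (starInjR_nonneg hx x.1.2.1 i) ((hSmem i).1 hi).le
    rcases (Finset.sum_nonneg hnn).lt_or_eq with h3 | h3
    · exact h3
    · exfalso
      have h4 := (Finset.sum_eq_zero_iff_of_nonneg hnn).1 h3.symm
      have h5 : ∑ i ∈ S, starInjR S x.1.1 i = 0 := by
        apply Finset.sum_eq_zero
        intro i hi
        rcases mul_eq_zero.1 (h4 i hi) with h6 | h6
        · exact h6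
        · exact absurd h6 (hc i)
      rw [starInjR_sumS hx] at h5
      exact one_ne_zero h5
  let r : C(↥(K.star S), ↥M) := ⟨fun x => ⟨⟨starInjR S x.1.1, hRreal x⟩, hRM x⟩,
    Continuous.subtype_mk (Continuous.subtype_mk (continuous_pi fun i => starInj_cont K S i) _) _⟩
  let j : C(↥M, ↥(K.star S)) := ⟨fun x => ⟨x.1, hMU x.2⟩,
    Continuous.subtype_mk continuous_subtype_val _⟩
  -- the homotopy
  have hHreal : ∀ q : unitInterval × ↥(K.star S),
      (fun i => (1 - (q.1 : ℝ)) * q.2.1.1 i + (q.1 : ℝ) * starInjR S q.2.1.1 i) ∈ K.real := by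
    intro q
    have ht0 : 0 ≤ (q.1 : ℝ) := q.1.2.1
    have ht1 : 0 ≤ 1 - (q.1 : ℝ) := sub_nonneg.2 q.1.2.2
    refine starInj_real K q.2.1.2 (fun i => ?_) ?_ fun i hi h0 => ?_
    · exact add_nonneg (mul_nonneg ht1 (q.2.1.2.1 i)) (mul_nonneg ht0 (starInjR_nonneg q.2.2 q.2.1.2.1 i))
    · rw [Finset.sum_add_distrib, ← Finset.mul_sum, ← Finset.mul_sum, starInjR_sum q.2.2, q.2.1.2.2.1]
      ring
    · apply hi
      have h1 : starInjR S q.2.1.1 i = 0 := by
        by_contra h2
        exact starInjR_supp h2 h0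
      show (1 - (q.1 : ℝ)) * q.2.1.1 i + (q.1 : ℝ) * starInjR S q.2.1.1 i = 0
      rw [h0, h1, mul_zero, mul_zero, add_zero]
  have hHU : ∀ q : unitInterval × ↥(K.star S),
      0 < ∑ i ∈ S, ((1 - (q.1 : ℝ)) * q.2.1.1 i + (q.1 : ℝ) * starInjR S q.2.1.1 i) := by
    intro q
    have hx : 0 < ∑ k ∈ S, q.2.1.1 k := q.2.2
    have ht0 : 0 ≤ (q.1 : ℝ) := q.1.2.1
    have ht1 : 0 ≤ 1 - (q.1 : ℝ) := sub_nonneg.2 q.1.2.2
    rw [Finset.sum_add_distrib, ← Finset.mul_sum, ← Finset.mul_sum, starInjR_sumS hx]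
    rcases ht0.lt_or_eq with h1 | h1
    · have h2 := mul_nonneg ht1 hx.le
      linarith
    · rw [← h1]
      linarith
  have hH : ContinuousMap.Homotopic (ContinuousMap.id ↥(K.star S)) (j.comp r) := by
    refine ⟨{ toFun := fun q => ⟨⟨fun i => (1 - (q.1 : ℝ)) * q.2.1.1 i + (q.1 : ℝ) * starInjR S q.2.1.1 i,
              hHreal q⟩, hHU q⟩
              continuous_toFun := ?_
              map_zero_left := ?_
              map_one_left := ?_ }⟩
    · refine Continuous.subtype_mk (Continuous.subtype_mk (continuous_pi fun i => ?_) _) _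
      have c1 : Continuous fun q : unitInterval × ↥(K.star S) => (q.1 : ℝ) :=
        continuous_subtype_val.comp continuous_fst
      have c2 : Continuous fun q : unitInterval × ↥(K.star S) => q.2.1.1 i :=
        ((continuous_apply i).comp (continuous_subtype_val.comp continuous_subtype_val)).comp continuous_snd
      have c3 : Continuous fun q : unitInterval × ↥(K.star S) => starInjR S q.2.1.1 i :=
        (starInj_cont K S i).comp continuous_snd
      exact ((continuous_const.sub c1).mul c2).add (c1.mul c3)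
    · intro x
      apply Subtype.ext
      apply Subtype.ext
      funext i
      show (1 - ((0 : unitInterval) : ℝ)) * x.1.1 i + ((0 : unitInterval) : ℝ) * starInjR S x.1.1 i = x.1.1 i
      rw [Set.Icc.coe_zero]
      ring
    · intro x
      apply Subtype.ext
      apply Subtype.ext
      funext i
      show (1 - ((1 : unitInterval) : ℝ)) * x.1.1 i + ((1 : unitInterval) : ℝ) * starInjR S x.1.1 i =
        starInjR S x.1.1 i
      rw [Set.Icc.coe_one]
      ring
  have e1 : ∀ a, Hmap F n j (Hmap F n r a) = a := by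
    intro a
    rw [← Hmap_comp_apply, ← Hmap_eq_of_homotopic F n hH, Hmap_id]
    rfl
  have e2 : ∀ y, Hmap F n (incl (K.star S)) (Hmap F n j y) = Hmap F n (incl M) y := by
    intro y
    rw [← Hmap_comp_apply]
    rfl
  intro a b hab
  rw [← e1 a, ← e1 b, e2, e2] at hab
  rw [← e1 a, ← e1 b, h hab]

end TightRP
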