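import Pool.Agent.Lib.MP_7cdc3e_gt.Spec

/-!
# MP_7cdc3e_gt: homology of punctured Euclidean space, suspension (module Susp, helper50)
-/

open HoloConj Pool.Agent.Lib.SingHom

namespace TightRP

/-! ### The Mayer-Vietoris part -/

theorem susp_gen (h1 : ContrStmt) (F : Type) [Field F] (X : Type) [TopologicalSpace X] (A B : Set X)
    (hA : IsOpen A) (hB : IsOpen B) (hAB : A ∪ B = Set.univ) (cA : ContractibleSpace A)
    (cB : ContractibleSpace B) (k : ℕ) :
    Nonempty (Hq F (k + 2) X ≃ₗ[F] Hq F (k + 1) ↥(A ∩ B)) := by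
  obtain ⟨e⟩ := exists_mvConn (K := F) hA hB hAB (k + 1)
  have sA1 : Subsingleton (Hq F (k + 1) A) := h1 F A k
  have sB1 : Subsingleton (Hq F (k + 1) B) := h1 F B k
  have sA2 : Subsingleton (Hq F (k + 1 + 1) A) := h1 F A (k + 1)
  have sB2 : Subsingleton (Hq F (k + 1 + 1) B) := h1 F B (k + 1)
  have r : LinearMap.range (mvβ F A B (k + 1 + 1)) = ⊥ := by
    rw [LinearMap.range_eq_bot]
    refine LinearMap.ext fun x => ?_
    rw [Subsingleton.elim x 0, map_zero, map_zero]
  have kk : LinearMap.ker (mvα F A B (k + 1)) = ⊤ := by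
    rw [LinearMap.ker_eq_top]
    exact LinearMap.ext fun x => Subsingleton.elim _ _
  exact ⟨(Submodule.quotEquivOfEqBot _ r).symm.trans (e.symm.trans (LinearEquiv.ofTop _ kk))⟩

theorem susp_gen0 (h1 : ContrStmt) (h2 : H0PathStmt) (F : Type) [Field F] (X : Type)
    [TopologicalSpace X] (A B : Set X)
    (hA : IsOpen A) (hB : IsOpen B) (hAB : A ∪ B = Set.univ) (cA : ContractibleSpace A)
    (cB : ContractibleSpace B) (hne : (A ∩ B).Nonempty)
    (hr : Module.rank F (Hq F 0 ↥(A ∩ B)) = 1) :
    Subsingleton (Hq F 1 X) := by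
  obtain ⟨e⟩ := exists_mvConn (K := F) hA hB hAB 0
  have sA1 : Subsingleton (Hq F (0 + 1) A) := h1 F A 0
  have sB1 : Subsingleton (Hq F (0 + 1) B) := h1 F B 0
  have r : LinearMap.range (mvβ F A B (0 + 1)) = ⊥ := by
    rw [LinearMap.range_eq_bot]
    refine LinearMap.ext fun x => ?_
    rw [Subsingleton.elim x 0, map_zero, map_zero]
  have hne0 : Hmap F 0 (jL A B) ≠ 0 := by
    intro h0
    obtain ⟨x, hx⟩ := hne
    let pt : C(Unit, ↥(A ∩ B)) := ContinuousMap.const Unit ⟨x, hx⟩
    let toPt : C(A, Unit) := ContinuousMap.const A ()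
    have hc : (toPt.comp (jL A B)).comp pt = ContinuousMap.id Unit := rfl
    have h3 : Hmap F 0 ((toPt.comp (jL A B)).comp pt) = LinearMap.id := by
      rw [hc, Hmap_id]
    rw [Hmap_comp, Hmap_comp, h0, LinearMap.comp_zero, LinearMap.zero_comp] at h3
    have hU : PathConnectedSpace Unit := inferInstance
    have h4 := h2 F Unit
    have hN : Nontrivial (Hq F 0 Unit) := by
      rw [← rank_pos_iff_nontrivial (R := F), h4]
      exact zero_lt_one
    obtain ⟨a, ha⟩ := exists_ne (0 : Hq F 0 Unit)
    apply ha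
    have h5 := LinearMap.congr_fun h3 a
    rw [LinearMap.zero_apply, LinearMap.id_apply] at h5
    exact h5.symm
  have hsim : IsSimpleModule F (Hq F 0 ↥(A ∩ B)) := by
    rw [isSimpleModule_iff_finrank_eq_one]
    exact Module.rank_eq_one_iff_finrank_eq_one.mp hr
  have hinj : Function.Injective (Hmap F 0 (jL A B)) :=
    (LinearMap.injective_or_eq_zero (Hmap F 0 (jL A B))).resolve_right hne0
  have kk : LinearMap.ker (mvα F A B 0) = ⊥ := by
    rw [LinearMap.ker_eq_bot']
    intro m hm
    have h3 : Hmap F 0 (jL A B) m = 0 := congrArg Prod.fst hm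
    exact hinj (h3.trans (map_zero _).symm)
  have hs : Subsingleton ↥(LinearMap.ker (mvα F A B 0)) := by
    rw [kk]
    infer_instance
  have e2 := (Submodule.quotEquivOfEqBot _ r).symm.trans e.symm
  exact e2.toEquiv.subsingleton

/-! ### The geometry -/

/-- the last coordinates -/
noncomputable def suspTail (n : ℕ) :
    EuclideanSpace ℝ (Fin (n + 1)) →L[ℝ] EuclideanSpace ℝ (Fin n) :=
  LinearMap.toContinuousLinearMap
    { toFun := fun x => WithLp.toLp 2 (fun i : Fin n => x i.succ)
      map_add' := fun _ _ => rfl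
      map_smul' := fun _ _ => rfl }

theorem suspTail_apply {n : ℕ} (x : EuclideanSpace ℝ (Fin (n + 1))) (i : Fin n) :
    suspTail n x i = x i.succ := rfl

/-- the point with given first coordinate and tail -/
noncomputable def suspCons (n : ℕ) :
    (ℝ × EuclideanSpace ℝ (Fin n)) →L[ℝ] EuclideanSpace ℝ (Fin (n + 1)) :=
  LinearMap.toContinuousLinearMap
    { toFun := fun p => WithLp.toLp 2 (Fin.cons p.1 (fun i : Fin n => p.2 i) : Fin (n + 1) → ℝ)
      map_add' := by
        intro p q
        ext i
        refine Fin.cases ?_ (fun j => ?_) i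
        · simp
        · simp
      map_smul' := by
        intro c p
        ext i
        refine Fin.cases ?_ (fun j => ?_) i
        · simp
        · simp }

theorem suspCons_zero {n : ℕ} (p : ℝ × EuclideanSpace ℝ (Fin n)) : suspCons n p 0 = p.1 := rfl

theorem suspCons_succ {n : ℕ} (p : ℝ × EuclideanSpace ℝ (Fin n)) (i : Fin n) :
    suspCons n p i.succ = p.2 i := rfl

theorem suspTail_cons {n : ℕ} (p : ℝ × EuclideanSpace ℝ (Fin n)) :
    suspTail n (suspCons n p) = p.2 := by
  ext i
  rw [suspTail_apply, suspCons_succ]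

theorem suspCons_tail {n : ℕ} (x : EuclideanSpace ℝ (Fin (n + 1))) :
    suspCons n (x 0, suspTail n x) = x := by
  ext i
  refine Fin.cases ?_ (fun j => ?_) i
  · rw [suspCons_zero]
  · rw [suspCons_succ, suspTail_apply]

theorem susp_ne_zero {n : ℕ} {x : EuclideanSpace ℝ (Fin (n + 1))}
    (h : suspTail n x ≠ 0 ∨ x 0 ≠ 0) : x ≠ 0 := by
  rintro rfl
  rcases h with h | h
  · exact h (map_zero _)
  · exact h rfl

theorem susp_of_ne_zero {n : ℕ} {x : EuclideanSpace ℝ (Fin (n + 1))} (h : x ≠ 0) :
    suspTail n x ≠ 0 ∨ x 0 ≠ 0 := by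
  by_contra hcon
  rw [not_or, not_not, not_not] at hcon
  apply h
  rw [← suspCons_tail x, hcon.1, hcon.2]
  exact map_zero (suspCons n)

/-- the half with sign `s` -/
def suspHalf (n : ℕ) (s : ℝ) : Set (Pn (n + 1)) := {x | suspTail n x.1 ≠ 0 ∨ 0 < s * x.1 0}

theorem susp_cont0 {n : ℕ} : Continuous (fun x : EuclideanSpace ℝ (Fin (n + 1)) => x 0) :=
  (EuclideanSpace.proj (𝕜 := ℝ) (0 : Fin (n + 1))).continuous

theorem suspHalf_open (n : ℕ) (s : ℝ) : IsOpen (suspHalf n s) := by
  refine IsOpen.union ?_ ?_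
  · exact isOpen_ne_fun ((suspTail n).continuous.comp continuous_subtype_val) continuous_const
  · exact isOpen_lt continuous_const
      (continuous_const.mul (susp_cont0.comp continuous_subtype_val))

theorem suspHalf_union (n : ℕ) : suspHalf n 1 ∪ suspHalf n (-1) = Set.univ := by
  rw [Set.eq_univ_iff_forall]
  intro x
  rcases susp_of_ne_zero x.2 with h | h
  · exact Or.inl (Or.inl h)
  · rcases lt_or_gt_of_ne h with h | h
    · refine Or.inr (Or.inr ?_)
      linarith
    · refine Or.inl (Or.inr ?_)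
      linarith

theorem suspHalf_inter (n : ℕ) (x : Pn (n + 1)) :
    x ∈ suspHalf n 1 ∩ suspHalf n (-1) ↔ suspTail n x.1 ≠ 0 := by
  constructor
  · rintro ⟨h | h, h' | h'⟩
    · exact h
    · exact h
    · exact h'
    · linarith
  · intro h
    exact ⟨Or.inl h, Or.inl h⟩

theorem suspHalf_contr (n : ℕ) (s : ℝ) (hs : s = 1 ∨ s = -1) : ContractibleSpace (suspHalf n s) := by
  have hss : s * s = 1 := by rcases hs with h | h <;> rw [h] <;> norm_num
  have hmem : ∀ (t : ℝ) (x : suspHalf n s), 0 ≤ t → t ≤ 1 →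
      suspTail n ((1 - t) • x.1.1 + t • suspCons n (s, 0)) ≠ 0 ∨
      0 < s * ((1 - t) • x.1.1 + t • suspCons n (s, 0)) 0 := by
    intro t x h0 h1
    have e1 : suspTail n ((1 - t) • x.1.1 + t • suspCons n (s, 0)) = (1 - t) • suspTail n x.1.1 := by
      rw [map_add, map_smul, map_smul, suspTail_cons, smul_zero, add_zero]
    have e2 : s * ((1 - t) • x.1.1 + t • suspCons n (s, 0)) 0 = (1 - t) * (s * x.1.1 0) + t := by
      have : ((1 - t) • x.1.1 + t • suspCons n (s, 0)) 0 = (1 - t) * x.1.1 0 + t * s := by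
        rw [PiLp.add_apply, PiLp.smul_apply, PiLp.smul_apply, suspCons_zero]
        rfl
      rw [this]
      linear_combination t * hss
    rw [e1, e2]
    rcases eq_or_lt_of_le h1 with h | h
    · right
      rw [h]
      norm_num
    · rcases x.2 with hx | hx
      · left
        exact smul_ne_zero (by linarith) hx
      · right
        have : 0 < (1 - t) * (s * x.1.1 0) := mul_pos (by linarith) hx
        linarith
  have hne : ∀ y : EuclideanSpace ℝ (Fin (n + 1)), (suspTail n y ≠ 0 ∨ 0 < s * y 0) → y ≠ 0 := by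
    intro y hy
    apply susp_ne_zero
    rcases hy with hy | hy
    · exact Or.inl hy
    · right
      intro h
      rw [h, mul_zero] at hy
      exact lt_irrefl _ hy
  rw [contractible_iff_id_nullhomotopic]
  let pt : suspHalf n s := ⟨⟨suspCons n (s, 0), hne _ (Or.inr (by rw [suspCons_zero, hss]; exact one_pos))⟩,
    Or.inr (by rw [suspCons_zero, hss]; exact one_pos)⟩
  refine ⟨pt, ⟨?_⟩⟩
  exact
    { toFun := fun q => ⟨⟨(1 - (q.1 : ℝ)) • q.2.1.1 + (q.1 : ℝ) • suspCons n (s, 0),
          hne _ (hmem q.1 q.2 q.1.2.1 q.1.2.2)⟩, hmem q.1 q.2 q.1.2.1 q.1.2.2⟩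
      continuous_toFun := by
        refine Continuous.subtype_mk (Continuous.subtype_mk ?_ _) _
        have c1 : Continuous fun q : unitInterval × suspHalf n s => (q.1 : ℝ) :=
          continuous_subtype_val.comp continuous_fst
        have c2 : Continuous fun q : unitInterval × suspHalf n s => q.2.1.1 :=
          continuous_subtype_val.comp (continuous_subtype_val.comp continuous_snd)
        exact ((continuous_const.sub c1).smul c2).add (c1.smul continuous_const)
      map_zero_left := by
        intro x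
        apply Subtype.ext
        apply Subtype.ext
        simp
      map_one_left := by
        intro x
        apply Subtype.ext
        apply Subtype.ext
        simp [pt] }

/-- the intersection is homotopy equivalent to the punctured space of smaller dimension -/
theorem susp_inter (F : Type) [Field F] (n q : ℕ) :
    Nonempty (Hq F q ↥(suspHalf n 1 ∩ suspHalf n (-1)) ≃ₗ[F] Hq F q (Pn n)) := by
  have hx : ∀ x : ↥(suspHalf n 1 ∩ suspHalf n (-1)), suspTail n x.1.1 ≠ 0 := fun x =>
    (suspHalf_inter n x.1).1 x.2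
  have ht : ∀ (t : ℝ) (y : EuclideanSpace ℝ (Fin n)), y ≠ 0 → suspTail n (suspCons n (t, y)) ≠ 0 := by
    intro t y hy
    rw [suspTail_cons]
    exact hy
  let p : C(↥(suspHalf n 1 ∩ suspHalf n (-1)), Pn n) :=
    ⟨fun x => ⟨suspTail n x.1.1, hx x⟩, Continuous.subtype_mk
      ((suspTail n).continuous.comp (continuous_subtype_val.comp continuous_subtype_val)) _⟩
  let i : C(Pn n, ↥(suspHalf n 1 ∩ suspHalf n (-1))) :=
    ⟨fun y => ⟨⟨suspCons n (0, y.1), susp_ne_zero (Or.inl (ht 0 y.1 y.2))⟩,
      (suspHalf_inter n _).2 (ht 0 y.1 y.2)⟩, Continuous.subtype_mk (Continuous.subtype_mk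
        ((suspCons n).continuous.comp (continuous_const.prodMk continuous_subtype_val)) _) _⟩
  have hpi : p.comp i = ContinuousMap.id _ := by
    ext1 y
    apply Subtype.ext
    exact suspTail_cons _
  have hip : (i.comp p).Homotopic (ContinuousMap.id _) := by
    refine ⟨?_⟩
    exact
      { toFun := fun z => ⟨⟨suspCons n ((z.1 : ℝ) * z.2.1.1 0, suspTail n z.2.1.1),
            susp_ne_zero (Or.inl (ht _ _ (hx z.2)))⟩, (suspHalf_inter n _).2 (ht _ _ (hx z.2))⟩
        continuous_toFun := by
          refine Continuous.subtype_mk (Continuous.subtype_mk ?_ _) _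
          have c1 : Continuous fun z : unitInterval × ↥(suspHalf n 1 ∩ suspHalf n (-1)) =>
              (z.1 : ℝ) := continuous_subtype_val.comp continuous_fst
          have c2 : Continuous fun z : unitInterval × ↥(suspHalf n 1 ∩ suspHalf n (-1)) =>
              z.2.1.1 := continuous_subtype_val.comp (continuous_subtype_val.comp continuous_snd)
          exact (suspCons n).continuous.comp
            ((c1.mul (susp_cont0.comp c2)).prodMk ((suspTail n).continuous.comp c2))
        map_zero_left := by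
          intro x
          apply Subtype.ext
          apply Subtype.ext
          simp [i, p]
        map_one_left := by
          intro x
          apply Subtype.ext
          apply Subtype.ext
          simp [suspCons_tail] }
  refine ⟨LinearEquiv.ofLinearMap (Hmap F q p) (Hmap F q i) ?_ ?_⟩
  · rw [← Hmap_comp, hpi, Hmap_id]
  · rw [← Hmap_comp, Hmap_eq_of_homotopic F q hip, Hmap_id]

theorem mSusp (h1 : ContrStmt) (h2 : H0PathStmt) : SuspStmt := by
  intro F _ n
  have cA := suspHalf_contr n 1 (Or.inl rfl)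
  have cB := suspHalf_contr n (-1) (Or.inr rfl)
  constructor
  · intro k
    obtain ⟨e⟩ := susp_gen h1 F (Pn (n + 1)) (suspHalf n 1) (suspHalf n (-1)) (suspHalf_open n 1)
      (suspHalf_open n (-1)) (suspHalf_union n) cA cB k
    obtain ⟨e'⟩ := susp_inter F n (k + 1)
    exact ⟨e.trans e'⟩
  · intro hP
    obtain ⟨e'⟩ := susp_inter F n 0
    refine susp_gen0 h1 h2 F (Pn (n + 1)) (suspHalf n 1) (suspHalf n (-1)) (suspHalf_open n 1)
      (suspHalf_open n (-1)) (suspHalf_union n) cA cB ?_ ?_
    · obtain ⟨y⟩ := (inferInstance : Nonempty (Pn n))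
      have h3 : suspTail n (suspCons n (0, y.1)) ≠ 0 := by
        rw [suspTail_cons]
        exact y.2
      exact ⟨⟨suspCons n (0, y.1), susp_ne_zero (Or.inl h3)⟩, (suspHalf_inter n _).2 h3⟩
    · rw [e'.rank_eq]
      exact h2 F (Pn n)

end TightRP
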