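import Pool.Agent.Lib.MP_7cdc3e_gt.Spec

/-!
# MP_7cdc3e_gt: C5, the main inequality at a vertex
-/

open HoloConj Pool.Agent.Lib.SingHom

namespace TightRP

variable {ι : Type} [Fintype ι] [DecidableEq ι]

theorem vertex_isOpen (K : Cx ι) (S : Finset ι) : IsOpen (K.star S) := by
  have : Continuous (fun x : K.real => ∑ i ∈ S, x.1 i) := by fun_prop
  exact isOpen_lt continuous_const this

theorem vertex_union (K : Cx ι) (v : ι) (S : Finset ι) (hv : v ∉ S) :
    K.star {v} ∪ K.star S = K.star (insert v S) := by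
  ext x
  simp only [Cx.star, Set.mem_union, Set.mem_setOf_eq, Finset.sum_singleton,
    Finset.sum_insert hv]
  have h1 : 0 ≤ x.1 v := x.2.1 v
  have h2 : 0 ≤ ∑ i ∈ S, x.1 i := Finset.sum_nonneg (fun i _ => x.2.1 i)
  constructor
  · rintro (h | h) <;> linarith
  · intro h
    by_contra hc
    push Not at hc
    linarith [hc.1, hc.2]

theorem cVertex (h1 : MVKeyStmt) (h2 : StarContrStmt) (h3 : SplitStarStmt) (h4 : StarConnStmt) :
    VertexStmt := by
  intro ι _ _ K F _ hP hr v S hv hS i0 i1 i2 k hk hsp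
  obtain ⟨g, hg, hg'⟩ := h3 ι K v S hv k hk hsp
  have hu := vertex_union K v S hv
  have := h1 F K.real (K.star {v}) (K.star S) (vertex_isOpen K _) (vertex_isOpen K _)
    (h2 ι K v) (h4 ι K F hP S hS i0).1 hr i1 (by rw [hu]; exact i2) k g hk hg hg'
  rw [hu] at this
  exact this

end TightRP
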