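import Mathlib

/-!
# MP_7cdc3e_gt: definitions used in the statement of the theorem

* `RP3`: the unit sphere of `ℝ⁴` modulo `x ~ -x`, with the quotient topology.
* `SHmap F n g`: the map induced by `g` on Mathlib's singular homology with coefficients in `F`.
* `LocInj`, `Substantial`, `TightUpTo`: topological immersions, substantial maps, tight maps.
* `Cx`, `Cx.real`, `Polyhedral`: triangulations and simplexwise linear maps.
-/

open CategoryTheory AlgebraicTopology

namespace TightRP

/-! ## Real projective three-space -/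

theorem antipodal_equiv : Equivalence
    (fun x y : Metric.sphere (0 : EuclideanSpace ℝ (Fin 4)) 1 =>
      (x : EuclideanSpace ℝ (Fin 4)) = y ∨ (x : EuclideanSpace ℝ (Fin 4)) = -y) := by
  refine ⟨fun x => Or.inl rfl, ?_, ?_⟩
  · rintro x y (h | h)
    · exact Or.inl h.symm
    · exact Or.inr (by rw [h, neg_neg])
  · rintro x y z (h | h) (h' | h')
    · exact Or.inl (h.trans h')
    · exact Or.inr (h.trans h')
    · exact Or.inr (by rw [h, h'])
    · exact Or.inl (by rw [h, h', neg_neg])

/-- antipodal points of the unit sphere of `ℝ⁴` are identified -/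
def antipodal : Setoid (Metric.sphere (0 : EuclideanSpace ℝ (Fin 4)) 1) where
  r x y := (x : EuclideanSpace ℝ (Fin 4)) = y ∨ (x : EuclideanSpace ℝ (Fin 4)) = -y
  iseqv := antipodal_equiv

/-- real projective three-space -/
def RP3 : Type := Quotient antipodal

/-- with the quotient topology -/
instance : TopologicalSpace RP3 := inferInstanceAs (TopologicalSpace (Quotient antipodal))

/-! ## Immersions, substantial maps, tight maps -/

/-- `f` is locally injective: every point has a neighbourhood on which `f` is injective -/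
def LocInj {X Y : Type} [TopologicalSpace X] (f : X → Y) : Prop :=
  ∀ x : X, ∃ U ∈ nhds x, Set.InjOn f U

/-- the image of `f` lies in no affine hyperplane `{l = c}`, `l ≠ 0` -/
def Substantial {M : Type} {N : ℕ} (f : M → EuclideanSpace ℝ (Fin N)) : Prop :=
  ∀ (l : EuclideanSpace ℝ (Fin N) →ₗ[ℝ] ℝ) (c : ℝ), (∀ x, l (f x) = c) → l = 0

/-- singular homology `H_n(X; F)` (Mathlib's functor) -/
noncomputable abbrev SH (F : Type) [Field F] (n : ℕ) (X : Type) [TopologicalSpace X] :
    ModuleCat.{0} F :=
  ((singularHomologyFunctor (ModuleCat.{0} F) n).obj (ModuleCat.of F F)).obj (TopCat.of X)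

/-- the map `H_n(X; F) → H_n(Y; F)` induced by a continuous map -/
noncomputable def SHmap (F : Type) [Field F] (n : ℕ) {X Y : Type} [TopologicalSpace X]
    [TopologicalSpace Y] (g : C(X, Y)) : SH F n X →ₗ[F] SH F n Y :=
  (((singularHomologyFunctor (ModuleCat.{0} F) n).obj (ModuleCat.of F F)).map
    (TopCat.ofHom g)).hom

/-- the inclusion of the preimage of the open half-space `{l > c}` -/
def halfIncl {M : Type} [TopologicalSpace M] {N : ℕ} (f : M → EuclideanSpace ℝ (Fin N))
    (l : EuclideanSpace ℝ (Fin N) →ₗ[ℝ] ℝ) (c : ℝ) : C({x : M // c < l (f x)}, M) :=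
  ⟨Subtype.val, continuous_subtype_val⟩

/-- `f` is tight in the degrees at most `k`: for every open half-space `{l > c}`, `l ≠ 0`, the map
`H_n(f⁻¹{l > c}; F) → H_n(M; F)` is injective for all `n ≤ k` -/
def TightUpTo (k : ℕ) (F : Type) [Field F] {M : Type} [TopologicalSpace M] {N : ℕ}
    (f : M → EuclideanSpace ℝ (Fin N)) : Prop :=
  ∀ (l : EuclideanSpace ℝ (Fin N) →ₗ[ℝ] ℝ) (c : ℝ), l ≠ 0 → ∀ n ≤ k,
    Function.Injective (SHmap F n (halfIncl f l c))

/-! ## Simplicial complexes and polyhedral maps -/

/-- a finite simplicial complex with vertex set `ι`, of dimension at most three -/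
structure Cx (ι : Type) where
  faces : Set (Finset ι)
  vertex_mem : ∀ i, {i} ∈ faces
  nonempty_of_mem : ∀ s ∈ faces, s.Nonempty
  down : ∀ s ∈ faces, ∀ t, t ⊆ s → t.Nonempty → t ∈ faces
  card_le : ∀ s ∈ faces, s.card ≤ 4

variable {ι : Type} [Fintype ι]

/-- the support of a point -/
noncomputable def supp (x : ι → ℝ) : Finset ι := Finset.univ.filter (fun i => x i ≠ 0)

/-- the geometric realization, in barycentric coordinates -/
def Cx.real (K : Cx ι) : Set (ι → ℝ) := {x | (∀ i, 0 ≤ x i) ∧ ∑ i, x i = 1 ∧ supp x ∈ K.faces}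

/-- `f` is simplexwise linear on some triangulation `K.real ≃ₜ M` of `M` by a finite simplicial
complex `K` of dimension at most three -/
def Polyhedral {M : Type} [TopologicalSpace M] {N : ℕ} (f : M → EuclideanSpace ℝ (Fin N)) : Prop :=
  ∃ (m : ℕ) (K : Cx (Fin m)) (h : K.real ≃ₜ M) (p : Fin m → EuclideanSpace ℝ (Fin N)),
    ∀ x : K.real, f (h x) = ∑ i, x.1 i • p i

end TightRP
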