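import Pool.Agent.Lib.MP_7cdc3e_gt.Spec

/-!
# MP_7cdc3e_gt: from complexes to maps on a space

The transfer of the theorem for complexes.
-/

open HoloConj Pool.Agent.Lib.SingHom

namespace TightRP

theorem fin_locEuc {X Y : Type} [TopologicalSpace X] [TopologicalSpace Y] (h : X ≃ₜ Y)
    (hY : LocEuc3 Y) : LocEuc3 X := by
  intro x
  obtain ⟨U, hU, hx, ⟨e⟩⟩ := hY (h x)
  refine ⟨h ⁻¹' U, hU.preimage h.continuous, hx, ⟨?_⟩⟩
  exact (h.sets rfl).trans e

theorem fin_pathConn {X Y : Type} [TopologicalSpace X] [TopologicalSpace Y] (h : X ≃ₜ Y)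
    (hY : PathConnectedSpace Y) : PathConnectedSpace X := by
  exact h.symm.surjective.pathConnectedSpace h.symm.continuous

theorem fin_locInj {X Y Z : Type} [TopologicalSpace X] [TopologicalSpace Y]
    [TopologicalSpace Z] (h : X ≃ₜ Y) (f : Y → Z) (hf : LocInj f) : LocInj (f ∘ h) := by
  intro x
  obtain ⟨U, hU, hi⟩ := hf (h x)
  refine ⟨h ⁻¹' U, h.continuous.continuousAt.preimage_mem_nhds hU, ?_⟩
  intro a ha b hb hab
  exact h.injective (hi ha hb hab)

theorem fin_rank (hH : HomeoStmt) (F : Type) [Field F] {X Y : Type} [TopologicalSpace X]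
    [TopologicalSpace Y] (h : X ≃ₜ Y) (n : ℕ) :
    Module.rank F (Hq F n X) = Module.rank F (Hq F n Y) :=
  (LinearEquiv.ofBijective (Hmap F n (h : C(X, Y))) (hH F X Y h n)).rank_eq

/-- injectivity for a set, transferred by a homeomorphism -/
theorem fin_HInj (hH : HomeoStmt) (F : Type) [Field F] {X Y : Type} [TopologicalSpace X]
    [TopologicalSpace Y] (h : X ≃ₜ Y) (A : Set Y) (n : ℕ) (hA : HInj F A n) :
    HInj F (h ⁻¹' A) n := by
  let e : (h ⁻¹' A) ≃ₜ A := h.sets rfl
  have h1 : (incl A).comp (e : C(↥(h ⁻¹' A), ↥A)) = (h : C(X, Y)).comp (incl (h ⁻¹' A)) := by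
    ext x
    rfl
  unfold HInj at *
  have h2 : Function.Injective (Hmap F n ((incl A).comp (e : C(↥(h ⁻¹' A), ↥A)))) := by
    rw [Hmap_comp]
    exact hA.comp (hH F _ _ e n).1
  rw [h1, Hmap_comp] at h2
  exact Function.Injective.of_comp h2

/-- the theorem for a space `M` -/
theorem fin_main (hM : MainStmt) (hH : HomeoStmt) (M : Type) [TopologicalSpace M]
    (hE : LocEuc3 M) (hP : PathConnectedSpace M) (F : Type) [Field F]
    (hr : Module.rank F (Hq F 1 M) ≤ 1) (N : ℕ) (hN : 9 ≤ N) (f : M → EuclideanSpace ℝ (Fin N))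
    (hi : LocInj f) (hpol : Polyhedral f) (hs : Substantial f) (ht : TightUpTo 1 F f) : False := by
  obtain ⟨m, K, h, p, hf⟩ := hpol
  have hg : plMap K p = f ∘ h := by
    funext x
    exact (hf x).symm
  obtain ⟨l, c, hl, n, hn, hc⟩ := hM (Fin m) K (fin_locEuc h hE) (fin_pathConn h hP) F
    ((fin_rank hH F h 1).trans_le hr) N hN p (by rw [hg]; exact fin_locInj h f hi) (by
      intro l c hc
      apply hs l c
      intro y
      obtain ⟨x, rfl⟩ := h.surjective y
      rw [hf x, map_sum]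
      simp only [map_smul, hc, smul_eq_mul]
      rw [← Finset.sum_mul, x.2.2.1, one_mul])
  apply hc
  have := fin_HInj hH F h {y | c < l (f y)} n (ht l c hl n hn)
  rw [hg]
  exact this

/-- the final theorem -/
def FinalStmt : Prop := ∀ (F : Type) [Field F] (N : ℕ), 9 ≤ N →
  ¬ ∃ f : RP3 → EuclideanSpace ℝ (Fin N),
    LocInj f ∧ Polyhedral f ∧ Substantial f ∧ TightUpTo 1 F f

theorem fin_final (hM : MainStmt) (hH : HomeoStmt) (hT : RPTopStmt) (hR : RPHomStmt) :
    FinalStmt := by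
  rintro F _ N hN ⟨f, hi, hp, hs, ht⟩
  exact fin_main hM hH RP3 hT.2.1 hT.2.2 F (hR F) N hN f hi hp hs ht

end TightRP
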