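import Pool.Agent.Lib.SingHom.MVExact
import Pool.Agent.Lib.MP_7cdc3e_gt.Defs

/-!
# MP_7cdc3e_gt: no polyhedral immersion `RP^3 → E^N`, `N ≥ 9`, is tight and substantial

Definitions and the statements of all parts.  Paper proof: note [PLAN] of helper56 on the problem.
All homology is Mathlib's singular homology (`Hq F n X`, `Hmap F n f` of `HoloConj`).
-/

open HoloConj Pool.Agent.Lib.SingHom

namespace TightRP

/-! ## Homology language -/

/-- `H_n(A; F) → H_n(X; F)` is injective -/
def HInj (F : Type) [Field F] {X : Type} [TopologicalSpace X] (A : Set X) (n : ℕ) : Prop :=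
  Function.Injective (Hmap F n (incl A))

/-- locally Euclidean of dimension three -/
def LocEuc3 (M : Type) [TopologicalSpace M] : Prop :=
  ∀ x : M, ∃ U : Set M, IsOpen U ∧ x ∈ U ∧ Nonempty (U ≃ₜ EuclideanSpace ℝ (Fin 3))

/-! ## Graphs -/

/-- the part `S` of the graph `G` has at least `k` components -/
def SplitsOn {V : Type} (G : SimpleGraph V) (k : ℕ) (S : Set V) : Prop :=
  ∃ g : V → Fin k, (∀ u ∈ S, ∀ w ∈ S, G.Adj u w → g u = g w) ∧ ∀ j, ∃ u ∈ S, g u = j

/-- `B` is nonempty and connected in `G` -/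
def ConnOn {V : Type} (G : SimpleGraph V) (B : Set V) : Prop :=
  B.Nonempty ∧ ¬ SplitsOn G 2 B

/-- some vertex of `A` is adjacent to some vertex of `B` -/
def Touch {V : Type} (G : SimpleGraph V) (A B : Set V) : Prop :=
  ∃ u ∈ A, ∃ w ∈ B, G.Adj u w

/-- `n ≥ 3` disjoint connected sets of vertices have at most `3n - 6` adjacent pairs -/
def Planarish {V : Type} (G : SimpleGraph V) : Prop :=
  ∀ (κ : Type) [Fintype κ] [DecidableEq κ], 3 ≤ Fintype.card κ → ∀ B : κ → Set V,
    (∀ i, ConnOn G (B i)) → (∀ i j, i ≠ j → Disjoint (B i) (B j)) →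
    ∀ P : Finset (Sym2 κ), (∀ i j, s(i, j) ∈ P → i ≠ j ∧ Touch G (B i) (B j)) →
      P.card ≤ 3 * Fintype.card κ - 6

/-! ## Complexes -/

variable {ι : Type} [Fintype ι] [DecidableEq ι]

/-- the simplexwise linear map with the values `p i` at the vertices -/
noncomputable def plMap (K : Cx ι) {N : ℕ} (p : ι → EuclideanSpace ℝ (Fin N)) :
    K.real → EuclideanSpace ℝ (Fin N) := fun x => ∑ i, x.1 i • p i

/-- the union of the open stars of the vertices in `S` -/
def Cx.star (K : Cx ι) (S : Finset ι) : Set K.real := {x | 0 < ∑ i ∈ S, x.1 i}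

omit [Fintype ι] in
/-- the one skeleton -/
def Cx.graph (K : Cx ι) : SimpleGraph ι where
  Adj a b := a ≠ b ∧ ({a, b} : Finset ι) ∈ K.faces
  symm := ⟨fun a b h => ⟨h.1.symm, by rw [Finset.pair_comm]; exact h.2⟩⟩
  loopless := ⟨fun _ h => h.1 rfl⟩

omit [Fintype ι] in
/-- the neighbours of `v` -/
def Cx.lk (K : Cx ι) (v : ι) : Set ι := {a | a ≠ v ∧ ({v, a} : Finset ι) ∈ K.faces}

omit [Fintype ι] in
/-- the one skeleton of the link of `v` -/
def Cx.link (K : Cx ι) (v : ι) : SimpleGraph ι where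
  Adj a b := a ≠ b ∧ a ≠ v ∧ b ≠ v ∧ ({v, a, b} : Finset ι) ∈ K.faces
  symm := ⟨fun a b h => ⟨h.1.symm, h.2.2.1, h.2.1, by rw [Finset.pair_comm]; exact h.2.2.2⟩⟩
  loopless := ⟨fun _ h => h.1 rfl⟩

/-! ## T: general homology -/

/-- T1.  Homotopy invariance (`Hmap_eq_of_homotopic`, `Hmap_comp`, `Hmap_id` in
`MP_ed311f_ag/Hlem.lean`): the identity is homotopic to a map through a point; `H_{n+1}` of a point
is `0` (Mathlib has it for the singular homology of a totally disconnected / one point space; or: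
for a one point space the chain groups are `F` with boundary `0` or an isomorphism, `SC` and `sbd`
of `SingHom/SC.lean`). -/
def ContrStmt : Prop := ∀ (F : Type) [Field F] (X : Type) [TopologicalSpace X]
  [ContractibleSpace X] (n : ℕ), Subsingleton (Hq F (n + 1) X)

/-- T2.  Mathlib `SingularHomology/HomologyZero.lean`, or by hand: `Hq F 0 X` is the quotient of
`Zc F X 0 = ⊤` by boundaries (`cls_surjective`, `cls_eq_zero`), two points differ by the boundary
of a path, and the augmentation (sum of the coefficients) is zero on boundaries. -/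
def H0PathStmt : Prop := ∀ (F : Type) [Field F] (X : Type) [TopologicalSpace X]
  [PathConnectedSpace X], Module.rank F (Hq F 0 X) = 1

/-- T3.  For `j : Fin k` let `ε_j : SC F X 0 → F` be the sum of the coefficients of the
`0`-simplices in the fibre `g = j`; it vanishes on boundaries because `g` is constant on the
connected space `Sx 1`; so `(ε_j)_j` descends to a surjection `H_0(X) → F^k`.  (Or: the map
`Hmap F 0 g` to the discrete space `Fin k` has the section induced by any `Fin k → X`.) -/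
def H0LowStmt : Prop := ∀ (F : Type) [Field F] (X : Type) [TopologicalSpace X] (k : ℕ)
  (g : X → Fin k), Continuous g → Function.Surjective g → (k : Cardinal) ≤ Module.rank F (Hq F 0 X)

/-- T4: the Mayer-Vietoris inequality.  Uses ContrStmt, H0PathStmt, H0LowStmt.
Work in the space `X = ↥(A ∪ B)` with the open sets `A', B'` (preimages of `A`, `B`; homeomorphic to
`A`, `B`).  `exists_mvConn` for `n = 0`: `ker (mvα 0) ≃ H_1(X) / range (mvβ 1)`.
`H_1(A') = 0`, so `range (mvβ 1)` is the range of `H_1(B') → H_1(X)`, which is injective since the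
composite with `H_1(X) → H_1(Z)` is; hence `finrank H_1(X) = finrank H_1(B) + rank ker (mvα 0)` (all
finite, because `H_1(X)` embeds in `H_1(Z)`).  `range (mvα 0) = ker (mvβ 0)` is a proper subspace of
`H_0(A') × H_0(B')` (`mvβ 0` is onto `H_0(X) ≠ 0`), which has rank at most `1 + 1`; so it has rank at
most `1`, and `k ≤ rank H_0(A ∩ B) ≤ rank ker (mvα 0) + 1`. -/
def MVKeyStmt : Prop := ∀ (F : Type) [Field F] (Z : Type) [TopologicalSpace Z] (A B : Set Z),
  IsOpen A → IsOpen B → ContractibleSpace A → Module.rank F (Hq F 0 B) ≤ 1 →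
  Module.rank F (Hq F 1 Z) ≤ 1 → HInj F B 1 → HInj F (A ∪ B) 1 →
  ∀ (k : ℕ) (g : ↥(A ∩ B) → Fin k), 1 ≤ k → Continuous g → Function.Surjective g →
    k + Module.finrank F (Hq F 1 B) ≤ Module.finrank F (Hq F 1 ↥(A ∪ B)) + 1

/-- T5.  The composite `H_1(A) → H_1(B) → H_1(Z)` is injective, everything embeds in `H_1(Z)`. -/
def MonoStmt : Prop := ∀ (F : Type) [Field F] (Z : Type) [TopologicalSpace Z] (A B : Set Z),
  A ⊆ B → Module.rank F (Hq F 1 Z) ≤ 1 → HInj F A 1 → HInj F B 1 →
  Module.finrank F (Hq F 1 A) ≤ Module.finrank F (Hq F 1 B) ∧ Module.finrank F (Hq F 1 B) ≤ 1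

/-- T6.  Uses ContrStmt, H0PathStmt.  `exists_mvConn` for `n = 0`:
`H_1(Z) / range (mvβ 1) ≃ ker (mvα 0)`; `rank (range (mvβ 1)) ≤ rank H_1(A)` since `H_1(B) = 0`;
`mvα 0` is not zero (a point of `A ∩ B` has nonzero class in `H_0(A)`), so
`rank (ker (mvα 0)) ≤ k`. -/
def MVUpStmt : Prop := ∀ (F : Type) [Field F] (Z : Type) [TopologicalSpace Z] (A B : Set Z),
  IsOpen A → IsOpen B → A ∪ B = Set.univ → PathConnectedSpace A → ContractibleSpace B →
  ∀ k : ℕ, Module.rank F (Hq F 0 ↥(A ∩ B)) ≤ ((k + 1 : ℕ) : Cardinal) → (A ∩ B).Nonempty →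
    Module.rank F (Hq F 1 Z) ≤ Module.rank F (Hq F 1 A) + (k : Cardinal)

/-- T7: a homeomorphism induces an isomorphism (functoriality) -/
def HomeoStmt : Prop := ∀ (F : Type) [Field F] (X Y : Type) [TopologicalSpace X]
  [TopologicalSpace Y] (h : X ≃ₜ Y) (n : ℕ), Function.Bijective (Hmap F n (h : C(X, Y)))

/-! ## C: complexes -/

/-- C1.  `K.star {v} = {x_v > 0}`; the homotopy `(1-t) x + t e_v` stays in it: its support is
`supp x` for `t < 1` (and `{v}` for `t = 1`). -/
def StarContrStmt : Prop := ∀ (ι : Type) [Fintype ι] [DecidableEq ι] (K : Cx ι) (v : ι),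
  ContractibleSpace ↥(K.star {v})

/-- C2: a half-space preimage and the star of its vertices.
Let `S = {c > 0}`, `M = {x | 0 < ∑ x_i c_i} ⊆ U = K.star S`.  For `x ∈ U` let `r x` be the
normalized restriction of `x` to `S` (`x_i / ∑_S x` for `i ∈ S`, `0` otherwise); `r x ∈ K.real`
(`supp (r x) ⊆ supp x`, nonempty), `r x ∈ M`.  The homotopy `(1-t) x + t (r x)` stays in `U`, so
`U → M → U` is homotopic to the identity.  If `a ∈ H_n(U)` goes to `0` in `H_n(K.real)` then
`a = i_* (r_* a)`, `r_* a ∈ H_n(M)` goes to `0` in `H_n(K.real)`, so `r_* a = 0`, so `a = 0`.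
(If `S = ∅` both sets are empty.) -/
def StarInjStmt : Prop := ∀ (ι : Type) [Fintype ι] [DecidableEq ι] (K : Cx ι)
  (F : Type) [Field F] (n : ℕ) (c : ι → ℝ), (∀ i, c i ≠ 0) →
  HInj F {x : K.real | 0 < ∑ i, x.1 i * c i} n →
  HInj F (K.star (Finset.univ.filter (fun i => 0 < c i))) n

/-- C3: components of the link and of the intersection of stars.  Let `g` be the colouring.
For `x` with `x_v > 0`, `∑_S x > 0` there is `u ∈ S` with `x_u > 0`; `{v, u} ⊆ supp x` so `u ∈ lk v`.
Two such `u, u'` are adjacent in the link (`{v, u, u'} ⊆ supp x`), so `g u` does not depend on `u`;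
call it `g' x`.  `g'` is locally constant: near `x` the coordinate `x_u` stays positive.
Surjective: take `(e_v + e_u) / 2`. -/
def SplitStarStmt : Prop := ∀ (ι : Type) [Fintype ι] [DecidableEq ι] (K : Cx ι) (v : ι)
  (S : Finset ι), v ∉ S → ∀ k : ℕ, 1 ≤ k → SplitsOn (K.link v) k (K.lk v ∩ ↑S) →
  ∃ g : ↥(K.star {v} ∩ K.star S) → Fin k, Continuous g ∧ Function.Surjective g

/-- C4.  Uses H0PathStmt, H0LowStmt.  The first part is clear.  If `S` splits in two parts by a
colouring `g` of `K.graph` then `x ↦ g u` (any `u ∈ S` with `x_u > 0`) is a continuous surjection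
`K.star S → Fin 2`, so `rank H_0(K.star S) ≥ 2`. -/
def StarConnStmt : Prop := ∀ (ι : Type) [Fintype ι] [DecidableEq ι] (K : Cx ι)
  (F : Type) [Field F], PathConnectedSpace K.real → ∀ S : Finset ι, S.Nonempty →
  HInj F (K.star S) 0 → Module.rank F (Hq F 0 (K.star S)) ≤ 1 ∧ ConnOn K.graph (↑S : Set ι)

/-- C5: the main inequality at a vertex.  Uses MVKeyStmt, StarContrStmt, SplitStarStmt,
StarConnStmt.  `K.star (insert v S) = K.star {v} ∪ K.star S` (coordinates are `≥ 0`), MVKeyStmt
with `Z = K.real`, `A = K.star {v}`, `B = K.star S`. -/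
def VertexStmt : Prop := ∀ (ι : Type) [Fintype ι] [DecidableEq ι] (K : Cx ι)
  (F : Type) [Field F], PathConnectedSpace K.real → Module.rank F (Hq F 1 K.real) ≤ 1 →
  ∀ (v : ι) (S : Finset ι), v ∉ S → S.Nonempty → HInj F (K.star S) 0 → HInj F (K.star S) 1 →
  HInj F (K.star (insert v S)) 1 → ∀ k : ℕ, 1 ≤ k → SplitsOn (K.link v) k (K.lk v ∩ ↑S) →
    k + Module.finrank F (Hq F 1 (K.star S)) ≤
      Module.finrank F (Hq F 1 (K.star (insert v S))) + 1

/-! ## I: immersions -/

/-- I1.  On the edge `[i, j]` the map is `(1-t) p i + t p j`, constant if `p i = p j`. -/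
def ImmEdgeStmt : Prop := ∀ (ι : Type) [Fintype ι] [DecidableEq ι] (K : Cx ι) (N : ℕ)
  (p : ι → EuclideanSpace ℝ (Fin N)), LocInj (plMap K p) →
  ∀ i j, K.graph.Adj i j → p i ≠ p j

/-- I2: two edges at `v` do not have the same direction: if `p a - p v = r (p b - p v)` the points
`(1-t) e_v + t e_a` and `(1-tr) e_v + tr e_b` have the same image and are different, for all small
`t > 0`. -/
def ImmDirStmt : Prop := ∀ (ι : Type) [Fintype ι] [DecidableEq ι] (K : Cx ι) (N : ℕ)
  (p : ι → EuclideanSpace ℝ (Fin N)), LocInj (plMap K p) →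
  ∀ v a b, a ∈ K.lk v → b ∈ K.lk v → a ≠ b → ∀ r : ℝ, 0 < r → p a - p v ≠ r • (p b - p v)

/-! ## F: flags -/

/-- every union of layers is cut off by a half-space -/
def Cuts {ι : Type} {N : ℕ} (p : ι → EuclideanSpace ℝ (Fin N)) (lay : ι → Fin 10) : Prop :=
  ∀ s : Fin 10 → Bool, ∃ (l : EuclideanSpace ℝ (Fin N) →ₗ[ℝ] ℝ) (c : ℝ),
    ∀ i, (s (lay i) = true → c < l (p i)) ∧ (s (lay i) = false → l (p i) < c)

/-- the layers seen from the other end `b` of the edge -/
noncomputable def swapLay {ι : Type} {N : ℕ} (p : ι → EuclideanSpace ℝ (Fin N))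
    (b : EuclideanSpace ℝ (Fin N)) (lay : ι → Fin 10) : ι → Fin 10 := by
  classical
  exact fun i => if lay i = 0 ∨ lay i = 1 then (if p i = b then 0 else 1) else lay i

/-- F0: facets of a cone.  Among all functionals `w ≠ 0` with `w ≥ 0` on `X` (there is one: `w₀`)
choose one for which the span `Y` of `X₀ = {x ∈ X | w x = 0}` has maximal dimension.
If `dim Y + 1 < dim W` there is a functional `u`, zero on `Y` and not a
multiple of `w`; replacing `u` by `-u` we may assume `u x < 0` for some `x ∈ X`.  Let `t > 0` be the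
smallest value of `w x / (- u x)` over the `x ∈ X` with `u x < 0` (for these `w x > 0`: if `w x = 0`
then `x ∈ Y` and `u x = 0`).  Then `w + t u ≥ 0` on `X`, it is not zero (`u` is not a multiple of
`w`), it vanishes on `X₀` and at one more `x`, which is not in `Y` (`w = 0` on `Y`).  Contradiction.
`dim Y + 1 > dim W` is impossible since `w ≠ 0` and `X` spans (`Y ⊆ ker w`). -/
def FacetStmt : Prop := ∀ (W : Type) [AddCommGroup W] [Module ℝ W] [FiniteDimensional ℝ W]
  (X : Set W), X.Finite → Submodule.span ℝ X = ⊤ → (∃ w₀ : W →ₗ[ℝ] ℝ, ∀ x ∈ X, 0 < w₀ x) →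
  2 ≤ Module.finrank ℝ W → ∃ w : W →ₗ[ℝ] ℝ, w ≠ 0 ∧ (∀ x ∈ X, 0 ≤ w x) ∧
    Module.finrank ℝ (Submodule.span ℝ {x ∈ X | w x = 0}) + 1 = Module.finrank ℝ W

/-- F1: the layers `1, ..., m` above a two dimensional face, linear form.  Uses FacetStmt.
Induction on `m`.  `m = 0`: `lay = 0`, `l = g`.  Step: take a facet `w` of the cone of the `x i`,
apply the induction hypothesis to the `x i` in `Y = span {x i | w (x i) = 0}` (`dim Y = m + 2`;
`w₀` restricts), giving `lay` with values `≤ m` on these `i`; put `lay i = m + 1` for the other `i`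
(there is one, since the `x i` span).  Given `g` and `s` take `l'` on `Y` for `g`, extend it to `W`
and add `R w` with `R` large positive or negative according to `s (m + 1)`. -/
def FlagLinStmt : Prop := ∀ (m : ℕ) (W : Type) [AddCommGroup W] [Module ℝ W]
  [FiniteDimensional ℝ W] (ι : Type) [Fintype ι] (x : ι → W),
  Submodule.span ℝ (Set.range x) = ⊤ → (∃ w₀ : W →ₗ[ℝ] ℝ, ∀ i, 0 < w₀ (x i)) →
  Module.finrank ℝ W = m + 2 → ∃ lay : ι → ℕ, (∀ i, lay i ≤ m) ∧ (∀ j ≤ m, ∃ i, lay i = j) ∧
    Module.finrank ℝ (Submodule.span ℝ (x '' {i | lay i = 0})) = 2 ∧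
    ∀ (g : W →ₗ[ℝ] ℝ) (s : ℕ → Bool), ∃ l : W →ₗ[ℝ] ℝ, ∀ i,
      (lay i = 0 → l (x i) = g (x i)) ∧
      (0 < lay i → (s (lay i) = true → 0 < l (x i)) ∧ (s (lay i) = false → l (x i) < 0))

/-- F2.  Uses FlagLinStmt, with `W = ℝ × EuclideanSpace ℝ (Fin N)`, `x i = (1, p i)`, `w₀` the first
coordinate, `m = N - 1 ≥ 8`.  The `p i` with `lay' i = 0` (bottom layer of FlagLinStmt) lie on a
line and are not all equal; let `a ≠ b` be the two extreme ones.  New layers: `0` for `p i = a`,
`1` for the other bottom ones, `min (lay' i + 1) 9` for the others.  `Cuts`: on the bottom layer the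
points are `a + t (b - a)`, `0 ≤ t ≤ 1`, finitely many; a functional `g` on `W` which is an affine
function of `t` with the prescribed signs at `t = 0` and for the other `t` (all `≥ δ > 0`); then
FlagLinStmt; `l (1, y) = c' + l' y`.  For `swapLay` exchange the roles of `a` and `b` (`t = 1` and
the others, `t ≤ 1 - δ`). -/
def FlagStmt : Prop := ∀ (ι : Type) [Fintype ι] (N : ℕ), 9 ≤ N →
  ∀ p : ι → EuclideanSpace ℝ (Fin N),
  (∀ (l : EuclideanSpace ℝ (Fin N) →ₗ[ℝ] ℝ) (c : ℝ), (∀ i, l (p i) = c) → l = 0) →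
  ∃ (lay : ι → Fin 10) (a b : EuclideanSpace ℝ (Fin N)), a ≠ b ∧ Function.Surjective lay ∧
    (∀ i, lay i = 0 → p i = a) ∧
    (∀ i, lay i = 1 → ∃ t : ℝ, 0 < t ∧ t ≤ 1 ∧ p i = a + t • (b - a)) ∧
    (∃ i, lay i = 1 ∧ p i = b) ∧ Cuts p lay ∧ Cuts p (swapLay p b lay)

/-! ## M: links in three-manifolds -/

/-- punctured Euclidean space -/
abbrev Pn (n : ℕ) : Type := {x : EuclideanSpace ℝ (Fin n) // x ≠ 0}

/-- M1.  Uses ContrStmt, H0PathStmt.  In `ℝ^{n+1} = ℝ^n × ℝ`, `x = (x', y)`, let
`A = {not (x' = 0 and y ≤ 0)}`, `B = {not (x' = 0 and y ≥ 0)}`; these are open, cover the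
complement of `0`, are contractible (star shaped about `(0, 1)`, `(0, -1)`), and
`A ∩ B = {x' ≠ 0}` is homotopy equivalent to `Pn n`.  Mayer-Vietoris (`exists_mvConn`,
`range_mvα`). -/
def SuspStmt : Prop := ∀ (F : Type) [Field F] (n : ℕ),
  (∀ k : ℕ, Nonempty (Hq F (k + 2) (Pn (n + 1)) ≃ₗ[F] Hq F (k + 1) (Pn n))) ∧
  (PathConnectedSpace (Pn n) → Subsingleton (Hq F 1 (Pn (n + 1))))

/-- M2.  Uses ContrStmt, H0PathStmt, H0LowStmt.  As in M1 with `n = 1`: `A ∩ B = {x' ≠ 0}` has
`rank H_0 = 2` (two contractible open pieces), `ker (mvα 0)` has rank `1`. -/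
def CircleStmt : Prop := ∀ (F : Type) [Field F], Module.rank F (Hq F 1 (Pn 2)) = 1

/-- M3.  Uses SuspStmt, CircleStmt. -/
def P3Stmt : Prop := ∀ (F : Type) [Field F], Subsingleton (Hq F 1 (Pn 3)) ∧
  Module.rank F (Hq F 2 (Pn 3)) ≤ 1

/-- M4: local homology of a three-manifold.  Uses ContrStmt, P3Stmt.  There is an open `B ⊆ U` with
`x ∈ B` and a homeomorphism of `B` with an open ball (or `ℝ³`) which sends `x` to the centre, so that
`B` is contractible and `B \ {x}` is homotopy equivalent (homeomorphic) to `Pn 3`.  Mayer-Vietoris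
in the space `U` for the open sets `U \ {x}`, `B`: since `H_1(U) = H_2(U) = 0` the map
`mvα n` is surjective for `n = 1, 2` (`range_mvα`), so `H_n(U \ {x})` is a quotient of
`H_n(B \ {x})`. -/
def LocHomStmt : Prop := ∀ (F : Type) [Field F] (M : Type) [TopologicalSpace M] [T2Space M],
  LocEuc3 M → ∀ U : Set M, IsOpen U → ContractibleSpace U → ∀ x ∈ U,
    Subsingleton (Hq F 1 ↥(U \ {x})) ∧ Module.rank F (Hq F 2 ↥(U \ {x})) ≤ 1

/-- M5: a triangle lies in at most two tetrahedra.  Uses ContrStmt, HomeoStmt, CircleStmt,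
LocHomStmt (`F = ℚ` or any field).  Let `t = {a, b, c}`, `x` its barycentre,
`U = {y | y_a, y_b, y_c > 0}` (open, star shaped about `x`: supports stay in `supp y ∪ t = supp y`),
`Y = U \ {x}`.  If `y ∈ U` then `supp y` is `t` or `t ∪ {w}` (at most four vertices).
`A = {y ∈ U | not (y_a = y_b = y_c)}`, `B = {y ∈ U | y_w > 0 for some w ∉ t}`: open, `A ∪ B = Y`.
`C₀ = {y ∈ U | supp y = t, y ≠ x}` is homotopy equivalent to `Pn 2` (open triangle minus barycentre),
take `0 ≠ γ ∈ H_1(C₀)`.  For the three `w = w j` let `j_w : C₀ → A ∩ B`, `y ↦ (y + e_w) / 2` and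
`z_w = (j_w)_* γ`.  (i) In `A` all `z_w` have the same image (homotopy `(1-s) y + s e_w`, `s` from
`0` to `1/2`, in `A`).  (ii) In `B` the image of `z_w` is `0`: `j_w` factors through
`{y ∈ U | y_w > 0}`, which is star shaped (contractible).  (iii) The `z_w` are linearly independent
in `H_1(A ∩ B)`: the map `r_w : A ∩ B → C₀` which on the clopen part `{y_w > 0}` is
`y ↦` normalized restriction to `t` and is constant on the rest satisfies `r_w ∘ j_w = id` and
`r_w ∘ j_{w'}` constant for `w' ≠ w`.  So `ker (mvα 1)` has rank at least `2` and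
`exists_mvConn` gives `rank H_2(Y) ≥ 2`, against LocHomStmt. -/
def TriStmt : Prop := ∀ (ι : Type) [Fintype ι] [DecidableEq ι] (K : Cx ι), LocEuc3 K.real →
  ∀ t ∈ K.faces, t.card = 3 → ∀ w : Fin 3 → ι, Function.Injective w → (∀ j, w j ∉ t) →
    (∀ j, insert (w j) t ∈ K.faces) → False

/-- M6: small singular chains for an open cover.  Same proof as `exists_small` in
`SingHom/MV.lean` (there for two sets): Lebesgue number of the cover of the compact simplex. -/
def SmallStmt : Prop := ∀ (X : Type) [TopologicalSpace X] (κ : Type) (W : κ → Set X),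
  (∀ i, IsOpen (W i)) → (⋃ i, W i) = Set.univ → ∀ (n : ℕ) (c : SC (ZMod 2) X n),
    ∃ k : ℕ, ((SS (ZMod 2) n) ^ k) c ∈ ⨆ i, inU (ZMod 2) (W i) n

/-- M7: cocycles of the link are coboundaries.  Uses StarContrStmt, LocHomStmt, SmallStmt.
Let `Y = K.star {v} \ {e_v}`; `H_1(Y; ZMod 2) = 0` by LocHomStmt.  For `w ∈ lk v` let
`Y_w = {y ∈ Y | y_w > 0}`: an open cover of `Y`.  For `y ∈ Y` choose `s y ∈ supp y`, `s y ≠ v`.
Put `α a a = 0`.  Define a linear `θ : SC (ZMod 2) Y 1 → ZMod 2`: for a singular `1`-simplex `σ` with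
image in some `Y_w` let `θ σ = α (s σ(0)) w + α w (s σ(1))` (`0` if there is no such `w`).
This does not depend on `w`: if also the image is in `Y_{w'}` then `w, w'` and `s σ(0)` are in the
support of `σ(0)`, so the cocycle condition gives `α (s σ(0)) w + α (s σ(0)) w' = α w w'`, and the
same at `σ(1)`.  For a `2`-simplex with image in some `Y_w`: `θ (∂ τ) = 0` (every `α (s τ(i)) w`
twice).  So `θ` vanishes on boundaries of small chains (`⨆ i, inU`), and if `ζ` is a small cycle
then `θ (SS^k ζ) = θ ζ` (`ζ - SS ζ = ∂ (HH ζ)`, `HH_mem_inU`).  If a closed walk in the link graph is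
given let `ζ` be the sum over its steps `a → b` of the straight singular simplices from
`(e_v + e_a)/2` to the midpoint `m = (2 e_v + e_a + e_b)/4` and from `m` to `(e_v + e_b)/2` (images in
`Y_a` and `Y_b`); it is a small cycle, `ζ = ∂ c` by `H_1(Y) = 0`, `SS^k c` is small for some `k`
(SmallStmt), so `0 = θ (∂ (SS^k c)) = θ (SS^k ζ) = θ ζ = ∑ α a b` (`s m ∈ {a, b}`).
Hence the sum of `α` along every closed walk is `0`, and `β` is defined by summing along walks from
a base vertex of every component. -/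
def CycStmt : Prop := ∀ (ι : Type) [Fintype ι] [DecidableEq ι] (K : Cx ι), LocEuc3 K.real →
  ∀ (v : ι) (α : ι → ι → ZMod 2), (∀ a b, α a b = α b a) →
  (∀ a b c, (K.link v).Adj a b → (K.link v).Adj b c → (K.link v).Adj a c →
    ({v, a, b, c} : Finset ι) ∈ K.faces → α a b + α b c + α a c = 0) →
  ∃ β : ι → ZMod 2, ∀ a b, (K.link v).Adj a b → α a b = β a + β b

/-! ## P: planarity -/

/-- A MacLane family.  `E` is a set of edges on `V`, `q : V → W` maps the vertices to classes, no
edge of `E` is inside a class; `f` is a family of subsets of `E`, even at every class, every edge is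
in at most two of them, and every function orthogonal to all of them is a coboundary. -/
def ML {V W : Type} [DecidableEq V] (q : V → W) (E : Finset (Sym2 V)) {m : ℕ}
    (f : Fin m → Finset (Sym2 V)) : Prop := by
  classical
  exact (∀ e ∈ E, ¬ (Sym2.map q e).IsDiag) ∧ (∀ j, f j ⊆ E) ∧
    (∀ j (w : W), Even ((f j).filter (fun e => w ∈ Sym2.map q e)).card) ∧
    (∀ e ∈ E, (Finset.univ.filter (fun j => e ∈ f j)).card ≤ 2) ∧
    (∀ α : Sym2 V → ZMod 2, (∀ j, ∑ e ∈ f j, α e = 0) →
      ∃ β : W → ZMod 2, ∀ a b, s(a, b) ∈ E → α s(a, b) = β (q a) + β (q b))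

/-- P0: deletion of edges.  Induction on `E \ E'`; delete one edge `e`: if `e` is in two of the
`f j` replace them by their symmetric difference (a function on `E.erase e` orthogonal to the new
family extends to `e` such that it is orthogonal to both), if `e` is in one of them drop it, if in
none do nothing.  (The number `m` may be kept, with empty sets.) -/
def DelStmt : Prop := ∀ (V W : Type) [DecidableEq V] (q : V → W) (E : Finset (Sym2 V)) (m : ℕ)
  (f : Fin m → Finset (Sym2 V)), ML q E f → ∀ E' ⊆ E,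
    ∃ (m' : ℕ) (f' : Fin m' → Finset (Sym2 V)), ML q E' f'

/-- P1: MacLane's bound.  Let `n = |W|`, `e = |E|`, `a` the number of nonempty `f j`.
A nonempty even set of edges has at least three edges (the quotient graph is simple: an edge
`s(u, v)`, another one at the class of `u`, another one at the class of `v`, all different).
The map `α ↦ (∑_{f j} α)_j` from `F_2^E` has kernel inside the coboundaries, of dimension at most
`n - 1` (constants give `0`), so its rank `ρ` satisfies `e ≤ n - 1 + ρ`, `ρ ≤ a`.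
If `a = 0` then `e ≤ n - 1 ≤ 3 n - 6`.  Otherwise let `ψ` be the sum (symmetric difference) of all
`f j`.  If `ψ = 0` then `ρ ≤ a - 1` and `3 a ≤ ∑ |f j| ≤ 2 e`; if `ψ ≠ 0` then `|ψ| ≥ 3` and
`3 (a + 1) ≤ ∑ |f j| + |ψ| ≤ 2 e` (an edge in `ψ` is in exactly one `f j`).  In both cases
`e - n + 1 ≤ 2 e / 3 - 1`. -/
def MacLaneStmt : Prop := ∀ (V W : Type) [DecidableEq V] [Fintype W] (q : V → W)
  (E : Finset (Sym2 V)) (m : ℕ) (f : Fin m → Finset (Sym2 V)), ML q E f →
  Set.InjOn (Sym2.map q) (↑E : Set (Sym2 V)) → 3 ≤ Fintype.card W →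
  E.card ≤ 3 * Fintype.card W - 6

/-- P2.  Uses DelStmt, MacLaneStmt.  Let `B : κ → Set V` be the classes, `P` the set of adjacent
pairs.  `W = κ ⊕ V`, `q v = inl i` if `v ∈ B i`, otherwise `inr v`.  `E₀` = all edges of `G` between
different `q`-classes, with the family `t ∩ E₀` for the triangles `t ∈ T`: this is `ML q E₀ _`
(extend `α` by `0` to the edges inside the classes; it is orthogonal to all triangles, so a
coboundary `β`, and `β` is constant on every `B i` because `B i` is connected).  Choose one edge of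
`G` for every pair in `P`; let `E'` be the set of these, `|E'| = |P|`.  DelStmt gives `ML q E' f'`.
The edges of `E'` only touch the classes in `κ`: replace `q` by `q' : V → κ` and apply
MacLaneStmt. -/
def PlanarStmt : Prop := ∀ (V : Type) [Fintype V] [DecidableEq V] (G : SimpleGraph V)
  (T : Finset (Finset V)), (∀ t ∈ T, t.card = 3 ∧ ∀ a ∈ t, ∀ b ∈ t, a ≠ b → G.Adj a b) →
  (∀ a b, G.Adj a b → (T.filter (fun t => a ∈ t ∧ b ∈ t)).card ≤ 2) →
  (∀ α : V → V → ZMod 2, (∀ a b, α a b = α b a) →
    (∀ a b c, a ≠ b → b ≠ c → a ≠ c → ({a, b, c} : Finset V) ∈ T → α a b + α b c + α a c = 0) →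
    ∃ β : V → ZMod 2, ∀ a b, G.Adj a b → α a b = β a + β b) →
  Planarish G

/-- P3.  Uses TriStmt, CycStmt, PlanarStmt, with `T` = the sets `{a, b, c}` not containing `v`
such that `{v, a, b, c}` is a face with four elements. -/
def LinkPlanarStmt : Prop := ∀ (ι : Type) [Fintype ι] [DecidableEq ι] (K : Cx ι),
  LocEuc3 K.real → ∀ v, Planarish (K.link v)

/-- P4.  Suppose not: then the graph on `Fin 9` of touching pairs has no independent triple.  It has
at most `21` edges (Planarish) and there are no five pairwise touching disjoint connected sets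
(`10 > 9`).  A vertex `x` of degree `≤ 3` would have `≥ 5` non-neighbours, pairwise touching.  So all
degrees are `≥ 4`; since `9 · 5 > 42` some `x` has degree `4`; its non-neighbours `b1..b4` are pairwise
touching.  `Y` = union of `B x` and the `B y`, `y` neighbour of `x`, is connected; if all `b_i` touch
`Y` we have five pairwise touching sets.  So some `b_i` touches only the other three: degree `3`. -/
def LemAStmt : Prop := ∀ (V : Type) (G : SimpleGraph V), Planarish G → ∀ B : Fin 9 → Set V,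
  (∀ i, ConnOn G (B i)) → (∀ i j, i ≠ j → Disjoint (B i) (B j)) →
  ∃ i j k, i ≠ j ∧ i ≠ k ∧ j ≠ k ∧ ¬ Touch G (B i) (B j) ∧ ¬ Touch G (B i) (B k) ∧
    ¬ Touch G (B j) (B k)

/-- P5.  Suppose not for some `i`.  `X = D 0 ∪ D i` is connected and so is `X ∪ D j` for the seven
other `j`.  Such a `D j` is connected (single) or the union of exactly two connected pieces, not
touching each other (double; a colouring from `SplitsOn 2`, the pieces do not split further by
`¬ SplitsOn 3`).  Every piece touches `X`.  `k` = number of doubles, `7 + k` pieces.  Planarish for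
the pieces and `X` (`8 + k` classes): the number `e` of touching pairs of pieces satisfies
`e + 7 + k ≤ 3 (8 + k) - 6`, i.e. `e ≤ 11 + 2 k`.  By `¬ SplitsOn 3`: two doubles: at least `2`
touching pairs of pieces; a double and a single: at least `1`; three singles: at least `1`
(no independent triple).  Five singles have at least `4` touching pairs.
`k ≥ 3`: `e ≥ k (k - 1) + k (7 - k) = 6 k > 11 + 2 k`.
`k = 2`: `e ≥ 2 + 10 + 4 = 16 > 15`.
`k = 0`: seven singles, `e ≤ 11`.  No four singles are pairwise touching (with `X`: five).  A single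
of degree `≤ 2` has four pairwise touching non-neighbours; so all degrees are `≥ 3` and some `y` has
degree `3`, its non-neighbours `b1, b2, b3` are pairwise touching; `Y = y ∪ N(y)`; if all `b_i` touch
`Y`: `X, Y, b1, b2, b3`; otherwise some `b_i` has degree `2`.
`k = 1`: `e ≤ 13`, six singles each touching a piece `j'` or `j''` of the double: at most `7` touching
pairs of singles.  Some single `y` has degree `≤ 2` among the singles; its non-neighbours (`≥ 3`) are
pairwise touching, so exactly three: `T1`, and `N(y) = {p, q}`.  `p, q` touch (otherwise every vertex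
of `T1` touches `p` or `q` and there are `2 + 3 + 3 = 8` pairs).  `T2 = {y, p, q}`.  Not all of `T1`
touch `j'` (five pairwise touching sets with `X`), nor `j''`, so both `j'` and `j''` touch something
in `T1`; in the same way in `T2`.  `Z = T2 ∪ j' ∪ j''` is connected, touches every element of `T1` and
`X`: `X, Z, T1` are five pairwise touching sets. -/
def LemBStmt : Prop := ∀ (V : Type) (G : SimpleGraph V), Planarish G →
  ∀ D : Fin 9 → Set V, (∀ i, (D i).Nonempty) → (∀ i j, i ≠ j → Disjoint (D i) (D j)) →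
  (∀ J : Finset (Fin 9), J.card ≤ 3 → ¬ SplitsOn G 3 (⋃ j ∈ J, D j)) →
  ∀ i, i ≠ 0 → ∃ J : Finset (Fin 9), 0 ∈ J ∧ i ∈ J ∧ J.card ≤ 3 ∧ SplitsOn G 2 (⋃ j ∈ J, D j)

/-! ## Main -/

/-- the theorem for complexes.  Uses FlagStmt, ImmEdgeStmt, ImmDirStmt, StarInjStmt, StarConnStmt,
VertexStmt, MonoStmt, LinkPlanarStmt, LemAStmt, LemBStmt.
Suppose all half-spaces are injective for `n = 0, 1`.  For `lay`, `a`, `b` of FlagStmt and
`lay' = swapLay p b lay`: for every nonconstant `s` the set `S = {i | s (lay i) = true}` (and the same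
for `lay'`) has `HInj F (K.star S) n`, `n = 0, 1` (Cuts, StarInjStmt with `c_i = l (p i) - c`; then
`l ≠ 0`, and `c < l (plMap K p x)` iff `0 < ∑ x_i c_i` since `∑ x_i = 1`).
`{lay = 0}` is connected (StarConnStmt) and `p = a` on it, so it is one vertex `v` (ImmEdgeStmt);
in the same way `{lay' = 0} = {v'}`, `p v' = b`.
At `v` and at `v'` every union `S` of layers not containing the layer `0`: VertexStmt gives
`k + h(S) ≤ h(insert v S) + 1 ≤ 2` (`h` = finrank of `H_1` of the star, MonoStmt), so `lk v ∩ S` does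
not split in `3`, and if it splits in `2` then `h(S) = 0`; it is not empty (`{v} ∪ S` connected).
LemBStmt at `v` with `D i = lk v ∩ {lay = i + 1}`: for every `i ≠ 0` there is `J ∋ 0, i` with
`h (layers J) = 0`, so (MonoStmt) `h ({lay = 1} ∪ {lay = i + 1}) = 0` and
`h ({v'} ∪ {lay = i + 1}) = 0` (this is a union of layers of `lay'`).
At `v'` let `B 0 = lk v' ∩ {lay' = 1}`, `B i = lk v' ∩ {lay = i + 1}`.  For `i ≠ 0` VertexStmt with
`k = 2` gives `2 + h ≤ 0 + 1`, so `B i` is connected.  `B 0` has exactly one element: its elements `u`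
have `p u = a + t (b - a)`, `0 ≤ t < 1`, all in the same direction from `b = p v'` (ImmDirStmt).
LemAStmt at `v'` gives three pairwise not touching `B i, B j, B k`, i.e. a union of layers that splits
in three: contradiction. -/
def MainStmt : Prop := ∀ (ι : Type) [Fintype ι] [DecidableEq ι] (K : Cx ι), LocEuc3 K.real →
  PathConnectedSpace K.real → ∀ (F : Type) [Field F], Module.rank F (Hq F 1 K.real) ≤ 1 →
  ∀ N : ℕ, 9 ≤ N → ∀ p : ι → EuclideanSpace ℝ (Fin N), LocInj (plMap K p) →
  (∀ (l : EuclideanSpace ℝ (Fin N) →ₗ[ℝ] ℝ) (c : ℝ), (∀ i, l (p i) = c) → l = 0) →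
  ∃ (l : EuclideanSpace ℝ (Fin N) →ₗ[ℝ] ℝ) (c : ℝ), l ≠ 0 ∧ ∃ n ≤ 1,
    ¬ HInj F {x : K.real | c < l (plMap K p x)} n

/-! ## R: projective space -/

/-- R1.  Charts: `{[x] | x_k ≠ 0}` is homeomorphic to `ℝ³` by `x ↦ (x_i / x_k)_{i ≠ k}`.
Hausdorff: two classes are separated by the continuous functions `x_i x_j` (which are well defined
and separate points). -/
def RPTopStmt : Prop := T2Space RP3 ∧ LocEuc3 RP3 ∧ PathConnectedSpace RP3

/-- R2.  Uses ContrStmt, H0PathStmt, MVUpStmt, HomeoStmt.  `V_k = {[x] | x_k ≠ 0}` is open and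
contractible, `W_k = V_0 ∪ ... ∪ V_k`, `W_3` is everything.  `W_{k-1} ∩ V_k` is homeomorphic to
`{y ∈ ℝ³ | (y_0, ..., y_{k-1}) ≠ 0}`: two contractible pieces for `k = 1` (`rank H_0 ≤ 2`),
path connected for `k = 2, 3`.  MVUpStmt three times. -/
def RPHomStmt : Prop := ∀ (F : Type) [Field F], Module.rank F (Hq F 1 RP3) ≤ 1

end TightRP
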