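import Pool.Agent.Lib.MP_7cdc3e_gt.Spec

/-!
# MP_7cdc3e_gt: C3, components of the link and of the intersection of stars
-/

open HoloConj Pool.Agent.Lib.SingHom

namespace TightRP

section

variable {ι : Type} [Fintype ι] [DecidableEq ι]

private lemma splitStar_down (K : Cx ι) {x : ι → ℝ} (hx : x ∈ K.real) {s : Finset ι} (hs : s.Nonempty)
    (h : ∀ i ∈ s, 0 < x i) : s ∈ K.faces := by
  refine K.down _ hx.2.2 s ?_ hs
  intro i hi
  unfold supp
  rw [Finset.mem_filter]
  exact ⟨Finset.mem_univ i, (h i hi).ne'⟩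

/-- the midpoint of an edge -/
private noncomputable def splitStarMid (v u : ι) : ι → ℝ := fun i => if i = v ∨ i = u then 1 / 2 else 0

private lemma splitStarMid_real (K : Cx ι) {v u : ι} (hvu : u ≠ v) (h : ({v, u} : Finset ι) ∈ K.faces) :
    splitStarMid v u ∈ K.real := by
  refine ⟨fun i => ?_, ?_, ?_⟩
  · unfold splitStarMid
    split_ifs
    · norm_num
    · exact le_refl 0
  · unfold splitStarMid
    have h1 : ∀ i : ι, (if i = v ∨ i = u then (1 / 2 : ℝ) else 0)
        = (if i = v then (1 / 2 : ℝ) else 0) + (if i = u then (1 / 2 : ℝ) else 0) := by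
      intro i
      by_cases h1 : i = v
      · have h2 : i ≠ u := fun h => hvu (h.symm.trans h1)
        rw [if_pos (Or.inl h1), if_pos h1, if_neg h2, add_zero]
      · by_cases h2 : i = u
        · rw [if_pos (Or.inr h2), if_neg h1, if_pos h2, zero_add]
        · rw [if_neg (not_or.2 ⟨h1, h2⟩), if_neg h1, if_neg h2, add_zero]
    rw [Finset.sum_congr rfl fun i _ => h1 i, Finset.sum_add_distrib, Finset.sum_ite_eq' Finset.univ v,
      Finset.sum_ite_eq' Finset.univ u, if_pos (Finset.mem_univ v), if_pos (Finset.mem_univ u)]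
    norm_num
  · have h1 : supp (splitStarMid v u) = {v, u} := by
      unfold supp splitStarMid
      ext i
      rw [Finset.mem_filter, Finset.mem_insert, Finset.mem_singleton]
      constructor
      · rintro ⟨-, h2⟩
        by_contra h3
        exact h2 (if_neg h3)
      · intro h2
        refine ⟨Finset.mem_univ i, ?_⟩
        rw [if_pos h2]
        norm_num
    rw [h1]
    exact h

private lemma splitStar_exists {S : Finset ι} {x : ι → ℝ} (h : 0 < ∑ i ∈ S, x i) : ∃ u ∈ S, 0 < x u := by
  by_contra h1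
  push Not at h1
  exact absurd h (not_lt.2 (Finset.sum_nonpos h1))

end

theorem cSplitStar : SplitStarStmt := by
  intro ι _ _ K v S hvS k _ hsplit
  obtain ⟨g, hg, hsurj⟩ := hsplit
  have hpos : ∀ x : ↥(K.star {v} ∩ K.star S), 0 < x.1.1 v := by
    intro x
    have h : 0 < ∑ i ∈ ({v} : Finset ι), x.1.1 i := x.2.1
    rwa [Finset.sum_singleton] at h
  have hex : ∀ x : ↥(K.star {v} ∩ K.star S), ∃ u ∈ S, 0 < x.1.1 u := fun x => splitStar_exists x.2.2
  choose c hcS hc using hex
  -- the colour does not depend on the choice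
  have hind : ∀ (x : ↥(K.star {v} ∩ K.star S)) (u w : ι), u ∈ S → w ∈ S → 0 < x.1.1 u → 0 < x.1.1 w → g u = g w := by
    intro x u w hu hw hxu hxw
    by_cases huw : u = w
    · rw [huw]
    have huv : u ≠ v := fun h => hvS (h ▸ hu)
    have hwv : w ≠ v := fun h => hvS (h ▸ hw)
    have hlk : ∀ y ∈ S, 0 < x.1.1 y → y ∈ K.lk v := by
      intro y hy hxy
      refine ⟨fun h => hvS (h ▸ hy), splitStar_down K x.1.2 (Finset.insert_nonempty _ _) ?_⟩
      intro i hi
      rcases Finset.mem_insert.1 hi with rfl | hi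
      · exact hpos x
      · rw [Finset.mem_singleton.1 hi]
        exact hxy
    refine hg u ⟨hlk u hu hxu, hu⟩ w ⟨hlk w hw hxw, hw⟩ ⟨huw, huv, hwv, ?_⟩
    refine splitStar_down K x.1.2 (Finset.insert_nonempty _ _) ?_
    intro i hi
    rcases Finset.mem_insert.1 hi with rfl | hi
    · exact hpos x
    · rcases Finset.mem_insert.1 hi with rfl | hi
      · exact hxu
      · rw [Finset.mem_singleton.1 hi]
        exact hxw
  refine ⟨fun x => g (c x), ?_, ?_⟩
  · apply IsLocallyConstant.continuous
    rw [IsLocallyConstant.iff_exists_open]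
    intro x
    refine ⟨{y | 0 < y.1.1 (c x)}, ?_, hc x, fun y hy => ?_⟩
    · have hcont : Continuous fun y : ↥(K.star {v} ∩ K.star S) => y.1.1 (c x) :=
        (continuous_apply (c x)).comp (continuous_subtype_val.comp continuous_subtype_val)
      exact isOpen_lt continuous_const hcont
    · exact hind y (c y) (c x) (hcS y) (hcS x) (hc y) hy
  · intro j
    obtain ⟨u, ⟨⟨huv, hface⟩, huS⟩, hgu⟩ := hsurj j
    have hr := splitStarMid_real K huv hface
    have hu : (0 : ℝ) < splitStarMid v u u := by
      unfold splitStarMid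
      rw [if_pos (Or.inr rfl)]
      norm_num
    have hv : (0 : ℝ) < splitStarMid v u v := by
      unfold splitStarMid
      rw [if_pos (Or.inl rfl)]
      norm_num
    have h1 : (⟨splitStarMid v u, hr⟩ : K.real) ∈ K.star {v} := by
      show 0 < ∑ i ∈ ({v} : Finset ι), splitStarMid v u i
      rwa [Finset.sum_singleton]
    have h2 : (⟨splitStarMid v u, hr⟩ : K.real) ∈ K.star S := by
      show 0 < ∑ i ∈ S, splitStarMid v u i
      exact lt_of_lt_of_le hu (Finset.single_le_sum (f := fun i => splitStarMid v u i) (fun i _ => hr.1 i) huS)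
    refine ⟨⟨⟨splitStarMid v u, hr⟩, h1, h2⟩, ?_⟩
    rw [← hgu]
    exact hind _ _ _ (hcS _) huS (hc _) hu

end TightRP
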