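import Pool.Agent.Lib.MP_7cdc3e_gt.Spec

/-!
# MP_7cdc3e_gt: module Tri, a triangle lies in at most two tetrahedra
-/

open HoloConj Pool.Agent.Lib.SingHom

namespace TightRP

section

variable {ι : Type} [Fintype ι] [DecidableEq ι]

private lemma tri_real (K : Cx ι) {x y : ι → ℝ} (hx : x ∈ K.real) (h0 : ∀ i, 0 ≤ y i)
    (h1 : ∑ i, y i = 1) (h2 : ∀ i, y i ≠ 0 → x i ≠ 0) : y ∈ K.real := by
  refine ⟨h0, h1, K.down _ hx.2.2 _ ?_ ?_⟩
  · intro i hi
    unfold supp at hi ⊢
    rw [Finset.mem_filter] at hi ⊢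
    exact ⟨Finset.mem_univ i, h2 i hi.2⟩
  · by_contra hne
    rw [Finset.not_nonempty_iff_eq_empty] at hne
    have h3 : ∑ i, y i = 0 := by
      apply Finset.sum_eq_zero
      intro i _
      by_contra h4
      have h5 : i ∈ supp y := by
        unfold supp
        rw [Finset.mem_filter]
        exact ⟨Finset.mem_univ i, h4⟩
      rw [hne] at h5
      exact absurd h5 (Finset.notMem_empty i)
    rw [h1] at h3
    exact one_ne_zero h3

/-- a point supported in a face -/
private lemma tri_face (K : Cx ι) {T : Finset ι} (hT : T ∈ K.faces) {y : ι → ℝ}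
    (h0 : ∀ i, 0 ≤ y i) (h1 : ∑ i, y i = 1) (h2 : ∀ i, i ∉ T → y i = 0) : y ∈ K.real := by
  refine ⟨h0, h1, K.down _ hT _ ?_ ?_⟩
  · intro i hi
    unfold supp at hi
    rw [Finset.mem_filter] at hi
    by_contra hn
    exact hi.2 (h2 i hn)
  · by_contra hne
    rw [Finset.not_nonempty_iff_eq_empty] at hne
    have h3 : ∑ i, y i = 0 := by
      apply Finset.sum_eq_zero
      intro i _
      by_contra h4
      have h5 : i ∈ supp y := by
        unfold supp
        rw [Finset.mem_filter]
        exact ⟨Finset.mem_univ i, h4⟩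
      rw [hne] at h5
      exact absurd h5 (Finset.notMem_empty i)
    rw [h1] at h3
    exact one_ne_zero h3

/-- the open star of a face in the ambient space -/
private def tri_S (K : Cx ι) (T : Finset ι) : Set (ι → ℝ) := {y | y ∈ K.real ∧ ∀ i ∈ T, 0 < y i}

/-- the barycentre of a face -/
private noncomputable def tri_bar (T : Finset ι) : ι → ℝ :=
  fun i => if i ∈ T then 1 / (T.card : ℝ) else 0

private lemma tri_bar_mem (K : Cx ι) {T : Finset ι} (hT : T ∈ K.faces) :
    tri_bar T ∈ tri_S K T := by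
  have hc : 0 < (T.card : ℝ) := Nat.cast_pos.2 (Finset.card_pos.2 (K.nonempty_of_mem T hT))
  refine ⟨tri_face K hT (fun i => ?_) ?_ (fun i hi => if_neg hi), fun i hi => ?_⟩
  · unfold tri_bar
    split_ifs
    · positivity
    · exact le_refl 0
  · unfold tri_bar
    rw [← Finset.sum_filter, Finset.filter_mem_eq_inter, Finset.univ_inter, Finset.sum_const,
      nsmul_eq_mul]
    field_simp
  · unfold tri_bar
    rw [if_pos hi]
    positivity

private lemma tri_star (K : Cx ι) {T : Finset ι} (hT : T ∈ K.faces) :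
    StarConvex ℝ (tri_bar T) (tri_S K T) := by
  rintro y ⟨hy, hyT⟩ a b ha hb hab
  have hs := tri_bar_mem K hT
  have hval : ∀ i, (a • tri_bar T + b • y) i = a * tri_bar T i + b * y i := fun i => rfl
  have h0 : ∀ i, 0 ≤ (a • tri_bar T + b • y) i := fun i => by
    rw [hval]
    exact add_nonneg (mul_nonneg ha (hs.1.1 i)) (mul_nonneg hb (hy.1 i))
  refine ⟨tri_real K hy h0 ?_ ?_, ?_⟩
  · simp_rw [hval]
    rw [Finset.sum_add_distrib, ← Finset.mul_sum, ← Finset.mul_sum, hs.1.2.1, hy.2.1, mul_one,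
      mul_one, hab]
  · intro i hi
    by_cases hiT : i ∈ T
    · exact (hyT i hiT).ne'
    · intro h
      apply hi
      rw [hval, h]
      unfold tri_bar
      rw [if_neg hiT]
      ring
  · intro i hi
    rw [hval]
    rcases ha.lt_or_eq with ha' | ha'
    · exact add_pos_of_pos_of_nonneg (mul_pos ha' (hs.2 i hi)) (mul_nonneg hb (hyT i hi).le)
    · have hb' : b = 1 := by linarith
      rw [← ha', hb']
      simpa using hyT i hi

private lemma tri_contr (K : Cx ι) {T : Finset ι} (hT : T ∈ K.faces) :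
    ContractibleSpace (tri_S K T) :=
  (tri_star K hT).contractibleSpace ⟨_, tri_bar_mem K hT⟩

/-- the open star of a face as a set of points of the complex -/
private def tri_U (K : Cx ι) (T : Finset ι) : Set K.real := {y | ∀ i ∈ T, 0 < y.1 i}

private lemma tri_U_contr (K : Cx ι) {T : Finset ι} (hT : T ∈ K.faces) :
    ContractibleSpace (tri_U K T) := by
  have := tri_contr K hT
  let e : ↥(tri_U K T) ≃ₜ ↥(tri_S K T) :=
    { toFun := fun y => ⟨y.1.1, y.1.2, y.2⟩
      invFun := fun y => ⟨⟨y.1, y.2.1⟩, y.2.2⟩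
      left_inv := fun y => rfl
      right_inv := fun y => rfl
      continuous_toFun :=
        (continuous_subtype_val.comp continuous_subtype_val).subtype_mk _
      continuous_invFun := (continuous_subtype_val.subtype_mk _).subtype_mk _ }
  exact e.contractibleSpace

private lemma tri_U_open (K : Cx ι) (T : Finset ι) : IsOpen (tri_U K T) := by
  have h : tri_U K T = ⋂ i ∈ T, {y : K.real | 0 < y.1 i} := by
    ext y
    simp [tri_U]
  rw [h]
  refine isOpen_biInter_finset fun i _ => ?_
  exact isOpen_lt continuous_const ((continuous_apply i).comp continuous_subtype_val)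

end

/-! ### the small triangle around the barycentre -/

private noncomputable def tri_d (v : EuclideanSpace ℝ (Fin 2)) : ℝ := 1 / (2 * (1 + |v 0| + |v 1|))

private lemma tri_d_pos (v : EuclideanSpace ℝ (Fin 2)) : 0 < tri_d v := by
  unfold tri_d
  positivity

private lemma tri_d_bound (v : EuclideanSpace ℝ (Fin 2)) :
    |tri_d v * v 0| + |tri_d v * v 1| < 1 / 2 := by
  have h := tri_d_pos v
  rw [abs_mul, abs_mul, abs_of_pos h, ← mul_add]
  unfold tri_d
  rw [one_div, inv_mul_eq_div, div_lt_div_iff₀ (by positivity) (by norm_num)]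
  linarith

private lemma tri_d_cont : Continuous tri_d := by
  unfold tri_d
  refine continuous_const.div (by fun_prop) fun v => ?_
  positivity

section

variable {ι : Type} [DecidableEq ι]

private noncomputable def tri_p (a b c : ι) (v : EuclideanSpace ℝ (Fin 2)) : ι → ℝ :=
  fun i => if i = a then 1 / 3 + (2 * (tri_d v * v 0) - tri_d v * v 1) / 3
    else if i = b then 1 / 3 + (2 * (tri_d v * v 1) - tri_d v * v 0) / 3
    else if i = c then 1 / 3 - (tri_d v * v 0 + tri_d v * v 1) / 3 else 0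

private noncomputable def tri_q (a b c w : ι) (s : ℝ) (v : EuclideanSpace ℝ (Fin 2)) : ι → ℝ :=
  fun i => (1 - s) * tri_p a b c v i + if i = w then s else 0

private lemma tri_p_cont (a b c : ι) : Continuous (tri_p a b c) := by
  have h := tri_d_cont
  refine continuous_pi fun i => ?_
  unfold tri_p
  split_ifs <;> fun_prop

private lemma tri_q_cont (a b c w : ι) {Z : Type} [TopologicalSpace Z] (f : Z → ℝ)
    (g : Z → EuclideanSpace ℝ (Fin 2)) (hf : Continuous f) (hg : Continuous g) :
    Continuous (fun z => tri_q a b c w (f z) (g z)) := by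
  have h : ∀ i, Continuous fun z => tri_p a b c (g z) i := fun i =>
    (continuous_apply i).comp ((tri_p_cont a b c).comp hg)
  refine continuous_pi fun i => ?_
  unfold tri_q
  have h' := h i
  split_ifs <;> fun_prop

variable {a b c w : ι} (hab : a ≠ b) (hac : a ≠ c) (hbc : b ≠ c)

include hab hac hbc in
private lemma tri_p_vals (v : EuclideanSpace ℝ (Fin 2)) :
    tri_p a b c v a = 1 / 3 + (2 * (tri_d v * v 0) - tri_d v * v 1) / 3 ∧
    tri_p a b c v b = 1 / 3 + (2 * (tri_d v * v 1) - tri_d v * v 0) / 3 ∧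
    tri_p a b c v c = 1 / 3 - (tri_d v * v 0 + tri_d v * v 1) / 3 := by
  unfold tri_p
  refine ⟨if_pos rfl, ?_, ?_⟩
  · rw [if_neg hab.symm, if_pos rfl]
  · rw [if_neg hac.symm, if_neg hbc.symm, if_pos rfl]

private lemma tri_p_zero (v : EuclideanSpace ℝ (Fin 2)) {i : ι} (hi : i ∉ ({a, b, c} : Finset ι)) :
    tri_p a b c v i = 0 := by
  simp only [Finset.mem_insert, Finset.mem_singleton, not_or] at hi
  unfold tri_p
  rw [if_neg hi.1, if_neg hi.2.1, if_neg hi.2.2]

include hab hac hbc in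
private lemma tri_p_pos (v : EuclideanSpace ℝ (Fin 2)) {i : ι} (hi : i ∈ ({a, b, c} : Finset ι)) :
    0 < tri_p a b c v i := by
  obtain ⟨h1, h2, h3⟩ := tri_p_vals hab hac hbc v
  have hb := tri_d_bound v
  have ha0 := abs_le.1 (le_refl |tri_d v * v 0|)
  have ha1 := abs_le.1 (le_refl |tri_d v * v 1|)
  simp only [Finset.mem_insert, Finset.mem_singleton] at hi
  rcases hi with rfl | rfl | rfl
  · rw [h1]; linarith [abs_nonneg (tri_d v * v 0), abs_nonneg (tri_d v * v 1)]
  · rw [h2]; linarith [abs_nonneg (tri_d v * v 0), abs_nonneg (tri_d v * v 1)]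
  · rw [h3]; linarith [abs_nonneg (tri_d v * v 0), abs_nonneg (tri_d v * v 1)]

include hab hac hbc in
private lemma tri_q_pos (s : ℝ) (hs1 : s ≤ 1 / 2) (hw : w ∉ ({a, b, c} : Finset ι))
    (v : EuclideanSpace ℝ (Fin 2)) {i : ι} (hi : i ∈ ({a, b, c} : Finset ι)) :
    0 < tri_q a b c w s v i := by
  unfold tri_q
  have hiw : i ≠ w := fun h => hw (h ▸ hi)
  rw [if_neg hiw, add_zero]
  exact mul_pos (by linarith) (tri_p_pos hab hac hbc v hi)

private lemma tri_q_w (s : ℝ) (hw : w ∉ ({a, b, c} : Finset ι)) (v : EuclideanSpace ℝ (Fin 2)) :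
    tri_q a b c w s v w = s := by
  unfold tri_q
  rw [if_pos rfl, tri_p_zero v hw, mul_zero, zero_add]

private lemma tri_q_other (s : ℝ) (v : EuclideanSpace ℝ (Fin 2)) {i : ι}
    (hi : i ∉ insert w ({a, b, c} : Finset ι)) : tri_q a b c w s v i = 0 := by
  rw [Finset.mem_insert, not_or] at hi
  unfold tri_q
  rw [if_neg hi.1, tri_p_zero v hi.2, mul_zero, zero_add]

include hab hac hbc in
private lemma tri_q_diff (s : ℝ) (hw : w ∉ ({a, b, c} : Finset ι)) (v : EuclideanSpace ℝ (Fin 2)) :
    tri_q a b c w s v a - tri_q a b c w s v c = (1 - s) * (tri_d v * v 0) ∧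
    tri_q a b c w s v b - tri_q a b c w s v c = (1 - s) * (tri_d v * v 1) := by
  obtain ⟨h1, h2, h3⟩ := tri_p_vals hab hac hbc v
  have ha : a ≠ w := fun h => hw (h ▸ by simp)
  have hb : b ≠ w := fun h => hw (h ▸ by simp)
  have hc : c ≠ w := fun h => hw (h ▸ by simp)
  unfold tri_q
  rw [if_neg ha, if_neg hb, if_neg hc, h1, h2, h3]
  constructor <;> ring

include hab hac hbc in
private lemma tri_q_ne (s : ℝ) (hs1 : s ≤ 1 / 2) (hw : w ∉ ({a, b, c} : Finset ι))
    {v : EuclideanSpace ℝ (Fin 2)} (hv : v ≠ 0) :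
    tri_q a b c w s v a ≠ tri_q a b c w s v c ∨ tri_q a b c w s v b ≠ tri_q a b c w s v c := by
  obtain ⟨h1, h2⟩ := tri_q_diff hab hac hbc s hw v
  by_contra hcon
  push Not at hcon
  rw [hcon.1, sub_self] at h1
  rw [hcon.2, sub_self] at h2
  have h3 : (1 - s) ≠ 0 := by linarith
  have h4 := (tri_d_pos v).ne'
  have h5 : v 0 = 0 := by
    rcases mul_eq_zero.1 h1.symm with h | h
    · exact absurd h h3
    · rcases mul_eq_zero.1 h with h | h
      · exact absurd h h4
      · exact h
  have h6 : v 1 = 0 := by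
    rcases mul_eq_zero.1 h2.symm with h | h
    · exact absurd h h3
    · rcases mul_eq_zero.1 h with h | h
      · exact absurd h h4
      · exact h
  apply hv
  ext i
  fin_cases i
  · exact h5
  · exact h6

include hab hac hbc in
private lemma tri_q_real [Fintype ι] (K : Cx ι) (s : ℝ) (hs0 : 0 ≤ s) (hs1 : s ≤ 1 / 2)
    (hw : w ∉ ({a, b, c} : Finset ι)) (hwf : insert w ({a, b, c} : Finset ι) ∈ K.faces)
    (v : EuclideanSpace ℝ (Fin 2)) : tri_q a b c w s v ∈ K.real := by
  refine tri_face K hwf (fun i => ?_) ?_ (fun i hi => tri_q_other s v hi)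
  · by_cases hi : i ∈ ({a, b, c} : Finset ι)
    · exact (tri_q_pos hab hac hbc s hs1 hw v hi).le
    · by_cases hiw : i = w
      · rw [hiw, tri_q_w s hw v]
        exact hs0
      · rw [tri_q_other s v (by rw [Finset.mem_insert, not_or]; exact ⟨hiw, hi⟩)]
  · have h1 : ∑ i, tri_q a b c w s v i = ∑ i ∈ insert w ({a, b, c} : Finset ι),
        tri_q a b c w s v i := by
      symm
      exact Finset.sum_subset (Finset.subset_univ _) fun i _ hi => tri_q_other s v hi
    have ha : a ≠ w := fun h => hw (h ▸ by simp)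
    have hb : b ≠ w := fun h => hw (h ▸ by simp)
    have hc : c ≠ w := fun h => hw (h ▸ by simp)
    obtain ⟨h2, h3, h4⟩ := tri_p_vals hab hac hbc v
    rw [h1, Finset.sum_insert hw, tri_q_w s hw v, Finset.sum_insert (by simp [hab, hac]),
      Finset.sum_insert (by simp [hbc]), Finset.sum_singleton]
    unfold tri_q
    rw [if_neg ha, if_neg hb, if_neg hc, h2, h3, h4]
    ring

/-- the rest of the mass -/
private lemma tri_rest_zero [Fintype ι] (K : Cx ι) {y : ι → ℝ} (hy : y ∈ K.real)
    (h3 : ({a, b, c} : Finset ι).card = 3) (hpos : ∀ i ∈ ({a, b, c} : Finset ι), 0 < y i)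
    (hw : w ∉ ({a, b, c} : Finset ι)) (hyw : 0 < y w) :
    ∑ i ∈ insert w ({a, b, c} : Finset ι), y i = 1 := by
  have h1 : insert w ({a, b, c} : Finset ι) ⊆ supp y := by
    intro i hi
    unfold supp
    rw [Finset.mem_filter]
    refine ⟨Finset.mem_univ _, ?_⟩
    rcases Finset.mem_insert.1 hi with rfl | hi
    · exact hyw.ne'
    · exact (hpos i hi).ne'
  have h2 : supp y = insert w ({a, b, c} : Finset ι) := by
    symm
    refine Finset.eq_of_subset_of_card_le h1 ?_
    rw [Finset.card_insert_of_notMem hw, h3]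
    exact K.card_le _ hy.2.2
  rw [← h2, ← hy.2.1]
  refine Finset.sum_subset (Finset.subset_univ _) fun i _ hi => ?_
  by_contra hne
  exact hi (by unfold supp; rw [Finset.mem_filter]; exact ⟨Finset.mem_univ _, hne⟩)

private lemma tri_rest_pos [Fintype ι] (K : Cx ι) {y : ι → ℝ} (hy : y ∈ K.real)
    (hw : w ∉ ({a, b, c} : Finset ι)) (hyw : y w = 0) {u : ι} (hu : u ∉ ({a, b, c} : Finset ι))
    (hyu : 0 < y u) : ∑ i ∈ insert w ({a, b, c} : Finset ι), y i < 1 := by
  have huw : u ≠ w := by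
    rintro rfl
    exact absurd hyw hyu.ne'
  rw [← hy.2.1]
  refine Finset.sum_lt_sum_of_subset (Finset.subset_univ _) (Finset.mem_univ u) ?_ hyu
    fun j _ _ => hy.1 j
  rw [Finset.mem_insert, not_or]
  exact ⟨huw, hu⟩

/-- the retraction to the plane -/
private noncomputable def tri_r (a b c w : ι) (y : ι → ℝ) : EuclideanSpace ℝ (Fin 2) :=
  !₂[y w * (y a - y c) + (1 - ∑ i ∈ insert w ({a, b, c} : Finset ι), y i), y w * (y b - y c)]

private lemma tri_r_cont (a b c w : ι) : Continuous (tri_r a b c w) := by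
  unfold tri_r
  refine (PiLp.continuous_toLp 2 _).comp (continuous_pi fun i => ?_)
  fin_cases i
  · show Continuous fun y : ι → ℝ => y w * (y a - y c) +
      (1 - ∑ i ∈ insert w ({a, b, c} : Finset ι), y i)
    fun_prop
  · show Continuous fun y : ι → ℝ => y w * (y b - y c)
    fun_prop

private lemma tri_r_ne [Fintype ι] (K : Cx ι) {y : ι → ℝ} (hy : y ∈ K.real)
    (h3 : ({a, b, c} : Finset ι).card = 3) (hpos : ∀ i ∈ ({a, b, c} : Finset ι), 0 < y i)
    (hw : w ∉ ({a, b, c} : Finset ι)) (hne : y a ≠ y c ∨ y b ≠ y c)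
    (hu : ∃ u, u ∉ ({a, b, c} : Finset ι) ∧ 0 < y u) : tri_r a b c w y ≠ 0 := by
  intro h
  have h0 : y w * (y a - y c) + (1 - ∑ i ∈ insert w ({a, b, c} : Finset ι), y i) = 0 := by
    have := congrArg (fun z : EuclideanSpace ℝ (Fin 2) => z 0) h
    simpa [tri_r] using this
  have h1 : y w * (y b - y c) = 0 := by
    have := congrArg (fun z : EuclideanSpace ℝ (Fin 2) => z 1) h
    simpa [tri_r] using this
  rcases (hy.1 w).lt_or_eq with hyw | hyw
  · rw [tri_rest_zero K hy h3 hpos hw hyw, sub_self, add_zero] at h0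
    rcases hne with h2 | h2
    · rcases mul_eq_zero.1 h0 with h4 | h4
      · exact hyw.ne' h4
      · exact h2 (sub_eq_zero.1 h4)
    · rcases mul_eq_zero.1 h1 with h4 | h4
      · exact hyw.ne' h4
      · exact h2 (sub_eq_zero.1 h4)
  · obtain ⟨u, hu, hyu⟩ := hu
    have := tri_rest_pos K hy hw hyw.symm hu hyu
    rw [← hyw, zero_mul, zero_add] at h0
    linarith

end

/-! ### the sets -/

section

variable {ι : Type} [Fintype ι] [DecidableEq ι] (K : Cx ι) (a b c : ι)
  (hT : ({a, b, c} : Finset ι) ∈ K.faces)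

private abbrev tri_X : Type :=
  ↥(tri_U K {a, b, c} \ {(⟨tri_bar {a, b, c}, (tri_bar_mem K hT).1⟩ : K.real)})

private def tri_A : Set (tri_X K a b c hT) := {y | y.1.1 a ≠ y.1.1 c ∨ y.1.1 b ≠ y.1.1 c}

private def tri_B : Set (tri_X K a b c hT) :=
  {y | ∃ u, u ∉ ({a, b, c} : Finset ι) ∧ 0 < y.1.1 u}

private lemma tri_coord (i : ι) : Continuous fun y : tri_X K a b c hT => y.1.1 i :=
  (continuous_apply i).comp (continuous_subtype_val.comp continuous_subtype_val)

private lemma tri_A_open : IsOpen (tri_A K a b c hT) :=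
  (isOpen_ne_fun (tri_coord K a b c hT a) (tri_coord K a b c hT c)).union
    (isOpen_ne_fun (tri_coord K a b c hT b) (tri_coord K a b c hT c))

private lemma tri_B_open : IsOpen (tri_B K a b c hT) := by
  have h : tri_B K a b c hT =
      ⋃ u ∈ {u | u ∉ ({a, b, c} : Finset ι)}, {y | 0 < y.1.1 u} := by
    ext y
    simp only [tri_B, Set.mem_ofPred_eq, Set.mem_iUnion, exists_prop]
  rw [h]
  exact isOpen_biUnion fun u _ => isOpen_lt continuous_const (tri_coord K a b c hT u)

variable {a b c} (hab : a ≠ b) (hac : a ≠ c) (hbc : b ≠ c)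

include hab hac hbc in
private lemma tri_AB : tri_A K a b c hT ∪ tri_B K a b c hT = Set.univ := by
  rw [Set.eq_univ_iff_forall]
  intro y
  by_contra hcon
  rw [Set.mem_union, not_or] at hcon
  obtain ⟨h1, h2⟩ := hcon
  have h1' : y.1.1 a = y.1.1 c ∧ y.1.1 b = y.1.1 c := by
    by_contra h
    rw [not_and_or] at h
    exact h1 h
  have h2' : ∀ u, u ∉ ({a, b, c} : Finset ι) → y.1.1 u = 0 := by
    intro u hu
    by_contra h
    exact h2 ⟨u, hu, lt_of_le_of_ne (y.1.2.1 u) (Ne.symm h)⟩
  have h3 : ∑ i ∈ ({a, b, c} : Finset ι), y.1.1 i = 1 := by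
    rw [← y.1.2.2.1]
    exact Finset.sum_subset (Finset.subset_univ _) fun i _ hi => h2' i hi
  rw [Finset.sum_insert (by simp [hab, hac]), Finset.sum_insert (by simp [hbc]),
    Finset.sum_singleton, h1'.1, h1'.2] at h3
  have hcard : ({a, b, c} : Finset ι).card = 3 := Finset.card_eq_three.2 ⟨a, b, c, hab, hac, hbc, rfl⟩
  have h4 : y.1.1 c = 1 / 3 := by linarith
  apply y.2.2
  show y.1 = _
  apply Subtype.ext
  funext i
  show y.1.1 i = tri_bar {a, b, c} i
  by_cases hi : i ∈ ({a, b, c} : Finset ι)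
  · have hb : tri_bar ({a, b, c} : Finset ι) i = 1 / 3 := by
      unfold tri_bar
      rw [if_pos hi, hcard]
      norm_num
    rw [hb]
    simp only [Finset.mem_insert, Finset.mem_singleton] at hi
    rcases hi with rfl | rfl | rfl
    · rw [h1'.1, h4]
    · rw [h1'.2, h4]
    · rw [h4]
  · have hb : tri_bar ({a, b, c} : Finset ι) i = 0 := by
      unfold tri_bar
      rw [if_neg hi]
    rw [hb]
    exact h2' i hi

variable {w : ι} (hw : w ∉ ({a, b, c} : Finset ι))
  (hwf : insert w ({a, b, c} : Finset ι) ∈ K.faces)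

/-- the points near the barycentre, moved towards `w` -/
private noncomputable def tri_pt (s : ℝ) (hs0 : 0 ≤ s) (hs1 : s ≤ 1 / 2) (v : Pn 2) :
    tri_X K a b c hT :=
  ⟨⟨tri_q a b c w s v.1, tri_q_real hab hac hbc K s hs0 hs1 hw hwf v.1⟩,
    ⟨fun _ hi => tri_q_pos hab hac hbc s hs1 hw v.1 hi, by
      intro h
      have h1 : tri_q a b c w s v.1 = tri_bar {a, b, c} := congrArg Subtype.val h
      rcases tri_q_ne hab hac hbc s hs1 hw v.2 with h2 | h2
      · apply h2
        rw [h1]
        unfold tri_bar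
        rw [if_pos (by simp), if_pos (by simp)]
      · apply h2
        rw [h1]
        unfold tri_bar
        rw [if_pos (by simp), if_pos (by simp)]⟩⟩

private lemma tri_pt_A (s : ℝ) (hs0 : 0 ≤ s) (hs1 : s ≤ 1 / 2) (v : Pn 2) :
    tri_pt K hT hab hac hbc hw hwf s hs0 hs1 v ∈ tri_A K a b c hT :=
  tri_q_ne hab hac hbc s hs1 hw v.2

private lemma tri_pt_B (s : ℝ) (hs0 : 0 < s) (hs1 : s ≤ 1 / 2) (v : Pn 2) :
    tri_pt K hT hab hac hbc hw hwf s hs0.le hs1 v ∈ tri_B K a b c hT :=
  ⟨w, hw, by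
    show 0 < tri_q a b c w s v.1 w
    rw [tri_q_w s hw v.1]
    exact hs0⟩

/-- the loop near the barycentre, pushed into the tetrahedron -/
private noncomputable def tri_J : C(Pn 2, ↥(tri_A K a b c hT ∩ tri_B K a b c hT)) where
  toFun v := ⟨tri_pt K hT hab hac hbc hw hwf (1 / 2) (by norm_num) le_rfl v,
    tri_pt_A K hT hab hac hbc hw hwf _ _ _ v, tri_pt_B K hT hab hac hbc hw hwf _ (by norm_num) _ v⟩
  continuous_toFun := by
    refine Continuous.subtype_mk (Continuous.subtype_mk (Continuous.subtype_mk ?_ _) _) _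
    exact tri_q_cont a b c w (fun _ => 1 / 2) (fun v : Pn 2 => v.1) continuous_const
      continuous_subtype_val

/-- the loop near the barycentre -/
private noncomputable def tri_P : C(Pn 2, ↥(tri_A K a b c hT)) where
  toFun v := ⟨tri_pt K hT hab hac hbc hw hwf 0 le_rfl (by norm_num) v,
    tri_pt_A K hT hab hac hbc hw hwf _ _ _ v⟩
  continuous_toFun := by
    refine Continuous.subtype_mk (Continuous.subtype_mk (Continuous.subtype_mk ?_ _) _) _
    exact tri_q_cont a b c w (fun _ => 0) (fun v : Pn 2 => v.1) continuous_const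
      continuous_subtype_val

/-- all the loops are homotopic in `A` -/
private noncomputable def tri_hty : ContinuousMap.Homotopy
    ((jL (tri_A K a b c hT) (tri_B K a b c hT)).comp (tri_J K hT hab hac hbc hw hwf))
    (tri_P K hT hab hac hbc hw hwf) where
  toFun p := ⟨tri_pt K hT hab hac hbc hw hwf ((1 - (p.1 : ℝ)) / 2)
    (by have := p.1.2.2; linarith) (by have := p.1.2.1; linarith) p.2,
    tri_pt_A K hT hab hac hbc hw hwf _ _ _ p.2⟩
  continuous_toFun := by
    refine Continuous.subtype_mk (Continuous.subtype_mk (Continuous.subtype_mk ?_ _) _) _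
    exact tri_q_cont a b c w (fun p : unitInterval × Pn 2 => (1 - (p.1 : ℝ)) / 2)
      (fun p : unitInterval × Pn 2 => p.2.1) (by fun_prop)
      (continuous_subtype_val.comp continuous_snd)
  map_zero_left v := by
    apply Subtype.ext
    apply Subtype.ext
    apply Subtype.ext
    show tri_q a b c w ((1 - ((0 : unitInterval) : ℝ)) / 2) v.1 = tri_q a b c w (1 / 2) v.1
    norm_num
  map_one_left v := by
    apply Subtype.ext
    apply Subtype.ext
    apply Subtype.ext
    show tri_q a b c w ((1 - ((1 : unitInterval) : ℝ)) / 2) v.1 = tri_q a b c w 0 v.1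
    norm_num

/-- in `B` the loop factors through a contractible space -/
private lemma tri_JB (h1 : ContrStmt) (F : Type) [Field F] (γ : Hq F 1 (Pn 2)) :
    Hmap F 1 (jR (tri_A K a b c hT) (tri_B K a b c hT))
      (Hmap F 1 (tri_J K hT hab hac hbc hw hwf) γ) = 0 := by
  have := tri_contr K hwf
  let f : C(Pn 2, ↥(tri_S K (insert w {a, b, c}))) :=
    ⟨fun v => ⟨tri_q a b c w (1 / 2) v.1,
      tri_q_real hab hac hbc K (1 / 2) (by norm_num) le_rfl hw hwf v.1, fun i hi => by
        rcases Finset.mem_insert.1 hi with rfl | hi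
        · rw [tri_q_w (1 / 2) hw v.1]
          norm_num
        · exact tri_q_pos hab hac hbc (1 / 2) le_rfl hw v.1 hi⟩, by
      refine Continuous.subtype_mk ?_ _
      exact tri_q_cont a b c w (fun _ => 1 / 2) (fun v : Pn 2 => v.1) continuous_const
        continuous_subtype_val⟩
  let g : C(↥(tri_S K (insert w {a, b, c})), ↥(tri_B K a b c hT)) :=
    ⟨fun y => ⟨⟨⟨y.1, y.2.1⟩, fun i hi => y.2.2 i (Finset.mem_insert_of_mem hi), fun h => by
        have h3 : y.1 = tri_bar {a, b, c} := congrArg Subtype.val h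
        have h4 := y.2.2 w (Finset.mem_insert_self _ _)
        rw [h3] at h4
        unfold tri_bar at h4
        rw [if_neg hw] at h4
        exact lt_irrefl _ h4⟩, ⟨w, hw, y.2.2 w (Finset.mem_insert_self _ _)⟩⟩, by
      refine Continuous.subtype_mk (Continuous.subtype_mk (Continuous.subtype_mk ?_ _) _) _
      exact continuous_subtype_val⟩
  have h2 : (jR (tri_A K a b c hT) (tri_B K a b c hT)).comp (tri_J K hT hab hac hbc hw hwf) =
      g.comp f := by
    ext v
    rfl
  rw [← Hmap_comp_apply, h2, Hmap_comp_apply]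
  have h3 : Hmap F 1 f γ = 0 := by
    have := h1 F ↥(tri_S K (insert w {a, b, c})) 0
    exact Subsingleton.elim _ _
  rw [h3, map_zero]

/-- the retraction of `A ∩ B` -/
private noncomputable def tri_R (w : ι) (hw : w ∉ ({a, b, c} : Finset ι)) :
    C(↥(tri_A K a b c hT ∩ tri_B K a b c hT), Pn 2) where
  toFun y := ⟨tri_r a b c w y.1.1.1, tri_r_ne K y.1.1.2
    (Finset.card_eq_three.2 ⟨a, b, c, hab, hac, hbc, rfl⟩) y.1.2.1 hw y.2.1 y.2.2⟩
  continuous_toFun := by
    refine Continuous.subtype_mk ?_ _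
    exact (tri_r_cont a b c w).comp (continuous_subtype_val.comp
      (continuous_subtype_val.comp continuous_subtype_val))

include K hab hac hbc hw hwf in
private lemma tri_r_same (v : EuclideanSpace ℝ (Fin 2)) :
    tri_r a b c w (tri_q a b c w (1 / 2) v) = (tri_d v / 4) • v := by
  have h1 : ∑ i ∈ insert w ({a, b, c} : Finset ι), tri_q a b c w (1 / 2) v i = 1 := by
    have h := (tri_q_real hab hac hbc K (1 / 2) (by norm_num) le_rfl hw hwf v).2.1
    exact (Finset.sum_subset (Finset.subset_univ _) fun i _ hi =>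
      tri_q_other (1 / 2) v hi).trans h
  obtain ⟨h2, h3⟩ := tri_q_diff hab hac hbc (1 / 2) hw v
  unfold tri_r
  rw [h1, h2, h3, tri_q_w (1 / 2) hw v]
  ext i
  fin_cases i
  · simp
    ring
  · simp
    ring

include K hab hac hbc hw hwf in
private lemma tri_r_other {u : ι} (hu : u ∉ ({a, b, c} : Finset ι)) (huw : u ≠ w)
    (v : EuclideanSpace ℝ (Fin 2)) :
    tri_r a b c u (tri_q a b c w (1 / 2) v) = !₂[1 / 2, 0] := by
  have h0 : tri_q a b c w (1 / 2) v u = 0 := tri_q_other (1 / 2) v (by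
    rw [Finset.mem_insert, not_or]
    exact ⟨huw, hu⟩)
  have h1 : ∑ i ∈ insert u ({a, b, c} : Finset ι), tri_q a b c w (1 / 2) v i = 1 / 2 := by
    have h := (tri_q_real hab hac hbc K (1 / 2) (by norm_num) le_rfl hw hwf v).2.1
    have h2 : ∑ i, tri_q a b c w (1 / 2) v i = ∑ i ∈ insert w ({a, b, c} : Finset ι),
        tri_q a b c w (1 / 2) v i := by
      symm
      exact Finset.sum_subset (Finset.subset_univ _) fun i _ hi => tri_q_other (1 / 2) v hi
    rw [h2, Finset.sum_insert hw, tri_q_w (1 / 2) hw v] at h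
    rw [Finset.sum_insert hu, h0, zero_add]
    linarith
  unfold tri_r
  rw [h1, h0, zero_mul, zero_mul, zero_add]
  norm_num

private lemma tri_RJ_same (F : Type) [Field F] (γ : Hq F 1 (Pn 2)) :
    Hmap F 1 (tri_R K hT hab hac hbc w hw) (Hmap F 1 (tri_J K hT hab hac hbc hw hwf) γ) = γ := by
  have hh : ContinuousMap.Homotopy ((tri_R K hT hab hac hbc w hw).comp
      (tri_J K hT hab hac hbc hw hwf)) (ContinuousMap.id (Pn 2)) :=
    { toFun := fun p => ⟨((1 - (p.1 : ℝ)) * (tri_d p.2.1 / 4) + p.1) • p.2.1, by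
        have h0 := p.1.2.1
        have h1 := p.1.2.2
        have hd := tri_d_pos p.2.1
        refine smul_ne_zero (ne_of_gt ?_) p.2.2
        rcases h0.lt_or_eq with h | h
        · have : 0 ≤ (1 - (p.1 : ℝ)) * (tri_d p.2.1 / 4) :=
            mul_nonneg (by linarith) (by positivity)
          linarith
        · rw [← h]
          linarith⟩
      continuous_toFun := by
        refine Continuous.subtype_mk ?_ _
        have h2 : Continuous fun p : unitInterval × Pn 2 => tri_d p.2.1 :=
          tri_d_cont.comp (continuous_subtype_val.comp continuous_snd)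
        have h3 : Continuous fun p : unitInterval × Pn 2 => p.2.1 :=
          continuous_subtype_val.comp continuous_snd
        fun_prop
      map_zero_left := fun v => by
        apply Subtype.ext
        show ((1 - ((0 : unitInterval) : ℝ)) * (tri_d v.1 / 4) + ((0 : unitInterval) : ℝ)) • v.1 =
          tri_r a b c w (tri_q a b c w (1 / 2) v.1)
        rw [tri_r_same K hab hac hbc hw hwf v.1]
        norm_num
      map_one_left := fun v => by
        apply Subtype.ext
        show ((1 - ((1 : unitInterval) : ℝ)) * (tri_d v.1 / 4) + ((1 : unitInterval) : ℝ)) • v.1 =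
          v.1
        norm_num }
  rw [← Hmap_comp_apply, Hmap_eq_of_homotopy F 1 hh, Hmap_id]
  rfl

private lemma tri_RJ_other (h1 : ContrStmt) (F : Type) [Field F] (γ : Hq F 1 (Pn 2)) {u : ι}
    (hu : u ∉ ({a, b, c} : Finset ι)) (huw : u ≠ w) :
    Hmap F 1 (tri_R K hT hab hac hbc u hu) (Hmap F 1 (tri_J K hT hab hac hbc hw hwf) γ) = 0 := by
  have hne : (!₂[1 / 2, 0] : EuclideanSpace ℝ (Fin 2)) ≠ 0 := by
    intro h
    have := congrArg (fun z : EuclideanSpace ℝ (Fin 2) => z 0) h
    norm_num at this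
  let f : C(Pn 2, PUnit.{1}) := ⟨fun _ => PUnit.unit, continuous_const⟩
  let g : C(PUnit.{1}, Pn 2) := ⟨fun _ => ⟨!₂[1 / 2, 0], hne⟩, continuous_const⟩
  have h2 : (tri_R K hT hab hac hbc u hu).comp (tri_J K hT hab hac hbc hw hwf) = g.comp f := by
    ext v
    apply congrArg (fun z : EuclideanSpace ℝ (Fin 2) => z _)
    exact tri_r_other K hab hac hbc hw hwf hu huw v.1
  rw [← Hmap_comp_apply, h2, Hmap_comp_apply]
  have h3 : Hmap F 1 f γ = 0 := by
    have := h1 F PUnit.{1} 0
    exact Subsingleton.elim _ _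
  rw [h3, map_zero]

end

/-- **Tri.** -/
theorem mTri (h1 : ContrStmt) (_h2 : HomeoStmt) (h3 : CircleStmt) (h4 : LocHomStmt) : TriStmt := by
  intro ι _ _ K hK t ht hcard w hwi hwt hwf
  obtain ⟨a, b, c, hab, hac, hbc, rfl⟩ := Finset.card_eq_three.1 hcard
  have hU := tri_U_contr K ht
  obtain ⟨-, h5⟩ := h4 ℚ K.real hK (tri_U K {a, b, c}) (tri_U_open K _) hU
    ⟨tri_bar {a, b, c}, (tri_bar_mem K ht).1⟩ (fun i hi => (tri_bar_mem K ht).2 i hi)
  -- a nontrivial loop
  obtain ⟨γ, hγ⟩ : ∃ γ : Hq ℚ 1 (Pn 2), γ ≠ 0 := by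
    by_contra hcon
    push Not at hcon
    have hs : Subsingleton (Hq ℚ 1 (Pn 2)) := ⟨fun x y => by rw [hcon x, hcon y]⟩
    have h6 := h3 ℚ
    rw [rank_subsingleton'] at h6
    exact zero_ne_one h6
  let z : Fin 3 → Hq ℚ 1 ↥(tri_A K a b c ht ∩ tri_B K a b c ht) := fun j =>
    Hmap ℚ 1 (tri_J K ht hab hac hbc (hwt j) (hwf j)) γ
  have hzA : ∀ j, Hmap ℚ 1 (jL (tri_A K a b c ht) (tri_B K a b c ht)) (z j) =
      Hmap ℚ 1 (tri_P K ht hab hac hbc (hwt j) (hwf j)) γ := by
    intro j
    show Hmap ℚ 1 _ (Hmap ℚ 1 _ γ) = _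
    rw [← Hmap_comp_apply,
      Hmap_eq_of_homotopy ℚ 1 (tri_hty K ht hab hac hbc (hwt j) (hwf j))]
  have hP : ∀ j, tri_P K ht hab hac hbc (hwt j) (hwf j) =
      tri_P K ht hab hac hbc (hwt 0) (hwf 0) := by
    intro j
    refine ContinuousMap.ext fun v => ?_
    apply Subtype.ext
    apply Subtype.ext
    apply Subtype.ext
    funext i
    show tri_q a b c (w j) 0 v.1 i = tri_q a b c (w 0) 0 v.1 i
    unfold tri_q
    simp
  have hzB : ∀ j, Hmap ℚ 1 (jR (tri_A K a b c ht) (tri_B K a b c ht)) (z j) = 0 := fun j =>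
    tri_JB K ht hab hac hbc (hwt j) (hwf j) h1 ℚ γ
  have hker : ∀ j, z j - z 0 ∈ LinearMap.ker (mvα ℚ (tri_A K a b c ht) (tri_B K a b c ht) 1) := by
    intro j
    rw [LinearMap.mem_ker]
    refine Prod.ext ?_ ?_
    · show Hmap ℚ 1 (jL (tri_A K a b c ht) (tri_B K a b c ht)) (z j - z 0) = 0
      rw [map_sub, hzA, hzA, hP j, sub_self]
    · show Hmap ℚ 1 (jR (tri_A K a b c ht) (tri_B K a b c ht)) (z j - z 0) = 0
      rw [map_sub, hzB, hzB, sub_self]
  have hR : ∀ j k, Hmap ℚ 1 (tri_R K ht hab hac hbc (w j) (hwt j)) (z k) =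
      if j = k then γ else 0 := by
    intro j k
    split_ifs with h
    · subst h
      exact tri_RJ_same K ht hab hac hbc (hwt j) (hwf j) ℚ γ
    · exact tri_RJ_other K ht hab hac hbc (hwt k) (hwf k) h1 ℚ γ (hwt j)
        (fun h' => h (hwi h'))
  have hlin : LinearIndependent ℚ (![⟨z 1 - z 0, hker 1⟩, ⟨z 2 - z 0, hker 2⟩] : Fin 2 →
      LinearMap.ker (mvα ℚ (tri_A K a b c ht) (tri_B K a b c ht) 1)) := by
    rw [LinearIndependent.pair_iff]
    intro s r hsr
    have h6 : s • (z 1 - z 0) + r • (z 2 - z 0) = 0 := congrArg Subtype.val hsr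
    have h7 : ∀ j, Hmap ℚ 1 (tri_R K ht hab hac hbc (w j) (hwt j))
        (s • (z 1 - z 0) + r • (z 2 - z 0)) = 0 := fun j => by rw [h6, map_zero]
    have h8 := h7 1
    have h9 := h7 2
    rw [map_add, map_smul, map_smul, map_sub, map_sub, hR, hR, hR] at h8 h9
    simp at h8 h9
    refine ⟨?_, ?_⟩
    · rcases h8 with h | h
      · exact h
      · exact absurd h hγ
    · rcases h9 with h | h
      · exact h
      · exact absurd h hγ
  obtain ⟨e⟩ := exists_mvConn (K := ℚ) (tri_A_open K a b c ht) (tri_B_open K a b c ht)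
    (tri_AB K ht hab hac hbc) 1
  have h10 := hlin.cardinal_le_rank
  rw [e.rank_eq, Cardinal.mk_fin] at h10
  have h11 := (h10.trans (rank_quotient_le _)).trans h5
  norm_num at h11

end TightRP
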